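import Mathlib

/-!
# Characters of finite abelian groups and elements of the rational group ring
-/

set_option autoImplicit false
set_option linter.unusedSectionVars false

open Filter Topology Asymptotics

namespace Pool.Agent.X242.GRA

/-- The complex characters of the finite abelian group `G`. -/
abbrev Character (G : Type) [CommGroup G] : Type := AddChar (Additive G) ℂ

variable {G : Type} [CommGroup G] [Fintype G]

/-- The value `χ(g)`. -/
def value (χ : Character G) (g : G) : ℂ := χ (Additive.ofMul g)

/-- The character as a homomorphism. -/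
def hom (χ : Character G) : G →* ℂ where
  toFun := value χ
  map_one' := by
    unfold value
    rw [ofMul_one, AddChar.map_zero_eq_one]
  map_mul' a b := by
    unfold value
    rw [ofMul_mul, AddChar.map_add_eq_mul]

theorem value_neg (χ : Character G) (g : G) : value (-χ) g = value χ g⁻¹ := by
  unfold value
  rw [AddChar.neg_apply, ofMul_inv]

/-- The coefficient of `g` in the element `∑_χ A(χ) e_χ` of the group ring, `e_χ = |G|⁻¹ ∑_g χ(g⁻¹) g`. -/
noncomputable def coef (A : Character G → ℂ) (g : G) : ℂ :=
  (Fintype.card G : ℂ)⁻¹ * ∑ χ : Character G, A χ * value χ g⁻¹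

/-- duality -/
theorem dual (A : Character G → ℂ) (χ : Character G) : ∑ g, coef A g * value χ g = A χ := by
  classical
  have hc0 : (Fintype.card G : ℂ) ≠ 0 := by exact_mod_cast Fintype.card_ne_zero
  have h1 : ∀ ψ : Character G, ∑ g : G, value ψ g⁻¹ * value χ g =
      if χ = ψ then (Fintype.card G : ℂ) else 0 := by
    intro ψ
    have h2 := AddChar.sum_eq_ite (χ - ψ)
    have hcard : Fintype.card (Additive G) = Fintype.card G := Fintype.card_congr Additive.toMul
    rw [hcard] at h2
    have h3 : ∑ g : G, value ψ g⁻¹ * value χ g = ∑ a : Additive G, (χ - ψ) a := by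
      rw [← Equiv.sum_comp Additive.ofMul (fun a => (χ - ψ) a)]
      refine Finset.sum_congr rfl fun g _ => ?_
      rw [AddChar.sub_apply, mul_comm]
      rfl
    rw [h3, h2]
    simp only [sub_eq_zero]
  calc ∑ g, coef A g * value χ g = (Fintype.card G : ℂ)⁻¹ *
        ∑ ψ : Character G, A ψ * ∑ g : G, value ψ g⁻¹ * value χ g := by
        unfold coef
        simp only [Finset.mul_sum, Finset.sum_mul]
        rw [Finset.sum_comm]
        refine Finset.sum_congr rfl fun ψ _ => Finset.sum_congr rfl fun g _ => by ring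
    _ = A χ := by
        simp only [h1]
        rw [Finset.sum_eq_single χ]
        · rw [if_pos rfl]
          field_simp
        · intro ψ _ hψ
          rw [if_neg (Ne.symm hψ), mul_zero]
        · intro h
          exact absurd (Finset.mem_univ _) h

/-- the coefficients of `∑_χ χ(x) e_χ` are those of `x` -/
theorem coef_sum (x : G → ℂ) (g : G) : coef (fun χ => ∑ h, x h * value χ h) g = x g := by
  classical
  have hc0 : (Fintype.card G : ℂ) ≠ 0 := by exact_mod_cast Fintype.card_ne_zero
  have h1 : ∀ h : G, ∑ χ : Character G, value χ h * value χ g⁻¹ =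
      if h = g then (Fintype.card G : ℂ) else 0 := by
    intro h
    have h2 := AddChar.sum_apply_eq_ite (Additive.ofMul (h * g⁻¹))
    have hcard : Fintype.card (Additive G) = Fintype.card G := Fintype.card_congr Additive.toMul
    rw [hcard] at h2
    have h3 : ∑ χ : Character G, value χ h * value χ g⁻¹ =
        ∑ χ : Character G, χ (Additive.ofMul (h * g⁻¹)) := by
      refine Finset.sum_congr rfl fun χ _ => ?_
      rw [ofMul_mul, AddChar.map_add_eq_mul]
      rfl
    rw [h3, h2]
    by_cases h4 : h = g
    · rw [if_pos h4, if_pos (by rw [h4, mul_inv_cancel, ofMul_one])]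
    · rw [if_neg h4, if_neg]
      intro h5
      apply h4
      have h6 : h * g⁻¹ = 1 := Additive.ofMul.injective h5
      exact mul_inv_eq_one.1 h6
  calc coef (fun χ => ∑ h, x h * value χ h) g = (Fintype.card G : ℂ)⁻¹ *
        ∑ h : G, x h * ∑ χ : Character G, value χ h * value χ g⁻¹ := by
        unfold coef
        simp only [Finset.mul_sum, Finset.sum_mul]
        rw [Finset.sum_comm]
        refine Finset.sum_congr rfl fun ψ _ => Finset.sum_congr rfl fun g _ => by ring
    _ = x g := by
        simp only [h1]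
        rw [Finset.sum_eq_single g]
        · rw [if_pos rfl]
          field_simp
        · intro h _ hh
          rw [if_neg hh, mul_zero]
        · intro h
          exact absurd (Finset.mem_univ _) h

/-- the coefficients converge with the same rate -/
theorem coef_rate {A : Character G → ℂ} {a : ℕ → Character G → ℂ}
    (h : ∀ χ, (fun N : ℕ => a N χ - A χ) =O[atTop] (fun N : ℕ => 1 / (N : ℝ))) (M : ℕ) (g : G) :
    (fun N : ℕ => M * coef (a N) g - M * coef A g) =O[atTop] (fun N : ℕ => 1 / (N : ℝ)) := by
  have h2 : (fun N : ℕ => ∑ χ : Character G, value χ g⁻¹ * (a N χ - A χ))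
      =O[atTop] (fun N : ℕ => 1 / (N : ℝ)) := IsBigO.fun_sum fun χ _ => (h χ).const_mul_left _
  refine (h2.const_mul_left (M * (Fintype.card G : ℂ)⁻¹)).congr_left fun N => ?_
  unfold coef
  rw [mul_assoc, ← mul_sub, ← mul_sub, ← Finset.sum_sub_distrib]
  congr 2
  exact Finset.sum_congr rfl fun χ _ => by ring

/-- **rationality of the element and approach to integers** -/
theorem integral_iff {A : Character G → ℂ} {a : ℕ → Character G → ℂ}
    (h : ∀ χ, (fun N : ℕ => a N χ - A χ) =O[atTop] (fun N : ℕ => 1 / (N : ℝ))) :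
    (∀ g, ∃ q : ℚ, coef A g = q) ↔ ∃ M : ℕ, 1 ≤ M ∧ ∀ ε > 0, ∀ N₀ : ℕ, ∃ N ≥ N₀, ∃ n : G → ℤ,
      ∀ g, ‖M * coef (a N) g - n g‖ < ε := by
  classical
  have h0T : Tendsto (fun N : ℕ => 1 / (N : ℝ)) atTop (𝓝 (0 : ℝ)) := tendsto_one_div_atTop_nhds_zero_nat
  have hN := fun (M : ℕ) (g : G) => coef_rate h M g
  constructor
  · intro h
    choose q hq using h
    set M : ℕ := ∏ g, (q g).den with hNdef
    have hNpos : 1 ≤ M := Nat.one_le_iff_ne_zero.2 (Finset.prod_ne_zero_iff.2 fun g _ => (q g).den_nz)
    have hint : ∀ g, ∃ n : ℤ, (M : ℚ) * q g = n := by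
      intro g
      obtain ⟨k, hk⟩ : (q g).den ∣ M := Finset.dvd_prod_of_mem (fun g => (q g).den) (Finset.mem_univ g)
      refine ⟨k * (q g).num, ?_⟩
      rw [hk]
      push_cast
      have h3 := Rat.den_mul_eq_num (q g)
      linear_combination (k : ℚ) * h3
    choose n hn using hint
    refine ⟨M, hNpos, fun ε hε N₀ => ?_⟩
    have h3 : ∀ᶠ N : ℕ in atTop, ∀ g, ‖M * coef (a N) g - n g‖ < ε := by
      rw [eventually_all]
      intro g
      have h4 : (M : ℂ) * coef A g = n g := by
        rw [hq g]
        exact_mod_cast hn g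
      have h5 := ((hN M g).trans_tendsto h0T).norm
      rw [norm_zero] at h5
      have h6 := h5.eventually_lt_const hε
      simpa only [h4] using h6
    obtain ⟨N, hN1, hN2⟩ := (h3.and (eventually_ge_atTop N₀)).exists
    exact ⟨N, hN2, n, hN1⟩
  · rintro ⟨M, hN1, h⟩ g
    set z : ℂ := M * coef A g with hz
    have hclose : ∀ δ : ℝ, 0 < δ → ∃ n : ℤ, ‖z - n‖ < δ := by
      intro δ hδ
      have h3 : ∀ᶠ N : ℕ in atTop, ‖M * coef (a N) g - z‖ < δ / 2 := by
        have h4 := ((hN M g).trans_tendsto h0T).norm
        rw [norm_zero] at h4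
        exact h4.eventually_lt_const (by positivity)
      obtain ⟨N₀, hT₀⟩ := eventually_atTop.1 h3
      obtain ⟨N, hT, n, hn⟩ := h (δ / 2) (by positivity) N₀
      refine ⟨n g, ?_⟩
      have h5 : z - n g = (M * coef (a N) g - n g) - (M * coef (a N) g - z) := by ring
      rw [h5]
      calc _ ≤ ‖M * coef (a N) g - n g‖ + ‖M * coef (a N) g - z‖ := norm_sub_le _ _
        _ < δ := by
          have := hn g
          have := hT₀ N hT
          linarith
    have hint : ∃ n : ℤ, z = n := by
      obtain ⟨n, hn⟩ := hclose (1 / 4) (by norm_num)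
      refine ⟨n, ?_⟩
      by_contra hne
      have hpos : 0 < ‖z - n‖ := norm_pos_iff.2 (sub_ne_zero.2 hne)
      obtain ⟨n', hn'⟩ := hclose (min (1 / 4) ‖z - n‖) (lt_min (by norm_num) hpos)
      have h6 : ‖((n - n' : ℤ) : ℂ)‖ < 1 := by
        have h7 : ((n - n' : ℤ) : ℂ) = (z - n') - (z - n) := by push_cast; ring
        rw [h7]
        calc _ ≤ ‖z - n'‖ + ‖z - n‖ := norm_sub_le _ _
          _ < 1 := by
            have := hn'.trans_le (min_le_left _ _)
            linarith
      rw [Complex.norm_intCast] at h6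
      have h8 : n - n' = 0 := by
        have h9 : |n - n'| < 1 := by exact_mod_cast h6
        exact Int.abs_lt_one_iff.1 h9
      have h10 : n = n' := by omega
      rw [← h10] at hn'
      exact absurd (hn'.trans_le (min_le_right _ _)) (lt_irrefl _)
    obtain ⟨n, hn⟩ := hint
    refine ⟨(n : ℚ) / M, ?_⟩
    have hN0 : (M : ℂ) ≠ 0 := by exact_mod_cast (by omega : M ≠ 0)
    push_cast
    rw [eq_div_iff hN0, ← hn, hz]
    ring

/-- `χ(x)` for `x` in the rational group ring. -/
noncomputable def ev (χ : Character G) : MonoidAlgebra ℚ G →ₐ[ℚ] ℂ := MonoidAlgebra.lift ℚ ℂ G (hom χ)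

theorem ev_single (χ : Character G) (g : G) (q : ℚ) : ev χ (MonoidAlgebra.single g q) = q * value χ g := by
  unfold ev
  rw [MonoidAlgebra.lift_single, Algebra.smul_def]
  rfl

/-- an element with given rational coefficients -/
noncomputable def elem (x : G → ℚ) : MonoidAlgebra ℚ G := ∑ g, MonoidAlgebra.single g (x g)

theorem ev_elem (χ : Character G) (x : G → ℚ) : ev χ (elem x) = ∑ g, (x g : ℂ) * value χ g := by
  unfold elem
  rw [map_sum]
  exact Finset.sum_congr rfl fun g _ => ev_single χ g _

/-- every element is of this form -/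
theorem exists_elem (u : MonoidAlgebra ℚ G) : ∃ x : G → ℚ, u = elem x := by
  induction u using MonoidAlgebra.induction_on with
  | of g =>
    classical
    refine ⟨fun h => if h = g then 1 else 0, ?_⟩
    unfold elem
    rw [Finset.sum_eq_single g]
    · show _ = MonoidAlgebra.single g (if g = g then (1 : ℚ) else 0)
      rw [if_pos rfl]
      rfl
    · intro h _ hh
      show MonoidAlgebra.single h (if h = g then (1 : ℚ) else 0) = 0
      rw [if_neg hh, MonoidAlgebra.single_zero]
    · intro h
      exact absurd (Finset.mem_univ _) h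
  | add a b ha hb =>
    obtain ⟨x, rfl⟩ := ha
    obtain ⟨y, rfl⟩ := hb
    refine ⟨fun g => x g + y g, ?_⟩
    unfold elem
    rw [← Finset.sum_add_distrib]
    exact Finset.sum_congr rfl fun g _ => (MonoidAlgebra.single_add _ _ _).symm
  | smul r a ha =>
    obtain ⟨x, rfl⟩ := ha
    refine ⟨fun g => r * x g, ?_⟩
    unfold elem
    rw [Finset.smul_sum]
    exact Finset.sum_congr rfl fun g _ => by rw [MonoidAlgebra.smul_single, smul_eq_mul]

/-- rationality of the coefficients -/
theorem rational_iff (A : Character G → ℂ) :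
    (∃ u : MonoidAlgebra ℚ G, ∀ χ, A χ = ev χ u) ↔ ∀ g, ∃ q : ℚ, coef A g = q := by
  constructor
  · rintro ⟨u, hu⟩ g
    obtain ⟨x, rfl⟩ := exists_elem u
    refine ⟨x g, ?_⟩
    have h1 : A = fun χ => ∑ h, (x h : ℂ) * value χ h := by
      funext χ
      rw [hu χ, ev_elem]
    rw [h1, coef_sum (fun h => (x h : ℂ)) g]
  · intro h
    choose x hx using h
    refine ⟨elem x, fun χ => ?_⟩
    rw [ev_elem, ← dual A χ]
    exact Finset.sum_congr rfl fun g _ => by rw [hx g]

end Pool.Agent.X242.GRA
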