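import Pool.Agent.X242.DR9
import Pool.Agent.X287.ST8

/-!
# Partial zeta functions of class maps with values in a group which is commutative
-/

set_option autoImplicit false

namespace Pool.Agent.X242.DR

open Filter Topology Asymptotics NumberField IsDedekindDomain

variable {K : Type} [Field K] [NumberField K]

/-- The partial zeta functions of a map from the ideals: series, continued (holomorphic outside of `1`, meromorphic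
at `1`). -/
structure PZ {G : Type} (𝔪 : Ideal (𝓞 K)) (c : Ideal (𝓞 K) → G) (ζ : G → ℂ → ℂ) : Prop where
  series : ∀ (g : G) (s : ℂ), 1 < s.re →
    HasSum (fun 𝔞 : {𝔞 : Ideal (𝓞 K) // IsCoprime 𝔞 𝔪 ∧ c 𝔞 = g} =>
      ((Ideal.absNorm 𝔞.1 : ℕ) : ℂ) ^ (-s)) (ζ g s)
  analytic : ∀ (g : G) (s : ℂ), s ≠ 1 → AnalyticAt ℂ (ζ g) s
  mero : ∀ g : G, MeromorphicAt (ζ g) 1

/-- Hecke's theorem (from the library of helper287): existence, and the order at `0`. -/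
theorem class_facts {G : Type} [Group G] [Finite G] (hcomm : ∀ a b : G, a * b = b * a)
    {𝔪 : Ideal (𝓞 K)} {c : Ideal (𝓞 K) → G} {R : Finset (K →+* ℝ)} (h𝔪 : 𝔪 ≠ ⊤) (h0 : 𝔪 ≠ ⊥)
    (mul : ∀ I J : Ideal (𝓞 K), IsCoprime I 𝔪 → IsCoprime J 𝔪 → c (I * J) = c I * c J)
    (ray : ∀ x : 𝓞 K, x ≠ 0 → x - 1 ∈ 𝔪 → (∀ σ : K →+* ℝ, σ ∉ R → 0 < σ (x : K)) →
      c (Ideal.span {x}) = 1) :
    (∃ ζ : G → ℂ → ℂ, PZ 𝔪 c ζ) ∧ ∀ ζ : G → ℂ → ℂ, PZ 𝔪 c ζ →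
      ∃ a : G → ℂ, ∀ g, Tendsto (fun s : ℂ => ζ g s / s ^ (R.card + InfinitePlace.nrComplexPlaces K))
        (𝓝[≠] 0) (𝓝 (a g)) := by
  classical
  have iF : Fintype G := Fintype.ofFinite _
  let iG : CommGroup G := { (inferInstance : Group G) with mul_comm := hcomm }
  have hcR : Pool.Agent.X287.ST.IsClassMapR 𝔪 R c := ⟨mul, ray⟩
  refine ⟨?_, fun ζ hζ => ?_⟩
  · obtain ⟨Z, hZ, -⟩ := Pool.Agent.X287.ST.exists_PZ_ord h𝔪 h0 hcR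
    exact ⟨Z, hZ.sum, hZ.an, hZ.mer⟩
  · have hPZ : Pool.Agent.X287.ST.IsPZ 𝔪 c ζ := ⟨hζ.series, hζ.analytic, hζ.mero⟩
    exact Pool.Agent.X287.ST.PZ_ord h𝔪 h0 hcR hPZ

/-- The case of order at least one. -/
theorem class_zero {G : Type} [Group G] [Finite G] (hcomm : ∀ a b : G, a * b = b * a)
    {𝔪 : Ideal (𝓞 K)} {c : Ideal (𝓞 K) → G} {R : Finset (K →+* ℝ)} (h𝔪 : 𝔪 ≠ ⊤) (h0 : 𝔪 ≠ ⊥)
    (mul : ∀ I J : Ideal (𝓞 K), IsCoprime I 𝔪 → IsCoprime J 𝔪 → c (I * J) = c I * c J)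
    (ray : ∀ x : 𝓞 K, x ≠ 0 → x - 1 ∈ 𝔪 → (∀ σ : K →+* ℝ, σ ∉ R → 0 < σ (x : K)) →
      c (Ideal.span {x}) = 1) (hr : 1 ≤ R.card + InfinitePlace.nrComplexPlaces K)
    {ζ : G → ℂ → ℂ} (hζ : PZ 𝔪 c ζ) (g : G) : ζ g 0 = 0 := by
  obtain ⟨a, ha⟩ := (class_facts hcomm h𝔪 h0 mul ray).2 ζ hζ
  have h1 : Tendsto (fun s : ℂ => ζ g s / s ^ (R.card + InfinitePlace.nrComplexPlaces K) *
      s ^ (R.card + InfinitePlace.nrComplexPlaces K)) (𝓝[≠] 0)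
      (𝓝 (a g * (0 : ℂ) ^ (R.card + InfinitePlace.nrComplexPlaces K))) :=
    (ha g).mul ((continuous_pow _).continuousAt.tendsto.mono_left nhdsWithin_le_nhds)
  rw [zero_pow (by omega), mul_zero] at h1
  have h2 : Tendsto (ζ g) (𝓝[≠] 0) (𝓝 (ζ g 0)) :=
    (hζ.analytic g 0 (by norm_num)).continuousAt.tendsto.mono_left nhdsWithin_le_nhds
  refine tendsto_nhds_unique h2 (h1.congr' ?_)
  filter_upwards [self_mem_nhdsWithin] with s hs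
  have hs0 : s ≠ 0 := hs
  field_simp

open Classical in
/-- `∑ ρ(N 𝔞)` over the ideals prime to `𝔪` with `c 𝔞 = g` -/
noncomputable def classComb {G : Type} (𝔪 : Ideal (𝓞 K)) (c : Ideal (𝓞 K) → G) (ρ : ℕ →₀ ℚ) (g : G) : ℚ :=
  comb ρ (byNorm fun 𝔞 : Ideal (𝓞 K) => if IsCoprime 𝔞 𝔪 ∧ c 𝔞 = g then (1 : ℚ) else 0)

/-- **The law for the classes.** -/
theorem class_law {G : Type} {𝔪 : Ideal (𝓞 K)} {c : Ideal (𝓞 K) → G} (h𝔪 : 𝔪 ≠ ⊤)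
    {ζ : G → ℂ → ℂ} (hζ : PZ 𝔪 c ζ) {r : ℕ} {θ : ℂ} {g : G}
    (hlim : Tendsto (fun s : ℂ => ζ g s / s ^ r) (𝓝[≠] 0) (𝓝 θ))
    {γ : ℝ} (hγ : Real.pi / 2 < γ) (hC : Ck r γ ≠ 0) {ρ : ℕ → ℕ →₀ ℚ} (hρ : IsRational r γ ρ) :
    θ.im = 0 ∧ (fun N : ℕ => (classComb 𝔪 c (ρ N) g : ℝ) - θ.re) =O[atTop]
      (fun N : ℕ => 1 / (N : ℝ)) := by
  classical
  refine rat_law (B := 1) (c := fun 𝔞 : Ideal (𝓞 K) =>
    if IsCoprime 𝔞 𝔪 ∧ c 𝔞 = g then (1 : ℚ) else 0) (fun 𝔞 => ?_) ?_ (fun x _ _ => ?_)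
    (hζ.analytic g 0 (by norm_num)) (fun s hs => ?_) (r := r) hlim hγ hC hρ
  · split_ifs <;> simp
  · rw [if_neg]
    intro h2
    exact Pool.Agent.X287.ST.cop_zero h𝔪 h2.1
  · by_cases hx : (x : ℂ) = 1
    · rw [hx]
      exact hζ.mero g
    · exact (hζ.analytic g _ hx).meromorphicAt
  · have h1 := (hasSum_subtype_iff_indicator (s := {𝔞 : Ideal (𝓞 K) | IsCoprime 𝔞 𝔪 ∧ c 𝔞 = g})
      (f := fun 𝔞 : Ideal (𝓞 K) => ((Ideal.absNorm 𝔞 : ℕ) : ℂ) ^ (-s))).1 (hζ.series g s hs)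
    refine h1.congr_fun fun 𝔞 => ?_
    by_cases h2 : IsCoprime 𝔞 𝔪 ∧ c 𝔞 = g
    · rw [Set.indicator_of_mem (show 𝔞 ∈ {𝔞 | IsCoprime 𝔞 𝔪 ∧ c 𝔞 = g} from h2), if_pos h2]
      simp
    · rw [Set.indicator_of_notMem (show 𝔞 ∉ {𝔞 | IsCoprime 𝔞 𝔪 ∧ c 𝔞 = g} from h2), if_neg h2]
      simp

theorem Ck_one_ne (γ : ℝ) : Ck 1 γ ≠ 0 := by
  rw [Ck_one]
  intro h
  have h1 := congrArg Complex.re h
  simp at h1
  have := Real.one_half_lt_eulerMascheroniConstant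
  rw [h1] at this
  norm_num at this

theorem lim_deriv {f : ℂ → ℂ} (hf : AnalyticAt ℂ f 0) (h0 : f 0 = 0) :
    Tendsto (fun s : ℂ => f s / s ^ 1) (𝓝[≠] 0) (𝓝 (deriv f 0)) := by
  have h1 := hf.differentiableAt.hasDerivAt.tendsto_slope
  refine h1.congr' ?_
  filter_upwards [self_mem_nhdsWithin] with s hs
  rw [slope_def_field, h0, sub_zero, sub_zero, pow_one]

end Pool.Agent.X242.DR
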