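import Mathlib
import Pool.Agent.Y640.FM.Hard
import Pool.Agent.Y640.FM.Upper

set_option autoImplicit false

/-!
Random row sets: averaging.
-/

namespace Pool.Agent.X242.FRand

open Pool.Agent.H683R2.FS Pool.Agent.Y640.FM
open scoped ENNReal

open Classical in
/-- all `m`-element subsets of `ℤ_d`, given by their increasing enumerations -/
noncomputable def sets (m d : ℕ) : Finset (Fin m → Fin d) :=
  Finset.univ.filter fun R => StrictMono R

open Classical in
/-- The probability that a uniformly random `m`-element subset `R` of `ℤ_d` (given by its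
increasing enumeration) satisfies `p`. -/
noncomputable def prob {m d : ℕ} (p : (Fin m → Fin d) → Prop) : ℝ≥0∞ :=
  (((sets m d).filter p).card : ℝ≥0∞) / (d.choose m : ℕ)

/-- The expected value of `f R`, for a uniformly random `m`-element subset `R` of `ℤ_d` (given by
its increasing enumeration). -/
noncomputable def expected {m d : ℕ} (f : (Fin m → Fin d) → ℕ) : ℝ≥0∞ :=
  (∑ R ∈ sets m d, (f R : ℝ≥0∞)) / (d.choose m : ℕ)

lemma card_sets (m d : ℕ) : (sets m d).card = d.choose m := by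
  classical
  have h1 : (Finset.univ.powersetCard m : Finset (Finset (Fin d))).card = d.choose m := by
    rw [Finset.card_powersetCard, Finset.card_univ, Fintype.card_fin]
  rw [← h1]
  refine Finset.card_bij (fun R _ => Finset.univ.image R) ?_ ?_ ?_
  · intro R hR
    have hR' : StrictMono R := (Finset.mem_filter.1 hR).2
    rw [Finset.mem_powersetCard]
    exact ⟨Finset.subset_univ _, by
      rw [Finset.card_image_of_injective _ hR'.injective, Finset.card_univ, Fintype.card_fin]⟩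
  · intro R hR S hS h
    have hR' : StrictMono R := (Finset.mem_filter.1 hR).2
    have hS' : StrictMono S := (Finset.mem_filter.1 hS).2
    have h2 : Set.range R = Set.range S := by
      have := congrArg (fun s : Finset (Fin d) => (s : Set (Fin d))) h
      simpa using this
    exact (StrictMono.range_inj hR' hS').1 h2
  · intro t ht
    rw [Finset.mem_powersetCard] at ht
    refine ⟨t.orderEmbOfFin ht.2, ?_, ?_⟩
    · exact Finset.mem_filter.2 ⟨Finset.mem_univ _, (t.orderEmbOfFin ht.2).strictMono⟩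
    · ext x
      have := Finset.range_orderEmbOfFin t ht.2
      have h3 : x ∈ Set.range (t.orderEmbOfFin ht.2) ↔ x ∈ (t : Set (Fin d)) := by rw [this]
      simp

lemma pow_le_choose : ∀ m d : ℕ, m ≤ d → d ^ m ≤ m ^ m * d.choose m := by
  intro m
  induction m with
  | zero => intro d _; simp
  | succ m ih =>
    intro d hd
    obtain ⟨d, rfl⟩ : ∃ e, d = e + 1 := ⟨d - 1, by omega⟩
    have hmd : m ≤ d := by omega
    have h1 := ih d hmd
    rcases Nat.eq_zero_or_pos m with rfl | hm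
    · simp
    -- (d+1)^(m+1) = (d+1) * (d+1)^m, and (d+1) * m ≤ (m+1) * d
    have h2 : (d + 1) * m ≤ (m + 1) * d := by nlinarith
    have h3 : ((d + 1) * m) ^ m ≤ ((m + 1) * d) ^ m := Nat.pow_le_pow_left h2 m
    have h4 : (d + 1) * d.choose m = (d + 1).choose (m + 1) * (m + 1) :=
      Nat.add_one_mul_choose_eq d m
    have hmm : 0 < m ^ m := by positivity
    apply Nat.le_of_mul_le_mul_left _ hmm
    calc m ^ m * (d + 1) ^ (m + 1) = (d + 1) * ((d + 1) * m) ^ m := by
          rw [mul_pow]; ring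
      _ ≤ (d + 1) * ((m + 1) * d) ^ m := Nat.mul_le_mul_left _ h3
      _ = (m + 1) ^ m * ((d + 1) * d ^ m) := by rw [mul_pow]; ring
      _ ≤ (m + 1) ^ m * ((d + 1) * (m ^ m * d.choose m)) := by
          apply Nat.mul_le_mul_left
          exact Nat.mul_le_mul_left _ h1
      _ = m ^ m * ((m + 1) ^ m * ((d + 1) * d.choose m)) := by ring
      _ = m ^ m * ((m + 1) ^ (m + 1) * (d + 1).choose (m + 1)) := by rw [h4]; ring

/-- averaging over the column sets -/
theorem exists_cols {m d L K K' : ℕ} (hmd : m ≤ d) (hK : K * (m ^ m) ^ 2 ≤ K')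
    (hm : 1 ≤ m)
    (h : (easyPairs L m d).ncard ≤ K * d ^ (2 * m - 1)) :
    ∃ C : Fin m → Fin d, StrictMono C ∧
      (prob fun R : Fin m → Fin d => ¬ Needs L R C) ≤ (K' : ℝ≥0∞) / d := by
  classical
  have hd : 0 < d := by omega
  have hch : 0 < d.choose m := Nat.choose_pos hmd
  by_contra hno
  push Not at hno
  -- every C has many bad R
  have h1 : ∀ C ∈ sets m d,
      K' * d.choose m < ((sets m d).filter (fun R => ¬ Needs L R C)).card * d := by
    intro C hC
    have h2 := hno C (Finset.mem_filter.1 hC).2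
    unfold prob at h2
    by_contra h3
    push Not at h3
    apply absurd h2
    rw [not_lt]
    rw [ENNReal.div_le_iff (by exact_mod_cast hch.ne') (by simp)]
    rw [ENNReal.div_eq_inv_mul, mul_assoc, ← ENNReal.div_eq_inv_mul]
    rw [ENNReal.le_div_iff_mul_le (Or.inl (by exact_mod_cast hd.ne')) (Or.inl (by simp))]
    have h4 : ((((sets m d).filter (fun R => ¬ Needs L R C)).card * d : ℕ) : ℝ≥0∞) ≤
        ((K' * d.choose m : ℕ) : ℝ≥0∞) := by exact_mod_cast h3
    push_cast at h4
    convert h4 using 2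
    congr!
  have hne : (sets m d).Nonempty := by
    rw [← Finset.card_pos, card_sets]
    exact hch
  have h5 : ∑ C ∈ sets m d, K' * d.choose m <
      ∑ C ∈ sets m d, ((sets m d).filter (fun R => ¬ Needs L R C)).card * d :=
    Finset.sum_lt_sum_of_nonempty hne h1
  rw [Finset.sum_const, card_sets, smul_eq_mul, ← Finset.sum_mul] at h5
  have h6 : ∑ C ∈ sets m d, ((sets m d).filter (fun R => ¬ Needs L R C)).card ≤
      (easyPairs L m d).ncard := by
    have hfin : (easyPairs L m d).Finite := Set.toFinite _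
    rw [Set.ncard_eq_toFinset_card _ hfin]
    have h7 : ∑ C ∈ sets m d, ((sets m d).filter (fun R => ¬ Needs L R C)).card =
        ((sets m d).sigma (fun C => (sets m d).filter (fun R => ¬ Needs L R C))).card := by
      rw [Finset.card_sigma]
    rw [h7]
    apply Finset.card_le_card_of_injOn (fun x => (x.2, x.1))
    · rintro ⟨C, R⟩ hx
      simp only [Finset.coe_sigma, Set.mem_sigma_iff, Finset.mem_coe, Finset.mem_filter] at hx
      simp only [Finset.mem_coe, Set.Finite.mem_toFinset]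
      exact ⟨(Finset.mem_filter.1 hx.2.1).2, (Finset.mem_filter.1 hx.1).2, hx.2.2⟩
    · rintro ⟨C, R⟩ _ ⟨C', R'⟩ _ hxy
      simp only [Prod.mk.injEq] at hxy
      obtain ⟨rfl, rfl⟩ := hxy
      rfl
  have h8 := pow_le_choose m d hmd
  have h9 : (d.choose m * (K' * d.choose m)) < K * d ^ (2 * m - 1) * d :=
    lt_of_lt_of_le h5 (Nat.mul_le_mul_right _ (h6.trans h))
  have h10 : K * d ^ (2 * m - 1) * d = K * (d ^ m) ^ 2 := by
    rw [mul_assoc, ← pow_succ, ← pow_mul]
    congr 2
    omega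
  rw [h10] at h9
  have h11 : K * (d ^ m) ^ 2 ≤ K * (m ^ m * d.choose m) ^ 2 :=
    Nat.mul_le_mul_left _ (Nat.pow_le_pow_left h8 2)
  have h12 : K * (m ^ m * d.choose m) ^ 2 = K * (m ^ m) ^ 2 * (d.choose m) ^ 2 := by ring
  have h13 : K * (m ^ m) ^ 2 * (d.choose m) ^ 2 ≤ K' * (d.choose m) ^ 2 :=
    Nat.mul_le_mul_right _ hK
  have h14 : d.choose m * (K' * d.choose m) = K' * (d.choose m) ^ 2 := by ring
  omega

lemma prob_mono {m d : ℕ} {p q : (Fin m → Fin d) → Prop} (h : ∀ R, StrictMono R → p R → q R) :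
    prob p ≤ prob q := by
  classical
  unfold prob
  apply ENNReal.div_le_div_right
  have : ((sets m d).filter p).card ≤ ((sets m d).filter q).card := by
    apply Finset.card_le_card
    intro R hR
    rw [Finset.mem_filter] at hR ⊢
    exact ⟨hR.1, h R (Finset.mem_filter.1 hR.1).2 hR.2⟩
  exact_mod_cast this

/-- one vector for countably many programs -/
theorem one_vector {m d L : ℕ} (C : Fin m → Fin d) (A : ℕ → (Fin m → Fin d) → Prog m) :
    ∃ v : Fin m → ℂ, ∀ i, ∀ R : Fin m → Fin d, Needs L R C →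
      (A i R).run v = fourierProd R C v → L ≤ (A i R).ops v := by
  classical
  have h1 : ∀ (i : ℕ) (R : Fin m → Fin d), ∃ Z : Set (MvPolynomial (Fin m) ℂ), Z.Countable ∧
      0 ∉ Z ∧ ∀ v : Fin m → ℂ, (∀ z ∈ Z, MvPolynomial.eval v z ≠ 0) →
        Needs L R C → (A i R).run v = fourierProd R C v → L ≤ (A i R).ops v := by
    intro i R
    by_cases hN : Needs L R C
    · obtain ⟨Z, hZ, hZ0, hZv⟩ := hN (A i R)
      exact ⟨Z, hZ, hZ0, fun v hv _ => hZv v hv⟩
    · exact ⟨∅, Set.countable_empty, fun h => h, fun _ _ h => absurd h hN⟩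
  choose Z hZ hZ0 hZv using h1
  have h2 : AlmostAll fun v : Fin m → ℂ => ∀ i, ∀ R : Fin m → Fin d, Needs L R C →
      (A i R).run v = fourierProd R C v → L ≤ (A i R).ops v := by
    refine ⟨⋃ i, ⋃ R, Z i R, Set.countable_iUnion fun i => Set.countable_iUnion fun R => hZ i R,
      ?_, ?_⟩
    · simp only [Set.mem_iUnion, not_exists]
      exact fun i R => hZ0 i R
    · intro v hv i R
      exact hZv i R v fun z hz => hv z (Set.mem_iUnion.2 ⟨i, Set.mem_iUnion.2 ⟨R, hz⟩⟩)
  exact h2.exists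

lemma prob_cover {m d : ℕ} (hmd : m ≤ d) {p q : (Fin m → Fin d) → Prop}
    (h : ∀ R, StrictMono R → p R ∨ q R) : 1 ≤ prob p + prob q := by
  classical
  unfold prob
  have hch : 0 < d.choose m := Nat.choose_pos hmd
  rw [ENNReal.div_add_div_same, ENNReal.le_div_iff_mul_le (Or.inl (by exact_mod_cast hch.ne'))
    (Or.inl (by simp)), one_mul]
  have h1 : d.choose m ≤ ((sets m d).filter p).card + ((sets m d).filter q).card := by
    rw [← card_sets]
    refine le_trans (Finset.card_le_card ?_) (Finset.card_union_le _ _)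
    intro R hR
    rw [Finset.mem_union, Finset.mem_filter, Finset.mem_filter]
    rcases h R (Finset.mem_filter.1 hR).2 with h2 | h2
    · exact Or.inl ⟨hR, h2⟩
    · exact Or.inr ⟨hR, h2⟩
  exact_mod_cast h1

lemma prob_eq {m d : ℕ} (p : (Fin m → Fin d) → Prop) [DecidablePred p] :
    prob p = (((sets m d).filter p).card : ℝ≥0∞) / (d.choose m : ℕ) := by
  unfold prob
  congr!

lemma prob_mul_le {m d : ℕ} (f : (Fin m → Fin d) → ℕ) (L : ℕ) :
    (prob fun R => ¬ f R < L) * L ≤ expected f := by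
  classical
  rw [prob_eq]
  unfold expected
  rw [ENNReal.div_eq_inv_mul, mul_assoc, ← ENNReal.div_eq_inv_mul]
  apply ENNReal.div_le_div_right
  have h1 : ((sets m d).filter (fun R => ¬ f R < L)).card * L ≤ ∑ R ∈ sets m d, f R := by
    rw [← smul_eq_mul, ← Finset.sum_const]
    refine le_trans (Finset.sum_le_sum ?_) (Finset.sum_le_sum_of_subset (Finset.filter_subset _ _))
    intro R hR
    exact not_lt.1 (Finset.mem_filter.1 hR).2
  exact_mod_cast h1

lemma expected_ge {m d : ℕ} (hmd : m ≤ d) (f : (Fin m → Fin d) → ℕ) (L : ℕ) :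
    (1 - prob fun R => f R < L) * L ≤ expected f := by
  refine le_trans ?_ (prob_mul_le f L)
  gcongr
  rw [tsub_le_iff_left]
  exact prob_cover hmd fun R _ => em _

lemma div_le_of_large (K : ℕ) {ε : ℝ≥0∞} (hε : 0 < ε) :
    ∃ d₀ : ℕ, ∀ d : ℕ, d₀ ≤ d → (K : ℝ≥0∞) / d ≤ ε := by
  have h1 : (K : ℝ≥0∞) / ε ≠ ∞ := by
    apply ENNReal.div_ne_top (by simp) hε.ne'
  obtain ⟨n, hn⟩ := ENNReal.exists_nat_gt h1
  refine ⟨n + 1, fun d hd => ?_⟩
  have hd0 : (d : ℝ≥0∞) ≠ 0 := by
    have : d ≠ 0 := by omega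
    exact_mod_cast this
  rw [ENNReal.div_le_iff hd0 (by simp)]
  have h2 : (K : ℝ≥0∞) / ε ≤ d := hn.le.trans (by
    have : n ≤ d := by omega
    exact_mod_cast this)
  rcases eq_or_ne ε ∞ with rfl | htop
  · rw [ENNReal.top_mul hd0]
    exact le_top
  · rw [ENNReal.div_le_iff hε.ne' htop] at h2
    rwa [mul_comm] at h2

theorem exists_cols_A {m d : ℕ} (hd : d.Prime) (hmd : m ≤ d) :
    ∃ C : Fin m → Fin d, StrictMono C ∧
      (prob fun R : Fin m → Fin d => ¬ Needs (2 * m ^ 2 - m) R C) ≤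
        ((2 ^ (42 * m ^ 6) : ℕ) : ℝ≥0∞) / d := by
  classical
  rcases Nat.eq_zero_or_pos m with rfl | hm
  · refine ⟨Fin.castLE hmd, Fin.strictMono_castLE hmd, ?_⟩
    have h1 : (prob fun R : Fin 0 → Fin d => ¬ Needs (2 * 0 ^ 2 - 0) R (Fin.castLE hmd)) = 0 := by
      rw [prob_eq]
      have : ((sets 0 d).filter
          (fun R => ¬ Needs (2 * 0 ^ 2 - 0) R (Fin.castLE hmd))) = ∅ := by
        rw [Finset.filter_eq_empty_iff]
        intro R _ h
        exact h (needs_zero _ _)
      rw [this]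
      simp
    rw [h1]
    exact zero_le
  · refine exists_cols (K := 2 ^ (40 * m ^ 6)) hmd ?_ hm (card_A le_rfl hd)
    have h1 : m ≤ 2 ^ m := Nat.lt_two_pow_self.le
    have h2 : (m ^ m) ^ 2 ≤ 2 ^ (2 * m ^ 2) := by
      calc (m ^ m) ^ 2 ≤ ((2 ^ m) ^ m) ^ 2 :=
            Nat.pow_le_pow_left (Nat.pow_le_pow_left h1 m) 2
        _ = 2 ^ (2 * m ^ 2) := by
            rw [← pow_mul, ← pow_mul]
            congr 1
            ring
    calc 2 ^ (40 * m ^ 6) * (m ^ m) ^ 2 ≤ 2 ^ (40 * m ^ 6) * 2 ^ (2 * m ^ 2) :=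
          Nat.mul_le_mul_left _ h2
      _ = 2 ^ (40 * m ^ 6 + 2 * m ^ 2) := by rw [pow_add]
      _ ≤ 2 ^ (42 * m ^ 6) := by
          apply Nat.pow_le_pow_right (by norm_num)
          have : m ^ 2 ≤ m ^ 6 := Nat.pow_le_pow_right hm (by norm_num)
          omega

theorem exists_cols_B {s m d : ℕ} (hm : 1 ≤ m) (hd : d.Prime) (hmd : m ≤ d) :
    ∃ C : Fin m → Fin d, StrictMono C ∧
      (prob fun R : Fin m → Fin d => ¬ Needs (s * m ^ 2 / (s + 1) - m) R C) ≤
        (((2 * m) ^ ((8 * s + 7) * m ^ 2) : ℕ) : ℝ≥0∞) / d := by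
  refine exists_cols (K := (2 * m) ^ ((8 * s + 5) * m ^ 2)) hmd ?_ hm (card_B hm le_rfl hd)
  have h1 : (m ^ m) ^ 2 ≤ (2 * m) ^ (2 * m ^ 2) := by
    calc (m ^ m) ^ 2 = m ^ (2 * m) := by rw [← pow_mul, mul_comm]
      _ ≤ (2 * m) ^ (2 * m) := Nat.pow_le_pow_left (by omega) _
      _ ≤ (2 * m) ^ (2 * m ^ 2) := by
          apply Nat.pow_le_pow_right (by omega)
          have : m ≤ m ^ 2 := Nat.le_self_pow (by norm_num) m
          omega
  calc (2 * m) ^ ((8 * s + 5) * m ^ 2) * (m ^ m) ^ 2 ≤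
        (2 * m) ^ ((8 * s + 5) * m ^ 2) * (2 * m) ^ (2 * m ^ 2) := Nat.mul_le_mul_left _ h1
    _ = (2 * m) ^ ((8 * s + 7) * m ^ 2) := by
        rw [← pow_add]
        congr 1
        ring

end Pool.Agent.X242.FRand
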