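import Pool.Agent.X242.DR10

/-!
# Dirichlet series with larger abscissa of convergence, and a criterion for rational ratios
-/

set_option autoImplicit false

namespace Pool.Agent.X242.DR

open Filter Topology Asymptotics

/-- `∑ a_n` over the `n` with `n ^ κ = m` -/
def powCoef {E : Type} [AddCommMonoid E] (κ : ℕ) (a : ℕ → E) (m : ℕ) : E :=
  ∑ n ∈ (Finset.range (m + 1)).filter (fun n => n ^ κ = m), a n

theorem powCoef_pow {E : Type} [AddCommMonoid E] {κ : ℕ} (hκ : 1 ≤ κ) (a : ℕ → E) (n : ℕ) :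
    powCoef κ a (n ^ κ) = a n := by
  have h : (Finset.range (n ^ κ + 1)).filter (fun j => j ^ κ = n ^ κ) = {n} := by
    ext j
    simp only [Finset.mem_filter, Finset.mem_range, Finset.mem_singleton]
    constructor
    · rintro ⟨-, h2⟩
      exact Nat.pow_left_injective (by omega : κ ≠ 0) h2
    · rintro rfl
      exact ⟨Nat.lt_succ_of_le (Nat.le_self_pow (by omega) j), rfl⟩
  rw [powCoef, h, Finset.sum_singleton]

theorem powCoef_of_not {E : Type} [AddCommMonoid E] {κ : ℕ} (a : ℕ → E) {m : ℕ}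
    (hm : m ∉ Set.range fun n : ℕ => n ^ κ) : powCoef κ a m = 0 := by
  rw [powCoef, Finset.filter_eq_empty_iff.2, Finset.sum_empty]
  intro n _ h
  exact hm ⟨n, h⟩

theorem powCoef_map {E E' : Type} [AddCommMonoid E] [AddCommMonoid E'] (g : E →+ E') (κ : ℕ) (a : ℕ → E)
    (m : ℕ) : powCoef κ (fun n => g (a n)) m = g (powCoef κ a m) := by
  unfold powCoef
  rw [map_sum]

theorem term_pow {κ : ℕ} (hκ : 1 ≤ κ) (a : ℕ → ℂ) (w : ℂ) (n : ℕ) :
    LSeries.term (powCoef κ a) w (n ^ κ) = LSeries.term a (κ * w) n := by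
  rcases Nat.eq_zero_or_pos n with rfl | hn
  · rw [zero_pow (by omega), LSeries.term_zero, LSeries.term_zero]
  · rw [LSeries.term_of_ne_zero (pow_pos hn κ).ne', LSeries.term_of_ne_zero hn.ne', powCoef_pow hκ,
      Complex.natCast_cpow_natCast_mul]
    push_cast
    rfl

theorem hasSum_pow {κ : ℕ} (hκ : 1 ≤ κ) (a : ℕ → ℂ) (w z : ℂ) :
    HasSum (LSeries.term (powCoef κ a) w) z ↔ HasSum (LSeries.term a (κ * w)) z := by
  have hinj : Function.Injective fun n : ℕ => n ^ κ := Nat.pow_left_injective (by omega : κ ≠ 0)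
  have h := hinj.hasSum_iff (f := LSeries.term (powCoef κ a) w) (a := z) (fun m hm => by
    by_cases h0 : m = 0
    · rw [h0, LSeries.term_zero]
    · rw [LSeries.term_of_ne_zero h0, powCoef_of_not a hm, zero_div])
  rw [← h]
  refine iff_of_eq ?_
  congr 1
  funext n
  exact term_pow hκ a w n

theorem isSeries_pow {κ : ℕ} (hκ : 1 ≤ κ) {a : ℕ → ℂ} {Φ : ℂ → ℂ}
    (hs : ∀ s : ℂ, κ < s.re → LSeriesSummable a s) (heq : ∀ s : ℂ, κ < s.re → Φ s = LSeries a s)
    (hΦ : Differentiable ℂ Φ) : IsSeries (powCoef κ a) fun w => Φ (κ * w) := by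
  have hκ0 : (0 : ℝ) < κ := by exact_mod_cast (by omega : 0 < κ)
  have hre : ∀ w : ℂ, 1 < w.re → (κ : ℝ) < ((κ : ℂ) * w).re := by
    intro w hw
    have : ((κ : ℂ) * w).re = κ * w.re := by simp
    rw [this]
    nlinarith
  refine ⟨fun σ hσ => ?_, fun w hw => ?_, fun x _ _ => ?_⟩
  · have h1 : LSeriesSummable a ((κ : ℂ) * (σ : ℂ)) := hs _ (hre _ (by simpa using hσ))
    exact ((hasSum_pow hκ a σ _).2 h1.hasSum).summable
  · rw [heq _ (hre w hw)]
    exact ((hasSum_pow hκ a w _).2 (hs _ (hre w hw)).hasSum).tsum_eq.symm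
  · have : Differentiable ℂ fun w : ℂ => Φ (κ * w) := hΦ.comp (differentiable_id.const_mul _)
    exact (this.analyticAt _).meromorphicAt

/-- **The law for the first derivative at `0`, larger abscissa of convergence.** -/
theorem deriv_law {κ : ℕ} (hκ : 1 ≤ κ) {a : ℕ → ℚ} (ha0 : a 0 = 0) {Φ : ℂ → ℂ}
    (hs : ∀ s : ℂ, κ < s.re → LSeriesSummable (fun n => (a n : ℂ)) s)
    (heq : ∀ s : ℂ, κ < s.re → Φ s = LSeries (fun n => (a n : ℂ)) s)
    (hΦ : Differentiable ℂ Φ) (h0 : Φ 0 = 0)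
    {γ : ℝ} (hγ : Real.pi / 2 < γ) {ρ : ℕ → ℕ →₀ ℚ} (hρ : IsRational 1 γ ρ) :
    (deriv Φ 0).im = 0 ∧ (fun N : ℕ => ((comb (ρ N) (powCoef κ a) : ℚ) : ℝ) - κ * (deriv Φ 0).re) =O[atTop]
      (fun N : ℕ => 1 / (N : ℝ)) := by
  have hκ0 : (0 : ℝ) < κ := by exact_mod_cast (by omega : 0 < κ)
  have hS := isSeries_pow hκ hs heq hΦ
  have hG : Differentiable ℂ fun w : ℂ => Φ (κ * w) := hΦ.comp (differentiable_id.const_mul _)
  have hGd : deriv (fun w : ℂ => Φ (κ * w)) 0 = κ * deriv Φ 0 := by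
    have h1 : HasDerivAt (fun w : ℂ => (κ : ℂ) * w) (κ : ℂ) 0 := by
      simpa using (hasDerivAt_id (0 : ℂ)).const_mul (κ : ℂ)
    have h2 : HasDerivAt Φ (deriv Φ 0) ((κ : ℂ) * 0) := by
      rw [mul_zero]
      exact (hΦ 0).hasDerivAt
    have h3 := (h2.comp (0 : ℂ) h1).deriv
    rw [mul_comm]
    exact h3
  have hlim := lim_deriv (hG.analyticAt 0) (by rw [mul_zero, h0])
  rw [hGd] at hlim
  have ha0' : powCoef κ (fun n => (a n : ℂ)) 0 = 0 := by
    have h1 := powCoef_pow hκ (fun n => (a n : ℂ)) 0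
    rw [zero_pow (by omega)] at h1
    rw [h1, ha0]
    simp
  have h1 := hS.universal ha0' 1 _ hγ (Ck_one_ne γ) (bigO_of_lim (hG.analyticAt 0) hlim) hρ
  have e1 : ∀ N, comb (ρ N) (powCoef κ fun n => (a n : ℂ)) = (((comb (ρ N) (powCoef κ a) : ℚ) : ℝ) : ℂ) := by
    intro N
    have e2 : (powCoef κ fun n => (a n : ℂ)) = fun m => (Rat.castHom ℂ) (powCoef κ a m) := by
      funext m
      exact powCoef_map (Rat.castHom ℂ).toAddMonoidHom κ a m
    rw [e2, comb_hom (Rat.castHom ℂ) (ρ N)]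
    simp
  simp only [e1] at h1
  have him : ((κ : ℂ) * deriv Φ 0).im = 0 := by
    have h2 := h1.trans_tendsto tendsto_one_div_atTop_nhds_zero_nat
    have h3 := (Complex.continuous_im.tendsto 0).comp h2
    have h4 : (Complex.im ∘ fun N : ℕ => (((comb (ρ N) (powCoef κ a) : ℚ) : ℝ) : ℂ) -
        (κ : ℂ) * deriv Φ 0) = fun _ => -((κ : ℂ) * deriv Φ 0).im := by
      funext N
      simp
    rw [h4] at h3
    have h5 := tendsto_nhds_unique h3 tendsto_const_nhds
    simpa using h5.symm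
  have him' : (deriv Φ 0).im = 0 := by
    have h2 : ((κ : ℂ) * deriv Φ 0).im = κ * (deriv Φ 0).im := by simp
    rw [h2] at him
    exact (mul_eq_zero.1 him).resolve_left hκ0.ne'
  refine ⟨him', ?_⟩
  obtain ⟨C, hC⟩ := h1.bound
  refine IsBigO.of_bound C ?_
  filter_upwards [hC] with N hN
  refine le_trans ?_ hN
  rw [← Complex.norm_real]
  refine le_of_eq ?_
  congr 1
  apply Complex.ext <;> simp [him']

/-- A ratio is a nonzero rational number if and only if multiples of the approximations come close to nonzero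
integers. -/
theorem ratio_iff {x : ℕ → ℝ} {l : ℝ} {κ : ℕ} (hκ : 1 ≤ κ) (hx : Tendsto x atTop (𝓝 (κ * l))) {P : ℝ}
    (hP : P ≠ 0) : (∃ q : ℚ, q ≠ 0 ∧ P = q * l) ↔
      ∃ M : ℕ, 1 ≤ M ∧ ∀ ε : ℝ, 0 < ε → ∀ N₀ : ℕ, ∃ N ≥ N₀, ∃ z : ℤ, z ≠ 0 ∧ |M * x N / P - z| < ε := by
  have hκ0 : (0 : ℝ) < κ := by exact_mod_cast (by omega : 0 < κ)
  have hlim : ∀ M : ℕ, Tendsto (fun N => M * x N / P) atTop (𝓝 (M * (κ * l) / P)) := fun M =>
    (hx.const_mul _).div_const _
  constructor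
  · rintro ⟨q, hq, hPq⟩
    have hl : l ≠ 0 := by
      rintro rfl
      exact hP (by rw [hPq, mul_zero])
    refine ⟨q.num.natAbs, Int.natAbs_pos.2 (Rat.num_ne_zero.2 hq), fun ε hε N₀ => ?_⟩
    have hval : (q.num.natAbs : ℝ) * (κ * l) / P = ((κ * q.den * q.num.sign : ℤ) : ℝ) := by
      have h1 : (q.num.natAbs : ℝ) = (q.num.sign : ℝ) * (q.num : ℝ) := by
        have h2 : ((q.num.natAbs : ℤ)) = q.num.sign * q.num := (Int.sign_mul_self_eq_natAbs q.num).symm
        have h3 : ((q.num.natAbs : ℤ) : ℝ) = ((q.num.sign * q.num : ℤ) : ℝ) := congrArg _ h2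
        rw [Int.cast_natCast, Int.cast_mul] at h3
        exact h3
      have h3 : (q : ℝ) = q.num / q.den := by exact_mod_cast (Rat.num_div_den q).symm
      have hn : (q.num : ℝ) ≠ 0 := by exact_mod_cast Rat.num_ne_zero.2 hq
      have hd : (q.den : ℝ) ≠ 0 := by exact_mod_cast q.den_nz
      rw [h1, hPq, h3]
      push_cast
      field_simp
    have h1 := (hlim q.num.natAbs)
    rw [hval] at h1
    have h2 := (h1.sub_const ((κ * q.den * q.num.sign : ℤ) : ℝ)).abs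
    rw [sub_self, abs_zero] at h2
    obtain ⟨N, hN1, hN2⟩ := ((h2.eventually (gt_mem_nhds hε)).and (eventually_ge_atTop N₀)).exists
    refine ⟨N, hN2, _, ?_, hN1⟩
    refine mul_ne_zero (mul_ne_zero ?_ ?_) ?_
    · exact_mod_cast (by omega : κ ≠ 0)
    · exact_mod_cast q.den_nz
    · rw [Ne, Int.sign_eq_zero_iff_zero]
      exact Rat.num_ne_zero.2 hq
  · rintro ⟨M, hM, h⟩
    have hM0 : (0 : ℝ) < M := by exact_mod_cast (by omega : 0 < M)
    set y : ℝ := M * (κ * l) / P with hy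
    -- `y` is a nonzero integer
    have hcl : IsClosed {t : ℝ | ∃ z : ℤ, z ≠ 0 ∧ (z : ℝ) = t} := by
      have e : {t : ℝ | ∃ z : ℤ, z ≠ 0 ∧ (z : ℝ) = t} = (fun z : ℤ => (z : ℝ)) '' {z | z ≠ 0} := by
        ext t
        constructor
        · rintro ⟨z, h1, h2⟩
          exact ⟨z, h1, h2⟩
        · rintro ⟨z, h1, h2⟩
          exact ⟨z, h1, h2⟩
      rw [e]
      exact Int.isClosedEmbedding_coe_real.isClosedMap _ (isClosed_discrete _)
    have hmem : y ∈ closure {t : ℝ | ∃ z : ℤ, z ≠ 0 ∧ (z : ℝ) = t} := by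
      rw [Metric.mem_closure_iff]
      intro ε hε
      have h2 := ((hlim M).sub_const y).abs
      rw [sub_self, abs_zero] at h2
      obtain ⟨N₀, hN₀⟩ := eventually_atTop.1 (h2.eventually (gt_mem_nhds (half_pos hε)))
      obtain ⟨N, hN, z, hz, hzN⟩ := h (ε / 2) (half_pos hε) N₀
      refine ⟨z, ⟨z, hz, rfl⟩, ?_⟩
      rw [Real.dist_eq]
      have h3 := hN₀ N hN
      have h4 : y - z = (M * x N / P - z) - (M * x N / P - y) := by ring
      rw [h4]
      refine (abs_sub _ _).trans_lt ?_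
      linarith
    rw [hcl.closure_eq] at hmem
    obtain ⟨z, hz, hzy⟩ := hmem
    have hz0 : (z : ℝ) ≠ 0 := by exact_mod_cast hz
    refine ⟨(M * κ : ℚ) / z, ?_, ?_⟩
    · refine div_ne_zero (mul_ne_zero ?_ ?_) (by exact_mod_cast hz)
      · exact_mod_cast (by omega : M ≠ 0)
      · exact_mod_cast (by omega : κ ≠ 0)
    · push_cast
      rw [hy] at hzy
      field_simp at hzy ⊢
      linarith

end Pool.Agent.X242.DR
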