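import Mathlib

/-!
# Straight-line programs with divisions, their common denominators and their jets
-/

set_option autoImplicit false

namespace Pool.Agent.X242.AP

open MvPolynomial

/-- The entries of two `n × n` matrices. -/
abbrev Vars (n : ℕ) : Type := (Fin n × Fin n) ⊕ (Fin n × Fin n)

/-- A linear combination, with coefficients in the field `K`, of `1`, of the entries of the two
input matrices and of the results obtained before. -/
structure Lin (K : Type) (n : ℕ) where
  /-- the constant -/
  c : K
  /-- the coefficients of the entries of the two matrices -/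
  x : Vars n → K
  /-- the coefficients of the results -/
  r : ℕ → K

/-- The value of the linear combination on the input `x` when `y 0, …, y (m - 1)` are the results
obtained before. -/
def Lin.val {K : Type} [Field K] {n : ℕ} (f : Lin K n) (x : Vars n → K) (m : ℕ) (y : ℕ → K) : K :=
  f.c + ∑ v, f.x v * x v + ∑ s ∈ Finset.range m, f.r s * y s

lemma Lin.val_congr {K : Type} [Field K] {n : ℕ} (f : Lin K n) (x : Vars n → K) {m : ℕ}
    {y y' : ℕ → K} (h : ∀ s < m, y s = y' s) : f.val x m y = f.val x m y' := by
  unfold Lin.val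
  congr 1
  exact Finset.sum_congr rfl fun s hs => by rw [h s (Finset.mem_range.mp hs)]

/-- A step: a multiplication or a division. -/
structure Op (K : Type) (n : ℕ) where
  /-- is it a division? -/
  div : Bool
  /-- the first operand -/
  f : Lin K n
  /-- the second operand -/
  h : Lin K n

section

variable {K : Type} [Field K] {n : ℕ}

/-- The results. -/
def st (σ : ℕ → Op K n) (x : Vars n → K) : ℕ → ℕ → K
  | 0 => fun _ => 0
  | m + 1 => Function.update (st σ x m) m (if (σ m).div then
      (σ m).f.val x m (st σ x m) / (σ m).h.val x m (st σ x m)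
      else (σ m).f.val x m (st σ x m) * (σ m).h.val x m (st σ x m))

/-- No division by zero. -/
def Legal (σ : ℕ → Op K n) (x : Vars n → K) (m : ℕ) : Prop :=
  ∀ s < m, (σ s).div = true → (σ s).h.val x s (st σ x s) ≠ 0

/-- The numerator of a linear combination. -/
noncomputable def Lin.num (f : Lin K n) (m : ℕ) (D : MvPolynomial (Vars n) K)
    (N : ℕ → MvPolynomial (Vars n) K) : MvPolynomial (Vars n) K :=
  (C f.c + ∑ v, C (f.x v) * X v) * D + ∑ s ∈ Finset.range m, C (f.r s) * N s

/-- The common denominator and the numerators. -/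
noncomputable def fr (σ : ℕ → Op K n) :
    ℕ → MvPolynomial (Vars n) K × (ℕ → MvPolynomial (Vars n) K)
  | 0 => (1, fun _ => 0)
  | m + 1 => if (σ m).div then
      ((fr σ m).1 * (σ m).h.num m (fr σ m).1 (fr σ m).2,
        Function.update (fun s => (fr σ m).2 s * (σ m).h.num m (fr σ m).1 (fr σ m).2) m
          ((σ m).f.num m (fr σ m).1 (fr σ m).2 * (fr σ m).1))
      else ((fr σ m).1 * (fr σ m).1, Function.update (fun s => (fr σ m).2 s * (fr σ m).1) m
          ((σ m).f.num m (fr σ m).1 (fr σ m).2 * (σ m).h.num m (fr σ m).1 (fr σ m).2))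

lemma eval_num (f : Lin K n) (m : ℕ) (D : MvPolynomial (Vars n) K)
    (N : ℕ → MvPolynomial (Vars n) K) (x : Vars n → K) (y : ℕ → K)
    (h : ∀ s < m, eval x (N s) = y s * eval x D) :
    eval x (f.num m D N) = f.val x m y * eval x D := by
  unfold Lin.num Lin.val
  simp only [map_add, map_mul, map_sum, eval_C, eval_X, add_mul]
  congr 1
  rw [Finset.sum_mul]
  refine Finset.sum_congr rfl fun s hs => ?_
  rw [h s (Finset.mem_range.mp hs)]
  ring

/-- **Legal inputs.** -/
lemma legal_eval (σ : ℕ → Op K n) (x : Vars n → K) (m : ℕ) (h : Legal σ x m) :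
    eval x (fr σ m).1 ≠ 0 ∧ ∀ s < m, eval x ((fr σ m).2 s) = st σ x m s * eval x (fr σ m).1 := by
  induction m with
  | zero => exact ⟨by simp [fr], fun s hs => absurd hs (Nat.not_lt_zero _)⟩
  | succ m ih =>
    obtain ⟨h1, h2⟩ := ih fun s hs => h s (by omega)
    have hF := eval_num (σ m).f m (fr σ m).1 (fr σ m).2 x (st σ x m) h2
    have hH := eval_num (σ m).h m (fr σ m).1 (fr σ m).2 x (st σ x m) h2
    by_cases hd : (σ m).div = true
    · have h3 := h m (Nat.lt_succ_self m) hd
      have h4 : eval x ((σ m).h.num m (fr σ m).1 (fr σ m).2) ≠ 0 := by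
        rw [hH]; exact mul_ne_zero h3 h1
      simp only [fr, st, hd, if_true]
      refine ⟨by rw [map_mul]; exact mul_ne_zero h1 h4, fun s hs => ?_⟩
      by_cases hsm : s = m
      · subst hsm
        rw [Function.update_self, Function.update_self, map_mul, map_mul, hF, hH]
        field_simp
      · rw [Function.update_of_ne hsm, Function.update_of_ne hsm, map_mul, map_mul,
          h2 s (by omega)]
        ring
    · simp only [fr, st, hd, if_false, Bool.false_eq_true]
      refine ⟨by rw [map_mul]; exact mul_ne_zero h1 h1, fun s hs => ?_⟩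
      by_cases hsm : s = m
      · subst hsm
        rw [Function.update_self, Function.update_self, map_mul, map_mul, hF, hH]
        ring
      · rw [Function.update_of_ne hsm, Function.update_of_ne hsm, map_mul, map_mul,
          h2 s (by omega)]
        ring

/-- degree bound -/
def dg : ℕ → ℕ
  | 0 => 0
  | m + 1 => 2 * dg m + 2

lemma num_deg (f : Lin K n) (m : ℕ) (D : MvPolynomial (Vars n) K)
    (N : ℕ → MvPolynomial (Vars n) K) (d : ℕ) (hD : D.totalDegree ≤ d)
    (hN : ∀ s, (N s).totalDegree ≤ d) : (f.num m D N).totalDegree ≤ d + 1 := by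
  unfold Lin.num
  refine (totalDegree_add _ _).trans (max_le ?_ ?_)
  · refine (totalDegree_mul _ _).trans ?_
    have h1 : (C f.c + ∑ v, C (f.x v) * X v : MvPolynomial (Vars n) K).totalDegree ≤ 1 := by
      refine (totalDegree_add _ _).trans (max_le (by rw [totalDegree_C]; omega) ?_)
      refine totalDegree_finsetSum_le fun v _ => ?_
      refine (totalDegree_mul _ _).trans ?_
      rw [totalDegree_C, totalDegree_X]
    omega
  · refine totalDegree_finsetSum_le fun s _ => ?_
    refine (totalDegree_mul _ _).trans ?_
    rw [totalDegree_C]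
    have := hN s
    omega

lemma fr_deg (σ : ℕ → Op K n) (m : ℕ) :
    (fr σ m).1.totalDegree ≤ dg m ∧ ∀ s, ((fr σ m).2 s).totalDegree ≤ dg m := by
  induction m with
  | zero => exact ⟨by simp [fr], fun s => by simp [fr]⟩
  | succ m ih =>
    obtain ⟨h1, h2⟩ := ih
    have hF := num_deg (σ m).f m _ _ _ h1 h2
    have hH := num_deg (σ m).h m _ _ _ h1 h2
    have hm : ∀ p q : MvPolynomial (Vars n) K, (p * q).totalDegree ≤
        p.totalDegree + q.totalDegree := fun p q => totalDegree_mul p q
    by_cases hd : (σ m).div = true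
    · simp only [fr, hd, if_true, dg]
      refine ⟨(hm _ _).trans (by omega), fun s => ?_⟩
      by_cases hsm : s = m
      · subst hsm
        rw [Function.update_self]
        exact (hm _ _).trans (by omega)
      · rw [Function.update_of_ne hsm]
        have := h2 s
        exact (hm _ _).trans (by omega)
    · simp only [fr, hd, if_false, Bool.false_eq_true, dg]
      refine ⟨(hm _ _).trans (by omega), fun s => ?_⟩
      by_cases hsm : s = m
      · subst hsm
        rw [Function.update_self]
        exact (hm _ _).trans (by omega)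
      · rw [Function.update_of_ne hsm]
        have := h2 s
        exact (hm _ _).trans (by omega)

/-! ### Jets -/

/-- The value, the first derivatives and the mixed second derivatives of `N / Q` at `x`. -/
structure Jet (K : Type) (n : ℕ) where
  /-- the value -/
  v : K
  /-- the derivatives with respect to the entries of the first matrix -/
  a : Fin n × Fin n → K
  /-- the derivatives with respect to the entries of the second matrix -/
  b : Fin n × Fin n → K
  /-- the mixed second derivatives -/
  m : Fin n × Fin n → Fin n × Fin n → K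

/-- `N / Q` has the jet `j` at `x`. -/
structure IsJet (x : Vars n → K) (N Q : MvPolynomial (Vars n) K) (j : Jet K n) : Prop where
  /-- value -/
  h0 : eval x N = j.v * eval x Q
  /-- first matrix -/
  hA : ∀ a, eval x (pderiv (Sum.inl a) N) = j.a a * eval x Q + j.v * eval x (pderiv (Sum.inl a) Q)
  /-- second matrix -/
  hB : ∀ b, eval x (pderiv (Sum.inr b) N) = j.b b * eval x Q + j.v * eval x (pderiv (Sum.inr b) Q)
  /-- mixed -/
  hM : ∀ a b, eval x (pderiv (Sum.inl a) (pderiv (Sum.inr b) N)) = j.m a b * eval x Q +
    j.a a * eval x (pderiv (Sum.inr b) Q) + j.b b * eval x (pderiv (Sum.inl a) Q) +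
      j.v * eval x (pderiv (Sum.inl a) (pderiv (Sum.inr b) Q))

lemma IsJet.mul_right {x : Vars n → K} {N Q : MvPolynomial (Vars n) K} {j : Jet K n}
    (h : IsJet x N Q j) (E : MvPolynomial (Vars n) K) : IsJet x (N * E) (Q * E) j := by
  refine ⟨?_, fun a => ?_, fun b => ?_, fun a b => ?_⟩
  · simp only [map_mul]
    linear_combination eval x E * h.h0
  · simp only [Derivation.leibniz, smul_eq_mul, map_add, map_mul]
    linear_combination eval x E * h.hA a + eval x (pderiv (Sum.inl a) E) * h.h0
  · simp only [Derivation.leibniz, smul_eq_mul, map_add, map_mul]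
    linear_combination eval x E * h.hB b + eval x (pderiv (Sum.inr b) E) * h.h0
  · simp only [Derivation.leibniz, smul_eq_mul, map_add, map_mul]
    linear_combination eval x E * h.hM a b + eval x (pderiv (Sum.inr b) E) * h.hA a +
      eval x (pderiv (Sum.inl a) E) * h.hB b +
      eval x (pderiv (Sum.inl a) (pderiv (Sum.inr b) E)) * h.h0

lemma IsJet.mul {x : Vars n → K} {F H D : MvPolynomial (Vars n) K} {f h : Jet K n}
    (hf : IsJet x F D f) (hh : IsJet x H D h) : IsJet x (F * H) (D * D)
      ⟨f.v * h.v, fun a => f.v * h.a a + h.v * f.a a, fun b => f.v * h.b b + h.v * f.b b,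
        fun a b => f.v * h.m a b + h.v * f.m a b + f.a a * h.b b + h.a a * f.b b⟩ := by
  refine ⟨?_, fun a => ?_, fun b => ?_, fun a b => ?_⟩
  · simp only [map_mul]
    linear_combination eval x H * hf.h0 + f.v * eval x D * hh.h0
  · simp only [Derivation.leibniz, smul_eq_mul, map_add, map_mul]
    linear_combination eval x H * hf.hA a + eval x (pderiv (Sum.inl a) H) * hf.h0 +
      f.v * eval x D * hh.hA a + (f.a a * eval x D + f.v * eval x (pderiv (Sum.inl a) D)) * hh.h0
  · simp only [Derivation.leibniz, smul_eq_mul, map_add, map_mul]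
    linear_combination eval x H * hf.hB b + eval x (pderiv (Sum.inr b) H) * hf.h0 +
      f.v * eval x D * hh.hB b + (f.b b * eval x D + f.v * eval x (pderiv (Sum.inr b) D)) * hh.h0
  · simp only [Derivation.leibniz, smul_eq_mul, map_add, map_mul]
    linear_combination eval x H * hf.hM a b + eval x (pderiv (Sum.inl a) H) * hf.hB b +
      eval x (pderiv (Sum.inr b) H) * hf.hA a +
      eval x (pderiv (Sum.inl a) (pderiv (Sum.inr b) H)) * hf.h0 +
      f.v * eval x D * hh.hM a b +
      (f.a a * eval x D + f.v * eval x (pderiv (Sum.inl a) D)) * hh.hB b +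
      (f.b b * eval x D + f.v * eval x (pderiv (Sum.inr b) D)) * hh.hA a +
      (f.m a b * eval x D + f.a a * eval x (pderiv (Sum.inr b) D) +
        f.b b * eval x (pderiv (Sum.inl a) D) +
        f.v * eval x (pderiv (Sum.inl a) (pderiv (Sum.inr b) D))) * hh.h0

/-- The jet of a quotient. -/
noncomputable def Jet.div (f h : Jet K n) : Jet K n where
  v := f.v / h.v
  a := fun a => (f.a a - f.v / h.v * h.a a) / h.v
  b := fun b => (f.b b - f.v / h.v * h.b b) / h.v
  m := fun a b => (f.m a b - f.v / h.v * h.m a b - (f.a a - f.v / h.v * h.a a) / h.v * h.b b -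
    (f.b b - f.v / h.v * h.b b) / h.v * h.a a) / h.v

lemma IsJet.div {x : Vars n → K} {F H D : MvPolynomial (Vars n) K} {f h : Jet K n}
    (hf : IsJet x F D f) (hh : IsJet x H D h) (h0 : h.v ≠ 0) :
    IsJet x (F * D) (D * H) (f.div h) := by
  have g0 : (f.div h).v * h.v = f.v := by simp only [Jet.div]; field_simp
  have gA : ∀ a, (f.div h).a a * h.v + (f.div h).v * h.a a = f.a a := by
    intro a; simp only [Jet.div]; field_simp; ring
  have gB : ∀ b, (f.div h).b b * h.v + (f.div h).v * h.b b = f.b b := by
    intro b; simp only [Jet.div]; field_simp; ring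
  have gM : ∀ a b, (f.div h).m a b * h.v + (f.div h).v * h.m a b + (f.div h).a a * h.b b +
      (f.div h).b b * h.a a = f.m a b := by
    intro a b; simp only [Jet.div]; field_simp; ring
  generalize f.div h = g at g0 gA gB gM ⊢
  refine ⟨?_, fun a => ?_, fun b => ?_, fun a b => ?_⟩
  · simp only [map_mul]
    rw [hf.h0, hh.h0, ← g0]
    ring
  · simp only [Derivation.leibniz, smul_eq_mul, map_add, map_mul]
    rw [hf.h0, hh.h0, hf.hA, hh.hA, ← g0, ← gA]
    ring
  · simp only [Derivation.leibniz, smul_eq_mul, map_add, map_mul]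
    rw [hf.h0, hh.h0, hf.hB, hh.hB, ← g0, ← gB]
    ring
  · simp only [Derivation.leibniz, smul_eq_mul, map_add, map_mul]
    rw [hf.h0, hh.h0, hf.hA, hh.hA, hf.hB, hh.hB, hf.hM, hh.hM, ← g0, ← gA, ← gB, ← gM]
    ring

end

end Pool.Agent.X242.AP
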