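import Pool.Agent.X242.AP1

/-!
# The second derivatives of the results of a straight-line program
-/

set_option autoImplicit false

namespace Pool.Agent.X242.AP

open MvPolynomial

section

variable {K : Type} [Field K] {n : ℕ}

/-- The jet of a polynomial. -/
noncomputable def pj (x : Vars n → K) (G : MvPolynomial (Vars n) K) : Jet K n where
  v := eval x G
  a := fun a => eval x (pderiv (Sum.inl a) G)
  b := fun b => eval x (pderiv (Sum.inr b) G)
  m := fun a b => eval x (pderiv (Sum.inl a) (pderiv (Sum.inr b) G))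

lemma IsJet.poly (x : Vars n → K) (G Q : MvPolynomial (Vars n) K) :
    IsJet x (G * Q) Q (pj x G) := by
  refine ⟨?_, fun a => ?_, fun b => ?_, fun a b => ?_⟩
  · simp only [map_mul, pj]
  · simp only [Derivation.leibniz, smul_eq_mul, map_add, map_mul, pj]; ring
  · simp only [Derivation.leibniz, smul_eq_mul, map_add, map_mul, pj]; ring
  · simp only [Derivation.leibniz, smul_eq_mul, map_add, map_mul, pj]; ring

/-- The sum of `j` and of a linear combination of the `j' s`. -/
def Jet.lin (j : Jet K n) (S : Finset ℕ) (r : ℕ → K) (j' : ℕ → Jet K n) : Jet K n where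
  v := j.v + ∑ s ∈ S, r s * (j' s).v
  a := fun a => j.a a + ∑ s ∈ S, r s * (j' s).a a
  b := fun b => j.b b + ∑ s ∈ S, r s * (j' s).b b
  m := fun a b => j.m a b + ∑ s ∈ S, r s * (j' s).m a b

lemma IsJet.lin {x : Vars n → K} {G Q : MvPolynomial (Vars n) K} {j : Jet K n}
    (h : IsJet x G Q j) (S : Finset ℕ) (r : ℕ → K) (N : ℕ → MvPolynomial (Vars n) K)
    (j' : ℕ → Jet K n) (h' : ∀ s ∈ S, IsJet x (N s) Q (j' s)) :
    IsJet x (G + ∑ s ∈ S, C (r s) * N s) Q (j.lin S r j') := by
  have key : ∀ (c c' : ℕ → K) (e : K), (∀ s ∈ S, c s = c' s) →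
      e + ∑ s ∈ S, r s * c s = e + ∑ s ∈ S, r s * c' s := by
    intro c c' e hc
    rw [Finset.sum_congr rfl fun s hs => by rw [hc s hs]]
  refine ⟨?_, fun a => ?_, fun b => ?_, fun a b => ?_⟩
  · simp only [map_add, map_sum, map_mul, eval_C, Jet.lin]
    rw [key _ _ _ fun s hs => (h' s hs).h0, h.h0]
    simp only [add_mul, Finset.sum_mul]
    congr 1
    exact Finset.sum_congr rfl fun s _ => by ring
  · simp only [Derivation.leibniz, map_add, map_sum, map_mul, eval_C, pderiv_C, smul_eq_mul,
      mul_zero, add_zero, Jet.lin]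
    rw [key _ _ _ fun s hs => (h' s hs).hA a, h.hA]
    simp only [add_mul, Finset.sum_mul, mul_add, Finset.sum_add_distrib]
    have e1 : ∀ c c' : ℕ → K, ∀ u : K, ∑ s ∈ S, r s * c s * u = ∑ s ∈ S, r s * (c s * u) :=
      fun c c' u => Finset.sum_congr rfl fun s _ => by ring
    rw [e1 _ 0, e1 _ 0]
    ring
  · simp only [Derivation.leibniz, map_add, map_sum, map_mul, eval_C, pderiv_C, smul_eq_mul,
      mul_zero, add_zero, Jet.lin]
    rw [key _ _ _ fun s hs => (h' s hs).hB b, h.hB]
    simp only [add_mul, Finset.sum_mul, mul_add, Finset.sum_add_distrib]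
    have e1 : ∀ c : ℕ → K, ∀ u : K, ∑ s ∈ S, r s * c s * u = ∑ s ∈ S, r s * (c s * u) :=
      fun c u => Finset.sum_congr rfl fun s _ => by ring
    rw [e1, e1]
    ring
  · simp only [Derivation.leibniz, map_add, map_sum, map_mul, eval_C, pderiv_C, smul_eq_mul,
      mul_zero, add_zero, Jet.lin]
    rw [key _ _ _ fun s hs => (h' s hs).hM a b, h.hM]
    simp only [add_mul, Finset.sum_mul, mul_add, Finset.sum_add_distrib]
    have e1 : ∀ c : ℕ → K, ∀ u : K, ∑ s ∈ S, r s * c s * u = ∑ s ∈ S, r s * (c s * u) :=
      fun c u => Finset.sum_congr rfl fun s _ => by ring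
    rw [e1, e1, e1, e1]
    ring

/-- The jet of a linear combination. -/
noncomputable def Lin.jet (f : Lin K n) (x : Vars n → K) (m : ℕ) (j : ℕ → Jet K n) : Jet K n :=
  (pj x (C f.c + ∑ v, C (f.x v) * X v)).lin (Finset.range m) f.r j

lemma Lin.isJet (f : Lin K n) (x : Vars n → K) (m : ℕ) (D : MvPolynomial (Vars n) K)
    (N : ℕ → MvPolynomial (Vars n) K) (j : ℕ → Jet K n) (h : ∀ s < m, IsJet x (N s) D (j s)) :
    IsJet x (f.num m D N) D (f.jet x m j) :=
  (IsJet.poly x _ D).lin _ _ _ _ fun s hs => h s (Finset.mem_range.mp hs)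

lemma Lin.jet_m (f : Lin K n) (x : Vars n → K) (m : ℕ) (j : ℕ → Jet K n) :
    (f.jet x m j).m = ∑ s ∈ Finset.range m, f.r s • (j s).m := by
  classical
  funext a b
  simp only [Lin.jet, Jet.lin, pj, Finset.sum_apply, Pi.smul_apply, smul_eq_mul]
  have h : pderiv (Sum.inl a) (pderiv (Sum.inr b) (C f.c + ∑ v, C (f.x v) * X v :
      MvPolynomial (Vars n) K)) = 0 := by
    have hX : ∀ v : Vars n, pderiv (Sum.inl a) (pderiv (Sum.inr b)
        (X v : MvPolynomial (Vars n) K)) = 0 := by
      intro v
      by_cases h : Sum.inr b = v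
      · subst h
        rw [pderiv_X_self, Derivation.map_one_eq_zero]
      · rw [pderiv_X_of_ne (Ne.symm h), map_zero]
    simp only [map_add, map_sum, Derivation.leibniz, pderiv_C, smul_eq_mul, mul_zero, add_zero,
      zero_add, hX, Finset.sum_const_zero]
  rw [h, map_zero, zero_add]

/-- the matrix of rank one -/
def ro (p q : Fin n × Fin n → K) : Fin n × Fin n → Fin n × Fin n → K := fun a b => p a * q b

/-- the span of the first `k` matrices of rank one -/
def Sp (p q : ℕ → Fin n × Fin n → K) (k : ℕ) :
    Submodule K (Fin n × Fin n → Fin n × Fin n → K) :=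
  Submodule.span K ((fun t => ro (p t) (q t)) '' Set.Iio k)

lemma Sp_extend (p q : ℕ → Fin n × Fin n → K) (k : ℕ) (p0 q0 p1 q1 : Fin n × Fin n → K) :
    ∃ p' q' : ℕ → Fin n × Fin n → K, Sp p q k ≤ Sp p' q' (k + 2) ∧
      ro p0 q0 ∈ Sp p' q' (k + 2) ∧ ro p1 q1 ∈ Sp p' q' (k + 2) := by
  refine ⟨Function.update (Function.update p k p0) (k + 1) p1,
    Function.update (Function.update q k q0) (k + 1) q1, ?_, ?_, ?_⟩
  · unfold Sp
    rw [Submodule.span_le]
    rintro _ ⟨t, ht, rfl⟩
    have ht' : t < k := ht
    refine Submodule.subset_span ⟨t, ?_, ?_⟩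
    · show t < k + 2
      omega
    · simp only
      rw [Function.update_of_ne (by omega), Function.update_of_ne (by omega),
        Function.update_of_ne (by omega), Function.update_of_ne (by omega)]
  · refine Submodule.subset_span ⟨k, ?_, ?_⟩
    · show k < k + 2
      omega
    · simp only
      rw [Function.update_of_ne (by omega), Function.update_self,
        Function.update_of_ne (by omega), Function.update_self]
  · refine Submodule.subset_span ⟨k + 1, ?_, ?_⟩
    · show k + 1 < k + 2
      omega
    · simp only [Function.update_self]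

/-- **The mixed second derivatives of the results.** -/
theorem jets (σ : ℕ → Op K n) (x : Vars n → K) (m : ℕ) (hD : eval x (fr σ m).1 ≠ 0) :
    ∃ (j : ℕ → Jet K n) (p q : ℕ → Fin n × Fin n → K),
      (∀ s < m, IsJet x ((fr σ m).2 s) (fr σ m).1 (j s)) ∧ ∀ s < m, (j s).m ∈ Sp p q (2 * m) := by
  induction m with
  | zero =>
    exact ⟨fun _ => ⟨0, 0, 0, 0⟩, 0, 0, fun s hs => absurd hs (Nat.not_lt_zero _),
      fun s hs => absurd hs (Nat.not_lt_zero _)⟩
  | succ m ih =>
    have hD' : eval x (fr σ m).1 ≠ 0 := by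
      intro h
      apply hD
      by_cases hd : (σ m).div = true
      · simp only [fr, hd, if_true, map_mul, h, zero_mul]
      · simp only [fr, hd, if_false, Bool.false_eq_true, map_mul, h, zero_mul]
    obtain ⟨j, p, q, hj, hsp⟩ := ih hD'
    have hF := (σ m).f.isJet x m _ _ j hj
    have hH := (σ m).h.isJet x m _ _ j hj
    have hFm : ((σ m).f.jet x m j).m ∈ Sp p q (2 * m) := by
      rw [Lin.jet_m]
      exact Submodule.sum_mem _ fun s hs => Submodule.smul_mem _ _ (hsp s (Finset.mem_range.mp hs))
    have hHm : ((σ m).h.jet x m j).m ∈ Sp p q (2 * m) := by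
      rw [Lin.jet_m]
      exact Submodule.sum_mem _ fun s hs => Submodule.smul_mem _ _ (hsp s (Finset.mem_range.mp hs))
    generalize (σ m).f.jet x m j = F at hF hFm
    generalize (σ m).h.jet x m j = H at hH hHm
    by_cases hd : (σ m).div = true
    · have h0 : H.v ≠ 0 := by
        intro h
        apply hD
        simp only [fr, hd, if_true, map_mul]
        rw [hH.h0, h]
        ring
      obtain ⟨p', q', h1, h2, h3⟩ := Sp_extend p q (2 * m) (F.div H).a H.b H.a (F.div H).b
      refine ⟨Function.update j m (F.div H), p', q', fun s hs => ?_, fun s hs => ?_⟩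
      · simp only [fr, hd, if_true]
        by_cases hsm : s = m
        · subst hsm
          rw [Function.update_self, Function.update_self]
          exact hF.div hH h0
        · rw [Function.update_of_ne hsm, Function.update_of_ne hsm]
          exact (hj s (by omega)).mul_right _
      · rw [show 2 * (m + 1) = 2 * m + 2 by ring]
        by_cases hsm : s = m
        · subst hsm
          rw [Function.update_self]
          have e : (F.div H).m = H.v⁻¹ • (F.m - (F.div H).v • H.m - ro (F.div H).a H.b -
              ro H.a (F.div H).b) := by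
            funext a b
            simp only [Jet.div, ro, Pi.smul_apply, Pi.sub_apply, smul_eq_mul]
            field_simp
          rw [e]
          exact Submodule.smul_mem _ _ (Submodule.sub_mem _ (Submodule.sub_mem _
            (Submodule.sub_mem _ (h1 hFm) (Submodule.smul_mem _ _ (h1 hHm))) h2) h3)
        · rw [Function.update_of_ne hsm]
          exact h1 (hsp s (by omega))
    · obtain ⟨p', q', h1, h2, h3⟩ := Sp_extend p q (2 * m) F.a H.b H.a F.b
      refine ⟨Function.update j m ⟨F.v * H.v, fun a => F.v * H.a a + H.v * F.a a,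
        fun b => F.v * H.b b + H.v * F.b b,
        fun a b => F.v * H.m a b + H.v * F.m a b + F.a a * H.b b + H.a a * F.b b⟩, p', q',
        fun s hs => ?_, fun s hs => ?_⟩
      · simp only [fr, hd, if_false, Bool.false_eq_true]
        by_cases hsm : s = m
        · subst hsm
          rw [Function.update_self, Function.update_self]
          exact hF.mul hH
        · rw [Function.update_of_ne hsm, Function.update_of_ne hsm]
          exact (hj s (by omega)).mul_right _
      · rw [show 2 * (m + 1) = 2 * m + 2 by ring]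
        by_cases hsm : s = m
        · subst hsm
          rw [Function.update_self]
          have e : (fun a b => F.v * H.m a b + H.v * F.m a b + F.a a * H.b b + H.a a * F.b b) =
              F.v • H.m + H.v • F.m + ro F.a H.b + ro H.a F.b := by
            funext a b
            simp only [ro, Pi.smul_apply, Pi.add_apply, smul_eq_mul]
          show (fun a b => F.v * H.m a b + H.v * F.m a b + F.a a * H.b b + H.a a * F.b b) ∈ _
          rw [e]
          exact Submodule.add_mem _ (Submodule.add_mem _ (Submodule.add_mem _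
            (Submodule.smul_mem _ _ (h1 hHm)) (Submodule.smul_mem _ _ (h1 hFm))) h2) h3
        · rw [Function.update_of_ne hsm]
          exact h1 (hsp s (by omega))

lemma mem_Sp {p q : ℕ → Fin n × Fin n → K} {k : ℕ} {M : Fin n × Fin n → Fin n × Fin n → K}
    (h : M ∈ Sp p q k) : ∃ w : Fin k → K, ∀ a b, M a b = ∑ t : Fin k, p t a * q t b * w t := by
  have e : (fun t => ro (p t) (q t)) '' Set.Iio k = Set.range fun t : Fin k => ro (p t) (q t) := by
    ext y
    constructor
    · rintro ⟨t, ht, rfl⟩
      exact ⟨⟨t, ht⟩, rfl⟩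
    · rintro ⟨t, rfl⟩
      exact ⟨t, t.2, rfl⟩
  unfold Sp at h
  rw [e] at h
  obtain ⟨w, hw⟩ := (Submodule.mem_span_range_iff_exists_fun K).mp h
  refine ⟨w, fun a b => ?_⟩
  rw [← hw]
  simp only [Finset.sum_apply, Pi.smul_apply, smul_eq_mul, ro]
  exact Finset.sum_congr rfl fun t _ => mul_comm _ _

/-- **The tensor of the mixed second derivatives of the outputs has rank at most `2 m`.** -/
theorem out_rank (σ : ℕ → Op K n) (x : Vars n → K) (m : ℕ) (hD : eval x (fr σ m).1 ≠ 0)
    (o : Fin n × Fin n → Lin K n) :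
    ∃ (j : Fin n × Fin n → Jet K n) (p q w : Fin (2 * m) → Fin n × Fin n → K),
      (∀ c, IsJet x ((o c).num m (fr σ m).1 (fr σ m).2) (fr σ m).1 (j c)) ∧
      ∀ c a b, (j c).m a b = ∑ t, p t a * q t b * w t c := by
  obtain ⟨j, p, q, hj, hsp⟩ := jets σ x m hD
  have h : ∀ c, ((o c).jet x m j).m ∈ Sp p q (2 * m) := by
    intro c
    rw [Lin.jet_m]
    exact Submodule.sum_mem _ fun s hs => Submodule.smul_mem _ _ (hsp s (Finset.mem_range.mp hs))
  choose w hw using fun c => mem_Sp (h c)
  exact ⟨fun c => (o c).jet x m j, fun t => p t, fun t => q t, fun t c => w c t,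
    fun c => (o c).isJet x m _ _ j hj, hw⟩

end

end Pool.Agent.X242.AP
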