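import Pool.Agent.X242.TD3

/-!
# Limits of tensors of small rank and the exponent of matrix multiplication
-/

set_option autoImplicit false

namespace Pool.Agent.X242.AP

open MvPolynomial Pool.Agent.H515R2.MMR Pool.Agent.X242.TD

/-- the index set of the tensor -/
abbrev J3 (n : ℕ) : Type := (Fin n × Fin n) × (Fin n × Fin n) × (Fin n × Fin n)

/-- the tensor of matrix multiplication -/
def mm (K : Type) [Field K] (n : ℕ) : J3 n → K := fun u =>
  if u.1.2 = u.2.1.1 ∧ u.2.1.2 = u.2.2.1 ∧ u.2.2.2 = u.1.1 then 1 else 0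

/-- a tensor of rank at most `R` -/
def rt {K : Type} [Field K] {n R : ℕ} (x y z : Fin R → Fin n × Fin n → K) : J3 n → K :=
  fun u => ∑ t, x t u.1 * y t u.2.1 * z t u.2.2

/-- **Tensors in the Zariski closure.** -/
theorem omega_le_of_zariski {K : Type} [Field K] [CharZero K] {n R : ℕ} (hn : 0 < n)
    (hS : ∀ q : MvPolynomial (J3 n) K, (∀ x y z : Fin R → Fin n × Fin n → K,
      eval (rt x y z) q = 0) → eval (mm K n) q = 0) : (n : ℝ) ^ omega ≤ R := by
  classical
  let S : Set (J3 n → K) := {s | ∃ x y z : Fin R → Fin n × Fin n → K, s = rt x y z}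
  have hS' : ∀ q : MvPolynomial (J3 n) K, (∀ s ∈ S, eval s q = 0) → eval (mm K n) q = 0 :=
    fun q hq => hS q fun x y z => hq _ ⟨x, y, z, rfl⟩
  refine le_of_pow_le (by positivity) (by positivity) (Fintype.card (J3 n)) fun k => ?_
  obtain ⟨D, s, c, hD, hs, hsum⟩ := tpow_closure hS' k
  choose x y z hxyz using hs
  let e : (Fin k → Fin n) ≃ Fin (n ^ k) := finFunctionFinEquiv
  let Rt : Type := Fin D × (Fin k → Fin R)
  let eR : Fin (Fintype.card Rt) ≃ Rt := (Fintype.equivFin Rt).symm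
  have hcard : (Fintype.card Rt : ℝ) = D * (R : ℝ) ^ k := by
    have : Fintype.card Rt = D * R ^ k := by
      simp [Rt, Fintype.card_prod, Fintype.card_fun]
    rw [this]
    push_cast
    ring
  have key := rank_omega (K := K) (m := n ^ k) (R := Fintype.card Rt) (pow_pos hn k)
    (fun t p q => c (eR t).1 * ∏ l, x (eR t).1 ((eR t).2 l) (e.symm p l, e.symm q l))
    (fun t p q => ∏ l, y (eR t).1 ((eR t).2 l) (e.symm p l, e.symm q l))
    (fun t p q => ∏ l, z (eR t).1 ((eR t).2 l) (e.symm p l, e.symm q l)) (by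
    intro i j j' k₁ k₂ l
    have e1 : ∑ t : Fin (Fintype.card Rt),
        c (eR t).1 * (∏ a, x (eR t).1 ((eR t).2 a) (e.symm i a, e.symm j a)) *
          (∏ a, y (eR t).1 ((eR t).2 a) (e.symm j' a, e.symm k₁ a)) *
          (∏ a, z (eR t).1 ((eR t).2 a) (e.symm k₂ a, e.symm l a)) =
        ∑ r : Rt, c r.1 * (∏ a, x r.1 (r.2 a) (e.symm i a, e.symm j a)) *
          (∏ a, y r.1 (r.2 a) (e.symm j' a, e.symm k₁ a)) *
          (∏ a, z r.1 (r.2 a) (e.symm k₂ a, e.symm l a)) :=
      Equiv.sum_comp eR fun r : Rt => c r.1 * (∏ a, x r.1 (r.2 a) (e.symm i a, e.symm j a)) *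
          (∏ a, y r.1 (r.2 a) (e.symm j' a, e.symm k₁ a)) *
          (∏ a, z r.1 (r.2 a) (e.symm k₂ a, e.symm l a))
    rw [e1]
    let U : Fin k → J3 n := fun a =>
      ((e.symm i a, e.symm j a), (e.symm j' a, e.symm k₁ a), (e.symm k₂ a, e.symm l a))
    have e2 : ∑ r : Rt, c r.1 * (∏ a, x r.1 (r.2 a) (e.symm i a, e.symm j a)) *
          (∏ a, y r.1 (r.2 a) (e.symm j' a, e.symm k₁ a)) *
          (∏ a, z r.1 (r.2 a) (e.symm k₂ a, e.symm l a)) = tpow k (mm K n) U := by
      rw [hsum U]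
      show ∑ r : Fin D × (Fin k → Fin R), _ = _
      rw [Fintype.sum_prod_type]
      refine Finset.sum_congr rfl fun d _ => ?_
      unfold tpow
      have e3 : ∀ a, s d (U a) = ∑ t, x d t (U a).1 * y d t (U a).2.1 * z d t (U a).2.2 := by
        intro a
        rw [hxyz d]
        rfl
      simp only [e3]
      rw [Finset.prod_univ_sum, Finset.mul_sum]
      refine Finset.sum_congr (by simp) fun r _ => ?_
      rw [Finset.prod_mul_distrib, Finset.prod_mul_distrib]
      ring
    rw [e2]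
    unfold tpow
    have e4 : ∀ a, mm K n (U a) = if e.symm j a = e.symm j' a ∧ e.symm k₁ a = e.symm k₂ a ∧
        e.symm l a = e.symm i a then 1 else 0 := fun a => rfl
    simp only [e4]
    rw [Finset.prod_ite_zero]
    simp only [Finset.mem_univ, true_imp_iff, Finset.prod_const_one, forall_and]
    have e5 : ∀ p q : Fin (n ^ k), (∀ a, e.symm p a = e.symm q a) ↔ p = q := by
      intro p q
      rw [← funext_iff, e.symm.injective.eq_iff]
    simp only [e5])
  have h1 : (((n ^ k : ℕ) : ℝ)) ^ omega = ((n : ℝ) ^ omega) ^ k := by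
    push_cast
    rw [← Real.rpow_natCast, ← Real.rpow_mul (Nat.cast_nonneg n), mul_comm,
      Real.rpow_mul (Nat.cast_nonneg n), Real.rpow_natCast]
  rw [h1, hcard] at key
  refine key.trans (mul_le_mul_of_nonneg_right ?_ (by positivity))
  exact_mod_cast hD

/-- **Limits of tensors of rank at most `R`.** -/
theorem omega_le_of_limit {K : Type} [NormedField K] [CharZero K] {n R : ℕ} (hn : 0 < n)
    (h : ∀ θ : ℝ, 0 < θ → ∃ x y z : Fin R → Fin n × Fin n → K, ∀ u,
      ‖rt x y z u - mm K n u‖ < θ) : (n : ℝ) ^ omega ≤ R := by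
  refine omega_le_of_zariski (K := K) hn fun q hq => ?_
  have hmem : mm K n ∈ closure {s | ∃ x y z : Fin R → Fin n × Fin n → K, s = rt x y z} := by
    rw [Metric.mem_closure_iff]
    intro θ hθ
    obtain ⟨x, y, z, hxyz⟩ := h θ hθ
    refine ⟨_, ⟨x, y, z, rfl⟩, ?_⟩
    rw [dist_comm, dist_pi_lt_iff hθ]
    intro u
    rw [dist_eq_norm]
    exact hxyz u
  have hcl : IsClosed {s : J3 n → K | eval s q = 0} :=
    isClosed_eq (MvPolynomial.continuous_eval q) continuous_const
  exact closure_minimal (s := {s | ∃ x y z : Fin R → Fin n × Fin n → K, s = rt x y z})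
    (by rintro _ ⟨x, y, z, rfl⟩; exact hq x y z) hcl hmem

/-- **Separation.** -/
theorem separation (K : Type) [NormedField K] [CharZero K] {n R : ℕ} (hn : 0 < n)
    (h : (R : ℝ) < (n : ℝ) ^ omega) : ∃ θ : ℝ, 0 < θ ∧ ∀ x y z : Fin R → Fin n × Fin n → K, ∃ u,
      θ ≤ ‖rt x y z u - mm K n u‖ := by
  by_contra hcon
  push Not at hcon
  exact absurd (omega_le_of_limit (K := K) hn hcon) (not_le.mpr h)

end Pool.Agent.X242.AP
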