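import Pool.Agent.W338.UR.RefA

/-!
# Rotated means of Dirichlet series: the basic estimate

Let `Φ` be the continuation of a Dirichlet series with real coefficients, which converges absolutely
for `Re w > 1`, to a function which is meromorphic at the real points of `[0, 1]`. If `Φ` is
`O (w ^ n)` at `0` then the rotated means are `O (T ^ (-n))`.
-/

set_option autoImplicit false

namespace Pool.Agent.X242.DR

open Complex MeasureTheory Filter Topology Set Asymptotics
open scoped Interval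
open Pool.Agent.W189.ML Pool.Agent.W189.LC Pool.Agent.W187.UR Pool.Agent.W338.UR

/-- decay of the kernel, any power -/
theorem dexp_pow (p : ℕ) {κ : ℝ} (hκ : 0 < κ) : ∃ D : ℝ, 0 ≤ D ∧ ∀ x : ℝ, 0 ≤ x →
    Real.exp (-(κ * Real.exp x)) * x ^ p ≤ D * Real.exp (-x) := by
  refine ⟨((p + 1).factorial : ℝ) / κ ^ (p + 1), by positivity, fun x hx => ?_⟩
  set t := κ * Real.exp x with ht
  have ht0 : 0 < t := by positivity
  have h1 : t ^ (p + 1) / ((p + 1).factorial : ℝ) ≤ Real.exp t :=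
    Real.pow_div_factorial_le_exp t ht0.le (p + 1)
  have h2 : Real.exp (-t) ≤ ((p + 1).factorial : ℝ) / t ^ (p + 1) := by
    rw [Real.exp_neg, ← one_div, div_le_div_iff₀ (Real.exp_pos _) (by positivity), one_mul]
    have : (0 : ℝ) < ((p + 1).factorial : ℝ) := by positivity
    rw [div_le_iff₀ this] at h1
    linarith
  have h3 : x ≤ Real.exp x := by
    have := Real.add_one_le_exp x
    linarith
  have h4 : x ^ p ≤ Real.exp x ^ p := pow_le_pow_left₀ hx h3 p
  calc Real.exp (-t) * x ^ p ≤ (((p + 1).factorial : ℝ) / t ^ (p + 1)) * Real.exp x ^ p := by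
        gcongr
    _ = ((p + 1).factorial : ℝ) / κ ^ (p + 1) * Real.exp (-x) := by
      rw [ht, Real.exp_neg, mul_pow]
      have := Real.exp_pos x
      field_simp
      rw [pow_succ]

/-- bound for the integral over a horizontal side -/
theorem horiz_pow {κ D : ℝ} {p : ℕ} (hD : 0 ≤ D) (hd : ∀ x : ℝ, 0 ≤ x →
    Real.exp (-(κ * Real.exp x)) * x ^ p ≤ D * Real.exp (-x))
    {Ψ : ℂ → ℂ} {a b y A : ℝ} (ha : 0 ≤ a) (hab : a ≤ b)
    (hA : 0 ≤ A) (hy : Real.cos y ≤ -κ) (hΨ : ∀ x ∈ Icc a b, ‖Ψ (x + y * I)‖ ≤ A * x ^ p) :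
    ‖∫ x in a..b, K (x + y * I) * Ψ (x + y * I)‖ ≤ A * D := by
  have h1 : ‖∫ x in a..b, K (x + y * I) * Ψ (x + y * I)‖ ≤
      ∫ x in a..b, A * D * Real.exp (-x) := by
    refine intervalIntegral.norm_integral_le_of_norm_le hab ?_ (by
      exact Continuous.intervalIntegrable (by fun_prop) _ _)
    refine ae_of_all _ fun x hx => ?_
    have hx' : x ∈ Icc a b := ⟨hx.1.le, hx.2⟩
    have hx0 : 0 ≤ x := ha.trans hx'.1
    rw [norm_mul]
    calc ‖K (x + y * I)‖ * ‖Ψ (x + y * I)‖ ≤ Real.exp (-(κ * Real.exp x)) * (A * x ^ p) :=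
          mul_le_mul (norm_K_neg hy) (hΨ x hx') (norm_nonneg _) (Real.exp_pos _).le
      _ = A * (Real.exp (-(κ * Real.exp x)) * x ^ p) := by ring
      _ ≤ A * (D * Real.exp (-x)) := mul_le_mul_of_nonneg_left (hd x hx0) hA
      _ = _ := by ring
  have h2 : ∫ x in a..b, A * D * Real.exp (-x) =
      A * D * (Real.exp (-a) - Real.exp (-b)) := by
    rw [intervalIntegral.integral_const_mul, intervalIntegral.integral_comp_neg
      (f := Real.exp), integral_exp]
  rw [h2] at h1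
  refine h1.trans ?_
  have h3 : Real.exp (-a) ≤ 1 := Real.exp_le_one_iff.2 (by linarith)
  have h4 := Real.exp_pos (-b)
  have h5 : 0 ≤ A * D := by positivity
  nlinarith

/-- local bound at a real point -/
theorem local_bound {Φ : ℂ → ℂ} {x : ℝ} (hx0 : 0 ≤ x) (hx : MeromorphicAt Φ (x : ℂ)) (n : ℕ)
    (h0 : Φ =O[𝓝[≠] 0] fun w : ℂ => w ^ n) :
    ∃ (q : ℕ) (B : ℝ), 0 ≤ B ∧ ∀ᶠ w : ℂ in 𝓝 (x : ℂ), w.im ≠ 0 → DifferentiableAt ℂ Φ w ∧
      ‖Φ w‖ ≤ B * ‖w‖ ^ n * (‖w‖ / |w.im|) ^ q := by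
  have hd : ∀ᶠ w : ℂ in 𝓝 (x : ℂ), w.im ≠ 0 → DifferentiableAt ℂ Φ w := by
    have h1 := hx.eventually_analyticAt
    rw [eventually_nhdsWithin_iff] at h1
    filter_upwards [h1] with w hw him
    refine (hw ?_).differentiableAt
    intro h
    rw [h] at him
    simp at him
  rcases hx0.eq_or_lt with rfl | hxpos
  · obtain ⟨B, hB, h1⟩ := h0.exists_pos
    rw [IsBigOWith, eventually_nhdsWithin_iff] at h1
    refine ⟨0, B, hB.le, ?_⟩
    rw [Complex.ofReal_zero] at hd ⊢
    filter_upwards [hd, h1] with w e1 e2 him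
    refine ⟨e1 him, ?_⟩
    have hne : w ≠ 0 := by
      rintro rfl
      simp at him
    have := e2 hne
    rw [norm_pow] at this
    simpa using this
  · obtain ⟨k, hk⟩ := hx
    obtain ⟨M, hM⟩ : ∃ M : ℝ, ∀ᶠ w : ℂ in 𝓝 (x : ℂ), ‖(w - x) ^ k • Φ w‖ ≤ M := by
      refine ⟨‖((x : ℂ) - x) ^ k • Φ x‖ + 1, ?_⟩
      have := hk.continuousAt.norm
      filter_upwards [this.eventually (gt_mem_nhds (lt_add_one _))] with w hw
      exact hw.le
    have hM0 : 0 ≤ M := by
      obtain ⟨w, hw⟩ := hM.exists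
      exact (norm_nonneg _).trans hw
    refine ⟨k, M * (2 / x) ^ k * (2 / x) ^ n, by positivity, ?_⟩
    have hball : ∀ᶠ w : ℂ in 𝓝 (x : ℂ), dist w (x : ℂ) < x / 2 :=
      Metric.eventually_nhds_iff.2 ⟨x / 2, by positivity, fun w hw => hw⟩
    filter_upwards [hd, hM, hball] with w e1 e2 e3 him
    refine ⟨e1 him, ?_⟩
    have him0 : 0 < |w.im| := abs_pos.2 him
    have hne : w - x ≠ 0 := by
      intro h
      apply him
      have := congrArg Complex.im h
      simpa using this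
    have h1 : |w.im| ≤ ‖w - x‖ := by
      have := Complex.abs_im_le_norm (w - x)
      simpa using this
    have h2 : x / 2 ≤ ‖w‖ := by
      have e4 : ‖(x : ℂ)‖ ≤ ‖w‖ + dist w x := by
        rw [Complex.dist_eq]
        have := norm_sub_le w (w - x)
        simpa using this
      rw [Complex.norm_real, Real.norm_eq_abs, abs_of_pos hxpos] at e4
      linarith
    have hw0 : 0 < ‖w‖ := by linarith
    rw [norm_smul, norm_pow] at e2
    have h3 : ‖Φ w‖ ≤ M / |w.im| ^ k := by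
      rw [le_div_iff₀ (by positivity)]
      calc ‖Φ w‖ * |w.im| ^ k ≤ ‖Φ w‖ * ‖w - x‖ ^ k := by gcongr
        _ = ‖w - x‖ ^ k * ‖Φ w‖ := mul_comm _ _
        _ ≤ M := e2
    refine h3.trans ?_
    have h4 : 1 ≤ (2 / x) * ‖w‖ := by
      rw [div_mul_eq_mul_div, le_div_iff₀ hxpos]
      linarith
    have h5 : (1 : ℝ) ≤ ((2 / x) * ‖w‖) ^ k := one_le_pow₀ h4
    have h6 : (1 : ℝ) ≤ ((2 / x) * ‖w‖) ^ n := one_le_pow₀ h4
    calc M / |w.im| ^ k = M / |w.im| ^ k * 1 * 1 := by ring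
      _ ≤ M / |w.im| ^ k * ((2 / x) * ‖w‖) ^ k * ((2 / x) * ‖w‖) ^ n := by gcongr
      _ = M * (2 / x) ^ k * (2 / x) ^ n * ‖w‖ ^ n * (‖w‖ / |w.im|) ^ k := by
        rw [mul_pow, mul_pow, div_pow ‖w‖]
        ring

/-- bound in a strip around the segment -/
theorem strip_bound {Φ : ℂ → ℂ} (hmer : ∀ x ∈ Icc (0 : ℝ) 2, MeromorphicAt Φ (x : ℂ)) (n : ℕ)
    (h0 : Φ =O[𝓝[≠] 0] fun w : ℂ => w ^ n) :
    ∃ (η B : ℝ) (q : ℕ), 0 < η ∧ 0 ≤ B ∧ ∀ w : ℂ, 0 ≤ w.re → w.re ≤ 2 → |w.im| ≤ η → w.im ≠ 0 →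
      DifferentiableAt ℂ Φ w ∧ ‖Φ w‖ ≤ B * ‖w‖ ^ n * (‖w‖ / |w.im|) ^ q := by
  set Kc : Set ℂ := (fun x : ℝ => (x : ℂ)) '' Icc 0 2 with hKc
  have hKcc : IsCompact Kc := isCompact_Icc.image (by fun_prop)
  have h1 : ∀ z ∈ Kc, ∃ (q : ℕ) (B : ℝ), 0 ≤ B ∧ ∀ᶠ w : ℂ in 𝓝 z, w.im ≠ 0 →
      DifferentiableAt ℂ Φ w ∧ ‖Φ w‖ ≤ B * ‖w‖ ^ n * (‖w‖ / |w.im|) ^ q := by
    rintro _ ⟨x, hx, rfl⟩
    exact local_bound hx.1 (hmer x hx) n h0
  choose! q B hB hU using h1
  obtain ⟨t, ht1, ht2⟩ := hKcc.elim_nhds_subcover (fun z => interior {w : ℂ | w.im ≠ 0 →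
      DifferentiableAt ℂ Φ w ∧ ‖Φ w‖ ≤ B z * ‖w‖ ^ n * (‖w‖ / |w.im|) ^ q z})
    (fun z hz => interior_mem_nhds.2 (hU z hz))
  have hopen : IsOpen (⋃ z ∈ t, interior {w : ℂ | w.im ≠ 0 →
      DifferentiableAt ℂ Φ w ∧ ‖Φ w‖ ≤ B z * ‖w‖ ^ n * (‖w‖ / |w.im|) ^ q z}) :=
    isOpen_biUnion fun z _ => isOpen_interior
  obtain ⟨δ, hδ, hth⟩ := hKcc.exists_thickening_subset_open hopen ht2
  have hBt : ∀ z ∈ t, 0 ≤ B z := fun z hz => hB z (ht1 z hz)
  refine ⟨δ / 2, ∑ z ∈ t, B z, t.sup q, by positivity, Finset.sum_nonneg hBt,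
    fun w e1 e2 e3 e4 => ?_⟩
  have hw : w ∈ Metric.thickening δ Kc := by
    rw [Metric.mem_thickening_iff]
    refine ⟨(w.re : ℂ), ⟨w.re, ⟨e1, e2⟩, rfl⟩, ?_⟩
    rw [Complex.dist_eq]
    have : w - (w.re : ℂ) = ((w.im : ℝ) : ℂ) * I := by
      apply Complex.ext <;> simp
    rw [this, norm_mul, Complex.norm_I, mul_one, Complex.norm_real, Real.norm_eq_abs]
    linarith
  obtain ⟨z, hz, hwz⟩ := mem_iUnion₂.1 (hth hw)
  obtain ⟨f1, f2⟩ := interior_subset hwz e4
  refine ⟨f1, f2.trans ?_⟩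
  have him0 : 0 < |w.im| := abs_pos.2 e4
  have h5 : 1 ≤ ‖w‖ / |w.im| := by
    rw [one_le_div him0]
    exact Complex.abs_im_le_norm w
  have h6 : B z ≤ ∑ z ∈ t, B z := Finset.single_le_sum hBt hz
  have h7 : (‖w‖ / |w.im|) ^ q z ≤ (‖w‖ / |w.im|) ^ t.sup q :=
    pow_le_pow_right₀ h5 (Finset.le_sup hz)
  have h8 : 0 ≤ ∑ z ∈ t, B z := Finset.sum_nonneg hBt
  gcongr

/-- Dirichlet series with real coefficients `c i` and frequencies `lam i ≥ 0`, which converge
absolutely for `Re w > 1`, and a continuation `Φ` which is meromorphic at the real points of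
`[0, 1]`. -/
structure DData {ι : Type} (lam c : ι → ℝ) (Φ : ℂ → ℂ) : Prop where
  cnt : Countable ι
  lam_pos : ∀ i, 0 ≤ lam i
  sum : ∀ σ : ℝ, 1 < σ → Summable fun i => |c i| * Real.exp (-(σ * lam i))
  mero : ∀ x : ℝ, 0 ≤ x → x ≤ 1 → MeromorphicAt Φ (x : ℂ)
  eq : ∀ w : ℂ, 1 < w.re → Φ w = ser lam c w

namespace DData

variable {ι : Type} {lam c : ι → ℝ} {Φ : ℂ → ℂ}

theorem ser_analytic (D : DData lam c Φ) {w : ℂ} (hw : 1 < w.re) : AnalyticAt ℂ (ser lam c) w := by
  set σ : ℝ := (1 + w.re) / 2 with hσ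
  have hσ1 : 1 < σ := by rw [hσ]; linarith
  have hσw : σ < w.re := by rw [hσ]; linarith
  have hopen : IsOpen {z : ℂ | σ < z.re} := isOpen_lt continuous_const Complex.continuous_re
  have h1 : DifferentiableOn ℂ (ser lam c) {z : ℂ | σ < z.re} := by
    unfold ser
    refine Complex.differentiableOn_tsum_of_summable_norm (D.sum σ hσ1) (fun i => ?_) hopen
      (fun i z hz => ?_)
    · exact Differentiable.differentiableOn (by fun_prop)
    · rw [norm_mul, Complex.norm_real, Real.norm_eq_abs, Complex.norm_exp]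
      refine mul_le_mul_of_nonneg_left ?_ (abs_nonneg _)
      apply Real.exp_le_exp.2
      have h2 : (-(z * lam i)).re = -(z.re * lam i) := by
        rw [Complex.neg_re, Complex.re_mul_ofReal]
      rw [h2]
      have hz' : σ < z.re := hz
      have := D.lam_pos i
      nlinarith
  exact h1.analyticAt (hopen.mem_nhds hσw)

theorem analytic (D : DData lam c Φ) {w : ℂ} (hw : 1 < w.re) : AnalyticAt ℂ Φ w := by
  refine (D.ser_analytic hw).congr ?_
  have hopen : IsOpen {z : ℂ | 1 < z.re} := isOpen_lt continuous_const Complex.continuous_re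
  filter_upwards [hopen.mem_nhds hw] with z hz
  exact (D.eq z hz).symm

theorem mero2 (D : DData lam c Φ) : ∀ x ∈ Icc (0 : ℝ) 2, MeromorphicAt Φ (x : ℂ) := by
  intro x hx
  by_cases h : x ≤ 1
  · exact D.mero x hx.1 h
  · push Not at h
    exact (D.analytic (w := (x : ℂ)) (by simpa using h)).meromorphicAt

theorem sdata (D : DData lam c Φ) : SData lam c (fun _ => 0) where
  lam_pos := D.lam_pos
  sum := D.sum 2 (by norm_num)
  Gd := fun _ _ => differentiableAt_const _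
  Gb := ⟨0, fun _ _ _ => by simp⟩
  G2 := by simp

set_option maxHeartbeats 1000000 in
/-- **The basic estimate.** -/
theorem small (D : DData lam c Φ) {γ : ℝ} (hγ : Real.pi / 2 < γ) (n : ℕ)
    (h0 : Φ =O[𝓝[≠] 0] fun w : ℂ => w ^ n) :
    ∃ C T₀ : ℝ, 0 ≤ C ∧ 1 ≤ T₀ ∧ ∀ T ≥ T₀, ‖cmean lam c γ T‖ ≤ C / T ^ n := by
  have := D.cnt
  have S := D.sdata
  obtain ⟨η, B, q, hη, hB, hstrip⟩ := strip_bound D.mero2 n h0
  obtain ⟨hθ1, hθ2, hθ3, hκ0⟩ := th_facts hγ
  have hpi := Real.pi_pos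
  have hpi4 := Real.pi_lt_four
  have hγ0 : 0 < γ := by linarith
  set θ : ℝ := th γ with hθ
  set κ : ℝ := -Real.cos θ with hκ
  have hκ1 : κ ≤ 1 := by
    have := Real.neg_one_le_cos θ
    rw [hκ]; linarith
  set δ : ℝ := γ - θ with hδ
  have hδ0 : 0 < δ := by rw [hδ]; linarith
  set p : ℕ := n + q with hp
  obtain ⟨Dp, hDp0, hDp⟩ := dexp_pow p hκ0
  obtain ⟨D0, hD00, hD0⟩ := dexp_pow 0 hκ0
  set a : ℝ := 1 + γ with ha
  have ha1 : 1 ≤ a := by rw [ha]; linarith
  set A : ℝ := B * 5 ^ n * (5 / δ) ^ q with hA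
  have hA0 : 0 ≤ A := by positivity
  set S2 : ℝ := ∑' i, |c i| * Real.exp (-(2 * lam i)) with hS2
  have hS20 : 0 ≤ S2 := tsum_nonneg fun i => by positivity
  set F : ℝ := (n.factorial : ℝ) with hF
  have hF0 : 0 < F := by rw [hF]; positivity
  refine ⟨(Real.exp (Real.exp a) * (A * a ^ p) * (2 * Real.pi) + A * Dp + A * Dp) +
    S2 * D0 * F + S2 * F, (Real.pi + γ) / η + (1 + γ) + 1, by positivity,
    by
      have : 0 < (Real.pi + γ) / η := by positivity
      linarith, fun T hT => ?_⟩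
  have hq : 0 < (Real.pi + γ) / η := by positivity
  have hT1 : 1 ≤ T := by linarith
  have hTa : a ≤ T := by linarith
  have hT0 : 0 < T := by linarith
  set b : ℝ := 2 * T with hb
  have hb0 : 0 ≤ b := by linarith
  have hab : a ≤ b := by linarith
  set Ψ : ℂ → ℂ := fun z => Φ (ww γ T z) with hΨ
  have hwd : Differentiable ℂ (ww γ T) := by unfold ww; fun_prop
  have hAT : 0 ≤ A / T ^ n := by positivity
  have hexpb : Real.exp (-b) ≤ F / T ^ n := by
    have h1 : T ^ n / F ≤ Real.exp T := Real.pow_div_factorial_le_exp T hT0.le n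
    have h2 : Real.exp (-b) ≤ Real.exp (-T) := Real.exp_le_exp.2 (by linarith)
    refine h2.trans ?_
    rw [Real.exp_neg, ← one_div, div_le_div_iff₀ (Real.exp_pos _) (by positivity), one_mul]
    rw [div_le_iff₀ hF0] at h1
    linarith
  have hrect : ∀ z : ℂ, a ≤ z.re → z.re ≤ b → -Real.pi ≤ z.im → z.im ≤ θ →
      DifferentiableAt ℂ Ψ z ∧ ‖Ψ z‖ ≤ A / T ^ n * z.re ^ p := by
    intro z h1 h2 h3 h4
    have hz0 : 0 < z.re := by linarith
    obtain ⟨h5, h6, h7, h8⟩ := dom hη hγ hT hz0 h2 h3 h4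
    have hzn : ‖z - γ * I‖ ≤ 5 * z.re := by
      have e1 := Complex.norm_le_abs_re_add_abs_im (z - γ * I)
      have e2 : (z - γ * I).re = z.re := by simp
      have e3 : (z - γ * I).im = z.im - γ := by simp
      rw [e2, e3, abs_of_pos hz0] at e1
      have e4 : |z.im - γ| ≤ Real.pi + γ := by
        rw [abs_le]; constructor <;> linarith
      have e5 : Real.pi + γ ≤ 4 * z.re := by
        have : a = 1 + γ := ha
        nlinarith
      linarith
    have hwn : ‖ww γ T z‖ ≤ 5 * z.re / T := by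
      unfold ww
      rw [norm_div, Complex.norm_real, Real.norm_eq_abs, abs_of_pos hT0]
      exact div_le_div_of_nonneg_right hzn hT0.le
    have hwi : |(ww γ T z).im| = (γ - z.im) / T := by
      rw [abs_of_neg h8, ww_im]
      ring
    have hwi2 : δ / T ≤ |(ww γ T z).im| := by
      rw [hwi]
      exact div_le_div_of_nonneg_right (by linarith) hT0.le
    obtain ⟨g1, g2⟩ := hstrip (ww γ T z) h5.le h6 (by rw [abs_of_neg h8]; linarith) h8.ne
    refine ⟨DifferentiableAt.comp (g := Φ) (f := ww γ T) z g1 (hwd z), g2.trans ?_⟩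
    have hquo : ‖ww γ T z‖ / |(ww γ T z).im| ≤ 5 / δ * z.re := by
      have hd0 : 0 < δ / T := by positivity
      calc ‖ww γ T z‖ / |(ww γ T z).im| ≤ (5 * z.re / T) / (δ / T) := by gcongr
        _ = 5 / δ * z.re := by field_simp
    calc B * ‖ww γ T z‖ ^ n * (‖ww γ T z‖ / |(ww γ T z).im|) ^ q ≤
          B * (5 * z.re / T) ^ n * (5 / δ * z.re) ^ q := by
          gcongr
      _ = A / T ^ n * z.re ^ p := by
        rw [hA, hp, div_pow, mul_pow, mul_pow, pow_add]
        ring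
  -- Cauchy's theorem
  have E6 := shift (f := fun z => K z * Ψ z) (a := a) (b := b) (θ := θ) (by
    intro z hz
    rw [mem_reProdIm, uIcc_of_le hab, uIcc_of_le (by linarith)] at hz
    exact ((differentiable_K z).mul (hrect z hz.1.1 hz.1.2 hz.2.1 hz.2.2).1).differentiableWithinAt)
  have E7 : ‖∫ y in (-Real.pi)..θ, K (a + y * I) * Ψ (a + y * I)‖ ≤
      Real.exp (Real.exp a) * (A / T ^ n * a ^ p) * (2 * Real.pi) := by
    have h1 : ‖∫ y in (-Real.pi)..θ, K (a + y * I) * Ψ (a + y * I)‖ ≤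
        (Real.exp (Real.exp a) * (A / T ^ n * a ^ p)) * |θ - -Real.pi| := by
      refine intervalIntegral.norm_integral_le_of_norm_le_const fun y hy => ?_
      rw [uIoc_of_le (by linarith)] at hy
      rw [norm_mul]
      have h2 := (hrect (a + y * I) (by simp) (by simpa using hab) (by simpa using hy.1.le)
        (by simpa using hy.2)).2
      have h3 : ((a : ℂ) + y * I).re = a := by simp
      rw [h3] at h2
      exact mul_le_mul (norm_K_le a y) h2 (norm_nonneg _) (Real.exp_pos _).le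
    have h4 : |θ - -Real.pi| ≤ 2 * Real.pi := by
      rw [abs_of_nonneg (by linarith)]; linarith
    refine h1.trans ?_
    gcongr
  have E8 : ‖∫ x in a..b, K (x + θ * I) * Ψ (x + θ * I)‖ ≤ A / T ^ n * Dp := by
    refine horiz_pow hDp0 hDp (by linarith) hab hAT (by rw [hκ]; linarith) fun x hx => ?_
    have h2 := (hrect (x + θ * I) (by simpa using hx.1) (by simpa using hx.2)
      (by simp; linarith) (by simp)).2
    simpa using h2
  have E9 : ‖∫ x in a..b, K (x - Real.pi * I) * Ψ (x - Real.pi * I)‖ ≤ A / T ^ n * Dp := by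
    have h1 : ∀ x : ℝ, (x : ℂ) - Real.pi * I = x + ((-Real.pi : ℝ) : ℂ) * I := by
      intro x; push_cast; ring
    simp only [h1]
    refine horiz_pow hDp0 hDp (by linarith) hab hAT ?_ fun x hx => ?_
    · rw [Real.cos_neg, Real.cos_pi]; linarith
    · have h2 := (hrect (x + ((-Real.pi : ℝ) : ℂ) * I) (by simpa using hx.1) (by simpa using hx.2)
        (by simp) (by simp; linarith)).2
      simpa using h2
  have E10 : ‖∫ y in (-Real.pi)..θ, K (b + y * I) * Ψ (b + y * I)‖ ≤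
      (Real.exp (Real.exp a) * (A * a ^ p) * (2 * Real.pi) + A * Dp + A * Dp) / T ^ n := by
    have h1 : ‖∫ y in (-Real.pi)..θ, K (b + y * I) * Ψ (b + y * I)‖ =
        ‖I * ∫ y in (-Real.pi)..θ, K (b + y * I) * Ψ (b + y * I)‖ := by
      rw [norm_mul, Complex.norm_I, one_mul]
    rw [h1, E6]
    have h2 : (Real.exp (Real.exp a) * (A * a ^ p) * (2 * Real.pi) + A * Dp + A * Dp) / T ^ n =
        Real.exp (Real.exp a) * (A / T ^ n * a ^ p) * (2 * Real.pi) +
        A / T ^ n * Dp + A / T ^ n * Dp := by ring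
    rw [h2]
    refine (norm_sub_le _ _).trans (add_le_add ((norm_add_le _ _).trans (add_le_add ?_ E8)) E9)
    rw [norm_mul, Complex.norm_I, one_mul]
    exact E7
  -- the right part
  have hre2 : ∀ z ∈ HS b, 2 ≤ (ww γ T z).re := by
    intro z hz
    rw [ww_re, le_div_iff₀ hT0]
    exact hz.1
  have hsb : ∀ z ∈ HS b, ‖ser lam c (ww γ T z)‖ ≤ S2 := fun z hz => S.ser_le (hre2 z hz)
  have admS : Adm b (fun z : ℂ => ser lam c (ww γ T z)) := by
    refine ⟨S.ser_cont.comp hwd.continuous.continuousOn hre2, S2, 0, hS20, le_rfl,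
      fun z hz => ?_⟩
    have := hsb z hz
    linarith
  have E1 : ‖∫ x in Ioi b, rho (fun z => ser lam c (ww γ T z)) x‖ ≤ S2 * F / T ^ n := by
    have h1 := norm_rays_le' (Φ := fun z => ser lam c (ww γ T z)) (A := S2) (B := 0) hb0 hS20 le_rfl
      (s := Ioi b)
      (fun x hx => by have := hsb _ (up_mem (le_of_lt hx)); linarith)
      (fun x hx => by have := hsb _ (down_mem (le_of_lt hx)); linarith)
      subset_rfl measurableSet_Ioi
    refine h1.trans ?_
    rw [add_zero, mul_div_assoc]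
    exact mul_le_mul_of_nonneg_left hexpb hS20
  have E2 : ‖∫ y in θ..Real.pi, K (b + y * I) * ser lam c (ww γ T (b + y * I))‖ ≤
      (S2 * D0 * F / T ^ n) * |Real.pi - θ| := by
    refine intervalIntegral.norm_integral_le_of_norm_le_const fun y hy => ?_
    rw [uIoc_of_le hθ3] at hy
    rw [norm_mul]
    have h1 : ‖K (b + y * I)‖ ≤ Real.exp (-(κ * Real.exp b)) := by
      refine norm_K_neg ?_
      rw [hκ, neg_neg]
      exact Real.cos_le_cos_of_nonneg_of_le_pi (by linarith) hy.2 hy.1.le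
    have h2 := hsb (b + y * I) (vert_mem (by linarith [hy.1]) hy.2)
    have h3 : Real.exp (-(κ * Real.exp b)) ≤ D0 * Real.exp (-b) := by
      have := hD0 b hb0
      simpa using this
    calc ‖K (b + y * I)‖ * ‖ser lam c (ww γ T (b + y * I))‖
        ≤ (D0 * (F / T ^ n)) * S2 :=
          mul_le_mul (h1.trans (h3.trans (mul_le_mul_of_nonneg_left hexpb hD00))) h2
            (norm_nonneg _) (by positivity)
      _ = _ := by ring
  have hii := admS.vint
  have hsub1 : IntervalIntegrable (fun y : ℝ => K (b + y * I) * ser lam c (ww γ T (b + y * I)))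
      volume (-Real.pi) θ := hii.mono_set (by
        rw [uIcc_of_le (by linarith), uIcc_of_le (by linarith)]
        exact Icc_subset_Icc le_rfl hθ3)
  have hsub2 : IntervalIntegrable (fun y : ℝ => K (b + y * I) * ser lam c (ww γ T (b + y * I)))
      volume θ Real.pi := hii.mono_set (by
        rw [uIcc_of_le (by linarith), uIcc_of_le (by linarith)]
        exact Icc_subset_Icc (by linarith) le_rfl)
  have E4 := intervalIntegral.integral_add_adjacent_intervals hsub1 hsub2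
  have hcong : (∫ y in (-Real.pi)..θ, K (b + y * I) * ser lam c (ww γ T (b + y * I))) =
      ∫ y in (-Real.pi)..θ, K (b + y * I) * Ψ (b + y * I) := by
    refine intervalIntegral.integral_congr fun y hy => ?_
    have hre : (ww γ T (b + y * I)).re = 2 := by
      rw [ww_re, hb]
      simp
      field_simp
    show K (b + y * I) * ser lam c (ww γ T (b + y * I)) = K (b + y * I) * Φ (ww γ T (b + y * I))
    rw [D.eq _ (by rw [hre]; norm_num)]
  have hn2 : ‖(2 * Real.pi : ℂ)⁻¹‖ = (2 * Real.pi)⁻¹ := by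
    rw [norm_inv, norm_mul, Complex.norm_real, Real.norm_eq_abs, abs_of_pos Real.pi_pos]
    norm_num
  have hpi3 := Real.pi_gt_three
  have hpt : |Real.pi - θ| ≤ 2 * Real.pi := by
    rw [abs_of_nonneg (by linarith)]; linarith
  set X : ℝ := Real.exp (Real.exp a) * (A * a ^ p) * (2 * Real.pi) + A * Dp + A * Dp with hX
  have hX0 : 0 ≤ X := by positivity
  have E5 : ‖V b (fun z => ser lam c (ww γ T z))‖ ≤ X / T ^ n + S2 * D0 * F / T ^ n := by
    unfold V
    rw [← E4, norm_mul, hn2, inv_mul_le_iff₀ (by positivity), hcong]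
    refine (norm_add_le _ _).trans ?_
    have hx : 0 ≤ X / T ^ n := by positivity
    have hy : 0 ≤ S2 * D0 * F / T ^ n := by positivity
    have h1 : X / T ^ n ≤ 2 * Real.pi * (X / T ^ n) := by nlinarith
    have h2 : S2 * D0 * F / T ^ n * |Real.pi - θ| ≤ S2 * D0 * F / T ^ n * (2 * Real.pi) :=
      mul_le_mul_of_nonneg_left hpt hy
    calc _ ≤ X / T ^ n + S2 * D0 * F / T ^ n * |Real.pi - θ| := add_le_add E10 E2
      _ ≤ 2 * Real.pi * (X / T ^ n) + S2 * D0 * F / T ^ n * (2 * Real.pi) := add_le_add h1 h2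
      _ = _ := by ring
  have hJ : J b (fun z => ser lam c (ww γ T z)) = cmean lam c γ T :=
    (cmean_eq (γ := γ) (b := b) S hT1 le_rfl).1
  rw [← hJ]
  unfold J
  refine (norm_add_le _ _).trans ((add_le_add E5 E1).trans (le_of_eq ?_))
  ring

end DData

end Pool.Agent.X242.DR
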