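import Pool.Agent.X242.DR10

/-!
# Partial zeta functions with Euler factors removed at further primes
-/

set_option autoImplicit false

namespace Pool.Agent.X242.DR

open Filter Topology Asymptotics NumberField IsDedekindDomain

section

variable {K : Type} [Field K] [NumberField K]

/-- The ideal is prime to `𝔪` and to the primes in `T`. -/
def Pr (𝔪 : Ideal (𝓞 K)) (T : Finset (HeightOneSpectrum (𝓞 K))) (𝔞 : Ideal (𝓞 K)) : Prop :=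
  IsCoprime 𝔞 𝔪 ∧ ∀ v ∈ T, ¬ 𝔞 ≤ v.asIdeal

/-- The partial zeta functions `∑ N(𝔞)^{-s}`, summed over the ideals `𝔞` prime to `𝔪` and `T` with `c 𝔞 = g`: series,
continued (holomorphic outside of `1`, meromorphic at `1`). -/
structure PZT {G : Type} (𝔪 : Ideal (𝓞 K)) (T : Finset (HeightOneSpectrum (𝓞 K)))
    (c : Ideal (𝓞 K) → G) (ζ : G → ℂ → ℂ) : Prop where
  series : ∀ (g : G) (s : ℂ), 1 < s.re →
    HasSum (fun 𝔞 : {𝔞 : Ideal (𝓞 K) // Pr 𝔪 T 𝔞 ∧ c 𝔞 = g} =>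
      ((Ideal.absNorm 𝔞.1 : ℕ) : ℂ) ^ (-s)) (ζ g s)
  analytic : ∀ (g : G) (s : ℂ), s ≠ 1 → AnalyticAt ℂ (ζ g) s
  mero : ∀ g : G, MeromorphicAt (ζ g) 1

/-- The `L`-function `∑ ψ(c 𝔞)⁻¹ N(𝔞)^{-s}` over the ideals `𝔞` prime to `𝔪` and `T`: series, continued. -/
structure IsLT {G : Type} [Group G] (𝔪 : Ideal (𝓞 K)) (T : Finset (HeightOneSpectrum (𝓞 K)))
    (c : Ideal (𝓞 K) → G) (ψ : G →* ℂˣ) (L : ℂ → ℂ) : Prop where
  series : ∀ s : ℂ, 1 < s.re →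
    HasSum (fun 𝔞 : {𝔞 : Ideal (𝓞 K) // Pr 𝔪 T 𝔞} =>
      ((ψ (c 𝔞.1))⁻¹ : ℂˣ) * ((Ideal.absNorm 𝔞.1 : ℕ) : ℂ) ^ (-s)) (L s)
  analytic : ∀ s : ℂ, s ≠ 1 → AnalyticAt ℂ L s
  mero : MeromorphicAt L 1

theorem PZT_empty {G : Type} {𝔪 : Ideal (𝓞 K)} {c : Ideal (𝓞 K) → G} {ζ : G → ℂ → ℂ}
    (h : PZ 𝔪 c ζ) : PZT 𝔪 ∅ c ζ := by
  refine ⟨fun g s hs => ?_, h.analytic, h.mero⟩
  have e : {𝔞 : Ideal (𝓞 K) | Pr 𝔪 ∅ 𝔞 ∧ c 𝔞 = g} = {𝔞 : Ideal (𝓞 K) | IsCoprime 𝔞 𝔪 ∧ c 𝔞 = g} := by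
    ext 𝔞
    simp [Pr]
  have h1 := (hasSum_subtype_iff_indicator (s := {𝔞 : Ideal (𝓞 K) | IsCoprime 𝔞 𝔪 ∧ c 𝔞 = g})
      (f := fun 𝔞 : Ideal (𝓞 K) => ((Ideal.absNorm 𝔞 : ℕ) : ℂ) ^ (-s))).1 (h.series g s hs)
  rw [← e] at h1
  exact (hasSum_subtype_iff_indicator (s := {𝔞 : Ideal (𝓞 K) | Pr 𝔪 ∅ 𝔞 ∧ c 𝔞 = g})
      (f := fun 𝔞 : Ideal (𝓞 K) => ((Ideal.absNorm 𝔞 : ℕ) : ℂ) ^ (-s))).2 h1

theorem norm_diff (v : HeightOneSpectrum (𝓞 K)) :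
    Differentiable ℂ fun s : ℂ => ((Ideal.absNorm v.asIdeal : ℕ) : ℂ) ^ (-s) := by
  have h0 : ((Ideal.absNorm v.asIdeal : ℕ) : ℂ) ≠ 0 := by
    rw [Nat.cast_ne_zero]
    exact fun h => v.ne_bot (Ideal.absNorm_eq_zero_iff.1 h)
  intro s
  exact (differentiableAt_id.neg).const_cpow (Or.inl h0)

/-- **Removal of one more Euler factor.** -/
theorem PZT.step {G : Type} [Group G] {𝔪 : Ideal (𝓞 K)} {T : Finset (HeightOneSpectrum (𝓞 K))}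
    {c : Ideal (𝓞 K) → G} {ζ : G → ℂ → ℂ}
    (mul : ∀ I J : Ideal (𝓞 K), IsCoprime I 𝔪 → IsCoprime J 𝔪 → c (I * J) = c I * c J)
    {v : HeightOneSpectrum (𝓞 K)} [DecidableEq (HeightOneSpectrum (𝓞 K))]
    (hv : IsCoprime v.asIdeal 𝔪) (hvT : v ∉ T) (h : PZT 𝔪 T c ζ) :
    PZT 𝔪 (insert v T) c fun g s => ζ g s - ((Ideal.absNorm v.asIdeal : ℕ) : ℂ) ^ (-s) *
      ζ ((c v.asIdeal)⁻¹ * g) s := by
  have hcp := norm_diff v
  refine ⟨fun g s hs => ?_, fun g s hs => ?_, fun g => ?_⟩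
  · set f : Ideal (𝓞 K) → ℂ := fun 𝔞 => ((Ideal.absNorm 𝔞 : ℕ) : ℂ) ^ (-s) with hf
    set A : Set (Ideal (𝓞 K)) := {𝔞 | Pr 𝔪 T 𝔞 ∧ c 𝔞 = g} with hA
    set B : Set (Ideal (𝓞 K)) := {𝔞 | Pr 𝔪 T 𝔞 ∧ c 𝔞 = (c v.asIdeal)⁻¹ * g} with hB
    have h1 : HasSum (A.indicator f) (ζ g s) := hasSum_subtype_iff_indicator.1 (h.series g s hs)
    have h2 : HasSum (fun 𝔟 : B => f 𝔟.1) (ζ ((c v.asIdeal)⁻¹ * g) s) := h.series _ s hs
    set φ : B → Ideal (𝓞 K) := fun 𝔟 => v.asIdeal * 𝔟.1 with hφ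
    have hφi : Function.Injective φ := by
      intro a b hab
      exact Subtype.ext (mul_left_cancel₀ v.ne_bot hab)
    have h3 : HasSum (f ∘ φ) (((Ideal.absNorm v.asIdeal : ℕ) : ℂ) ^ (-s) *
        ζ ((c v.asIdeal)⁻¹ * g) s) := by
      refine (h2.mul_left (((Ideal.absNorm v.asIdeal : ℕ) : ℂ) ^ (-s))).congr_fun fun 𝔟 => ?_
      simp only [Function.comp, hφ, hf]
      rw [map_mul, Nat.cast_mul, Complex.natCast_mul_natCast_cpow]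
    have h4 : HasSum ((Set.range φ).indicator f) (((Ideal.absNorm v.asIdeal : ℕ) : ℂ) ^ (-s) *
        ζ ((c v.asIdeal)⁻¹ * g) s) := by
      rw [← hasSum_subtype_iff_indicator]
      exact (hφi.hasSum_range_iff (f := f)).2 h3
    have hmem : ∀ 𝔞, 𝔞 ∈ Set.range φ ↔ 𝔞 ∈ A ∧ 𝔞 ≤ v.asIdeal := by
      intro 𝔞
      constructor
      · rintro ⟨⟨𝔟, ⟨hb1, hb2⟩, hb3⟩, rfl⟩
        refine ⟨⟨⟨hv.mul_left hb1, fun w hw hle => ?_⟩, ?_⟩, Ideal.mul_le_left⟩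
        · rcases (w.isPrime.mul_le.1 hle) with h5 | h5
          · have h6 : v.asIdeal = w.asIdeal := v.isMaximal.eq_of_le w.isPrime.ne_top h5
            have h7 : v = w := HeightOneSpectrum.ext h6
            exact hvT (h7 ▸ hw)
          · exact hb2 w hw h5
        · show c (v.asIdeal * 𝔟) = g
          rw [mul _ _ hv hb1, hb3, mul_inv_cancel_left]
      · rintro ⟨⟨⟨ha1, ha2⟩, ha3⟩, ha4⟩
        obtain ⟨𝔟, rfl⟩ := Ideal.dvd_iff_le.2 ha4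
        have hb1 : IsCoprime 𝔟 𝔪 := ha1.of_mul_left_right
        refine ⟨⟨𝔟, ⟨hb1, fun w hw hle => ha2 w hw (le_trans Ideal.mul_le_right hle)⟩, ?_⟩, rfl⟩
        rw [mul _ _ hv hb1] at ha3
        rw [← ha3, inv_mul_cancel_left]
    have h5 := h1.sub h4
    have h6 : HasSum (({𝔞 | Pr 𝔪 (insert v T) 𝔞 ∧ c 𝔞 = g} : Set (Ideal (𝓞 K))).indicator f)
        (ζ g s - ((Ideal.absNorm v.asIdeal : ℕ) : ℂ) ^ (-s) * ζ ((c v.asIdeal)⁻¹ * g) s) := by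
      refine h5.congr_fun fun 𝔞 => ?_
      have hiff : 𝔞 ∈ ({𝔞 | Pr 𝔪 (insert v T) 𝔞 ∧ c 𝔞 = g} : Set (Ideal (𝓞 K))) ↔
          𝔞 ∈ A ∧ ¬ 𝔞 ≤ v.asIdeal := by
        show (Pr 𝔪 (insert v T) 𝔞 ∧ c 𝔞 = g) ↔ (Pr 𝔪 T 𝔞 ∧ c 𝔞 = g) ∧ ¬ 𝔞 ≤ v.asIdeal
        simp only [Pr, Finset.mem_insert, forall_eq_or_imp]
        tauto
      by_cases ha : 𝔞 ∈ A
      · by_cases hle : 𝔞 ≤ v.asIdeal
        · rw [Set.indicator_of_notMem (fun h7 => (hiff.1 h7).2 hle), Set.indicator_of_mem ha,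
            Set.indicator_of_mem ((hmem 𝔞).2 ⟨ha, hle⟩), sub_self]
        · rw [Set.indicator_of_mem (hiff.2 ⟨ha, hle⟩), Set.indicator_of_mem ha,
            Set.indicator_of_notMem (fun h7 => hle ((hmem 𝔞).1 h7).2), sub_zero]
      · rw [Set.indicator_of_notMem (fun h7 => ha (hiff.1 h7).1), Set.indicator_of_notMem ha,
          Set.indicator_of_notMem (fun h7 => ha ((hmem 𝔞).1 h7).1), sub_zero]
    exact hasSum_subtype_iff_indicator.2 h6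
  · exact (h.analytic g s hs).sub ((hcp.analyticAt s).mul (h.analytic _ s hs))
  · exact (h.mero g).sub ((hcp.analyticAt 1).meromorphicAt.mul (h.mero _))

theorem eq_of_series {f g : ℂ → ℂ} (hf : ∀ s : ℂ, s ≠ 1 → AnalyticAt ℂ f s)
    (hg : ∀ s : ℂ, s ≠ 1 → AnalyticAt ℂ g s) (heq : ∀ s : ℂ, 1 < s.re → f s = g s) {s : ℂ} (hs : s ≠ 1) :
    f s = g s := by
  have hpre : IsPreconnected ({1}ᶜ : Set ℂ) := by
    refine (isConnected_compl_singleton_of_one_lt_rank ?_ 1).isPreconnected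
    rw [Complex.rank_real_complex]
    norm_num
  have h1 : AnalyticOnNhd ℂ f {1}ᶜ := fun z hz => hf z hz
  have h2 : AnalyticOnNhd ℂ g {1}ᶜ := fun z hz => hg z hz
  have h3 : f =ᶠ[𝓝 (2 : ℂ)] g := by
    have hopen : IsOpen {z : ℂ | 1 < z.re} := isOpen_lt continuous_const Complex.continuous_re
    filter_upwards [hopen.mem_nhds (show (2 : ℂ) ∈ {z : ℂ | 1 < z.re} by simp)] with z hz
    exact heq z hz
  exact h1.eqOn_of_preconnected_of_eventuallyEq h2 hpre (z₀ := (2 : ℂ)) (by simp) h3 hs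

open Classical in
/-- **Existence and order at `0`.** -/
theorem PZT_all {G : Type} [Group G] [Finite G] (hcomm : ∀ a b : G, a * b = b * a)
    {𝔪 : Ideal (𝓞 K)} {c : Ideal (𝓞 K) → G} {R : Finset (K →+* ℝ)} (h𝔪 : 𝔪 ≠ ⊤) (h0 : 𝔪 ≠ ⊥)
    (mul : ∀ I J : Ideal (𝓞 K), IsCoprime I 𝔪 → IsCoprime J 𝔪 → c (I * J) = c I * c J)
    (ray : ∀ x : 𝓞 K, x ≠ 0 → x - 1 ∈ 𝔪 → (∀ σ : K →+* ℝ, σ ∉ R → 0 < σ (x : K)) →
      c (Ideal.span {x}) = 1) (T : Finset (HeightOneSpectrum (𝓞 K)))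
    (hT : ∀ v ∈ T, IsCoprime v.asIdeal 𝔪) :
    ∃ ζ : G → ℂ → ℂ, PZT 𝔪 T c ζ ∧ ∃ a : G → ℂ, ∀ g, Tendsto (fun s : ℂ => ζ g s /
      s ^ (R.card + InfinitePlace.nrComplexPlaces K + (T.filter fun v => c v.asIdeal = 1).card))
      (𝓝[≠] 0) (𝓝 (a g)) := by
  induction T using Finset.induction_on with
  | empty =>
    obtain ⟨⟨ζ, hζ⟩, h2⟩ := class_facts hcomm h𝔪 h0 mul ray
    obtain ⟨a, ha⟩ := h2 ζ hζ
    refine ⟨ζ, PZT_empty hζ, a, fun g => ?_⟩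
    simpa using ha g
  | insert v T hvT ih =>
    obtain ⟨ζ, hζ, a, ha⟩ := ih fun w hw => hT w (Finset.mem_insert_of_mem hw)
    have hv := hT v (Finset.mem_insert_self v T)
    refine ⟨_, hζ.step mul hv hvT, ?_⟩
    have hN0 : ((Ideal.absNorm v.asIdeal : ℕ) : ℂ) ≠ 0 := by
      rw [Nat.cast_ne_zero]
      exact fun h => v.ne_bot (Ideal.absNorm_eq_zero_iff.1 h)
    have hcp := norm_diff v
    by_cases hc1 : c v.asIdeal = 1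
    · have hcard : (((insert v T).filter fun v => c v.asIdeal = 1)).card =
          (T.filter fun v => c v.asIdeal = 1).card + 1 := by
        rw [Finset.filter_insert, if_pos hc1, Finset.card_insert_of_notMem]
        intro h
        exact hvT (Finset.mem_filter.1 h).1
      -- the factor `(1 - Nv^{-s}) / s`
      set F : ℂ → ℂ := fun s => 1 - ((Ideal.absNorm v.asIdeal : ℕ) : ℂ) ^ (-s) with hF
      have hFan : AnalyticAt ℂ F 0 := (analyticAt_const).sub (hcp.analyticAt 0)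
      have hF0 : F 0 = 0 := by
        rw [hF]
        simp
      have hFl := lim_deriv hFan hF0
      refine ⟨fun g => deriv F 0 * a g, fun g => ?_⟩
      have h1 := hFl.mul (ha g)
      refine h1.congr' ?_
      filter_upwards [self_mem_nhdsWithin] with s hs
      have hs0 : s ≠ 0 := hs
      rw [hcard, hc1, inv_one, one_mul, pow_one, ← add_assoc, pow_succ, hF]
      field_simp
    · have hcard : (((insert v T).filter fun v => c v.asIdeal = 1)).card =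
          (T.filter fun v => c v.asIdeal = 1).card := by
        rw [Finset.filter_insert, if_neg hc1]
      have hl : Tendsto (fun s : ℂ => ((Ideal.absNorm v.asIdeal : ℕ) : ℂ) ^ (-s)) (𝓝[≠] 0) (𝓝 1) := by
        have h1 := (hcp.continuous.tendsto 0).mono_left (nhdsWithin_le_nhds (s := {0}ᶜ))
        simpa using h1
      refine ⟨fun g => a g - 1 * a ((c v.asIdeal)⁻¹ * g), fun g => ?_⟩
      refine ((ha g).sub (hl.mul (ha _))).congr' ?_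
      filter_upwards [self_mem_nhdsWithin] with s hs
      rw [hcard]
      ring

theorem PZT_unique {G : Type} {𝔪 : Ideal (𝓞 K)} {T : Finset (HeightOneSpectrum (𝓞 K))}
    {c : Ideal (𝓞 K) → G} {ζ ζ' : G → ℂ → ℂ} (h : PZT 𝔪 T c ζ) (h' : PZT 𝔪 T c ζ') (g : G) {s : ℂ}
    (hs : s ≠ 1) : ζ g s = ζ' g s :=
  eq_of_series (h.analytic g) (h'.analytic g) (fun s hs => (h.series g s hs).unique (h'.series g s hs)) hs

/-- The `L`-functions from the partial zeta functions. -/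
theorem PZT.toL {G : Type} [Group G] [Fintype G] {𝔪 : Ideal (𝓞 K)}
    {T : Finset (HeightOneSpectrum (𝓞 K))} {c : Ideal (𝓞 K) → G} {ζ : G → ℂ → ℂ} (h : PZT 𝔪 T c ζ)
    (ψ : G →* ℂˣ) : IsLT 𝔪 T c ψ fun s => ∑ g, ((ψ g)⁻¹ : ℂˣ) * ζ g s := by
  classical
  refine ⟨fun s hs => ?_, fun s hs => ?_, ?_⟩
  · set f : Ideal (𝓞 K) → ℂ := fun 𝔞 => ((Ideal.absNorm 𝔞 : ℕ) : ℂ) ^ (-s) with hf
    have h1 : HasSum (fun 𝔞 : Ideal (𝓞 K) => ∑ g, (((ψ g)⁻¹ : ℂˣ) : ℂ) *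
        ({𝔞 | Pr 𝔪 T 𝔞 ∧ c 𝔞 = g} : Set (Ideal (𝓞 K))).indicator f 𝔞)
        (∑ g, (((ψ g)⁻¹ : ℂˣ) : ℂ) * ζ g s) :=
      hasSum_sum fun g _ => (hasSum_subtype_iff_indicator.1 (h.series g s hs)).mul_left _
    have h2 : HasSum (({𝔞 | Pr 𝔪 T 𝔞} : Set (Ideal (𝓞 K))).indicator
        fun 𝔞 => (((ψ (c 𝔞))⁻¹ : ℂˣ) : ℂ) * f 𝔞) (∑ g, (((ψ g)⁻¹ : ℂˣ) : ℂ) * ζ g s) := by
      refine h1.congr_fun fun 𝔞 => ?_
      by_cases ha : Pr 𝔪 T 𝔞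
      · rw [Set.indicator_of_mem (show 𝔞 ∈ ({𝔞 | Pr 𝔪 T 𝔞} : Set (Ideal (𝓞 K))) from ha)]
        rw [Finset.sum_eq_single (c 𝔞)]
        · rw [Set.indicator_of_mem (show 𝔞 ∈ ({𝔟 | Pr 𝔪 T 𝔟 ∧ c 𝔟 = c 𝔞} : Set (Ideal (𝓞 K))) from ⟨ha, rfl⟩)]
        · intro g _ hg
          rw [Set.indicator_of_notMem (fun h3 => hg h3.2.symm), mul_zero]
        · intro h3
          exact absurd (Finset.mem_univ _) h3
      · rw [Set.indicator_of_notMem (show 𝔞 ∉ ({𝔞 | Pr 𝔪 T 𝔞} : Set (Ideal (𝓞 K))) from ha)]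
        symm
        refine Finset.sum_eq_zero fun g _ => ?_
        rw [Set.indicator_of_notMem (fun h3 => ha h3.1), mul_zero]
    exact hasSum_subtype_iff_indicator.2 h2
  · exact Finset.univ.analyticAt_fun_sum fun g _ => analyticAt_const.mul (h.analytic g s hs)
  · exact MeromorphicAt.fun_sum fun g _ => (analyticAt_const.meromorphicAt).mul (h.mero g)

theorem IsLT_unique {G : Type} [Group G] {𝔪 : Ideal (𝓞 K)}
    {T : Finset (HeightOneSpectrum (𝓞 K))} {c : Ideal (𝓞 K) → G} {ψ : G →* ℂˣ} {L L' : ℂ → ℂ}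
    (h : IsLT 𝔪 T c ψ L) (h' : IsLT 𝔪 T c ψ L') {s : ℂ} (hs : s ≠ 1) : L s = L' s :=
  eq_of_series h.analytic h'.analytic (fun s hs => (h.series s hs).unique (h'.series s hs)) hs

open Classical in
/-- `∑ ρ(N 𝔞)` over the ideals prime to `𝔪` and `T` with `c 𝔞 = g` -/
noncomputable def combT {G : Type} (𝔪 : Ideal (𝓞 K)) (T : Finset (HeightOneSpectrum (𝓞 K)))
    (c : Ideal (𝓞 K) → G) (ρ : ℕ →₀ ℚ) (g : G) : ℚ :=
  comb ρ (byNorm fun 𝔞 : Ideal (𝓞 K) => if Pr 𝔪 T 𝔞 ∧ c 𝔞 = g then (1 : ℚ) else 0)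

/-- **The law.** -/
theorem PZT.law {G : Type} {𝔪 : Ideal (𝓞 K)} {T : Finset (HeightOneSpectrum (𝓞 K))}
    {c : Ideal (𝓞 K) → G} (h𝔪 : 𝔪 ≠ ⊤)
    {ζ : G → ℂ → ℂ} (hζ : PZT 𝔪 T c ζ) {r : ℕ} {θ : ℂ} {g : G}
    (hlim : Tendsto (fun s : ℂ => ζ g s / s ^ r) (𝓝[≠] 0) (𝓝 θ))
    {γ : ℝ} (hγ : Real.pi / 2 < γ) (hC : Ck r γ ≠ 0) {ρ : ℕ → ℕ →₀ ℚ} (hρ : IsRational r γ ρ) :
    θ.im = 0 ∧ (fun N : ℕ => (combT 𝔪 T c (ρ N) g : ℝ) - θ.re) =O[atTop]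
      (fun N : ℕ => 1 / (N : ℝ)) := by
  classical
  refine rat_law (B := 1) (c := fun 𝔞 : Ideal (𝓞 K) =>
    if Pr 𝔪 T 𝔞 ∧ c 𝔞 = g then (1 : ℚ) else 0) (fun 𝔞 => ?_) ?_ (fun x _ _ => ?_)
    (hζ.analytic g 0 (by norm_num)) (fun s hs => ?_) (r := r) hlim hγ hC hρ
  · split_ifs <;> simp
  · rw [if_neg]
    intro h2
    exact Pool.Agent.X287.ST.cop_zero h𝔪 h2.1.1
  · by_cases hx : (x : ℂ) = 1
    · rw [hx]
      exact hζ.mero g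
    · exact (hζ.analytic g _ hx).meromorphicAt
  · have h1 := (hasSum_subtype_iff_indicator (s := {𝔞 : Ideal (𝓞 K) | Pr 𝔪 T 𝔞 ∧ c 𝔞 = g})
      (f := fun 𝔞 : Ideal (𝓞 K) => ((Ideal.absNorm 𝔞 : ℕ) : ℂ) ^ (-s))).1 (hζ.series g s hs)
    refine h1.congr_fun fun 𝔞 => ?_
    by_cases h2 : Pr 𝔪 T 𝔞 ∧ c 𝔞 = g
    · rw [Set.indicator_of_mem (show 𝔞 ∈ {𝔞 | Pr 𝔪 T 𝔞 ∧ c 𝔞 = g} from h2), if_pos h2]
      simp
    · rw [Set.indicator_of_notMem (show 𝔞 ∉ {𝔞 | Pr 𝔪 T 𝔞 ∧ c 𝔞 = g} from h2), if_neg h2]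
      simp

end

end Pool.Agent.X242.DR
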