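import Pool.Agent.X242.DR12
import Pool.Agent.W355.LJ.RayC

/-!
# The `L`-functions of newforms at `s = -1`
-/

set_option autoImplicit false

namespace Pool.Agent.X242.NF

open Complex Filter Topology UpperHalfPlane MatrixGroups ModularForm CongruenceSubgroup Asymptotics
open Pool.Agent.W355.LJ Pool.Agent.X242.DR

section

variable {N k : ℕ} [NeZero N] (f : CuspForm (Gamma1 N : Subgroup (GL (Fin 2) ℝ)) (k : ℤ))

theorem abscissa_le : LSeries.abscissaOfAbsConv (fun n => (qExpansion 1 f).coeff n) ≤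
    (((k : ℝ) / 2 + 1 : ℝ) : EReal) := by
  obtain ⟨B, -, hB⟩ := coeff_bound1 f
  have h := LSeries.abscissaOfAbsConv_le_of_le_const_mul_rpow (f := fun n => (qExpansion 1 f).coeff n)
    (x := (k : ℝ) / 2) ⟨B, fun n hn => hB n (Nat.one_le_iff_ne_zero.2 hn)⟩
  exact_mod_cast h

theorem summable_of {s : ℂ} (hs : (k : ℝ) / 2 + 1 < s.re) :
    LSeriesSummable (fun n => (qExpansion 1 f).coeff n) s := by
  refine LSeriesSummable_of_abscissaOfAbsConv_lt_re ((abscissa_le f).trans_lt ?_)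
  exact_mod_cast hs

/-- the function `(Γ_ℂ)⁻¹` -/
noncomputable def gi (t : ℂ) : ℂ := (1 / 2) * (2 * (Real.pi : ℂ)) ^ t * (Gamma t)⁻¹

theorem gi_diff : Differentiable ℂ gi := by
  have hpi : (2 * (Real.pi : ℂ)) ≠ 0 := by
    simp [Real.pi_ne_zero]
  have h1 : Differentiable ℂ fun t : ℂ => (2 * (Real.pi : ℂ)) ^ t := fun t =>
    differentiableAt_id.const_cpow (Or.inl hpi)
  exact ((differentiable_const _).mul h1).mul differentiable_one_div_Gamma

theorem gi_mul {t : ℂ} (ht : 0 < t.re) : Gammaℂ t * gi t = 1 := by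
  have hpi : (2 * (Real.pi : ℂ)) ≠ 0 := by
    simp [Real.pi_ne_zero]
  have hG : Gamma t ≠ 0 := Gamma_ne_zero_of_re_pos ht
  rw [Gammaℂ_def, gi, cpow_neg]
  have h1 : (2 * (Real.pi : ℂ)) ^ t ≠ 0 := by
    rw [Ne, cpow_eq_zero_iff]
    exact fun h => hpi h.1
  field_simp

theorem gi_neg_one : gi (-1) = 0 := by
  have h := Complex.Gamma_neg_nat_eq_zero 1
  rw [Nat.cast_one] at h
  rw [gi, h, inv_zero, mul_zero]

theorem exists_L {w : ℂ} (hk : 1 ≤ k) (hf : IsNF N k f w) : ∃ L : ℂ → ℂ, Differentiable ℂ L ∧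
    (∀ s : ℂ, (k : ℝ) / 2 + 1 < s.re → L s = LSeries (fun n => (qExpansion 1 f).coeff n) s) ∧
    L (-1) = 0 := by
  obtain ⟨w', Λ, -, h⟩ := nf_isC f hk hf
  obtain ⟨σ0, hdir⟩ := h.dir
  set α : ℝ := ((k : ℝ) - 1) / 2 with hα
  set M : ℝ := 1 / 2 * Real.log N with hM
  set L : ℂ → ℂ := fun t => Λ (t - α) * cexp (-((t - α) * M)) * gi t with hL
  have hLd : Differentiable ℂ L := by
    have h1 : Differentiable ℂ fun t : ℂ => Λ (t - α) := h.entire.comp (by fun_prop)
    have h2 : Differentiable ℂ fun t : ℂ => cexp (-((t - α) * M)) := by fun_prop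
    exact (h1.mul h2).mul gi_diff
  have hbig : ∀ t : ℂ, σ0 + α ≤ t.re → 0 < t.re → L t = LSeries (fun n => (qExpansion 1 f).coeff n) t := by
    intro t ht ht0
    have h1 := hdir (t - α) (by
      rw [sub_re, ofReal_re]
      linarith)
    have h2 : GF [Pc.one (((k : ℝ) - 1) / 2), Pc.one (((k : ℝ) + 1) / 2)] (t - α) = Gammaℂ t := by
      unfold GF
      simp only [List.map_cons, List.map_nil, List.prod_cons, List.prod_nil, mul_one]
      show Gammaℝ (t - α + (((k : ℝ) - 1) / 2 : ℝ)) * Gammaℝ (t - α + (((k : ℝ) + 1) / 2 : ℝ)) = _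
      rw [← Complex.Gammaℝ_mul_Gammaℝ_add_one]
      congr 2
      · rw [hα]
        ring
      · rw [hα]
        push_cast
        ring
    have h3 : LSeries (fun n => (qExpansion 1 f).coeff n *
        ((((n : ℝ) ^ (-(((k : ℝ) - 1) / 2)) : ℝ)) : ℂ)) (t - α) =
        LSeries (fun n => (qExpansion 1 f).coeff n) t := by
      unfold LSeries
      refine tsum_congr fun n => ?_
      rcases Nat.eq_zero_or_pos n with rfl | hn
      · simp
      · have hn0 : (n : ℂ) ≠ 0 := by exact_mod_cast hn.ne'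
        rw [LSeries.term_of_ne_zero hn.ne', LSeries.term_of_ne_zero hn.ne', ← hα,
          cpow_sub _ _ hn0, Complex.ofReal_cpow (Nat.cast_nonneg n)]
        push_cast
        rw [cpow_neg]
        have h4 : (n : ℂ) ^ (α : ℂ) ≠ 0 := by
          rw [Ne, cpow_eq_zero_iff]
          exact fun h => hn0 h.1
        have h5 : (n : ℂ) ^ t ≠ 0 := by
          rw [Ne, cpow_eq_zero_iff]
          exact fun h => hn0 h.1
        field_simp
    rw [h2, h3] at h1
    rw [hL]
    simp only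
    rw [h1]
    have h6 : cexp ((t - α) * M) * cexp (-((t - α) * M)) = 1 := by
      rw [← exp_add, add_neg_cancel, exp_zero]
    calc cexp ((t - α) * M) * Gammaℂ t * LSeries (fun n => (qExpansion 1 f).coeff n) t *
          cexp (-((t - α) * M)) * gi t
        = (cexp ((t - α) * M) * cexp (-((t - α) * M))) * (Gammaℂ t * gi t) *
            LSeries (fun n => (qExpansion 1 f).coeff n) t := by ring
      _ = _ := by rw [h6, gi_mul ht0, one_mul, one_mul]
  refine ⟨L, hLd, fun s hs => ?_, ?_⟩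
  · set U : Set ℂ := {z : ℂ | (k : ℝ) / 2 + 1 < z.re} with hU
    have hUc : IsPreconnected U := (convex_halfSpace_re_gt _).isPreconnected
    have h1 : AnalyticOnNhd ℂ L U := fun z _ => hLd.analyticAt z
    have h2 : AnalyticOnNhd ℂ (LSeries fun n => (qExpansion 1 f).coeff n) U := by
      refine (LSeries_analyticOnNhd _).mono fun z hz => ?_
      refine (abscissa_le f).trans_lt ?_
      have hz' : (k : ℝ) / 2 + 1 < z.re := hz
      exact_mod_cast hz'
    set x : ℝ := |σ0 + α| + (k : ℝ) / 2 + 2 with hx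
    have hxU : (x : ℂ) ∈ U := by
      show (k : ℝ) / 2 + 1 < (x : ℂ).re
      rw [ofReal_re, hx]
      have := abs_nonneg (σ0 + α)
      linarith
    have h3 : L =ᶠ[𝓝 (x : ℂ)] LSeries fun n => (qExpansion 1 f).coeff n := by
      have hopen : IsOpen {z : ℂ | |σ0 + α| + (k : ℝ) / 2 + 1 < z.re} :=
        isOpen_lt continuous_const Complex.continuous_re
      filter_upwards [hopen.mem_nhds (show (x : ℂ) ∈ {z : ℂ | |σ0 + α| + (k : ℝ) / 2 + 1 < z.re} by
        show _ < (x : ℂ).re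
        rw [ofReal_re, hx]
        linarith)] with z hz
      have hz' : |σ0 + α| + (k : ℝ) / 2 + 1 < z.re := hz
      have hk0 : (0 : ℝ) ≤ k := Nat.cast_nonneg k
      have := le_abs_self (σ0 + α)
      have := abs_nonneg (σ0 + α)
      exact hbig z (by linarith) (by linarith)
    exact h1.eqOn_of_preconnected_of_eventuallyEq h2 hUc hxU h3 hs
  · rw [hL]
    simp only
    rw [gi_neg_one, mul_zero]

/-- uniqueness -/
theorem L_unique {a : ℕ → ℂ} {σ : ℝ} {L L' : ℂ → ℂ} (h1 : Differentiable ℂ L)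
    (h2 : ∀ s : ℂ, σ < s.re → L s = LSeries a s) (h1' : Differentiable ℂ L')
    (h2' : ∀ s : ℂ, σ < s.re → L' s = LSeries a s) : L = L' := by
  have hopen : IsOpen {z : ℂ | σ < z.re} := isOpen_lt continuous_const Complex.continuous_re
  have h3 : L =ᶠ[𝓝 ((σ + 1 : ℝ) : ℂ)] L' := by
    filter_upwards [hopen.mem_nhds (show ((σ + 1 : ℝ) : ℂ) ∈ {z : ℂ | σ < z.re} by
      show _ < ((σ + 1 : ℝ) : ℂ).re
      rw [ofReal_re]
      linarith)] with z hz
    rw [h2 z hz, h2' z hz]
  exact AnalyticOnNhd.eq_of_eventuallyEq (fun z _ => h1.analyticAt z) (fun z _ => h1'.analyticAt z) h3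

/-- **The law at `s = -1`.** -/
theorem law {w : ℂ} (hk : 1 ≤ k) (hf : IsNF N k f w) {a : ℕ → ℚ}
    (ha : ∀ n, (qExpansion 1 f).coeff n = (a n : ℂ)) {L : ℂ → ℂ} (hL : Differentiable ℂ L)
    (hLs : ∀ s : ℂ, (k : ℝ) / 2 + 1 < s.re → L s = LSeries (fun n => (a n : ℂ)) s)
    {κ : ℕ} (hκ : (k : ℝ) / 2 + 2 ≤ κ)
    {γ : ℝ} (hγ : Real.pi / 2 < γ) {ρ : ℕ → ℕ →₀ ℚ} (hρ : IsRational 1 γ ρ) :
    L (-1) = 0 ∧ (deriv L (-1)).im = 0 ∧
    (fun M : ℕ => ((comb (ρ M) (powCoef κ fun n => (n : ℚ) * a n) : ℚ) : ℝ) - κ * (deriv L (-1)).re)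
      =O[atTop] (fun M : ℕ => 1 / (M : ℝ)) := by
  have hcf : (fun n => (qExpansion 1 f).coeff n) = fun n => (a n : ℂ) := funext ha
  obtain ⟨L', hL', hLs', h0⟩ := exists_L f hk hf
  rw [hcf] at hLs'
  have hLL : L = L' := L_unique hL hLs hL' hLs'
  have h00 : L (-1) = 0 := by rw [hLL, h0]
  have hκ1 : 1 ≤ κ := by
    have h1 : (1 : ℝ) ≤ κ := by
      have : (0 : ℝ) ≤ k := Nat.cast_nonneg k
      linarith
    exact_mod_cast h1
  have hshift : ∀ s : ℂ, (κ : ℝ) < s.re → LSeriesSummable (fun n => ((((n : ℚ) * a n : ℚ)) : ℂ)) s ∧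
      LSeries (fun n => ((((n : ℚ) * a n : ℚ)) : ℂ)) s = LSeries (fun n => (a n : ℂ)) (s - 1) := by
    intro s hs
    have hterm : ∀ n, LSeries.term (fun n => ((((n : ℚ) * a n : ℚ)) : ℂ)) s n =
        LSeries.term (fun n => (a n : ℂ)) (s - 1) n := by
      intro n
      rcases Nat.eq_zero_or_pos n with rfl | hn
      · simp
      · have hn0 : (n : ℂ) ≠ 0 := by exact_mod_cast hn.ne'
        rw [LSeries.term_of_ne_zero hn.ne', LSeries.term_of_ne_zero hn.ne', cpow_sub _ _ hn0, cpow_one]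
        push_cast
        have h5 : (n : ℂ) ^ s ≠ 0 := by
          rw [Ne, cpow_eq_zero_iff]
          exact fun h => hn0 h.1
        field_simp
    have hsum : LSeriesSummable (fun n => (a n : ℂ)) (s - 1) := by
      rw [← hcf]
      refine summable_of f ?_
      rw [sub_re, one_re]
      linarith
    constructor
    · exact (summable_congr hterm).2 hsum
    · exact tsum_congr hterm
  have hΦ : Differentiable ℂ fun s : ℂ => L (s - 1) := hL.comp (by fun_prop)
  have hd : deriv (fun s : ℂ => L (s - 1)) 0 = deriv L (-1) := by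
    rw [deriv_comp_sub_const]
    congr 1
    ring
  have h := deriv_law (κ := κ) hκ1 (a := fun n => (n : ℚ) * a n) (by simp)
    (Φ := fun s : ℂ => L (s - 1)) (fun s hs => (hshift s hs).1) (fun s hs => by
      rw [(hshift s hs).2]
      refine hLs _ ?_
      rw [sub_re, one_re]
      linarith) hΦ (by simp [h00]) hγ hρ
  rw [hd] at h
  exact ⟨h00, h⟩

end

end Pool.Agent.X242.NF
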