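import Pool.Agent.X242.DR1
import Pool.Agent.W189.ML.Grow

/-!
# Rotated means of Dirichlet series: the asymptotic expansion
-/

set_option autoImplicit false

namespace Pool.Agent.X242.DR

open Complex MeasureTheory Filter Topology Set Asymptotics
open scoped Interval
open Pool.Agent.W189.ML Pool.Agent.W187.UR

/-! ### Taylor expansions -/

theorem taylorO {f : ℂ → ℂ} (hf : AnalyticAt ℂ f 0) (n : ℕ) :
    (fun y : ℂ => f y - ∑ k ∈ Finset.range n, iteratedDeriv k f 0 / (k.factorial : ℂ) * y ^ k)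
      =O[𝓝 0] fun y : ℂ => y ^ n := by
  have h1 := hf.hasFPowerSeriesAt.isBigO_sub_partialSum_pow n
  have h2 : (fun y : ℂ => y ^ n) =Θ[𝓝 0] fun y : ℂ => ‖y‖ ^ n := by
    simp only [← norm_pow]
    exact (Asymptotics.isTheta_norm_right.2 (Asymptotics.isTheta_refl _ _))
  refine (h1.congr_left fun y => ?_).trans_isTheta h2.symm
  rw [zero_add]
  congr 1
  unfold FormalMultilinearSeries.partialSum
  refine Finset.sum_congr rfl fun k _ => ?_
  rw [FormalMultilinearSeries.ofScalars_apply_eq]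
  simp

/-- `e^{iγt} / Γ(1 + t)` -/
noncomputable def HH (γ : ℝ) (t : ℂ) : ℂ := exp (γ * t * I) * (Complex.Gamma (1 + t))⁻¹

theorem HH_diff (γ : ℝ) : Differentiable ℂ (HH γ) := by
  unfold HH
  refine Differentiable.mul (by fun_prop) ?_
  exact Complex.differentiable_one_div_Gamma.comp (by fun_prop)

/-- The constants `C_k(γ) = (-1)^k (d/dt)^k (e^{iγt} / Γ(1 + t))`, `t = 0`. -/
noncomputable def Ck (k : ℕ) (γ : ℝ) : ℂ := (-1) ^ k * iteratedDeriv k (HH γ) 0

theorem Ck_zero (γ : ℝ) : Ck 0 γ = 1 := by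
  simp [Ck, HH]

theorem HH_deriv (γ : ℝ) : deriv (HH γ) 0 = γ * I + Real.eulerMascheroniConstant := by
  have h1 : HasDerivAt Complex.Gamma (-Real.eulerMascheroniConstant : ℂ) 1 := by
    have := Complex.hasDerivAt_Gamma_one
    exact this
  have h2 : HasDerivAt (fun t : ℂ => Complex.Gamma (1 + t)) (-Real.eulerMascheroniConstant : ℂ) 0 := by
    have h3 : HasDerivAt (fun t : ℂ => 1 + t) 1 0 := by
      simpa using (hasDerivAt_id (0 : ℂ)).const_add 1
    have h1' : HasDerivAt Complex.Gamma (-Real.eulerMascheroniConstant : ℂ) (1 + 0) := by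
      rw [add_zero]; exact h1
    have := HasDerivAt.comp (0 : ℂ) h1' h3
    simpa [Function.comp_def] using this
  have h4 : HasDerivAt (fun t : ℂ => (Complex.Gamma (1 + t))⁻¹) (Real.eulerMascheroniConstant : ℂ)
      0 := by
    have := h2.inv (by simp)
    simpa [Pi.inv_def] using this
  have h5 : HasDerivAt (fun t : ℂ => exp (γ * t * I)) (γ * I) 0 := by
    have h6 : HasDerivAt (fun t : ℂ => (γ : ℂ) * t * I) (γ * I) 0 := by
      have := ((hasDerivAt_id (0 : ℂ)).const_mul (γ : ℂ)).mul_const I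
      simpa using this
    have := h6.cexp
    simpa using this
  have h7 := h5.mul h4
  have h8 : HasDerivAt (HH γ) (γ * I + Real.eulerMascheroniConstant) 0 := by
    have h9 : HH γ = (fun t => exp (γ * t * I)) * fun t => (Complex.Gamma (1 + t))⁻¹ := rfl
    rw [h9]
    simpa using h7
  exact h8.deriv

theorem Ck_one (γ : ℝ) : Ck 1 γ = -(Real.eulerMascheroniConstant + γ * I) := by
  unfold Ck
  rw [iteratedDeriv_one, HH_deriv]
  ring

/-! ### Finite Dirichlet polynomials with given Taylor coefficients -/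

theorem exists_b (n : ℕ) (a : ℕ → ℝ) : ∃ b : Fin n → ℝ, ∀ k < n,
    ∑ j : Fin n, b j * (-(j : ℝ)) ^ k = (k.factorial : ℝ) * a k := by
  set V : Matrix (Fin n) (Fin n) ℝ := Matrix.vandermonde fun j : Fin n => -(j : ℝ) with hV
  have hdet : IsUnit V.det := by
    rw [isUnit_iff_ne_zero, hV, Matrix.det_vandermonde_ne_zero_iff]
    intro i j hij
    have h1 : -(i : ℝ) = -(j : ℝ) := hij
    exact Fin.ext (by exact_mod_cast neg_injective h1)
  set r : Fin n → ℝ := fun k => ((k : ℕ).factorial : ℝ) * a k with hr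
  refine ⟨Matrix.vecMul r V⁻¹, fun k hk => ?_⟩
  have h1 : Matrix.vecMul (Matrix.vecMul r V⁻¹) V = r := by
    rw [Matrix.vecMul_vecMul, Matrix.nonsing_inv_mul _ hdet, Matrix.vecMul_one]
  have h2 := congrFun h1 ⟨k, hk⟩
  rw [hr] at h2
  simp only at h2
  rw [← h2]
  rfl

/-- The Dirichlet polynomial. -/
noncomputable def EE {n : ℕ} (b : Fin n → ℝ) (w : ℂ) : ℂ :=
  ∑ j : Fin n, (b j : ℂ) * exp (-(w * ((j : ℕ) : ℝ)))

theorem EE_taylor {n : ℕ} {a : ℕ → ℝ} {b : Fin n → ℝ}
    (hb : ∀ k < n, ∑ j : Fin n, b j * (-(j : ℝ)) ^ k = (k.factorial : ℝ) * a k) :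
    (fun w : ℂ => EE b w - ∑ k ∈ Finset.range n, (a k : ℂ) * w ^ k) =O[𝓝 0]
      fun w : ℂ => w ^ n := by
  have h1 : ∀ j : Fin n, (fun w : ℂ => (b j : ℂ) * (exp (-(w * ((j : ℕ) : ℝ))) -
      ∑ k ∈ Finset.range n, (-(j : ℝ) : ℂ) ^ k / (k.factorial : ℂ) * w ^ k)) =O[𝓝 0]
      fun w : ℂ => w ^ n := by
    intro j
    refine IsBigO.const_mul_left ?_ _
    have h2 : AnalyticAt ℂ (fun w : ℂ => exp (-(w * ((j : ℕ) : ℝ)))) 0 := by fun_prop
    refine (taylorO h2 n).congr_left fun w => ?_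
    congr 1
    refine Finset.sum_congr rfl fun k _ => ?_
    have h3 : iteratedDeriv k (fun w : ℂ => exp (-(w * ((j : ℕ) : ℝ)))) 0 =
        (-(j : ℝ) : ℂ) ^ k := by
      have e1 : (fun w : ℂ => exp (-(w * ((j : ℕ) : ℝ)))) = fun w : ℂ => exp ((-(j : ℝ) : ℂ) * w) := by
        funext w
        congr 1
        push_cast
        ring
      rw [e1, iteratedDeriv_cexp_const_mul]
      simp
    rw [h3]
  have h4 : (fun w : ℂ => ∑ j : Fin n, (b j : ℂ) * (exp (-(w * ((j : ℕ) : ℝ))) -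
      ∑ k ∈ Finset.range n, (-(j : ℝ) : ℂ) ^ k / (k.factorial : ℂ) * w ^ k)) =O[𝓝 0]
      fun w : ℂ => w ^ n := IsBigO.fun_sum fun j _ => h1 j
  refine h4.congr_left fun w => ?_
  simp only [mul_sub, Finset.sum_sub_distrib]
  unfold EE
  congr 1
  simp only [Finset.mul_sum]
  rw [Finset.sum_comm]
  refine Finset.sum_congr rfl fun k hk => ?_
  have h5 := hb k (Finset.mem_range.1 hk)
  have h6 : (∑ j : Fin n, (b j : ℂ) * (-(j : ℝ) : ℂ) ^ k) = (k.factorial : ℂ) * (a k : ℂ) := by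
    have := congrArg (fun x : ℝ => (x : ℂ)) h5
    push_cast at this
    push_cast
    exact this
  have hk0 : (k.factorial : ℂ) ≠ 0 := by exact_mod_cast k.factorial_ne_zero
  calc ∑ j : Fin n, (b j : ℂ) * ((-(j : ℝ) : ℂ) ^ k / (k.factorial : ℂ) * w ^ k)
      = (∑ j : Fin n, (b j : ℂ) * (-(j : ℝ) : ℂ) ^ k) * (w ^ k / (k.factorial : ℂ)) := by
        rw [Finset.sum_mul]
        refine Finset.sum_congr rfl fun j _ => ?_
        ring
    _ = _ := by
        rw [h6]
        field_simp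

/-! ### The mean of a difference -/

namespace DData

variable {ι : Type} {lam c : ι → ℝ} {Φ : ℂ → ℂ}

theorem term_summable (D : DData lam c Φ) (γ : ℝ) {T : ℝ} (hT : 0 < T) :
    Summable fun i => ‖(c i : ℂ) * exp ((γ * (lam i / T) : ℝ) * I) * (om (lam i / T) : ℂ)‖ := by
  refine Summable.of_nonneg_of_le (fun i => norm_nonneg _) (fun i => ?_)
    ((D.sum 2 (by norm_num)).mul_left (Real.exp (Real.exp (2 * T)) + 1))
  have h1 : 0 ≤ lam i / T := div_nonneg (D.lam_pos i) hT.le
  have h2 := om_le (a := 2 * T) (v := lam i / T) (by positivity) h1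
  have h3 : 2 * T * (lam i / T) = 2 * lam i := by field_simp
  rw [h3] at h2
  rw [norm_mul, norm_mul, Complex.norm_exp_ofReal_mul_I, mul_one, Complex.norm_real,
    Complex.norm_real, Real.norm_eq_abs, Real.norm_eq_abs, abs_of_nonneg (om_nonneg h1)]
  calc |c i| * om (lam i / T) ≤
      |c i| * ((Real.exp (Real.exp (2 * T)) + 1) * Real.exp (-(2 * lam i))) :=
        mul_le_mul_of_nonneg_left h2 (abs_nonneg _)
    _ = _ := by ring

theorem sub_EE (D : DData lam c Φ) {n : ℕ} (b : Fin n → ℝ) :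
    DData (Sum.elim lam fun j : Fin n => ((j : ℕ) : ℝ)) (Sum.elim c fun j => -b j)
      (fun w => Φ w - EE b w) where
  cnt := by
    have := D.cnt
    infer_instance
  lam_pos := by
    rintro (i | j)
    · exact D.lam_pos i
    · simp
  sum := fun σ hσ => by
    refine Summable.sum _ ?_ (Summable.of_finite)
    exact D.sum σ hσ
  mero := fun x h0 h1 => by
    refine (D.mero x h0 h1).fun_sub ?_
    have : AnalyticAt ℂ (EE b) (x : ℂ) := by
      unfold EE
      fun_prop
    exact this.meromorphicAt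
  eq := fun w hw => by
    have h1 : Summable fun i => (c i : ℂ) * exp (-(w * lam i)) := by
      refine Summable.of_norm_bounded (D.sum w.re hw) fun i => ?_
      rw [norm_mul, Complex.norm_real, Real.norm_eq_abs, Complex.norm_exp]
      have : (-(w * lam i)).re = -(w.re * lam i) := by
        rw [Complex.neg_re, Complex.re_mul_ofReal]
      rw [this]
    unfold ser
    rw [Summable.tsum_sum (f := fun i => ((Sum.elim c (fun j => -b j) i : ℝ) : ℂ) *
      exp (-(w * ((Sum.elim lam (fun j : Fin n => ((j : ℕ) : ℝ)) i : ℝ) : ℂ)))) h1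
      Summable.of_finite, D.eq w hw, tsum_fintype (fun j : Fin n => _)]
    unfold ser EE
    simp only [Sum.elim_inl, Sum.elim_inr]
    rw [sub_eq_add_neg, ← Finset.sum_neg_distrib]
    congr 1
    refine Finset.sum_congr rfl fun j _ => ?_
    push_cast
    ring

theorem om_HH (γ v : ℝ) : exp ((γ * v : ℝ) * I) * (om v : ℂ) = HH γ v := by
  unfold HH om
  have h1 : (1 + (v : ℂ)) = ((1 + v : ℝ) : ℂ) := by push_cast; ring
  rw [h1, Complex.Gamma_ofReal]
  push_cast
  rfl

theorem cmean_sub (D : DData lam c Φ) {n : ℕ} (b : Fin n → ℝ) (γ : ℝ) {T : ℝ} (hT : 0 < T) :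
    cmean (Sum.elim lam fun j : Fin n => ((j : ℕ) : ℝ)) (Sum.elim c fun j => -b j) γ T =
      cmean lam c γ T - ∑ j : Fin n, (b j : ℂ) * HH γ ((((j : ℕ) : ℝ) / T : ℝ) : ℂ) := by
  have h1 := (D.term_summable γ hT).of_norm
  unfold cmean
  rw [Summable.tsum_sum (f := fun i => ((Sum.elim c (fun j => -b j) i : ℝ) : ℂ) *
      exp ((γ * ((Sum.elim lam (fun j : Fin n => ((j : ℕ) : ℝ)) i : ℝ) / T) : ℝ) * I) *
      (om ((Sum.elim lam (fun j : Fin n => ((j : ℕ) : ℝ)) i : ℝ) / T) : ℂ)) h1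
      Summable.of_finite, tsum_fintype (fun j : Fin n => _), sub_eq_add_neg,
      ← Finset.sum_neg_distrib]
  congr 1
  refine Finset.sum_congr rfl fun j _ => ?_
  rw [← om_HH]
  simp only [Sum.elim_inr]
  push_cast
  ring

end DData

end Pool.Agent.X242.DR
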