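import Pool.Agent.X242.DR2

/-!
# Rotated means of Dirichlet series: values, derivatives and leading coefficients at `0`
-/

set_option autoImplicit false

namespace Pool.Agent.X242.DR

open Complex MeasureTheory Filter Topology Set Asymptotics
open scoped Interval ComplexConjugate
open Pool.Agent.W189.ML Pool.Agent.W187.UR

/-- The expansion of the function `e^{iγt} / Γ(1 + t)` at the points `j / T`. -/
theorem HH_expansion (γ : ℝ) (n : ℕ) (j : ℝ) :
    (fun T : ℝ => HH γ ((j / T : ℝ) : ℂ) - ∑ k ∈ Finset.range n,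
      iteratedDeriv k (HH γ) 0 / (k.factorial : ℂ) * ((j / T : ℝ) : ℂ) ^ k) =O[atTop]
      fun T : ℝ => 1 / T ^ n := by
  have h1 := taylorO ((HH_diff γ).analyticAt 0) n
  have h2 : Tendsto (fun T : ℝ => ((j / T : ℝ) : ℂ)) atTop (𝓝 0) := by
    have h3 : Tendsto (fun T : ℝ => j / T) atTop (𝓝 0) := tendsto_const_nhds.div_atTop tendsto_id
    have h4 := (Complex.continuous_ofReal.tendsto 0).comp h3
    simpa [Function.comp_def] using h4
  have h5 := h1.comp_tendsto h2
  refine IsBigO.trans h5 ?_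
  refine IsBigO.of_bound (|j| ^ n) ?_
  filter_upwards [eventually_gt_atTop 0] with T hT
  simp only [Function.comp_def]
  rw [norm_pow, Complex.norm_real, Real.norm_eq_abs, abs_div, div_pow, Real.norm_eq_abs,
    abs_of_pos (by positivity : 0 < 1 / T ^ n), abs_of_pos hT]
  rw [mul_one_div]

theorem pow_bigO {m n : ℕ} (h : m ≤ n) : (fun w : ℂ => w ^ n) =O[𝓝 0] fun w : ℂ => w ^ m := by
  rcases h.eq_or_lt with rfl | h
  · exact isBigO_refl _ _
  · exact (isLittleO_pow_pow h).isBigO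

theorem sum_HH {n : ℕ} {a : ℕ → ℝ} {b : Fin n → ℝ}
    (hb : ∀ k < n, ∑ j : Fin n, b j * (-(j : ℝ)) ^ k = (k.factorial : ℝ) * a k) (γ T : ℝ) :
    ∑ j : Fin n, (b j : ℂ) * ∑ k ∈ Finset.range n,
      iteratedDeriv k (HH γ) 0 / (k.factorial : ℂ) * ((((j : ℕ) : ℝ) / T : ℝ) : ℂ) ^ k =
      ∑ k ∈ Finset.range n, (a k : ℂ) * Ck k γ / (T : ℂ) ^ k := by
  simp only [Finset.mul_sum]
  rw [Finset.sum_comm]
  refine Finset.sum_congr rfl fun k hk => ?_
  have h7 := hb k (Finset.mem_range.1 hk)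
  have h8 : (∑ j : Fin n, (b j : ℂ) * (((j : ℕ) : ℝ) : ℂ) ^ k) =
      (-1) ^ k * ((k.factorial : ℂ) * (a k : ℂ)) := by
    have e1 := congrArg (fun x : ℝ => (x : ℂ)) h7
    push_cast at e1
    rw [← e1, Finset.mul_sum]
    refine Finset.sum_congr rfl fun j _ => ?_
    rw [neg_pow]
    have e2 : ((-1 : ℂ) ^ k) * ((-1 : ℂ) ^ k) = 1 := by
      rw [← mul_pow]; simp
    push_cast
    linear_combination (-(b j : ℂ) * ((j : ℕ) : ℂ) ^ k) * e2
  have hk0 : (k.factorial : ℂ) ≠ 0 := by exact_mod_cast k.factorial_ne_zero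
  calc ∑ j : Fin n, (b j : ℂ) * (iteratedDeriv k (HH γ) 0 / (k.factorial : ℂ) *
        ((((j : ℕ) : ℝ) / T : ℝ) : ℂ) ^ k)
      = (∑ j : Fin n, (b j : ℂ) * (((j : ℕ) : ℝ) : ℂ) ^ k) *
          (iteratedDeriv k (HH γ) 0 / (k.factorial : ℂ) / (T : ℂ) ^ k) := by
        rw [Finset.sum_mul]
        refine Finset.sum_congr rfl fun j _ => ?_
        push_cast
        rw [div_pow]
        ring
    _ = _ := by
        rw [h8]
        unfold Ck
        field_simp


namespace DData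

variable {ι : Type} {lam c : ι → ℝ} {Φ : ℂ → ℂ}

/-- **The asymptotic expansion of the rotated means.** -/
theorem expansion (D : DData lam c Φ) {γ : ℝ} (hγ : Real.pi / 2 < γ) (n : ℕ) (a : ℕ → ℝ)
    (h : (fun w : ℂ => Φ w - ∑ k ∈ Finset.range n, (a k : ℂ) * w ^ k) =O[𝓝[≠] 0]
      fun w : ℂ => w ^ n) :
    (fun T : ℝ => cmean lam c γ T - ∑ k ∈ Finset.range n, (a k : ℂ) * Ck k γ / (T : ℂ) ^ k)
      =O[atTop] fun T : ℝ => 1 / T ^ n := by
  obtain ⟨b, hb⟩ := exists_b n a
  have h1 : (fun w : ℂ => Φ w - EE b w) =O[𝓝[≠] 0] fun w : ℂ => w ^ n := by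
    have h2 := (EE_taylor hb).mono (nhdsWithin_le_nhds (s := {0}ᶜ))
    refine (h.sub h2).congr_left fun w => ?_
    ring
  obtain ⟨C, T₀, hC, hT₀, hsm⟩ := (D.sub_EE b).small hγ n h1
  have h3 : (fun T : ℝ => cmean lam c γ T - ∑ j : Fin n, (b j : ℂ) *
      HH γ ((((j : ℕ) : ℝ) / T : ℝ) : ℂ)) =O[atTop] fun T : ℝ => 1 / T ^ n := by
    refine IsBigO.of_bound C ?_
    filter_upwards [eventually_ge_atTop T₀] with T hT
    have hT0 : 0 < T := by linarith
    have h4 := hsm T hT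
    rw [D.cmean_sub b γ hT0] at h4
    rw [Real.norm_eq_abs, abs_of_pos (by positivity : 0 < 1 / T ^ n), mul_one_div]
    exact h4
  have h5 : (fun T : ℝ => ∑ j : Fin n, (b j : ℂ) * (HH γ ((((j : ℕ) : ℝ) / T : ℝ) : ℂ) -
      ∑ k ∈ Finset.range n, iteratedDeriv k (HH γ) 0 / (k.factorial : ℂ) *
        ((((j : ℕ) : ℝ) / T : ℝ) : ℂ) ^ k)) =O[atTop] fun T : ℝ => 1 / T ^ n :=
    IsBigO.fun_sum fun j _ => (HH_expansion γ n _).const_mul_left _
  refine (h3.add h5).congr_left fun T => ?_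
  have h6 : ∑ j : Fin n, (b j : ℂ) * ∑ k ∈ Finset.range n,
      iteratedDeriv k (HH γ) 0 / (k.factorial : ℂ) * ((((j : ℕ) : ℝ) / T : ℝ) : ℂ) ^ k =
      ∑ k ∈ Finset.range n, (a k : ℂ) * Ck k γ / (T : ℂ) ^ k := sum_HH hb γ T
  simp only [mul_sub, Finset.sum_sub_distrib]
  rw [h6]
  ring

/-! ### Reality -/

theorem conj_merom {f : ℂ → ℂ} {x : ℝ} (hf : MeromorphicAt f (x : ℂ)) :
    MeromorphicAt (fun z => conj (f (conj z))) (x : ℂ) := by
  obtain ⟨n, hn⟩ := hf
  refine ⟨n, ?_⟩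
  rw [analyticAt_iff_eventually_differentiableAt] at hn ⊢
  have hc : Tendsto (fun z : ℂ => conj z) (𝓝 (x : ℂ)) (𝓝 (x : ℂ)) := by
    have := (Complex.continuous_conj).tendsto (x : ℂ)
    rwa [Complex.conj_ofReal] at this
  filter_upwards [hc.eventually hn] with z hz
  have h1 := DifferentiableAt.conj_conj (𝕜 := ℂ) hz
  rw [Complex.conj_conj] at h1
  refine h1.congr_of_eventuallyEq (Eventually.of_forall fun w => ?_)
  simp [Function.comp_def, smul_eq_mul]

/-- the function is real on the real axis, near `0` -/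
theorem real_near (D : DData lam c Φ) : ∀ᶠ t : ℝ in 𝓝[≠] 0, (Φ (t : ℂ)).im = 0 := by
  set Ψ : ℂ → ℂ := fun z => Φ z - conj (Φ (conj z)) with hΨ
  set U : Set ℂ := (fun x : ℝ => (x : ℂ)) '' Icc 0 2 with hU
  have hmer : MeromorphicOn Ψ U := by
    rintro _ ⟨x, hx, rfl⟩
    exact (D.mero2 x hx).fun_sub (conj_merom (D.mero2 x hx))
  have hconn : IsConnected U := (isConnected_Icc (by norm_num)).image _ (by fun_prop)
  have h2 : meromorphicOrderAt Ψ 2 = ⊤ := by
    rw [meromorphicOrderAt_eq_top_iff]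
    have hopen : IsOpen {z : ℂ | 1 < z.re} := isOpen_lt continuous_const Complex.continuous_re
    refine eventually_nhdsWithin_of_eventually_nhds ?_
    filter_upwards [hopen.mem_nhds (show (1 : ℝ) < (2 : ℂ).re by norm_num)] with z hz
    have hz' : 1 < z.re := hz
    rw [hΨ]
    simp only
    rw [D.eq z hz', D.eq (conj z) (by simpa using hz')]
    unfold ser
    rw [Complex.conj_tsum, sub_eq_zero]
    refine tsum_congr fun i => ?_
    rw [map_mul, Complex.conj_ofReal, ← Complex.exp_conj]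
    simp
  have h0 : meromorphicOrderAt Ψ 0 = ⊤ := by
    by_contra hcon
    have h3 := (MeromorphicOn.exists_meromorphicOrderAt_ne_top_iff_forall_mem hmer hconn).1
      ⟨0, ⟨0, ⟨le_rfl, by norm_num⟩, by simp⟩, hcon⟩
    exact h3 2 ⟨2, ⟨by norm_num, le_rfl⟩, by norm_num⟩ h2
  rw [meromorphicOrderAt_eq_top_iff] at h0
  have h4 : Tendsto (fun t : ℝ => (t : ℂ)) (𝓝[≠] 0) (𝓝[≠] 0) := by
    refine tendsto_nhdsWithin_iff.2 ⟨?_, ?_⟩
    · have := (Complex.continuous_ofReal.tendsto 0).mono_left (nhdsWithin_le_nhds (s := {0}ᶜ))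
      simpa using this
    · filter_upwards [self_mem_nhdsWithin] with t ht
      simpa using ht
  filter_upwards [h4.eventually h0] with t ht
  rw [hΨ] at ht
  simp only [Complex.conj_ofReal] at ht
  have h5 := congrArg Complex.im ht
  simp at h5
  linarith

/-- The coefficients of an expansion at `0` are real. -/
theorem coeff_real (D : DData lam c Φ) (n : ℕ) (a : ℕ → ℂ)
    (h : (fun w : ℂ => Φ w - ∑ k ∈ Finset.range n, a k * w ^ k) =O[𝓝[≠] 0]
      fun w : ℂ => w ^ n) : ∀ k < n, (a k).im = 0 := by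
  intro k
  induction k using Nat.strong_induction_on with
  | _ k ih =>
  intro hk
  have h4 : Tendsto (fun t : ℝ => (t : ℂ)) (𝓝[≠] 0) (𝓝[≠] 0) := by
    refine tendsto_nhdsWithin_iff.2 ⟨?_, ?_⟩
    · have := (Complex.continuous_ofReal.tendsto 0).mono_left (nhdsWithin_le_nhds (s := {0}ᶜ))
      simpa using this
    · filter_upwards [self_mem_nhdsWithin] with t ht
      simpa using ht
  -- the expansion up to `k`
  have h1 : (fun w : ℂ => Φ w - ∑ i ∈ Finset.range (k + 1), a i * w ^ i) =O[𝓝[≠] 0]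
      fun w : ℂ => w ^ (k + 1) := by
    have h2 : (fun w : ℂ => ∑ i ∈ Finset.Ico (k + 1) n, a i * w ^ i) =O[𝓝[≠] 0]
        fun w : ℂ => w ^ (k + 1) := by
      refine IsBigO.fun_sum fun i hi => ?_
      refine IsBigO.const_mul_left ?_ _
      refine IsBigO.mono ?_ (nhdsWithin_le_nhds (s := {0}ᶜ))
      exact pow_bigO (Finset.mem_Ico.1 hi).1
    have h3 : (fun w : ℂ => w ^ n) =O[𝓝[≠] 0] fun w : ℂ => w ^ (k + 1) :=
      IsBigO.mono (pow_bigO hk) (nhdsWithin_le_nhds (s := {0}ᶜ))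
    refine ((h.trans h3).add h2).congr_left fun w => ?_
    rw [← Finset.sum_range_add_sum_Ico _ (show k + 1 ≤ n from hk)]
    ring
  have h5 : Tendsto (fun w : ℂ => (Φ w - ∑ i ∈ Finset.range (k + 1), a i * w ^ i) / w ^ k)
      (𝓝[≠] 0) (𝓝 0) := by
    have h6 : (fun w : ℂ => (Φ w - ∑ i ∈ Finset.range (k + 1), a i * w ^ i) / w ^ k) =O[𝓝[≠] 0]
        fun w : ℂ => w := by
      obtain ⟨C, hC⟩ := h1.bound
      refine IsBigO.of_bound C ?_
      filter_upwards [hC, self_mem_nhdsWithin] with w hw hw0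
      have hw1 : w ≠ 0 := hw0
      rw [norm_div, norm_pow, div_le_iff₀ (by positivity)]
      refine hw.trans (le_of_eq ?_)
      rw [norm_pow, pow_succ]
      ring
    refine h6.trans_tendsto ?_
    exact (continuous_id.tendsto (0 : ℂ)).mono_left nhdsWithin_le_nhds
  have h7 : Tendsto (fun t : ℝ => (Φ (t : ℂ) - ∑ i ∈ Finset.range k, a i * (t : ℂ) ^ i) / (t : ℂ) ^ k)
      (𝓝[≠] 0) (𝓝 (a k)) := by
    have h8 := (h5.comp h4).add_const (a k)
    rw [zero_add] at h8
    refine h8.congr' ?_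
    filter_upwards [self_mem_nhdsWithin] with t ht
    have ht0 : (t : ℂ) ≠ 0 := by exact_mod_cast ht
    simp only [Function.comp_def]
    rw [Finset.sum_range_succ]
    field_simp
    ring
  have h9 : ∀ᶠ t : ℝ in 𝓝[≠] 0,
      ((Φ (t : ℂ) - ∑ i ∈ Finset.range k, a i * (t : ℂ) ^ i) / (t : ℂ) ^ k).im = 0 := by
    filter_upwards [D.real_near] with t ht
    have e1 : (Φ (t : ℂ) - ∑ i ∈ Finset.range k, a i * (t : ℂ) ^ i) / (t : ℂ) ^ k =
        (((Φ (t : ℂ)).re - ∑ i ∈ Finset.range k, (a i).re * t ^ i) / t ^ k : ℝ) := by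
      have e2 : Φ (t : ℂ) = ((Φ (t : ℂ)).re : ℂ) := by
        apply Complex.ext <;> simp [ht]
      have e3 : ∀ i ∈ Finset.range k, a i * (t : ℂ) ^ i = (((a i).re * t ^ i : ℝ) : ℂ) := by
        intro i hi
        have e4 : a i = ((a i).re : ℂ) := by
          apply Complex.ext
          · simp
          · simp [ih i (Finset.mem_range.1 hi) ((Finset.mem_range.1 hi).trans hk)]
        rw [e4]
        push_cast
        simp
      rw [Finset.sum_congr rfl e3, e2]
      push_cast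
      simp
    rw [e1, Complex.ofReal_im]
  have h10 := (Complex.continuous_im.tendsto (a k)).comp h7
  have h11 : Tendsto (fun _ : ℝ => (0 : ℝ)) (𝓝[≠] 0) (𝓝 (a k).im) :=
    h10.congr' (by filter_upwards [h9] with t ht; exact ht)
  exact (tendsto_nhds_unique h11 tendsto_const_nhds)

/-- **The expansion for functions which are analytic at `0`.** -/
theorem expansion_analytic (D : DData lam c Φ) {γ : ℝ} (hγ : Real.pi / 2 < γ)
    (hΦ : AnalyticAt ℂ Φ 0) (n : ℕ) :
    (∀ k, (iteratedDeriv k Φ 0).im = 0) ∧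
    (fun T : ℝ => cmean lam c γ T - ∑ k ∈ Finset.range n,
      iteratedDeriv k Φ 0 / (k.factorial : ℂ) * Ck k γ / (T : ℂ) ^ k)
      =O[atTop] fun T : ℝ => 1 / T ^ n := by
  have hre : ∀ k, (iteratedDeriv k Φ 0).im = 0 := by
    intro k
    have h1 := D.coeff_real (k + 1) (fun k => iteratedDeriv k Φ 0 / (k.factorial : ℂ))
      ((taylorO hΦ (k + 1)).mono nhdsWithin_le_nhds) k (Nat.lt_succ_self k)
    have h2 : (k.factorial : ℂ) = ((k.factorial : ℝ) : ℂ) := by push_cast; rfl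
    rw [h2, Complex.div_ofReal_im, div_eq_zero_iff] at h1
    rcases h1 with h1 | h1
    · exact h1
    · exact absurd h1 (by exact_mod_cast k.factorial_ne_zero)
  refine ⟨hre, ?_⟩
  have h3 : ∀ k, iteratedDeriv k Φ 0 / (k.factorial : ℂ) =
      (((iteratedDeriv k Φ 0).re / (k.factorial : ℝ) : ℝ) : ℂ) := by
    intro k
    have e1 : iteratedDeriv k Φ 0 = ((iteratedDeriv k Φ 0).re : ℂ) := by
      apply Complex.ext <;> simp [hre k]
    rw [e1]
    push_cast
    simp
  have h4 := D.expansion hγ n (fun k => (iteratedDeriv k Φ 0).re / (k.factorial : ℝ)) (by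
    refine ((taylorO hΦ n).mono nhdsWithin_le_nhds).congr_left fun w => ?_
    simp only [h3])
  refine h4.congr_left fun T => ?_
  simp only [h3]

/-- **The derivative at `0` as a limit.** -/
theorem deriv_limit (D : DData lam c Φ) {γ : ℝ} (hγ : Real.pi / 2 < γ) (hΦ : AnalyticAt ℂ Φ 0) :
    (Φ 0).im = 0 ∧ (deriv Φ 0).im = 0 ∧
    (fun T : ℝ => cmean lam c γ T - (Φ 0 - deriv Φ 0 * (Real.eulerMascheroniConstant + γ * I) / T))
      =O[atTop] (fun T : ℝ => 1 / T ^ 2) ∧
    Tendsto (fun T : ℝ => T * (cmean lam c γ T).im) atTop (𝓝 (-(γ * (deriv Φ 0).re))) := by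
  obtain ⟨h1, h2⟩ := D.expansion_analytic hγ hΦ 2
  have hv : (Φ 0).im = 0 := by simpa using h1 0
  have hd : (deriv Φ 0).im = 0 := by simpa [iteratedDeriv_one] using h1 1
  have h3 : (fun T : ℝ => cmean lam c γ T - (Φ 0 - deriv Φ 0 *
      (Real.eulerMascheroniConstant + γ * I) / T)) =O[atTop] (fun T : ℝ => 1 / T ^ 2) := by
    refine h2.congr_left fun T => ?_
    rw [Finset.sum_range_succ, Finset.sum_range_one, Ck_zero, Ck_one]
    simp [iteratedDeriv_one, iteratedDeriv_zero]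
    ring
  refine ⟨hv, hd, h3, ?_⟩
  have h4 : (fun T : ℝ => T * (cmean lam c γ T).im - -(γ * (deriv Φ 0).re)) =O[atTop]
      fun T : ℝ => 1 / T := by
    obtain ⟨C, hC⟩ := h3.bound
    refine IsBigO.of_bound C ?_
    filter_upwards [hC, eventually_gt_atTop 0] with T hT hT0
    have e1 : T * (cmean lam c γ T).im - -(γ * (deriv Φ 0).re) = T * (cmean lam c γ T -
        (Φ 0 - deriv Φ 0 * (Real.eulerMascheroniConstant + γ * I) / T)).im := by
      have e2 : deriv Φ 0 = ((deriv Φ 0).re : ℂ) := by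
        apply Complex.ext <;> simp [hd]
      have e3 : (deriv Φ 0 * (Real.eulerMascheroniConstant + γ * I) / (T : ℂ)).im =
          (deriv Φ 0).re * γ / T := by
        rw [Complex.div_ofReal_im]
        congr 1
        rw [e2]
        simp
      rw [Complex.sub_im, Complex.sub_im, e3, hv]
      field_simp
      ring
    rw [e1, Real.norm_eq_abs, abs_mul, abs_of_pos hT0, Real.norm_eq_abs,
      abs_of_pos (by positivity : 0 < 1 / T)]
    rw [Real.norm_eq_abs, abs_of_pos (by positivity : 0 < 1 / T ^ 2)] at hT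
    calc T * |(cmean lam c γ T - (Φ 0 - deriv Φ 0 *
          (Real.eulerMascheroniConstant + γ * I) / T)).im|
        ≤ T * (C * (1 / T ^ 2)) := mul_le_mul_of_nonneg_left
          ((Complex.abs_im_le_norm _).trans hT) hT0.le
      _ = C * (1 / T) := by field_simp
  have h5 : Tendsto (fun T : ℝ => T * (cmean lam c γ T).im - -(γ * (deriv Φ 0).re)) atTop (𝓝 0) :=
    h4.trans_tendsto (tendsto_const_nhds.div_atTop tendsto_id)
  have h6 := h5.add_const (-(γ * (deriv Φ 0).re))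
  rw [zero_add] at h6
  exact h6.congr fun T => by ring

/-- The imaginary part of the rotated mean. -/
theorem im_cmean (D : DData lam c Φ) (γ : ℝ) {T : ℝ} (hT : 0 < T) :
    (cmean lam c γ T).im = ∑' i, c i * (Real.sin (γ * (lam i / T)) * om (lam i / T)) ∧
      Summable fun i => |c i * (Real.sin (γ * (lam i / T)) * om (lam i / T))| := by
  have h1 := D.term_summable γ hT
  have h2 : ∀ i, ((c i : ℂ) * exp ((γ * (lam i / T) : ℝ) * I) * (om (lam i / T) : ℂ)).im =
      c i * (Real.sin (γ * (lam i / T)) * om (lam i / T)) := by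
    intro i
    rw [Complex.im_mul_ofReal, Complex.im_ofReal_mul, Complex.exp_ofReal_mul_I_im]
    ring
  refine ⟨?_, ?_⟩
  · unfold cmean
    rw [Complex.im_tsum h1.of_norm]
    exact tsum_congr h2
  · refine Summable.of_nonneg_of_le (fun i => abs_nonneg _) (fun i => ?_) h1
    rw [← h2 i]
    exact Complex.abs_im_le_norm _

end DData

end Pool.Agent.X242.DR
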