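import Pool.Agent.X242.DR3
import Pool.Agent.H484R2.Zeta

/-!
# Partial zeta functions: derivatives at `0` as limits of sums over ideals
-/

set_option autoImplicit false

namespace Pool.Agent.X242.DR

open Complex Filter Topology Set Asymptotics NumberField
open Pool.Agent.W189.ML Pool.Agent.W187.UR

variable {K : Type} [Field K] [NumberField K]

/-- `F` is the partial zeta function `∑ N(𝔞)^{-s}`, summed over the ideals `𝔞` with the property
`P`, for `Re s > 1`, continued to a function which is meromorphic at the real points of `[0, 1]` and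
holomorphic at `0`. -/
structure IsPartialZeta (P : Ideal (𝓞 K) → Prop) (F : ℂ → ℂ) : Prop where
  series : ∀ s : ℂ, 1 < s.re →
    HasSum (fun 𝔞 : {𝔞 : Ideal (𝓞 K) // P 𝔞} => ((Ideal.absNorm 𝔞.1 : ℕ) : ℂ) ^ (-s)) (F s)
  mero : ∀ x : ℝ, 0 ≤ x → x ≤ 1 → MeromorphicAt F (x : ℂ)
  holo : AnalyticAt ℂ F 0

/-- `sin (γ log N(𝔞) / T) / Γ(1 + log N(𝔞) / T)` -/
noncomputable def sinTerm (γ T : ℝ) (𝔞 : Ideal (𝓞 K)) : ℝ :=
  Real.sin (γ * (Real.log (Ideal.absNorm 𝔞 : ℕ) / T)) /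
    Real.Gamma (1 + Real.log (Ideal.absNorm 𝔞 : ℕ) / T)

/-- `cos (γ log N(𝔞) / T) / Γ(1 + log N(𝔞) / T)` -/
noncomputable def cosTerm (γ T : ℝ) (𝔞 : Ideal (𝓞 K)) : ℝ :=
  Real.cos (γ * (Real.log (Ideal.absNorm 𝔞 : ℕ) / T)) /
    Real.Gamma (1 + Real.log (Ideal.absNorm 𝔞 : ℕ) / T)

/-- The sum over the ideals with the property `P`. -/
noncomputable def sinSum (P : Ideal (𝓞 K) → Prop) (γ T : ℝ) : ℝ :=
  ∑' 𝔞 : {𝔞 : Ideal (𝓞 K) // P 𝔞}, sinTerm γ T 𝔞.1

/-- The sum over the ideals with the property `P`. -/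
noncomputable def cosSum (P : Ideal (𝓞 K) → Prop) (γ T : ℝ) : ℝ :=
  ∑' 𝔞 : {𝔞 : Ideal (𝓞 K) // P 𝔞}, cosTerm γ T 𝔞.1

variable {P : Ideal (𝓞 K) → Prop} {F : ℂ → ℂ}

noncomputable def lamI (P : Ideal (𝓞 K) → Prop) (𝔞 : {𝔞 : Ideal (𝓞 K) // P 𝔞}) : ℝ :=
  Real.log (Ideal.absNorm 𝔞.1 : ℕ)

theorem summable_norm {σ : ℝ} (hσ : 1 < σ) :
    Summable fun I : {I : Ideal (𝓞 K) // I ≠ ⊥} => (Ideal.absNorm I.1 : ℝ) ^ (-σ) := by
  have h := (Pool.Agent.H484R2.hasSum_ideals K (s := (σ : ℂ)) (by simpa using hσ)).summable.norm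
  refine h.congr fun I => ?_
  have hI : Ideal.absNorm I.1 ≠ 0 := by rw [Ne, Ideal.absNorm_eq_zero_iff]; exact I.2
  rw [Complex.norm_natCast_cpow_of_pos (Nat.pos_of_ne_zero hI)]
  simp

instance countable_ideals : Countable (Ideal (𝓞 K)) := by
  have h : (Set.univ : Set (Ideal (𝓞 K))) = ⋃ n : ℕ, {I | Ideal.absNorm I = n} := by
    ext I
    simp
  have h2 : (Set.univ : Set (Ideal (𝓞 K))).Countable := by
    rw [h]
    exact Set.countable_iUnion fun n => (Ideal.finite_setOfPred_absNorm_eq (S := 𝓞 K) n).countable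
  exact Set.countable_univ_iff.1 h2

theorem IsPartialZeta.ddata (hP : ∀ 𝔞, P 𝔞 → 𝔞 ≠ ⊥) (h : IsPartialZeta P F) :
    DData (lamI P) (fun _ => 1) F where
  cnt := inferInstance
  lam_pos := fun 𝔞 => by
    unfold lamI
    exact Real.log_natCast_nonneg _
  sum := fun σ hσ => by
    have h1 := (summable_norm (K := K) hσ).comp_injective
      (i := fun 𝔞 : {𝔞 : Ideal (𝓞 K) // P 𝔞} => (⟨𝔞.1, hP 𝔞.1 𝔞.2⟩ : {I : Ideal (𝓞 K) // I ≠ ⊥}))
      (fun 𝔞 𝔟 hab => Subtype.ext (congrArg (fun I : {I : Ideal (𝓞 K) // I ≠ ⊥} => I.1) hab))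
    refine h1.congr fun 𝔞 => ?_
    have hI : Ideal.absNorm 𝔞.1 ≠ 0 := by
      rw [Ne, Ideal.absNorm_eq_zero_iff]; exact hP 𝔞.1 𝔞.2
    have hI' : (0 : ℝ) < (Ideal.absNorm 𝔞.1 : ℕ) := by exact_mod_cast Nat.pos_of_ne_zero hI
    simp only [Function.comp_def]
    rw [abs_one, one_mul, Real.rpow_def_of_pos hI']
    congr 1
    unfold lamI
    ring
  mero := h.mero
  eq := fun s hs => by
    have h1 := (h.series s hs).tsum_eq
    rw [← h1]
    unfold ser
    refine tsum_congr fun 𝔞 => ?_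
    have hI : Ideal.absNorm 𝔞.1 ≠ 0 := by
      rw [Ne, Ideal.absNorm_eq_zero_iff]; exact hP 𝔞.1 𝔞.2
    have hI' : ((Ideal.absNorm 𝔞.1 : ℕ) : ℂ) ≠ 0 := by exact_mod_cast hI
    rw [Complex.cpow_def_of_ne_zero hI']
    unfold lamI
    rw [Complex.ofReal_one, one_mul, Complex.natCast_log]
    congr 1
    ring

/-- **Partial zeta functions at `0`.** -/
theorem IsPartialZeta.main (hP : ∀ 𝔞, P 𝔞 → 𝔞 ≠ ⊥) (h : IsPartialZeta P F) {γ : ℝ}
    (hγ : Real.pi / 2 < γ) :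
    (∀ T : ℝ, 0 < T → (Summable fun 𝔞 : {𝔞 : Ideal (𝓞 K) // P 𝔞} => |sinTerm γ T 𝔞.1|) ∧
      Summable fun 𝔞 : {𝔞 : Ideal (𝓞 K) // P 𝔞} => |cosTerm γ T 𝔞.1|) ∧
    (F 0).im = 0 ∧ (deriv F 0).im = 0 ∧
    (fun T : ℝ => cosSum P γ T - ((F 0).re - Real.eulerMascheroniConstant * (deriv F 0).re / T))
      =O[atTop] (fun T : ℝ => 1 / T ^ 2) ∧
    (fun T : ℝ => sinSum P γ T + γ * (deriv F 0).re / T) =O[atTop] (fun T : ℝ => 1 / T ^ 2) := by
  have D := h.ddata hP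
  obtain ⟨h1, h2, h3, -⟩ := D.deriv_limit hγ h.holo
  have hterm : ∀ (T : ℝ) (𝔞 : {𝔞 : Ideal (𝓞 K) // P 𝔞}),
      (((1 : ℝ) : ℂ) * exp ((γ * (lamI P 𝔞 / T) : ℝ) * I) * (om (lamI P 𝔞 / T) : ℂ)) =
        ((cosTerm γ T 𝔞.1 : ℝ) : ℂ) + ((sinTerm γ T 𝔞.1 : ℝ) : ℂ) * I := by
    intro T 𝔞
    unfold cosTerm sinTerm om lamI
    rw [Complex.exp_mul_I]
    push_cast
    ring
  have hsum := fun (T : ℝ) (hT : 0 < T) => D.term_summable γ hT
  have hre : ∀ T : ℝ, 0 < T → (cmean (lamI P) (fun _ => 1) γ T).re = cosSum P γ T := by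
    intro T hT
    unfold cmean cosSum
    rw [Complex.re_tsum (hsum T hT).of_norm]
    refine tsum_congr fun 𝔞 => ?_
    rw [hterm]
    simp
  have him : ∀ T : ℝ, 0 < T → (cmean (lamI P) (fun _ => 1) γ T).im = sinSum P γ T := by
    intro T hT
    unfold cmean sinSum
    rw [Complex.im_tsum (hsum T hT).of_norm]
    refine tsum_congr fun 𝔞 => ?_
    rw [hterm]
    simp
  have hF0 : F 0 = ((F 0).re : ℂ) := by apply Complex.ext <;> simp [h1]
  have hF1 : deriv F 0 = ((deriv F 0).re : ℂ) := by apply Complex.ext <;> simp [h2]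
  refine ⟨fun T hT => ⟨?_, ?_⟩, h1, h2, ?_, ?_⟩
  · refine Summable.of_nonneg_of_le (fun i => abs_nonneg _) (fun 𝔞 => ?_) (hsum T hT)
    rw [hterm]
    have := Complex.abs_im_le_norm (((cosTerm γ T 𝔞.1 : ℝ) : ℂ) + ((sinTerm γ T 𝔞.1 : ℝ) : ℂ) * I)
    simpa using this
  · refine Summable.of_nonneg_of_le (fun i => abs_nonneg _) (fun 𝔞 => ?_) (hsum T hT)
    rw [hterm]
    have := Complex.abs_re_le_norm (((cosTerm γ T 𝔞.1 : ℝ) : ℂ) + ((sinTerm γ T 𝔞.1 : ℝ) : ℂ) * I)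
    simpa using this
  · obtain ⟨C, hC⟩ := h3.bound
    refine IsBigO.of_bound C ?_
    filter_upwards [hC, eventually_gt_atTop 0] with T hT hT0
    refine le_trans ?_ hT
    have e1 : cosSum P γ T - ((F 0).re - Real.eulerMascheroniConstant * (deriv F 0).re / T) =
        (cmean (lamI P) (fun _ => 1) γ T - (F 0 - deriv F 0 *
          (Real.eulerMascheroniConstant + γ * I) / T)).re := by
      rw [Complex.sub_re, hre T hT0, Complex.sub_re, Complex.div_ofReal_re]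
      congr 2
      rw [hF1]
      simp
      ring
    rw [e1, Real.norm_eq_abs]
    exact Complex.abs_re_le_norm _
  · obtain ⟨C, hC⟩ := h3.bound
    refine IsBigO.of_bound C ?_
    filter_upwards [hC, eventually_gt_atTop 0] with T hT hT0
    refine le_trans ?_ hT
    have e1 : sinSum P γ T + γ * (deriv F 0).re / T =
        (cmean (lamI P) (fun _ => 1) γ T - (F 0 - deriv F 0 *
          (Real.eulerMascheroniConstant + γ * I) / T)).im := by
      rw [Complex.sub_im, him T hT0, Complex.sub_im, Complex.div_ofReal_im, h1]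
      have e2 : (deriv F 0 * (Real.eulerMascheroniConstant + γ * I)).im = γ * (deriv F 0).re := by
        rw [hF1]
        simp
        ring
      rw [e2]
      ring
    rw [e1, Real.norm_eq_abs]
    exact Complex.abs_im_le_norm _

theorem limit_of_bigO {f : ℝ → ℝ} {a : ℝ}
    (h : (fun T : ℝ => f T + a / T) =O[atTop] (fun T : ℝ => 1 / T ^ 2)) :
    Tendsto (fun T : ℝ => T * f T) atTop (𝓝 (-a)) ∧
      (fun T : ℝ => T * f T + a) =O[atTop] (fun T : ℝ => 1 / T) := by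
  have h1 : (fun T : ℝ => T * f T + a) =O[atTop] (fun T : ℝ => 1 / T) := by
    obtain ⟨C, hC⟩ := h.bound
    refine IsBigO.of_bound C ?_
    filter_upwards [hC, eventually_gt_atTop 0] with T hT hT0
    have e1 : T * f T + a = T * (f T + a / T) := by field_simp
    rw [e1, norm_mul, Real.norm_eq_abs, abs_of_pos hT0]
    rw [Real.norm_eq_abs (1 / T ^ 2), abs_of_pos (by positivity : 0 < 1 / T ^ 2)] at hT
    rw [Real.norm_eq_abs (1 / T), abs_of_pos (by positivity : 0 < 1 / T)]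
    calc T * ‖f T + a / T‖ ≤ T * (C * (1 / T ^ 2)) := mul_le_mul_of_nonneg_left hT hT0.le
      _ = C * (1 / T) := by field_simp
  refine ⟨?_, h1⟩
  have h2 : Tendsto (fun T : ℝ => T * f T + a) atTop (𝓝 0) :=
    h1.trans_tendsto (tendsto_const_nhds.div_atTop tendsto_id)
  have h3 := h2.add_const (-a)
  rw [zero_add] at h3
  exact h3.congr fun T => by ring

/-- **The derivative at `0` as a limit.** -/
theorem IsPartialZeta.deriv_limit (hP : ∀ 𝔞, P 𝔞 → 𝔞 ≠ ⊥) (h : IsPartialZeta P F) {γ : ℝ}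
    (hγ : Real.pi / 2 < γ) :
    Tendsto (fun T : ℝ => T * sinSum P γ T) atTop (𝓝 (-(γ * (deriv F 0).re))) ∧
      (fun T : ℝ => T * sinSum P γ T + γ * (deriv F 0).re) =O[atTop] (fun T : ℝ => 1 / T) :=
  limit_of_bigO (h.main hP hγ).2.2.2.2

/-- The derivative at `0` is characterised by the limit. -/
theorem IsPartialZeta.deriv_iff (hP : ∀ 𝔞, P 𝔞 → 𝔞 ≠ ⊥) (h : IsPartialZeta P F) {γ : ℝ}
    (hγ : Real.pi / 2 < γ) (x : ℝ) :
    deriv F 0 = x ↔ Tendsto (fun T : ℝ => T * sinSum P γ T) atTop (𝓝 (-(γ * x))) := by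
  have hγ0 : γ ≠ 0 := by
    have := Real.pi_pos
    intro h0
    rw [h0] at hγ
    linarith
  have h1 := (h.deriv_limit hP hγ).1
  have h2 := (h.main hP hγ).2.2.1
  constructor
  · intro hx
    rw [hx] at h1
    simpa using h1
  · intro hx
    have h3 := tendsto_nhds_unique hx h1
    have h4 : x = (deriv F 0).re := by
      have := neg_injective h3
      exact mul_left_cancel₀ hγ0 this
    rw [h4]
    apply Complex.ext <;> simp [h2]

end Pool.Agent.X242.DR
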