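import Pool.Agent.X242.DR3

/-!
# Means of Dirichlet series without rotation

If the continuation is holomorphic at all the real points of `[0, 1]` then no rotation is needed.
-/

set_option autoImplicit false

namespace Pool.Agent.X242.DR

open Complex MeasureTheory Filter Topology Set Asymptotics
open scoped Interval
open Pool.Agent.W189.ML Pool.Agent.W187.UR Pool.Agent.W338.UR

/-- bound in a strip around the segment, for holomorphic functions -/
theorem strip_flat {Φ : ℂ → ℂ} (han : ∀ x ∈ Icc (0 : ℝ) 2, AnalyticAt ℂ Φ (x : ℂ)) (n : ℕ)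
    (h0 : Φ =O[𝓝 0] fun w : ℂ => w ^ n) :
    ∃ (η B : ℝ), 0 < η ∧ 0 ≤ B ∧ ∀ w : ℂ, 0 ≤ w.re → w.re ≤ 2 → |w.im| ≤ η →
      DifferentiableAt ℂ Φ w ∧ ‖Φ w‖ ≤ B * ‖w‖ ^ n := by
  set Kc : Set ℂ := (fun x : ℝ => (x : ℂ)) '' Icc 0 2 with hKc
  have hKcc : IsCompact Kc := isCompact_Icc.image (by fun_prop)
  have h1 : ∀ z ∈ Kc, ∃ (B : ℝ), 0 ≤ B ∧ ∀ᶠ w : ℂ in 𝓝 z,
      DifferentiableAt ℂ Φ w ∧ ‖Φ w‖ ≤ B * ‖w‖ ^ n := by
    rintro _ ⟨x, hx, rfl⟩
    have hd : ∀ᶠ w : ℂ in 𝓝 (x : ℂ), DifferentiableAt ℂ Φ w :=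
      (han x hx).eventually_analyticAt.mono fun w hw => hw.differentiableAt
    rcases hx.1.eq_or_lt with rfl | hxpos
    · obtain ⟨B, hB, h1⟩ := h0.exists_pos
      rw [IsBigOWith] at h1
      refine ⟨B, hB.le, ?_⟩
      simp only [Complex.ofReal_zero] at hd ⊢
      filter_upwards [hd, h1] with w e1 e2
      exact ⟨e1, by rwa [norm_pow] at e2⟩
    · obtain ⟨M, hM⟩ : ∃ M : ℝ, ∀ᶠ w : ℂ in 𝓝 (x : ℂ), ‖Φ w‖ ≤ M := by
        refine ⟨‖Φ x‖ + 1, ?_⟩
        have := (han x hx).continuousAt.norm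
        filter_upwards [this.eventually (gt_mem_nhds (lt_add_one _))] with w hw
        exact hw.le
      have hM0 : 0 ≤ M := by
        obtain ⟨w, hw⟩ := hM.exists
        exact (norm_nonneg _).trans hw
      refine ⟨M * (2 / x) ^ n, by positivity, ?_⟩
      have hball : ∀ᶠ w : ℂ in 𝓝 (x : ℂ), dist w (x : ℂ) < x / 2 :=
        Metric.eventually_nhds_iff.2 ⟨x / 2, by positivity, fun w hw => hw⟩
      filter_upwards [hd, hM, hball] with w e1 e2 e3
      refine ⟨e1, ?_⟩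
      have h2 : x / 2 ≤ ‖w‖ := by
        have e4 : ‖(x : ℂ)‖ ≤ ‖w‖ + dist w x := by
          rw [Complex.dist_eq]
          have := norm_sub_le w (w - x)
          simpa using this
        rw [Complex.norm_real, Real.norm_eq_abs, abs_of_pos hxpos] at e4
        linarith
      have h4 : 1 ≤ (2 / x) * ‖w‖ := by
        rw [div_mul_eq_mul_div, le_div_iff₀ hxpos]
        linarith
      have h6 : (1 : ℝ) ≤ ((2 / x) * ‖w‖) ^ n := one_le_pow₀ h4
      calc ‖Φ w‖ ≤ M * 1 := by linarith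
        _ ≤ M * ((2 / x) * ‖w‖) ^ n := by gcongr
        _ = M * (2 / x) ^ n * ‖w‖ ^ n := by rw [mul_pow]; ring
  choose! B hB hU using h1
  obtain ⟨t, ht1, ht2⟩ := hKcc.elim_nhds_subcover (fun z => interior {w : ℂ |
      DifferentiableAt ℂ Φ w ∧ ‖Φ w‖ ≤ B z * ‖w‖ ^ n})
    (fun z hz => interior_mem_nhds.2 (hU z hz))
  have hopen : IsOpen (⋃ z ∈ t, interior {w : ℂ |
      DifferentiableAt ℂ Φ w ∧ ‖Φ w‖ ≤ B z * ‖w‖ ^ n}) :=
    isOpen_biUnion fun z _ => isOpen_interior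
  obtain ⟨δ, hδ, hth⟩ := hKcc.exists_thickening_subset_open hopen ht2
  have hBt : ∀ z ∈ t, 0 ≤ B z := fun z hz => hB z (ht1 z hz)
  refine ⟨δ / 2, ∑ z ∈ t, B z, by positivity, Finset.sum_nonneg hBt, fun w e1 e2 e3 => ?_⟩
  have hw : w ∈ Metric.thickening δ Kc := by
    rw [Metric.mem_thickening_iff]
    refine ⟨(w.re : ℂ), ⟨w.re, ⟨e1, e2⟩, rfl⟩, ?_⟩
    rw [Complex.dist_eq]
    have : w - (w.re : ℂ) = ((w.im : ℝ) : ℂ) * I := by
      apply Complex.ext <;> simp
    rw [this, norm_mul, Complex.norm_I, mul_one, Complex.norm_real, Real.norm_eq_abs]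
    linarith
  obtain ⟨z, hz, hwz⟩ := mem_iUnion₂.1 (hth hw)
  obtain ⟨f1, f2⟩ := interior_subset hwz
  refine ⟨f1, f2.trans ?_⟩
  have h6 : B z ≤ ∑ z ∈ t, B z := Finset.single_le_sum hBt hz
  gcongr

/-- Dirichlet series with real coefficients and a continuation which is holomorphic at the real
points of `[0, 1]`. -/
structure FData {ι : Type} (lam c : ι → ℝ) (Φ : ℂ → ℂ) : Prop where
  cnt : Countable ι
  lam_pos : ∀ i, 0 ≤ lam i
  sum : ∀ σ : ℝ, 1 < σ → Summable fun i => |c i| * Real.exp (-(σ * lam i))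
  holo : ∀ x : ℝ, 0 ≤ x → x ≤ 1 → AnalyticAt ℂ Φ (x : ℂ)
  eq : ∀ w : ℂ, 1 < w.re → Φ w = ser lam c w

theorem cmean_zero {ι : Type} (lam c : ι → ℝ) (T : ℝ) : cmean lam c 0 T = (mean lam c T : ℂ) := by
  unfold cmean mean
  rw [Complex.ofReal_tsum]
  refine tsum_congr fun i => ?_
  simp

namespace FData

variable {ι : Type} {lam c : ι → ℝ} {Φ : ℂ → ℂ}

theorem toD (D : FData lam c Φ) : DData lam c Φ :=
  ⟨D.cnt, D.lam_pos, D.sum, fun x h0 h1 => (D.holo x h0 h1).meromorphicAt, D.eq⟩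

theorem holo2 (D : FData lam c Φ) : ∀ x ∈ Icc (0 : ℝ) 2, AnalyticAt ℂ Φ (x : ℂ) := by
  intro x hx
  by_cases h : x ≤ 1
  · exact D.holo x hx.1 h
  · push Not at h
    exact D.toD.analytic (w := (x : ℂ)) (by simpa using h)

/-- **The basic estimate.** -/
theorem small (D : FData lam c Φ) (n : ℕ) (h0 : Φ =O[𝓝 0] fun w : ℂ => w ^ n) :
    ∃ C T₀ : ℝ, 0 ≤ C ∧ 1 ≤ T₀ ∧ ∀ T ≥ T₀, |mean lam c T| ≤ C / T ^ n := by
  have := D.cnt
  have S := D.toD.sdata
  obtain ⟨η, B, hη, hB, hstrip⟩ := strip_flat D.holo2 n h0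
  have hpi := Real.pi_pos
  have hpi4 := Real.pi_lt_four
  obtain ⟨D1, hD10, hD1⟩ := dexp_pow n (κ := 1) one_pos
  obtain ⟨D0, hD00, hD0⟩ := dexp_pow 0 (κ := 1) one_pos
  set S2 : ℝ := ∑' i, |c i| * Real.exp (-(2 * lam i)) with hS2
  have hS20 : 0 ≤ S2 := tsum_nonneg fun i => by positivity
  set F : ℝ := (n.factorial : ℝ) with hF
  have hF0 : 0 < F := by rw [hF]; positivity
  refine ⟨Real.exp (Real.exp 1) * (B * 5 ^ n) + B * 5 ^ n * D1 + S2 * F, Real.pi / η + 1,
    by positivity, by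
      have : 0 < Real.pi / η := by positivity
      linarith, fun T hT => ?_⟩
  have hq : 0 < Real.pi / η := by positivity
  have hT1 : 1 ≤ T := by linarith
  have hT0 : 0 < T := by linarith
  have hTη : Real.pi / T ≤ η := by
    rw [div_le_iff₀ hT0, mul_comm, ← div_le_iff₀ hη]; linarith
  set b : ℝ := 2 * T with hb
  have hb0 : 0 ≤ b := by linarith
  have hb1 : (1 : ℝ) ≤ b := by linarith
  set Ψ : ℂ → ℂ := fun z => Φ (z / T) with hΨ
  have hwd : Differentiable ℂ (fun z : ℂ => z / (T : ℂ)) := by fun_prop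
  have hexpb : Real.exp (-b) ≤ F / T ^ n := by
    have h1 : T ^ n / F ≤ Real.exp T := Real.pow_div_factorial_le_exp T hT0.le n
    have h2 : Real.exp (-b) ≤ Real.exp (-T) := Real.exp_le_exp.2 (by linarith)
    refine h2.trans ?_
    rw [Real.exp_neg, ← one_div, div_le_div_iff₀ (Real.exp_pos _) (by positivity), one_mul]
    rw [div_le_iff₀ hF0] at h1
    linarith
  have hrect : ∀ z : ℂ, 1 ≤ z.re → z.re ≤ b → |z.im| ≤ Real.pi →
      DifferentiableAt ℂ Ψ z ∧ ‖Ψ z‖ ≤ B * 5 ^ n / T ^ n * z.re ^ n := by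
    intro z h1 h2 h3
    have hz0 : 0 < z.re := by linarith
    have hre : (z / (T : ℂ)).re = z.re / T := Complex.div_ofReal_re z T
    have him : (z / (T : ℂ)).im = z.im / T := Complex.div_ofReal_im z T
    have hzn : ‖z‖ ≤ 5 * z.re := by
      have e1 := Complex.norm_le_abs_re_add_abs_im z
      rw [abs_of_pos hz0] at e1
      nlinarith
    have hwn : ‖z / (T : ℂ)‖ ≤ 5 * z.re / T := by
      rw [norm_div, Complex.norm_real, Real.norm_eq_abs, abs_of_pos hT0]
      exact div_le_div_of_nonneg_right hzn hT0.le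
    obtain ⟨g1, g2⟩ := hstrip (z / T) (by rw [hre]; positivity)
      (by rw [hre, div_le_iff₀ hT0]; exact h2)
      (by
        rw [him, abs_div, abs_of_pos hT0]
        exact (div_le_div_of_nonneg_right h3 hT0.le).trans hTη)
    refine ⟨DifferentiableAt.comp (g := Φ) (f := fun z : ℂ => z / (T : ℂ)) z g1 (hwd z),
      g2.trans ?_⟩
    calc B * ‖z / (T : ℂ)‖ ^ n ≤ B * (5 * z.re / T) ^ n := by gcongr
      _ = B * 5 ^ n / T ^ n * z.re ^ n := by rw [div_pow, mul_pow]; ring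
  -- the vertical part
  have E1 : V b Ψ = V 1 Ψ + ∫ x in (1 : ℝ)..b, rho Ψ x := by
    refine V_shift fun z hz => ?_
    rw [mem_reProdIm, uIcc_of_le hb1, uIcc_of_le (by linarith)] at hz
    exact (hrect z hz.1.1 hz.1.2 (abs_le.2 hz.2)).1.differentiableWithinAt
  have E2 : ‖V 1 Ψ‖ ≤ Real.exp (Real.exp 1) * (B * 5 ^ n / T ^ n) := by
    refine norm_V_le fun y hy => ?_
    have h1 := (hrect ((1 : ℝ) + y * I) (by simp) (by simpa using hb1) (by simpa using hy)).2
    have h3 : (((1 : ℝ) : ℂ) + y * I).re = 1 := by simp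
    rw [h3, one_pow, mul_one] at h1
    exact h1
  have E3 : ‖∫ x in (1 : ℝ)..b, rho Ψ x‖ ≤ B * 5 ^ n / T ^ n * D1 := by
    have h1 : ‖∫ x in (1 : ℝ)..b, rho Ψ x‖ ≤
        ∫ x in (1 : ℝ)..b, B * 5 ^ n / T ^ n * D1 * Real.exp (-x) := by
      refine intervalIntegral.norm_integral_le_of_norm_le hb1 ?_ (by
        exact Continuous.intervalIntegrable (by fun_prop) _ _)
      refine ae_of_all _ fun x hx => ?_
      have hx1 : 1 ≤ x := hx.1.le
      have e1 := (hrect (x + Real.pi * I) (by simpa using hx1) (by simpa using hx.2)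
        (by simp [abs_of_pos hpi])).2
      have e2 := (hrect (x - Real.pi * I) (by simpa using hx1) (by simpa using hx.2)
        (by simp [abs_of_pos hpi])).2
      have e3 : ((x : ℂ) + Real.pi * I).re = x := by simp
      have e4 : ((x : ℂ) - Real.pi * I).re = x := by simp
      rw [e3] at e1
      rw [e4] at e2
      unfold rho
      rw [norm_mul, norm_mul, Complex.norm_real, Real.norm_eq_abs, abs_of_pos (Real.exp_pos _)]
      have hn2 : ‖(2 * Real.pi * I : ℂ)⁻¹‖ = (2 * Real.pi)⁻¹ := by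
        rw [norm_inv, norm_mul, norm_mul, Complex.norm_real, Real.norm_eq_abs, abs_of_pos hpi,
          Complex.norm_I]
        norm_num
      have hn3 : ‖(2 * Real.pi * I : ℂ)⁻¹‖ ≤ 1 / 2 := by
        rw [hn2, inv_le_comm₀ (by positivity) (by norm_num)]
        have := Real.pi_gt_three
        linarith
      have h5 := hD1 x (by linarith)
      rw [one_mul] at h5
      have h6 : ‖Ψ (x + Real.pi * I) - Ψ (x - Real.pi * I)‖ ≤ 2 * (B * 5 ^ n / T ^ n * x ^ n) := by
        refine (norm_sub_le _ _).trans ?_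
        linarith
      calc ‖(2 * Real.pi * I : ℂ)⁻¹‖ * (Real.exp (-Real.exp x) *
            ‖Ψ (x + Real.pi * I) - Ψ (x - Real.pi * I)‖)
          ≤ 1 / 2 * (Real.exp (-Real.exp x) * (2 * (B * 5 ^ n / T ^ n * x ^ n))) := by gcongr
        _ = B * 5 ^ n / T ^ n * (Real.exp (-Real.exp x) * x ^ n) := by ring
        _ ≤ B * 5 ^ n / T ^ n * (D1 * Real.exp (-x)) := by gcongr
        _ = _ := by ring
    have h2 : ∫ x in (1 : ℝ)..b, B * 5 ^ n / T ^ n * D1 * Real.exp (-x) =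
        B * 5 ^ n / T ^ n * D1 * (Real.exp (-1) - Real.exp (-b)) := by
      rw [intervalIntegral.integral_const_mul, intervalIntegral.integral_comp_neg
        (f := Real.exp), integral_exp]
    rw [h2] at h1
    refine h1.trans ?_
    have h3 : Real.exp (-1) ≤ 1 := Real.exp_le_one_iff.2 (by linarith)
    have h4 := Real.exp_pos (-b)
    have h5 : 0 ≤ B * 5 ^ n / T ^ n * D1 := by positivity
    nlinarith
  -- the right part
  have hre2 : ∀ z ∈ HS b, 2 ≤ (z / (T : ℂ)).re := by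
    intro z hz
    rw [Complex.div_ofReal_re, le_div_iff₀ hT0]
    exact hz.1
  have hsb : ∀ z ∈ HS b, ‖ser lam c (z / T)‖ ≤ S2 := fun z hz => S.ser_le (hre2 z hz)
  have E4 : ‖∫ x in Ioi b, rho (fun z => ser lam c (z / T)) x‖ ≤ S2 * F / T ^ n := by
    have h1 := Pool.Agent.W189.LC.norm_rays_le' (Φ := fun z => ser lam c (z / T)) (A := S2)
      (B := 0) hb0 hS20 le_rfl (s := Ioi b)
      (fun x hx => by have := hsb _ (up_mem (le_of_lt hx)); linarith)
      (fun x hx => by have := hsb _ (down_mem (le_of_lt hx)); linarith)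
      subset_rfl measurableSet_Ioi
    refine h1.trans ?_
    rw [add_zero, mul_div_assoc]
    exact mul_le_mul_of_nonneg_left hexpb hS20
  have E5 : V b (fun z => ser lam c (z / T)) = V b Ψ := by
    refine V_congr fun y _ => ?_
    have hre : ((((b : ℝ) : ℂ) + y * I) / (T : ℂ)).re = 2 := by
      rw [Complex.div_ofReal_re, hb]
      simp
      field_simp
    show ser lam c _ = Φ _
    rw [D.eq _ (by rw [hre]; norm_num)]
  have hJ : J b (fun z => ser lam c (z / T)) = (mean lam c T : ℂ) :=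
    (SData.mean_eq S hT1 le_rfl).1
  have hfin : ‖(mean lam c T : ℂ)‖ ≤ Real.exp (Real.exp 1) * (B * 5 ^ n / T ^ n) +
      B * 5 ^ n / T ^ n * D1 + S2 * F / T ^ n := by
    rw [← hJ]
    unfold J
    rw [E5, E1]
    exact (norm_add_le _ _).trans (add_le_add ((norm_add_le _ _).trans (add_le_add E2 E3)) E4)
  rw [Complex.norm_real, Real.norm_eq_abs] at hfin
  refine hfin.trans (le_of_eq ?_)
  ring

theorem sub_EE (D : FData lam c Φ) {n : ℕ} (b : Fin n → ℝ) :
    FData (Sum.elim lam fun j : Fin n => ((j : ℕ) : ℝ)) (Sum.elim c fun j => -b j)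
      (fun w => Φ w - EE b w) where
  cnt := (D.toD.sub_EE b).cnt
  lam_pos := (D.toD.sub_EE b).lam_pos
  sum := (D.toD.sub_EE b).sum
  holo := fun x h0 h1 => by
    refine (D.holo x h0 h1).fun_sub ?_
    unfold EE
    fun_prop
  eq := (D.toD.sub_EE b).eq

/-- **The asymptotic expansion of the means.** -/
theorem expansion (D : FData lam c Φ) (n : ℕ) (a : ℕ → ℝ)
    (h : (fun w : ℂ => Φ w - ∑ k ∈ Finset.range n, (a k : ℂ) * w ^ k) =O[𝓝 0]
      fun w : ℂ => w ^ n) :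
    (fun T : ℝ => (mean lam c T : ℂ) - ∑ k ∈ Finset.range n, (a k : ℂ) * Ck k 0 / (T : ℂ) ^ k)
      =O[atTop] fun T : ℝ => 1 / T ^ n := by
  obtain ⟨b, hb⟩ := exists_b n a
  have h1 : (fun w : ℂ => Φ w - EE b w) =O[𝓝 0] fun w : ℂ => w ^ n := by
    refine (h.sub (EE_taylor hb)).congr_left fun w => ?_
    ring
  obtain ⟨C, T₀, hC, hT₀, hsm⟩ := (D.sub_EE b).small n h1
  have h3 : (fun T : ℝ => cmean lam c 0 T - ∑ j : Fin n, (b j : ℂ) *
      HH 0 ((((j : ℕ) : ℝ) / T : ℝ) : ℂ)) =O[atTop] fun T : ℝ => 1 / T ^ n := by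
    refine IsBigO.of_bound C ?_
    filter_upwards [eventually_ge_atTop T₀] with T hT
    have hT0 : 0 < T := by linarith
    have h4 := hsm T hT
    have h5 := D.toD.cmean_sub b 0 hT0
    rw [cmean_zero] at h5
    rw [← h5, Complex.norm_real, Real.norm_eq_abs, Real.norm_eq_abs,
      abs_of_pos (by positivity : 0 < 1 / T ^ n), mul_one_div]
    exact h4
  have h5 : (fun T : ℝ => ∑ j : Fin n, (b j : ℂ) * (HH 0 ((((j : ℕ) : ℝ) / T : ℝ) : ℂ) -
      ∑ k ∈ Finset.range n, iteratedDeriv k (HH 0) 0 / (k.factorial : ℂ) *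
        ((((j : ℕ) : ℝ) / T : ℝ) : ℂ) ^ k)) =O[atTop] fun T : ℝ => 1 / T ^ n :=
    IsBigO.fun_sum fun j _ => (HH_expansion 0 n _).const_mul_left _
  refine (h3.add h5).congr_left fun T => ?_
  have h6 : ∑ j : Fin n, (b j : ℂ) * ∑ k ∈ Finset.range n,
      iteratedDeriv k (HH 0) 0 / (k.factorial : ℂ) * ((((j : ℕ) : ℝ) / T : ℝ) : ℂ) ^ k =
      ∑ k ∈ Finset.range n, (a k : ℂ) * Ck k 0 / (T : ℂ) ^ k := sum_HH hb 0 T
  simp only [mul_sub, Finset.sum_sub_distrib]
  rw [h6, cmean_zero]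
  ring

/-- **Value and derivative at `0`.** -/
theorem deriv_mean (D : FData lam c Φ) :
    (Φ 0).im = 0 ∧ (deriv Φ 0).im = 0 ∧
    (fun T : ℝ => mean lam c T - ((Φ 0).re - Real.eulerMascheroniConstant * (deriv Φ 0).re / T))
      =O[atTop] (fun T : ℝ => 1 / T ^ 2) := by
  have hΦ : AnalyticAt ℂ Φ 0 := by
    have := D.holo 0 le_rfl zero_le_one
    simpa using this
  have hre : ∀ k, (iteratedDeriv k Φ 0).im = 0 := by
    have hγ : Real.pi / 2 < 2 := by
      have := Real.pi_lt_four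
      linarith
    exact (D.toD.expansion_analytic hγ hΦ 0).1
  have hv : (Φ 0).im = 0 := by simpa using hre 0
  have hd : (deriv Φ 0).im = 0 := by simpa [iteratedDeriv_one] using hre 1
  refine ⟨hv, hd, ?_⟩
  have h3 : ∀ k, iteratedDeriv k Φ 0 / (k.factorial : ℂ) =
      (((iteratedDeriv k Φ 0).re / (k.factorial : ℝ) : ℝ) : ℂ) := by
    intro k
    have e1 : iteratedDeriv k Φ 0 = ((iteratedDeriv k Φ 0).re : ℂ) := by
      apply Complex.ext <;> simp [hre k]
    rw [e1]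
    push_cast
    simp
  have h4 := D.expansion 2 (fun k => (iteratedDeriv k Φ 0).re / (k.factorial : ℝ)) (by
    refine (taylorO hΦ 2).congr_left fun w => ?_
    simp only [h3])
  obtain ⟨C, hC⟩ := h4.bound
  refine IsBigO.of_bound C ?_
  filter_upwards [hC] with T hT
  refine le_trans (le_of_eq ?_) hT
  have e1 : (mean lam c T : ℂ) - ∑ k ∈ Finset.range 2,
      (((iteratedDeriv k Φ 0).re / (k.factorial : ℝ) : ℝ) : ℂ) * Ck k 0 / (T : ℂ) ^ k =
      ((mean lam c T - ((Φ 0).re - Real.eulerMascheroniConstant * (deriv Φ 0).re / T) : ℝ) : ℂ) := by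
    rw [Finset.sum_range_succ, Finset.sum_range_one, Ck_zero, Ck_one]
    simp only [iteratedDeriv_zero, iteratedDeriv_one, Nat.factorial_zero, Nat.factorial_one,
      Nat.cast_one, div_one, pow_zero, pow_one, mul_one, Complex.ofReal_zero, zero_mul, add_zero]
    push_cast
    ring
  rw [e1, Complex.norm_real]

end FData

end Pool.Agent.X242.DR
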