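import Pool.Agent.X242.UW1
import Mathlib.Analysis.SpecialFunctions.Exponential

/-!
# Universal rational weights: the approximation theorem; exponentials of Dirichlet series
-/

set_option autoImplicit false

namespace Pool.Agent.X242.DR

open Complex MeasureTheory Filter Topology Set Asymptotics
open scoped Interval ComplexConjugate
open Pool.Agent.W189.ML Pool.Agent.W187.UR

/-- `ρ_N(n)`, `n ≥ 1`, `N ≥ 1`, are rational numbers, for every `N` almost all of them zero, with
`|ρ_N(n) - w_N(log n)| ≤ 1 / (N n²)` for the weights `w_N(u) = Re (N^r e^{iγu/N} / (C_r(γ) Γ(1 + u/N)))`. -/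
def IsRational (r : ℕ) (γ : ℝ) (ρ : ℕ → ℕ →₀ ℚ) : Prop :=
  ∀ N n : ℕ, 1 ≤ N → 1 ≤ n → |(ρ N n : ℝ) - weight r γ N (Real.log n)| ≤ 1 / (N * n ^ 2)

/-- `∑_n ρ(n) a_n` -/
noncomputable def comb {E : Type} [Field E] (ρ : ℕ →₀ ℚ) (a : ℕ → E) : E :=
  ρ.sum fun n q => (q : E) * a n

theorem exists_rational (r : ℕ) (γ : ℝ) : ∃ ρ, IsRational r γ ρ := by
  -- the cut
  set Kw : ℕ → ℝ := fun N => (N : ℝ) ^ r / ‖Ck r γ‖ * (Real.exp (Real.exp (3 * N)) + 1) with hKw
  have hK0 : ∀ N, 0 ≤ Kw N := fun N => by rw [hKw]; positivity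
  set M : ℕ → ℕ := fun N => ⌈(N : ℝ) * Kw N⌉₊ with hM
  have hq : ∀ N n : ℕ, 1 ≤ N → 1 ≤ n → ∃ q : ℚ,
      |(q : ℝ) - weight r γ N (Real.log n)| ≤ 1 / (N * n ^ 2) := by
    intro N n hN hn
    have h1 : (0 : ℝ) < 1 / (N * n ^ 2) := by
      have : (0 : ℝ) < N := by exact_mod_cast hN
      have : (0 : ℝ) < n := by exact_mod_cast hn
      positivity
    obtain ⟨q, h2, h3⟩ := exists_rat_btwn (show weight r γ N (Real.log n) <
      weight r γ N (Real.log n) + 1 / (N * n ^ 2) by linarith)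
    refine ⟨q, ?_⟩
    rw [abs_le]
    constructor <;> linarith
  choose! q hq using hq
  refine ⟨fun N => Finsupp.onFinset (Finset.range (M N + 1))
    (fun n => if n ≤ M N then q N n else 0) (fun n hn => by
      by_contra hcon
      rw [Finset.mem_range, Nat.lt_succ_iff] at hcon
      exact hn (if_neg hcon)), fun N n hN hn => ?_⟩
  rw [Finsupp.onFinset_apply]
  split_ifs with h
  · exact hq N n hN hn
  · have hN0 : (0 : ℝ) < N := by exact_mod_cast hN
    have hn0 : (0 : ℝ) < n := by exact_mod_cast hn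
    push Not at h
    have h1 := weight_le r γ (T := N) (u := Real.log n) hN0 (Real.log_natCast_nonneg n)
    have h2 : (N : ℝ) * Kw N ≤ n := (Nat.le_ceil _).trans (by exact_mod_cast h.le)
    have h3 : Real.exp (-(3 * Real.log n)) = 1 / (n : ℝ) ^ 3 := by
      rw [Real.exp_neg, ← one_div]
      congr 1
      have : (3 : ℝ) * Real.log n = Real.log n + Real.log n + Real.log n := by ring
      rw [this, Real.exp_add, Real.exp_add, Real.exp_log hn0]
      ring
    rw [h3] at h1
    push_cast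
    rw [zero_sub, abs_neg]
    refine h1.trans ?_
    show Kw N * (1 / (n : ℝ) ^ 3) ≤ _
    rw [mul_one_div, div_le_div_iff₀ (by positivity) (by positivity), one_mul]
    calc Kw N * ((N : ℝ) * (n : ℝ) ^ 2) = ((N : ℝ) * Kw N) * (n : ℝ) ^ 2 := by ring
      _ ≤ (n : ℝ) * (n : ℝ) ^ 2 := mul_le_mul_of_nonneg_right h2 (by positivity)
      _ = (n : ℝ) ^ 3 := by ring

/-- **Universal rational weights for Dirichlet series.** -/
theorem IsSeries.universal {a : ℕ → ℂ} {Φ : ℂ → ℂ} (h : IsSeries a Φ) (ha : a 0 = 0) (r : ℕ) (c : ℂ)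
    {γ : ℝ} (hγ : Real.pi / 2 < γ) (hC : Ck r γ ≠ 0)
    (hc : (fun w : ℂ => Φ w - c * w ^ r) =O[𝓝[≠] 0] fun w : ℂ => w ^ (r + 1))
    {ρ : ℕ → ℕ →₀ ℚ} (hρ : IsRational r γ ρ) :
    (fun N : ℕ => comb (ρ N) a - c) =O[atTop] fun N : ℕ => 1 / (N : ℝ) := by
  have h1 := (h.law ha r c hγ hC hc).comp_tendsto tendsto_natCast_atTop_atTop
  have hS : Summable fun n : ℕ => ‖a n‖ * Real.exp (-(2 * Real.log n)) := h.sum ha (by norm_num)
  have hS3 := h.sum ha (σ := 3) (by norm_num)
  have h2 : (fun N : ℕ => comb (ρ N) a - ∑' n : ℕ, a n * (weight r γ N (Real.log n) : ℂ)) =O[atTop]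
      fun N : ℕ => 1 / (N : ℝ) := by
    refine IsBigO.of_bound (∑' n : ℕ, ‖a n‖ * Real.exp (-(2 * Real.log n))) ?_
    filter_upwards [eventually_ge_atTop 1] with N hN
    have hN0 : (0 : ℝ) < N := by exact_mod_cast hN
    have e1 : comb (ρ N) a = ∑' n : ℕ, a n * ((ρ N n : ℝ) : ℂ) := by
      unfold comb
      rw [Finsupp.sum, tsum_eq_sum (s := (ρ N).support)]
      · refine Finset.sum_congr rfl fun n _ => ?_
        push_cast
        ring
      · intro n hn
        rw [Finsupp.notMem_support_iff.1 hn]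
        simp
    have s1 : Summable fun n : ℕ => a n * ((ρ N n : ℝ) : ℂ) := by
      refine summable_of_ne_finset_zero (s := (ρ N).support) fun n hn => ?_
      rw [Finsupp.notMem_support_iff.1 hn]
      simp
    have s2 : Summable fun n : ℕ => a n * (weight r γ N (Real.log n) : ℂ) := by
      refine Summable.of_norm_bounded (hS3.mul_left
        ((N : ℝ) ^ r / ‖Ck r γ‖ * (Real.exp (Real.exp (3 * N)) + 1))) fun n => ?_
      rw [norm_mul, Complex.norm_real, Real.norm_eq_abs]
      have h4 := weight_le r γ hN0 (Real.log_natCast_nonneg n)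
      calc ‖a n‖ * |weight r γ N (Real.log n)| ≤ ‖a n‖ * ((N : ℝ) ^ r / ‖Ck r γ‖ *
            (Real.exp (Real.exp (3 * N)) + 1) * Real.exp (-(3 * Real.log n))) :=
            mul_le_mul_of_nonneg_left h4 (norm_nonneg _)
        _ = _ := by ring
    rw [e1, ← s1.tsum_sub s2, Real.norm_eq_abs, abs_of_pos (by positivity : 0 < 1 / (N : ℝ)),
      ← tsum_mul_right]
    refine tsum_of_norm_bounded (hS.mul_right _).hasSum fun n => ?_
    rcases Nat.eq_zero_or_pos n with rfl | hn
    · simp [ha]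
    · have hn0 : (0 : ℝ) < n := by exact_mod_cast hn
      have e2 : Real.exp (-(2 * Real.log n)) = 1 / (n : ℝ) ^ 2 := by
        rw [Real.exp_neg, ← one_div]
        congr 1
        have : (2 : ℝ) * Real.log n = Real.log n + Real.log n := by ring
        rw [this, Real.exp_add, Real.exp_log hn0]
        ring
      have e3 : |(ρ N n : ℝ) - weight r γ N (Real.log n)| ≤ 1 / (n : ℝ) ^ 2 * (1 / (N : ℝ)) := by
        have e4 := hρ N n hN hn
        have e5 : 1 / ((N : ℝ) * (n : ℝ) ^ 2) = 1 / (n : ℝ) ^ 2 * (1 / (N : ℝ)) := by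
          field_simp
        rw [e5] at e4
        exact e4
      rw [← mul_sub, ← Complex.ofReal_sub, norm_mul, Complex.norm_real, Real.norm_eq_abs, e2,
        mul_assoc]
      generalize |(ρ N n : ℝ) - weight r γ N (Real.log n)| = z at e3 ⊢
      exact mul_le_mul_of_nonneg_left e3 (norm_nonneg _)
  refine (h2.add h1).congr_left fun N => ?_
  simp only [Function.comp_def]
  ring

/-! ### Exponentials -/

section expo

variable {X : Type} {𝕜 : Type} [NormedField 𝕜] [CompleteSpace 𝕜]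

theorem pow_series (g : X → 𝕜) (hg : Summable fun x => ‖g x‖) (m : ℕ) :
    (Summable fun v : Fin m → X => ‖∏ i, g (v i)‖) ∧
      ∑' v : Fin m → X, ∏ i, g (v i) = (∑' x, g x) ^ m := by
  induction m with
  | zero =>
    refine ⟨Summable.of_finite, ?_⟩
    rw [tsum_fintype]
    simp
  | succ m ih =>
    obtain ⟨h1, h2⟩ := ih
    have h3 : Summable fun p : X × (Fin m → X) => ‖g p.1 * ∏ i, g (p.2 i)‖ :=
      Summable.mul_norm (f := g) (g := fun v : Fin m → X => ∏ i, g (v i)) hg h1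
    have h4 : ∀ p : X × (Fin m → X), ∏ i, g ((Fin.consEquiv (fun _ : Fin (m + 1) => X)) p i) =
        g p.1 * ∏ i, g (p.2 i) := by
      intro p
      rw [Fin.prod_univ_succ]
      simp [Fin.consEquiv]
    refine ⟨?_, ?_⟩
    · rw [← (Fin.consEquiv (fun _ : Fin (m + 1) => X)).summable_iff]
      refine h3.congr fun p => ?_
      simp only [Function.comp_def]
      rw [h4]
    · rw [← (Fin.consEquiv (fun _ : Fin (m + 1) => X)).tsum_eq, pow_succ, ← h2, mul_comm,
        tsum_mul_tsum_of_summable_norm (f := g) (g := fun v : Fin m → X => ∏ i, g (v i)) hg h1]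
      exact tsum_congr fun p => h4 p

end expo

theorem exp_series {X : Type} (g : X → ℂ) (hg : Summable fun x => ‖g x‖) :
    (Summable fun y : Σ m : ℕ, (Fin m → X) => ‖(∏ i, g (y.2 i)) / (y.1.factorial : ℂ)‖) ∧
      HasSum (fun y : Σ m : ℕ, (Fin m → X) => (∏ i, g (y.2 i)) / (y.1.factorial : ℂ))
        (exp (∑' x, g x)) := by
  have hn : ∀ y : Σ m : ℕ, (Fin m → X), ‖(∏ i, g (y.2 i)) / (y.1.factorial : ℂ)‖ =
      (∏ i, ‖g (y.2 i)‖) / (y.1.factorial : ℝ) := by
    intro y
    rw [norm_div, norm_prod, Complex.norm_natCast]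
  have hg' : Summable fun x => ‖‖g x‖‖ := by simpa using hg
  have h1 : Summable fun y : Σ m : ℕ, (Fin m → X) => ‖(∏ i, g (y.2 i)) / (y.1.factorial : ℂ)‖ := by
    rw [summable_sigma_of_nonneg (fun y => norm_nonneg _)]
    refine ⟨fun m => ?_, ?_⟩
    · have e0 : Summable fun v : Fin m → X => (∏ i, ‖g (v i)‖) / (m.factorial : ℝ) := by
        refine Summable.div_const ?_ _
        refine (pow_series (fun x => ‖g x‖) hg' m).1.congr fun v => ?_
        rw [norm_prod]
        simp
      exact e0.congr fun v => (hn ⟨m, v⟩).symm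
    · have e1 : (fun m : ℕ => ∑' v : Fin m → X, ‖(∏ i, g (v i)) / (m.factorial : ℂ)‖) =
          fun m : ℕ => (∑' x, ‖g x‖) ^ m / (m.factorial : ℝ) := by
        funext m
        have e2 : ∀ v : Fin m → X, ‖(∏ i, g (v i)) / (m.factorial : ℂ)‖ =
            (∏ i, ‖g (v i)‖) / (m.factorial : ℝ) := fun v => hn ⟨m, v⟩
        simp only [e2]
        rw [tsum_div_const, (pow_series (fun x => ‖g x‖) hg' m).2]
      rw [e1]
      exact Real.summable_pow_div_factorial _
  refine ⟨h1, ?_⟩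
  have h2 := h1.of_norm
  have h3 : ∑' y : Σ m : ℕ, (Fin m → X), (∏ i, g (y.2 i)) / (y.1.factorial : ℂ) =
      exp (∑' x, g x) := by
    rw [h2.tsum_sigma, Complex.exp_eq_exp_ℂ, NormedSpace.exp_eq_tsum_div]
    refine tsum_congr fun m => ?_
    show ∑' v : Fin m → X, (∏ i, g (v i)) / (m.factorial : ℂ) = _
    rw [tsum_div_const, (pow_series g hg m).2]
  rw [← h3]
  exact h2.hasSum

end Pool.Agent.X242.DR
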