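import Pool.Agent.X242.DR4
import Pool.Agent.X242.DR5
import Pool.Agent.X242.UW2

/-!
# Dirichlet series over ideals with bounded coefficients
-/

set_option autoImplicit false

namespace Pool.Agent.X242.DR

open Complex Filter Topology Set Asymptotics NumberField
open Pool.Agent.W189.ML Pool.Agent.W187.UR

variable {K : Type} [Field K] [NumberField K]

/-- `log N(𝔞)` -/
noncomputable def lgN (𝔞 : Ideal (𝓞 K)) : ℝ := Real.log (Ideal.absNorm 𝔞 : ℕ)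

theorem norm_cpow_exp {𝔞 : Ideal (𝓞 K)} (h : 𝔞 ≠ ⊥) (s : ℂ) :
    ((Ideal.absNorm 𝔞 : ℕ) : ℂ) ^ (-s) = exp (-(s * (lgN 𝔞 : ℝ))) := by
  have hI : Ideal.absNorm 𝔞 ≠ 0 := by
    rw [Ne, Ideal.absNorm_eq_zero_iff]; exact h
  have hI' : ((Ideal.absNorm 𝔞 : ℕ) : ℂ) ≠ 0 := by exact_mod_cast hI
  rw [Complex.cpow_def_of_ne_zero hI']
  unfold lgN
  rw [Complex.natCast_log]
  congr 1
  ring

theorem sum_bounded {c : Ideal (𝓞 K) → ℂ} {B : ℝ} (hc : ∀ 𝔞, ‖c 𝔞‖ ≤ B) (h0 : c ⊥ = 0) {σ : ℝ}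
    (hσ : 1 < σ) : Summable fun 𝔞 : Ideal (𝓞 K) => ‖c 𝔞‖ * Real.exp (-(σ * lgN 𝔞)) := by
  have hB : 0 ≤ B := (norm_nonneg _).trans (hc ⊥)
  have h1 : Summable fun 𝔞 : {I : Ideal (𝓞 K) // I ≠ ⊥} => ‖c 𝔞.1‖ * Real.exp (-(σ * lgN 𝔞.1)) := by
    refine Summable.of_nonneg_of_le (fun 𝔞 => by positivity) (fun 𝔞 => ?_)
      ((summable_norm (K := K) hσ).mul_left B)
    have hI : Ideal.absNorm 𝔞.1 ≠ 0 := by rw [Ne, Ideal.absNorm_eq_zero_iff]; exact 𝔞.2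
    have hI' : (0 : ℝ) < (Ideal.absNorm 𝔞.1 : ℕ) := by exact_mod_cast Nat.pos_of_ne_zero hI
    have h2 : Real.exp (-(σ * lgN 𝔞.1)) = (Ideal.absNorm 𝔞.1 : ℝ) ^ (-σ) := by
      rw [Real.rpow_def_of_pos hI']
      congr 1
      unfold lgN
      ring
    rw [h2]
    exact mul_le_mul_of_nonneg_right (hc _) (Real.rpow_nonneg hI'.le _)
  have h2 : (fun 𝔞 : Ideal (𝓞 K) => ‖c 𝔞‖ * Real.exp (-(σ * lgN 𝔞))) =
      Set.indicator {I : Ideal (𝓞 K) | I ≠ ⊥} fun 𝔞 => ‖c 𝔞‖ * Real.exp (-(σ * lgN 𝔞)) := by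
    funext 𝔞
    by_cases h : 𝔞 ∈ {I : Ideal (𝓞 K) | I ≠ ⊥}
    · rw [Set.indicator_of_mem h]
    · rw [Set.indicator_of_notMem h]
      have h3 : 𝔞 = ⊥ := by
        by_contra h4
        exact h h4
      rw [h3, h0]
      simp
  rw [h2]
  exact summable_subtype_iff_indicator.1 h1

/-- real coefficients, continuation holomorphic at the points of `[0, 1]` -/
theorem fdata_ideals {c : Ideal (𝓞 K) → ℝ} {B : ℝ} (hc : ∀ 𝔞, |c 𝔞| ≤ B) (h0 : c ⊥ = 0)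
    {Φ : ℂ → ℂ} (hol : ∀ x : ℝ, 0 ≤ x → x ≤ 1 → AnalyticAt ℂ Φ (x : ℂ))
    (heq : ∀ s : ℂ, 1 < s.re →
      HasSum (fun 𝔞 : Ideal (𝓞 K) => (c 𝔞 : ℂ) * ((Ideal.absNorm 𝔞 : ℕ) : ℂ) ^ (-s)) (Φ s)) :
    FData (lgN (K := K)) c Φ where
  cnt := inferInstance
  lam_pos := fun 𝔞 => Real.log_natCast_nonneg _
  sum := fun σ hσ => by
    have h1 := sum_bounded (c := fun 𝔞 => (c 𝔞 : ℂ)) (B := B)
      (fun 𝔞 => by rw [Complex.norm_real]; exact hc 𝔞) (by simp [h0]) hσ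
    refine h1.congr fun 𝔞 => ?_
    rw [Complex.norm_real, Real.norm_eq_abs]
  holo := hol
  eq := fun s hs => by
    rw [← (heq s hs).tsum_eq]
    unfold ser
    refine tsum_congr fun 𝔞 => ?_
    by_cases h : 𝔞 = ⊥
    · rw [h, h0]
      simp
    · rw [norm_cpow_exp h]

/-- complex coefficients, continuation meromorphic at the points of `[0, 1]`: the coefficient of `n^{-s}` -/
noncomputable def byNorm {E : Type} [AddCommMonoid E] (c : Ideal (𝓞 K) → E) (n : ℕ) : E :=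
  ∑ᶠ 𝔞 ∈ {𝔞 : Ideal (𝓞 K) | Ideal.absNorm 𝔞 = n}, c 𝔞

theorem finite_norm (n : ℕ) : {𝔞 : Ideal (𝓞 K) | Ideal.absNorm 𝔞 = n}.Finite :=
  Ideal.finite_setOfPred_absNorm_eq (S := 𝓞 K) n

theorem byNorm_map {E E' : Type} [AddCommMonoid E] [AddCommMonoid E'] (σ : E →+ E')
    (c : Ideal (𝓞 K) → E) (n : ℕ) : byNorm (fun 𝔞 => σ (c 𝔞)) n = σ (byNorm c n) := by
  unfold byNorm
  rw [finsum_mem_eq_finite_toFinset_sum _ (finite_norm n),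
    finsum_mem_eq_finite_toFinset_sum _ (finite_norm n), map_sum]

theorem byNorm_zero {E : Type} [AddCommMonoid E] {c : Ideal (𝓞 K) → E} (h0 : c ⊥ = 0) :
    byNorm c 0 = 0 := by
  unfold byNorm
  rw [finsum_mem_eq_finite_toFinset_sum _ (finite_norm 0)]
  refine Finset.sum_eq_zero fun 𝔞 h𝔞 => ?_
  rw [Set.Finite.mem_toFinset] at h𝔞
  have h1 : Ideal.absNorm 𝔞 = 0 := h𝔞
  rw [Ideal.absNorm_eq_zero_iff] at h1
  rw [h1, h0]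

theorem byNorm_eq (c : Ideal (𝓞 K) → ℂ) (s : ℂ) (n : ℕ) :
    (∑' 𝔞 : (fun 𝔞 : Ideal (𝓞 K) => Ideal.absNorm 𝔞) ⁻¹' {n}, c 𝔞.1 * exp (-(s * (lgN 𝔞.1 : ℝ)))) =
      byNorm c n * exp (-(s * (Real.log n : ℝ))) := by
  have hfin := finite_norm (K := K) n
  have h1 : ∀ 𝔞 : (fun 𝔞 : Ideal (𝓞 K) => Ideal.absNorm 𝔞) ⁻¹' {n},
      c 𝔞.1 * exp (-(s * (lgN 𝔞.1 : ℝ))) = c 𝔞.1 * exp (-(s * (Real.log n : ℝ))) := by
    intro 𝔞
    have : Ideal.absNorm 𝔞.1 = n := 𝔞.2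
    unfold lgN
    rw [this]
  simp only [h1]
  rw [tsum_mul_right]
  congr 1
  unfold byNorm
  rw [finsum_mem_eq_finite_toFinset_sum _ hfin]
  have h2 : (fun 𝔞 : Ideal (𝓞 K) => Ideal.absNorm 𝔞) ⁻¹' {n} =
      (hfin.toFinset : Set (Ideal (𝓞 K))) := by
    ext y
    simp
  rw [h2]
  exact Finset.tsum_subtype' hfin.toFinset c

theorem isSeries_ideals {c : Ideal (𝓞 K) → ℂ} {B : ℝ} (hc : ∀ 𝔞, ‖c 𝔞‖ ≤ B) (h0 : c ⊥ = 0)
    {Φ : ℂ → ℂ} (hmer : ∀ x : ℝ, 0 ≤ x → x ≤ 1 → MeromorphicAt Φ (x : ℂ))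
    (heq : ∀ s : ℂ, 1 < s.re →
      HasSum (fun 𝔞 : Ideal (𝓞 K) => c 𝔞 * ((Ideal.absNorm 𝔞 : ℕ) : ℂ) ^ (-s)) (Φ s)) :
    IsSeries (byNorm c) Φ := by
  have hsum : ∀ s : ℂ, 1 < s.re → Summable fun 𝔞 : Ideal (𝓞 K) =>
      ‖c 𝔞 * exp (-(s * (lgN 𝔞 : ℝ)))‖ := by
    intro s hs
    refine (sum_bounded hc h0 hs).congr fun 𝔞 => ?_
    rw [norm_mul, Complex.norm_exp]
    have : (-(s * (lgN 𝔞 : ℝ))).re = -(s.re * lgN 𝔞) := by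
      rw [Complex.neg_re, Complex.re_mul_ofReal]
    rw [this]
  have hhas : ∀ s : ℂ, 1 < s.re → HasSum (fun 𝔞 : Ideal (𝓞 K) => c 𝔞 * exp (-(s * (lgN 𝔞 : ℝ))))
      (Φ s) := by
    intro s hs
    have e1 : (fun 𝔞 : Ideal (𝓞 K) => c 𝔞 * exp (-(s * (lgN 𝔞 : ℝ)))) =
        fun 𝔞 : Ideal (𝓞 K) => c 𝔞 * ((Ideal.absNorm 𝔞 : ℕ) : ℂ) ^ (-s) := by
      funext 𝔞
      by_cases h : 𝔞 = ⊥
      · rw [h, h0]
        simp
      · rw [norm_cpow_exp h]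
    rw [e1]
    exact heq s hs
  have hterm : ∀ (s : ℂ) (n : ℕ), LSeries.term (byNorm c) s n =
      byNorm c n * exp (-(s * (Real.log n : ℝ))) := fun s n => term_eq _ (byNorm_zero h0) s n
  refine ⟨fun σ hσ => ?_, fun s hs => ?_, hmer⟩
  · have hs : 1 < (σ : ℂ).re := by simpa using hσ
    have h4 := (hsum (σ : ℂ) hs).hasSum.tsum_fiberwise (fun 𝔞 : Ideal (𝓞 K) => Ideal.absNorm 𝔞)
    unfold LSeriesSummable
    refine Summable.of_norm_bounded h4.summable fun n => ?_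
    rw [hterm, ← byNorm_eq]
    have : Finite ((fun 𝔞 : Ideal (𝓞 K) => Ideal.absNorm 𝔞) ⁻¹' {n}) := (finite_norm n).to_subtype
    exact norm_tsum_le_tsum_norm Summable.of_finite
  · have h3 := (hhas s hs).tsum_fiberwise (fun 𝔞 : Ideal (𝓞 K) => Ideal.absNorm 𝔞)
    simp only [byNorm_eq] at h3
    unfold LSeries
    simp only [hterm]
    exact h3.tsum_eq.symm

end Pool.Agent.X242.DR
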