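import Pool.Agent.X242.DR6

/-!
# Expansions at `0` from limits; comb over ideals
-/

set_option autoImplicit false

namespace Pool.Agent.X242.DR

open Complex Filter Topology Set Asymptotics NumberField

/-- If `f` is analytic at `0` and `f(s) / s^r → θ` then `f(s) = θ s^r + O(s^{r+1})`. -/
theorem bigO_of_lim {f : ℂ → ℂ} (hf : AnalyticAt ℂ f 0) {r : ℕ} {θ : ℂ}
    (h : Tendsto (fun s : ℂ => f s / s ^ r) (𝓝[≠] 0) (𝓝 θ)) :
    (fun s : ℂ => f s - θ * s ^ r) =O[𝓝[≠] 0] fun s : ℂ => s ^ (r + 1) := by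
  have hord : (r : ℕ∞) ≤ analyticOrderAt f 0 := by
    by_contra hcon
    push Not at hcon
    obtain ⟨m, hm⟩ : ∃ m : ℕ, analyticOrderAt f 0 = m := by
      refine ⟨(analyticOrderAt f 0).toNat, (ENat.coe_toNat ?_).symm⟩
      intro htop
      rw [htop] at hcon
      exact absurd hcon (by simp)
    have hmr : m < r := by
      rw [hm] at hcon
      exact_mod_cast hcon
    obtain ⟨g, hg1, hg2, hg3⟩ := (hf.analyticOrderAt_eq_natCast).1 hm
    -- `f / s^r * s^(r-m) → 0` but it is `g → g 0 ≠ 0`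
    have h1 : Tendsto (fun s : ℂ => f s / s ^ r * s ^ (r - m)) (𝓝[≠] 0) (𝓝 (θ * 0 ^ (r - m))) := by
      refine h.mul ?_
      have : Tendsto (fun s : ℂ => s ^ (r - m)) (𝓝 0) (𝓝 (0 ^ (r - m))) :=
        (continuous_pow (r - m)).tendsto 0
      exact this.mono_left nhdsWithin_le_nhds
    rw [zero_pow (by omega), mul_zero] at h1
    have h2 : Tendsto g (𝓝[≠] 0) (𝓝 (g 0)) := (hg1.continuousAt.tendsto).mono_left nhdsWithin_le_nhds
    have h3 : (fun s : ℂ => f s / s ^ r * s ^ (r - m)) =ᶠ[𝓝[≠] 0] g := by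
      filter_upwards [hg3.filter_mono nhdsWithin_le_nhds, self_mem_nhdsWithin] with s hs hs0
      have hs1 : s ≠ 0 := hs0
      have e1 : s ^ r = s ^ m * s ^ (r - m) := by rw [← pow_add]; congr 1; omega
      rw [hs, sub_zero, smul_eq_mul, e1]
      field_simp
    exact hg2 (tendsto_nhds_unique (h2.congr' h3.symm) h1)
  obtain ⟨g, hg1, hg3⟩ := (natCast_le_analyticOrderAt hf).1 hord
  have h2 : Tendsto g (𝓝[≠] 0) (𝓝 (g 0)) := (hg1.continuousAt.tendsto).mono_left nhdsWithin_le_nhds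
  have h3 : (fun s : ℂ => f s / s ^ r) =ᶠ[𝓝[≠] 0] g := by
    filter_upwards [hg3.filter_mono nhdsWithin_le_nhds, self_mem_nhdsWithin] with s hs hs0
    have hs1 : s ≠ 0 := hs0
    rw [hs, sub_zero, smul_eq_mul]
    field_simp
  have hθ : θ = g 0 := tendsto_nhds_unique h (h2.congr' h3.symm)
  rw [hθ]
  have h4 := hg1.differentiableAt.isBigO_sub
  simp only [sub_zero] at h4
  have h5 : (fun w : ℂ => w ^ r * (g w - g 0)) =O[𝓝[≠] 0] fun w : ℂ => w ^ (r + 1) := by
    refine ((isBigO_refl (fun w : ℂ => w ^ r) (𝓝[≠] 0)).mul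
      (h4.mono nhdsWithin_le_nhds)).congr_right fun w => ?_
    ring
  refine h5.congr' ?_ EventuallyEq.rfl
  filter_upwards [hg3.filter_mono nhdsWithin_le_nhds] with w hw
  rw [hw, sub_zero, smul_eq_mul]
  ring

theorem comb_hom {E E' : Type} [Field E] [Field E'] [CharZero E] [CharZero E'] (σ : E →+* E')
    (ρ : ℕ →₀ ℚ) (a : ℕ → E) : comb ρ (fun n => σ (a n)) = σ (comb ρ a) := by
  unfold comb Finsupp.sum
  rw [map_sum]
  refine Finset.sum_congr rfl fun n _ => ?_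
  show ((ρ n : ℚ) : E') * σ (a n) = σ (((ρ n : ℚ) : E) * a n)
  rw [map_mul, map_ratCast]

end Pool.Agent.X242.DR
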