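import Pool.Agent.X242.DR7

/-!
# Unrotated means with complex coefficients
-/

set_option autoImplicit false

namespace Pool.Agent.X242.DR

open Complex Filter Topology Set Asymptotics NumberField
open scoped ComplexConjugate
open Pool.Agent.W189.ML Pool.Agent.W187.UR

variable {K : Type} [Field K] [NumberField K]

theorem conj_diff {Φ : ℂ → ℂ} (h : Differentiable ℂ Φ) :
    Differentiable ℂ fun s => conj (Φ (conj s)) := by
  intro z
  have h1 := DifferentiableAt.conj_conj (𝕜 := ℂ) (h (conj z))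
  rw [Complex.conj_conj] at h1
  refine h1.congr_of_eventuallyEq (Eventually.of_forall fun w => ?_)
  simp [Function.comp_def, smul_eq_mul]

theorem conj_deriv {Φ : ℂ → ℂ} (h : Differentiable ℂ Φ) :
    deriv (fun s => conj (Φ (conj s))) 0 = conj (deriv Φ 0) := by
  have h1 : HasDerivAt Φ (deriv Φ 0) (conj (0 : ℂ)) := by
    rw [map_zero]
    exact (h 0).hasDerivAt
  have h2 := h1.conj_conj
  rw [Complex.conj_conj] at h2
  have h3 : (fun s => conj (Φ (conj s))) = (⇑(starRingEnd ℂ) ∘ Φ ∘ ⇑(starRingEnd ℂ)) := rfl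
  rw [h3]
  exact h2.deriv

/-- **Unrotated means with complex coefficients.** -/
theorem mean_complex {c : Ideal (𝓞 K) → ℂ} {B : ℝ} (hc : ∀ 𝔞, ‖c 𝔞‖ ≤ B) (h0 : c ⊥ = 0)
    {Φ : ℂ → ℂ} (hΦ : Differentiable ℂ Φ)
    (heq : ∀ s : ℂ, 1 < s.re →
      HasSum (fun 𝔞 : Ideal (𝓞 K) => c 𝔞 * ((Ideal.absNorm 𝔞 : ℕ) : ℂ) ^ (-s)) (Φ s)) :
    (∀ T : ℝ, 0 < T → Summable fun 𝔞 : Ideal (𝓞 K) => ‖c 𝔞 * (om (lgN 𝔞 / T) : ℂ)‖) ∧
    (fun T : ℝ => (∑' 𝔞 : Ideal (𝓞 K), c 𝔞 * (om (lgN 𝔞 / T) : ℂ)) -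
      (Φ 0 - Real.eulerMascheroniConstant * deriv Φ 0 / T)) =O[atTop]
        (fun T : ℝ => 1 / T ^ 2) := by
  have hconj : ∀ s : ℂ, 1 < s.re → HasSum (fun 𝔞 : Ideal (𝓞 K) =>
      conj (c 𝔞) * ((Ideal.absNorm 𝔞 : ℕ) : ℂ) ^ (-s)) (conj (Φ (conj s))) := by
    intro s hs
    have h1 := (heq (conj s) (by simpa using hs)).map (starRingEnd ℂ) Complex.continuous_conj
    have e : (fun 𝔞 : Ideal (𝓞 K) => conj (c 𝔞) * ((Ideal.absNorm 𝔞 : ℕ) : ℂ) ^ (-s)) =
        (⇑(starRingEnd ℂ) ∘ fun 𝔞 : Ideal (𝓞 K) =>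
          c 𝔞 * ((Ideal.absNorm 𝔞 : ℕ) : ℂ) ^ (-(conj s))) := by
      funext 𝔞
      simp only [Function.comp_def]
      by_cases h : 𝔞 = ⊥
      · rw [h, h0]
        simp
      · rw [norm_cpow_exp h, norm_cpow_exp h, map_mul, ← Complex.exp_conj, map_neg, map_mul,
          Complex.conj_conj, Complex.conj_ofReal]
    rw [e]
    exact h1
  have hcd := conj_diff hΦ
  have Dre : FData (lgN (K := K)) (fun 𝔞 => (c 𝔞).re)
      (fun s => (Φ s + conj (Φ (conj s))) / 2) := by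
    refine fdata_ideals (B := B) (fun 𝔞 => (Complex.abs_re_le_norm _).trans (hc 𝔞)) (by simp [h0])
      (fun x _ _ => ?_) (fun s hs => ?_)
    · exact ((hΦ.fun_add hcd).div_const 2).analyticAt _
    · have h1 := ((heq s hs).add (hconj s hs)).div_const 2
      refine h1.congr_fun fun 𝔞 => ?_
      rw [← add_mul, Complex.add_conj]
      push_cast
      ring
  have Dim : FData (lgN (K := K)) (fun 𝔞 => (c 𝔞).im)
      (fun s => (Φ s - conj (Φ (conj s))) / (2 * I)) := by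
    refine fdata_ideals (B := B) (fun 𝔞 => (Complex.abs_im_le_norm _).trans (hc 𝔞)) (by simp [h0])
      (fun x _ _ => ?_) (fun s hs => ?_)
    · exact ((hΦ.fun_sub hcd).div_const (2 * I)).analyticAt _
    · have h1 := ((heq s hs).sub (hconj s hs)).div_const (2 * I)
      refine h1.congr_fun fun 𝔞 => ?_
      rw [← sub_mul, Complex.sub_conj]
      have := Complex.I_ne_zero
      push_cast
      field_simp
  have hv1 : ((Φ 0 + conj (Φ (conj 0))) / 2) = ((Φ 0).re : ℂ) := by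
    rw [map_zero, Complex.add_conj]
    push_cast
    ring
  have hv2 : ((Φ 0 - conj (Φ (conj 0))) / (2 * I)) = ((Φ 0).im : ℂ) := by
    have := Complex.I_ne_zero
    rw [map_zero, Complex.sub_conj]
    push_cast
    field_simp
  have hd1 : deriv (fun s => (Φ s + conj (Φ (conj s))) / 2) 0 = ((deriv Φ 0).re : ℂ) := by
    rw [deriv_div_const, deriv_fun_add (hΦ 0) (hcd 0), conj_deriv hΦ, Complex.add_conj]
    push_cast
    ring
  have hd2 : deriv (fun s => (Φ s - conj (Φ (conj s))) / (2 * I)) 0 = ((deriv Φ 0).im : ℂ) := by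
    have := Complex.I_ne_zero
    rw [deriv_div_const, deriv_fun_sub (hΦ 0) (hcd 0), conj_deriv hΦ, Complex.sub_conj]
    push_cast
    field_simp
  obtain ⟨-, -, h3⟩ := Dre.deriv_mean
  obtain ⟨-, -, h4⟩ := Dim.deriv_mean
  simp only [hd1, hv1, Complex.ofReal_re] at h3
  simp only [hd2, hv2, Complex.ofReal_re] at h4
  have hs : ∀ T : ℝ, 0 < T → Summable fun 𝔞 : Ideal (𝓞 K) => ‖c 𝔞 * (om (lgN 𝔞 / T) : ℂ)‖ := by
    intro T hT
    refine Summable.of_nonneg_of_le (fun _ => norm_nonneg _) (fun 𝔞 => ?_)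
      ((sum_bounded hc h0 (σ := 2) (by norm_num)).mul_left (Real.exp (Real.exp (2 * T)) + 1))
    have h1 : 0 ≤ lgN 𝔞 / T := div_nonneg (Real.log_natCast_nonneg _) hT.le
    have h2 := om_le (a := 2 * T) (v := lgN 𝔞 / T) (by positivity) h1
    have h3 : 2 * T * (lgN 𝔞 / T) = 2 * lgN 𝔞 := by field_simp
    rw [h3] at h2
    rw [norm_mul, Complex.norm_real, Real.norm_eq_abs, abs_of_nonneg (om_nonneg h1)]
    calc ‖c 𝔞‖ * om (lgN 𝔞 / T) ≤
        ‖c 𝔞‖ * ((Real.exp (Real.exp (2 * T)) + 1) * Real.exp (-(2 * lgN 𝔞))) :=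
          mul_le_mul_of_nonneg_left h2 (norm_nonneg _)
      _ = _ := by ring
  refine ⟨hs, ?_⟩
  have h5 : (fun T : ℝ => ((mean (lgN (K := K)) (fun 𝔞 => (c 𝔞).re) T -
      ((Φ 0).re - Real.eulerMascheroniConstant * (deriv Φ 0).re / T) : ℝ) : ℂ) +
      ((mean (lgN (K := K)) (fun 𝔞 => (c 𝔞).im) T -
      ((Φ 0).im - Real.eulerMascheroniConstant * (deriv Φ 0).im / T) : ℝ) : ℂ) * I) =O[atTop]
      fun T : ℝ => 1 / T ^ 2 := by
    refine IsBigO.add ?_ ?_
    · obtain ⟨C, hC⟩ := h3.bound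
      refine IsBigO.of_bound C ?_
      filter_upwards [hC] with T hT
      rw [Complex.norm_real]
      exact hT
    · obtain ⟨C, hC⟩ := h4.bound
      refine IsBigO.of_bound C ?_
      filter_upwards [hC] with T hT
      rw [norm_mul, Complex.norm_I, mul_one, Complex.norm_real]
      exact hT
  refine h5.congr' ?_ EventuallyEq.rfl
  filter_upwards [eventually_gt_atTop 0] with T hT
  have hsT := (hs T hT).of_norm
  have hdiv : (Real.eulerMascheroniConstant : ℂ) * deriv Φ 0 / T =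
      ((Real.eulerMascheroniConstant / T : ℝ) : ℂ) * deriv Φ 0 := by
    push_cast
    ring
  rw [hdiv]
  apply Complex.ext
  · have e1 : (∑' 𝔞 : Ideal (𝓞 K), c 𝔞 * (om (lgN 𝔞 / T) : ℂ)).re =
        mean (lgN (K := K)) (fun 𝔞 => (c 𝔞).re) T := by
      rw [Complex.re_tsum hsT]
      unfold mean
      exact tsum_congr fun n => by rw [Complex.re_mul_ofReal]
    rw [Complex.sub_re, e1, Complex.sub_re, Complex.re_ofReal_mul]
    simp
    ring
  · have e1 : (∑' 𝔞 : Ideal (𝓞 K), c 𝔞 * (om (lgN 𝔞 / T) : ℂ)).im =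
        mean (lgN (K := K)) (fun 𝔞 => (c 𝔞).im) T := by
      rw [Complex.im_tsum hsT]
      unfold mean
      exact tsum_congr fun n => by rw [Complex.im_mul_ofReal]
    rw [Complex.sub_im, e1, Complex.sub_im, Complex.im_ofReal_mul]
    simp
    ring

end Pool.Agent.X242.DR
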