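import Pool.Agent.X242.DR8

/-!
# Rational approximations of derivatives; detecting units from approximations
-/

set_option autoImplicit false

namespace Pool.Agent.X242.DR

open Complex Filter Topology Set Asymptotics NumberField

section

variable {K : Type} [Field K] [NumberField K]

/-- The universal law for rational coefficients of ideals. -/
theorem rat_law {c : Ideal (𝓞 K) → ℚ} {B : ℝ} (hc : ∀ 𝔞, |(c 𝔞 : ℝ)| ≤ B) (h0 : c ⊥ = 0)
    {Φ : ℂ → ℂ} (hmer : ∀ x : ℝ, 0 ≤ x → x ≤ 1 → MeromorphicAt Φ (x : ℂ)) (hhol : AnalyticAt ℂ Φ 0)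
    (heq : ∀ s : ℂ, 1 < s.re → HasSum (fun 𝔞 : Ideal (𝓞 K) =>
      (c 𝔞 : ℂ) * ((Ideal.absNorm 𝔞 : ℕ) : ℂ) ^ (-s)) (Φ s))
    {r : ℕ} {θ : ℂ} (hlim : Tendsto (fun s : ℂ => Φ s / s ^ r) (𝓝[≠] 0) (𝓝 θ))
    {γ : ℝ} (hγ : Real.pi / 2 < γ) (hC : Ck r γ ≠ 0) {ρ : ℕ → ℕ →₀ ℚ} (hρ : IsRational r γ ρ) :
    θ.im = 0 ∧ (fun N : ℕ => ((comb (ρ N) (byNorm c) : ℚ) : ℝ) - θ.re) =O[atTop]
      (fun N : ℕ => 1 / (N : ℝ)) := by
  set c' : Ideal (𝓞 K) → ℂ := fun 𝔞 => (c 𝔞 : ℂ) with hc'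
  have hc0 : c' ⊥ = 0 := by
    rw [hc']
    simp [h0]
  have hcb : ∀ 𝔞, ‖c' 𝔞‖ ≤ B := by
    intro 𝔞
    have h1 : c' 𝔞 = (((c 𝔞 : ℚ) : ℝ) : ℂ) := by
      rw [hc']
      simp
    rw [h1, Complex.norm_real, Real.norm_eq_abs]
    exact hc 𝔞
  have hS := isSeries_ideals hcb hc0 hmer heq
  have h1 := hS.universal (byNorm_zero hc0) r θ hγ hC (bigO_of_lim hhol hlim) hρ
  have e1 : ∀ N, comb (ρ N) (byNorm c') = (((comb (ρ N) (byNorm c) : ℚ) : ℝ) : ℂ) := by
    intro N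
    have e2 : byNorm c' = fun n => (Rat.castHom ℂ) (byNorm c n) := by
      funext n
      exact byNorm_map (K := K) (Rat.castHom ℂ).toAddMonoidHom c n
    rw [e2, comb_hom (Rat.castHom ℂ) (ρ N)]
    simp
  simp only [e1] at h1
  have him : θ.im = 0 := by
    have h2 : Tendsto (fun N : ℕ => (((comb (ρ N) (byNorm c) : ℚ) : ℝ) : ℂ) - θ) atTop (𝓝 0) :=
      h1.trans_tendsto tendsto_one_div_atTop_nhds_zero_nat
    have h3 := (Complex.continuous_im.tendsto 0).comp h2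
    have h4 : (Complex.im ∘ fun N : ℕ => (((comb (ρ N) (byNorm c) : ℚ) : ℝ) : ℂ) - θ) =
        fun _ => -θ.im := by
      funext N
      simp
    rw [h4] at h3
    have h5 := tendsto_nhds_unique h3 tendsto_const_nhds
    simpa using h5.symm
  refine ⟨him, ?_⟩
  obtain ⟨C, hC⟩ := h1.bound
  refine IsBigO.of_bound C ?_
  filter_upwards [hC] with N hN
  refine le_trans ?_ hN
  rw [← Complex.norm_real]
  refine le_of_eq ?_
  congr 1
  apply Complex.ext <;> simp [him]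

theorem tendsto_of_law {x : ℕ → ℝ} {θ : ℝ} (h : (fun N : ℕ => x N - θ) =O[atTop]
    (fun N : ℕ => 1 / (N : ℝ))) : Tendsto x atTop (𝓝 θ) := by
  have h1 := h.trans_tendsto tendsto_one_div_atTop_nhds_zero_nat
  have h2 := h1.add_const θ
  rw [zero_add] at h2
  exact h2.congr fun N => by ring

end

section near

variable {H : Type} [Field H] [NumberField H] {G : Type} [Finite G]

/-- A vector which is approximated by the logarithmic vectors of a set of algebraic integers with bounded conjugates is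
one of these vectors. -/
theorem exists_of_near {P : H → Prop} {lam : G → H → ℝ} {θ : G → ℝ}
    (hint : ∀ u, P u → IsIntegral ℤ u)
    (hbd : ∀ B : ℝ, ∃ B' : ℝ, ∀ u, P u → (∀ g, |lam g u| ≤ B) → ∀ φ : H →+* ℂ, ‖φ u‖ ≤ B')
    (hnear : ∀ ε : ℝ, 0 < ε → ∃ u, P u ∧ ∀ g, |lam g u - θ g| < ε) :
    ∃ u, P u ∧ ∀ g, lam g u = θ g := by
  classical
  have := Fintype.ofFinite G
  set B : ℝ := 1 + ∑ g, |θ g| with hB
  have hBg : ∀ g, 1 + |θ g| ≤ B := fun g => by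
    have := Finset.single_le_sum (f := fun g => |θ g|) (fun _ _ => abs_nonneg _) (Finset.mem_univ g)
    rw [hB]
    linarith
  obtain ⟨B', hB'⟩ := hbd B
  set F : Set H := {u | IsIntegral ℤ u ∧ ∀ φ : H →+* ℂ, ‖φ u‖ ≤ B'} with hF
  have hfin : F.Finite := NumberField.Embeddings.finite_of_norm_le H ℂ B'
  have hfin' : {u | u ∈ F ∧ P u}.Finite := hfin.subset fun u hu => hu.1
  by_contra hcon
  push Not at hcon
  obtain ⟨u1, hu1, -⟩ := hnear 1 one_pos
  obtain ⟨g1, -⟩ := hcon u1 hu1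
  have : Nonempty G := ⟨g1⟩
  choose! g0 hg0 using hcon
  have h1 : ∃ δ : ℝ, 0 < δ ∧ δ ≤ 1 ∧ ∀ u ∈ {u | u ∈ F ∧ P u}, δ ≤ |lam (g0 u) u - θ (g0 u)| := by
    have h2 : ∀ u ∈ hfin'.toFinset, 0 < |lam (g0 u) u - θ (g0 u)| := by
      intro u hu
      rw [Set.Finite.mem_toFinset] at hu
      exact abs_pos.2 (sub_ne_zero.2 (hg0 u hu.2))
    rcases hfin'.toFinset.eq_empty_or_nonempty with h3 | h3
    · refine ⟨1, one_pos, le_rfl, fun u hu => ?_⟩
      have : u ∈ hfin'.toFinset := by rwa [Set.Finite.mem_toFinset]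
      rw [h3] at this
      simp at this
    · obtain ⟨m, hm, hmin⟩ := hfin'.toFinset.exists_min_image
        (fun u => |lam (g0 u) u - θ (g0 u)|) h3
      refine ⟨min 1 |lam (g0 m) m - θ (g0 m)|, lt_min one_pos (h2 m hm), min_le_left _ _,
        fun u hu => ?_⟩
      refine (min_le_right _ _).trans (hmin u ?_)
      rwa [Set.Finite.mem_toFinset]
  obtain ⟨δ, hδ, hδ1, hδu⟩ := h1
  obtain ⟨u, hu, hlam⟩ := hnear δ hδ
  have h2 : u ∈ {u | u ∈ F ∧ P u} := by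
    refine ⟨⟨hint u hu, hB' u hu fun g => ?_⟩, hu⟩
    have h3 := hlam g
    have h4 : |lam g u| ≤ |lam g u - θ g| + |θ g| := by
      have := abs_add_le (lam g u - θ g) (θ g)
      simpa using this
    have := hBg g
    linarith
  have h3 := hδu u h2
  have h4 := hlam (g0 u)
  linarith

theorem near_iff {P : H → Prop} {lam : G → H → ℝ} {θ : G → ℝ}
    (hint : ∀ u, P u → IsIntegral ℤ u)
    (hbd : ∀ B : ℝ, ∃ B' : ℝ, ∀ u, P u → (∀ g, |lam g u| ≤ B) → ∀ φ : H →+* ℂ, ‖φ u‖ ≤ B')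
    {x : ℕ → G → ℝ} (hx : ∀ g, Tendsto (fun N => x N g) atTop (𝓝 (θ g))) :
    (∃ u, P u ∧ ∀ g, lam g u = θ g) ↔
      ∀ ε : ℝ, 0 < ε → ∀ N₀ : ℕ, ∃ N ≥ N₀, ∃ u, P u ∧ ∀ g, |x N g - lam g u| < ε := by
  constructor
  · rintro ⟨u, hu, hθ⟩ ε hε N₀
    have h1 : ∀ᶠ N : ℕ in atTop, ∀ g, |x N g - lam g u| < ε := by
      refine eventually_all.2 fun g => ?_
      have h3 := (hx g).sub_const (θ g)
      rw [sub_self] at h3
      have h4 := h3.abs
      rw [abs_zero] at h4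
      rw [hθ g]
      exact h4.eventually (gt_mem_nhds hε)
    obtain ⟨N, hN1, hN2⟩ := (h1.and (eventually_ge_atTop N₀)).exists
    exact ⟨N, hN2, u, hu, hN1⟩
  · intro h
    refine exists_of_near hint hbd fun ε hε => ?_
    have h2 : ∀ᶠ N : ℕ in atTop, ∀ g, |x N g - θ g| < ε / 2 := by
      refine eventually_all.2 fun g => ?_
      have h3 := (hx g).sub_const (θ g)
      rw [sub_self] at h3
      have h4 := h3.abs
      rw [abs_zero] at h4
      exact h4.eventually (gt_mem_nhds (half_pos hε))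
    obtain ⟨N₀, hN₀⟩ := eventually_atTop.1 h2
    obtain ⟨N, hN, u, hu, huN⟩ := h (ε / 2) (half_pos hε) N₀
    refine ⟨u, hu, fun g => ?_⟩
    have h3 := hN₀ N hN g
    have h4 := huN g
    have h5 : lam g u - θ g = (x N g - θ g) - (x N g - lam g u) := by ring
    rw [h5]
    refine (abs_sub _ _).trans_lt ?_
    linarith

end near

end Pool.Agent.X242.DR
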