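import Pool.Agent.X242.UW6
import Pool.Agent.X242.DR9
import Pool.Agent.W206.MS.Final

/-!
# The monoid Stark conjecture and rational approximations
-/

set_option autoImplicit false

namespace Pool.Agent.X242.MS

open Filter Topology NumberField Asymptotics
open Pool.Agent.X242.DR Pool.Agent.W206.MS

section coeff

variable {K : Type} [Field K] {O : Subalgebra ℤ K} {m : Submodule ℤ K} {σ : K →+* ℝ}

/-- The coefficients of the differenced zeta function of the class of `a`: the number of ideals of index `n` in the class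
of `a` minus the number of those in the class of `κ a` (`κ ≡ -1` modulo `m`, `σ κ > 0`). -/
noncomputable def zco (O : Subalgebra ℤ K) (m : Submodule ℤ K) (σ : K →+* ℝ) (κ : K) (a : Submodule ℤ K)
    (n : ℕ) : ℤ :=
  if n = 0 then 0 else (cnt O m σ a n : ℤ) - (cnt O m σ (Submodule.span ℤ {κ} * a) n : ℤ)

theorem inMonoid_sm (hm : Md O m) {κ : K} (h1 : κ ∈ O) (h2 : 0 < σ κ) {a : Submodule ℤ K}
    (ha : InMonoid O m a) : InMonoid O m (sm κ a) := by
  refine ⟨ha.1.sm (ne_zero_of_pos h2), fun z hz => ?_⟩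
  obtain ⟨w, hw, rfl⟩ := mem_sm.1 hz
  exact loc_mul hm OL_stable (loc_of_mem hm (show κ ∈ OL O from h1)) (ha.2 hw)

theorem REq_kappa (hm : Md O m) {κ κ' : K} (h1 : κ + 1 ∈ m) (h2 : 0 < σ κ) (h1' : κ' + 1 ∈ m)
    (h2' : 0 < σ κ') {a : Submodule ℤ K} (ha : InMonoid O m a) :
    REq O m σ (sm κ a) (sm κ' a) := by
  have h0 := ne_zero_of_pos h2'
  refine ⟨κ * κ'⁻¹, by rw [map_mul, map_inv₀]; positivity, ?_, ?_⟩
  · intro z hz
    obtain ⟨w, hw, rfl⟩ := mem_sm.1 hz
    have : (κ * κ'⁻¹ - 1) * (κ' * w) = w * ((κ + 1) - (κ' + 1)) := by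
      field_simp
      ring
    rw [this]
    exact loc_mul hm hm.mul (ha.2 hw) (loc_of_mem hm (m.sub_mem h1 h1'))
  · rw [sm_sm, mul_assoc, inv_mul_cancel₀ h0, mul_one]

theorem REq_sm (hm : Md O m) {κ : K} (h1 : κ ∈ O) {a c : Submodule ℤ K} (h : REq O m σ a c) :
    REq O m σ (sm κ a) (sm κ c) := by
  refine REq.mul_left hm (Submodule.span ℤ {κ}) ?_ h
  intro z hz
  refine loc_of_mem hm ?_
  have : Submodule.span ℤ {κ} ≤ OL O := by
    rw [Submodule.span_le, Set.singleton_subset_iff]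
    exact h1
  exact this hz

theorem zco_congr (hm : Md O m) (hfin : ∀ x ∈ O, ∃ k, 0 < k ∧ x ^ (2 * k) - x ^ k ∈ m) {κ : K}
    (h1 : κ ∈ O) (h2 : 0 < σ κ) {a c : Submodule ℤ K} (ha : InMonoid O m a) (hc : InMonoid O m c)
    (h : REq O m σ a c) : zco O m σ κ a = zco O m σ κ c := by
  funext n
  unfold zco
  rw [cnt_eq hm hfin ha, cnt_eq hm hfin hc, cnt_eq hm hfin (inMonoid_sm hm h1 h2 ha),
    cnt_eq hm hfin (inMonoid_sm hm h1 h2 hc), CS_congr hm h, CS_congr hm (REq_sm hm h1 h)]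

theorem hasSum_of_isZ (hm : Md O m) (hfin : ∀ x ∈ O, ∃ k, 0 < k ∧ x ^ (2 * k) - x ^ k ∈ m) {κ : K}
    (h1 : κ ∈ O) (h2 : κ + 1 ∈ m) (h3 : 0 < σ κ) {a : Submodule ℤ K} (ha : InMonoid O m a)
    {F : ℂ → ℂ} (hF : IsZ O m σ a F) {s : ℂ} (hs : 1 < s.re) :
    LSeriesHasSum (fun n => (zco O m σ κ a n : ℂ)) s (F s) := by
  obtain ⟨⟨ρ, k1, k2, k3, k4⟩, -⟩ := hF
  have h5 := k4 s hs
  unfold LSeriesHasSum at h5 ⊢
  refine h5.congr_fun fun n => ?_
  rcases Nat.eq_zero_or_pos n with rfl | hn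
  · rw [LSeries.term_zero, LSeries.term_zero]
  · rw [LSeries.term_of_ne_zero hn.ne', LSeries.term_of_ne_zero hn.ne']
    congr 1
    unfold zco
    rw [if_neg hn.ne']
    have e : cnt O m σ (Submodule.span ℤ {ρ} * a) n = cnt O m σ (Submodule.span ℤ {κ} * a) n := by
      rw [cnt_eq hm hfin (inMonoid_sm hm k1 k3 ha), cnt_eq hm hfin (inMonoid_sm hm h1 h3 ha),
        CS_congr hm (REq_kappa hm k2 k3 h2 h3 ha)]
    rw [e]
    push_cast
    rfl

theorem isSeries_of_isZ (hm : Md O m) (hfin : ∀ x ∈ O, ∃ k, 0 < k ∧ x ^ (2 * k) - x ^ k ∈ m) {κ : K}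
    (h1 : κ ∈ O) (h2 : κ + 1 ∈ m) (h3 : 0 < σ κ) {a : Submodule ℤ K} (ha : InMonoid O m a)
    {F : ℂ → ℂ} (hF : IsZ O m σ a F) (hF1 : MeromorphicAt F 1) :
    IsSeries (fun n => (zco O m σ κ a n : ℂ)) F where
  summable := fun x hx => (hasSum_of_isZ hm hfin h1 h2 h3 ha hF (s := (x : ℂ)) (by simpa using hx)).LSeriesSummable
  eq := fun s hs => (hasSum_of_isZ hm hfin h1 h2 h3 ha hF hs).LSeries_eq.symm
  mero := fun x hx0 hx1 => by
    rcases eq_or_lt_of_le hx1 with rfl | hlt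
    · simpa using hF1
    · have h4 : AnalyticAt ℂ F (x : ℂ) := by
        refine hF.2.analyticAt (isOpen_compl_singleton.mem_nhds ?_)
        intro h5
        have h6 : (x : ℂ) = 1 := h5
        have h7 : x = 1 := by exact_mod_cast h6
        exact hlt.ne h7
      exact h4.meromorphicAt

/-- The continuation is unique. -/
theorem isZ_unique (hm : Md O m) (hfin : ∀ x ∈ O, ∃ k, 0 < k ∧ x ^ (2 * k) - x ^ k ∈ m)
    {a : Submodule ℤ K} (ha : InMonoid O m a) {F F' : ℂ → ℂ} (hF : IsZ O m σ a F)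
    (hF' : IsZ O m σ a F') : deriv F 0 = deriv F' 0 := by
  obtain ⟨κ, h1, h2, h3, -⟩ := hF.1
  have heq : ∀ z : ℂ, 1 < z.re → F z = F' z := fun z hz =>
    HasSum.unique (hasSum_of_isZ hm hfin h1 h2 h3 ha hF hz) (hasSum_of_isZ hm hfin h1 h2 h3 ha hF' hz)
  have han : AnalyticOnNhd ℂ F {1}ᶜ := hF.2.analyticOnNhd isOpen_compl_singleton
  have han' : AnalyticOnNhd ℂ F' {1}ᶜ := hF'.2.analyticOnNhd isOpen_compl_singleton
  have hE : Set.EqOn F F' {1}ᶜ :=
    han.eqOn_of_preconnected_of_eventuallyEq han'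
      (isConnected_compl_singleton_of_one_lt_rank (by simp) 1).isPreconnected
      (by norm_num : (2 : ℂ) ∈ _)
      (Filter.eventuallyEq_of_mem
        ((isOpen_lt continuous_const Complex.continuous_re).mem_nhds (by norm_num)) heq)
  have h0 : F =ᶠ[𝓝 0] F' :=
    Filter.eventuallyEq_of_mem (isOpen_compl_singleton.mem_nhds (by norm_num)) hE
  exact h0.deriv_eq

/-- **The approximations converge.** -/
theorem isZ_law (hm : Md O m) (hfin : ∀ x ∈ O, ∃ k, 0 < k ∧ x ^ (2 * k) - x ^ k ∈ m) {κ : K}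
    (h1 : κ ∈ O) (h2 : κ + 1 ∈ m) (h3 : 0 < σ κ) {a : Submodule ℤ K} (ha : InMonoid O m a)
    {F : ℂ → ℂ} (hF : IsZ O m σ a F) (hF1 : MeromorphicAt F 1) {γ : ℝ} (hγ : Real.pi / 2 < γ)
    {ρ : ℕ → ℕ →₀ ℚ} (hρ : IsRational 1 γ ρ) :
    (fun N : ℕ => ((dcomb ρ (zco O m σ κ a) N : ℚ) : ℝ) - (deriv F 0).re) =O[atTop]
      fun N : ℕ => 1 / (N : ℝ) := by
  refine (isSeries_of_isZ hm hfin h1 h2 h3 ha hF hF1).deriv2 ?_ ?_ hγ hρ
  · simp [zco]
  · exact hF.2.analyticAt (isOpen_compl_singleton.mem_nhds (by norm_num))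

/-- Ideals with the same Artin symbol are equivalent. -/
theorem REq_of_art (hm : Md O m) {G : Type} [Group G] {A : Submodule ℤ K → G} (hA : InducesIso σ O m A)
    {b c : Submodule ℤ K} (hb : InJ O m b) (hc : InJ O m c) (h : A b = A c) : REq O m σ b c := by
  obtain ⟨hmul, hsurj, hker⟩ := hA
  obtain ⟨d, hd, hdA⟩ := hsurj (A b)⁻¹
  have h1 : A (b * d) = 1 := by rw [hmul b d hb hd, hdA, mul_inv_cancel]
  have h2 : A (c * d) = 1 := by rw [hmul c d hc hd, hdA, ← h, mul_inv_cancel]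
  obtain ⟨α, a1, a2, a3⟩ := (hker _ (hb.mul hm hd)).1 h1
  obtain ⟨β, b1, b2, b3⟩ := (hker _ (hc.mul hm hd)).1 h2
  have hα0 := ne_zero_of_pos a2
  have hβ0 := ne_zero_of_pos b2
  have e1 : sm β b = sm α c := by
    have e2 : b * (c * d) = sm β b := by
      rw [b3]
      show b * sm β (OL O) = _
      rw [mul_sm, mul_comm b, hb.1.stable]
    have e3 : c * (b * d) = sm α c := by
      rw [a3]
      show c * sm α (OL O) = _
      rw [mul_sm, mul_comm c, hc.1.stable]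
    rw [← e2, ← e3, mul_left_comm]
  have e4 : b = sm (β⁻¹ * α) c := by
    rw [← sm_sm, ← e1, sm_inv_sm hβ0]
  rw [e4]
  refine REq.sm_left hm (one_mod_mul hm (one_mod_inv hm b1).2 a1) ?_ (hc.subset_loc hm)
  rw [map_mul, map_inv₀]
  positivity

theorem REq_mul (hm : Md O m) {G : Type} [Group G] {A : Submodule ℤ K → G} (hA : InducesIso σ O m A)
    {b c a : Submodule ℤ K} (hb : InJ O m b) (hc : InJ O m c) (h : A b = A c) (ha : InMonoid O m a) :
    REq O m σ (b * a) (c * a) := by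
  have h1 := REq.mul_left hm a ha.2 (REq_of_art hm hA hb hc h)
  rwa [mul_comm a b, mul_comm a c] at h1

end coeff

section fields

variable {K : Type} [Field K] [NumberField K] [Algebra K ℝ] {O : Subalgebra ℤ K} {m : Submodule ℤ K}
  {σ : K →+* ℝ}

/-- the real number `g(u)` -/
noncomputable def val (H : IntermediateField K ℝ) (g : H ≃ₐ[K] H) (u : H) : ℝ := ((g u : H) : ℝ)

/-- All the conjugates of `u` over `K` are positive. -/
def IsPos (H : IntermediateField K ℝ) (u : H) : Prop := ∀ g : H ≃ₐ[K] H, 0 < val H g u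

/-- The square roots of the conjugates of `u` over `K` generate abelian extensions of `K`. -/
def HasRoots (H : IntermediateField K ℝ) (u : H) : Prop := ∀ g : H ≃ₐ[K] H, CondIV H (val H g u)

/-- `u` is a unit of `H`, positive with all its conjugates over `K`, of absolute value `1` at the embeddings over `∞₂`, and
the square roots of its conjugates generate abelian extensions of `K`. -/
structure IsStarkUnit (σ : K →+* ℝ) (H : IntermediateField K ℝ) (u : H) : Prop where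
  int : IsIntegral ℤ (u : ℝ)
  inv : IsIntegral ℤ (u : ℝ)⁻¹
  pos : IsPos H u
  circle : CondIII σ H u
  root : HasRoots H u

/-- The conditions of the conjecture for a given ray class field `H` with Artin map `Art`. -/
def StarkFor (σ : K →+* ℝ) (O : Subalgebra ℤ K) (m : Submodule ℤ K) (H : IntermediateField K ℝ)
    (Art : Submodule ℤ K → (H ≃ₐ[K] H)) : Prop :=
  ∃ ε : Submodule ℤ K → H, ∀ a, InMonoid O m a →
      (∀ b, InMonoid O m b → Rel O m σ b a → ε b = ε a) ∧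
      (IsIntegral ℤ (ε a : ℝ) ∧ IsIntegral ℤ (ε a : ℝ)⁻¹) ∧
      CondI σ O m a (ε a) ∧ CondII O m H Art ε a ∧ CondIII σ H (ε a) ∧ CondIV H (ε a)

/-- For every class of the monoid the vectors of the approximations come arbitrarily close to logarithmic vectors of
Stark units, for arbitrarily large `N`. -/
def Near (σ : K →+* ℝ) (O : Subalgebra ℤ K) (m : Submodule ℤ K) (H : IntermediateField K ℝ)
    (Art : Submodule ℤ K → (H ≃ₐ[K] H)) (κ : K) (ρ : ℕ → ℕ →₀ ℚ) : Prop :=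
  ∀ a, InMonoid O m a → ∀ δ : ℝ, 0 < δ → ∀ N₀ : ℕ, ∃ N ≥ N₀, ∃ u : H, IsStarkUnit σ H u ∧
    ∀ b, InJ O m b → |(dcomb ρ (zco O m σ κ (b * a)) N : ℝ) + Real.log (val H (Art b) u)| < δ

theorem two_embeddings (hK : Module.finrank ℚ K = 2) (hσ : σ ≠ algebraMap K ℝ) (ψ : K →+* ℂ) :
    ψ = Complex.ofRealHom.comp (algebraMap K ℝ) ∨ ψ = Complex.ofRealHom.comp σ := by
  classical
  by_contra hcon
  push Not at hcon
  have hinj : ∀ a b : K →+* ℝ, Complex.ofRealHom.comp a = Complex.ofRealHom.comp b → a = b := by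
    intro a b hab
    ext x
    have := congrArg (fun f : K →+* ℂ => f x) hab
    simpa using this
  have hne : Complex.ofRealHom.comp (algebraMap K ℝ) ≠ Complex.ofRealHom.comp σ :=
    fun h => hσ (hinj _ _ h).symm
  have hcard : ({ψ, Complex.ofRealHom.comp (algebraMap K ℝ), Complex.ofRealHom.comp σ} :
      Finset (K →+* ℂ)).card = 3 := by
    rw [Finset.card_eq_three]
    exact ⟨_, _, _, hcon.1, hcon.2, hne, rfl⟩
  have h1 := Finset.card_le_univ
    ({ψ, Complex.ofRealHom.comp (algebraMap K ℝ), Complex.ofRealHom.comp σ} : Finset (K →+* ℂ))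
  rw [hcard, NumberField.Embeddings.card, hK] at h1
  omega

theorem bounded (hK : Module.finrank ℚ K = 2) (hσ : σ ≠ algebraMap K ℝ) (H : IntermediateField K ℝ)
    [NumberField H] [IsGalois K H] (B : ℝ) :
    ∃ B' : ℝ, ∀ u : H, IsStarkUnit σ H u → (∀ g : H ≃ₐ[K] H, |Real.log (val H g u)| ≤ B) →
      ∀ ψ : H →+* ℂ, ‖ψ u‖ ≤ B' := by
  refine ⟨1 + Real.exp B, fun u hu hg ψ => ?_⟩
  have hexp : 0 < Real.exp B := Real.exp_pos _
  rcases two_embeddings hK hσ (ψ.comp (algebraMap K H)) with hψ | hψ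
  · obtain ⟨φ, hφd⟩ : ∃ φ : H →+* ℂ, φ = Complex.ofRealHom.comp (algebraMap H ℝ) := ⟨_, rfl⟩
    have hφ : φ.comp (algebraMap K H) = ψ.comp (algebraMap K H) := by
      rw [hψ, hφd]
      rfl
    have h1 : InfinitePlace.mk (φ.comp (algebraMap K H)) =
        InfinitePlace.mk (ψ.comp (algebraMap K H)) := by rw [hφ]
    rw [← InfinitePlace.comap_mk, ← InfinitePlace.comap_mk] at h1
    obtain ⟨τ, hτ⟩ := InfinitePlace.exists_smul_eq_of_comap_eq h1
    have h2 : ‖ψ u‖ = ‖φ (τ.symm u)‖ := by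
      rw [← InfinitePlace.apply ψ, ← hτ, InfinitePlace.smul_apply, InfinitePlace.apply]
    have hpos : 0 < ((τ.symm u : H) : ℝ) := hu.pos τ.symm
    have h3 : ‖φ (τ.symm u)‖ = ((τ.symm u : H) : ℝ) := by
      rw [hφd]
      show ‖((((τ.symm u : H) : ℝ) : ℝ) : ℂ)‖ = _
      rw [Complex.norm_real, Real.norm_of_nonneg hpos.le]
    rw [h2, h3]
    have h4 : Real.log ((τ.symm u : H) : ℝ) ≤ B := (abs_le.1 (hg τ.symm)).2
    have h6 : ((τ.symm u : H) : ℝ) ≤ Real.exp B := by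
      rw [← Real.log_le_iff_le_exp hpos]
      exact h4
    linarith
  · rw [hu.circle ψ fun x => ?_]
    · linarith
    · have := congrArg (fun f : K →+* ℂ => f x) hψ
      simpa using this

end fields

end Pool.Agent.X242.MS
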