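import Pool.Agent.X242.MS1

/-!
# The monoid Stark conjecture and rational approximations: the criterion
-/

set_option autoImplicit false

namespace Pool.Agent.X242.MS

open Filter Topology NumberField Asymptotics
open Pool.Agent.X242.DR Pool.Agent.W206.MS

variable {K : Type} [Field K] [NumberField K] [Algebra K ℝ] {O : Subalgebra ℤ K} {m : Submodule ℤ K}
  {σ : K →+* ℝ}

/-- The differenced zeta functions have meromorphic continuations, analytic outside of `1`. -/
def HasZeta (σ : K →+* ℝ) (O : Subalgebra ℤ K) (m : Submodule ℤ K) : Prop :=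
  ∀ a, InMonoid O m a → ∃ F : ℂ → ℂ, IsZ O m σ a F ∧ MeromorphicAt F 1

theorem law (hm : Md O m) (hfin : ∀ x ∈ O, ∃ k, 0 < k ∧ x ^ (2 * k) - x ^ k ∈ m) (hZ : HasZeta σ O m) {κ : K}
    (h1 : κ ∈ O) (h2 : κ + 1 ∈ m) (h3 : 0 < σ κ) {a : Submodule ℤ K} (ha : InMonoid O m a)
    {F : ℂ → ℂ} (hF : IsZ O m σ a F) {γ : ℝ} (hγ : Real.pi / 2 < γ)
    {ρ : ℕ → ℕ →₀ ℚ} (hρ : IsRational 1 γ ρ) :
    (fun N : ℕ => ((dcomb ρ (zco O m σ κ a) N : ℚ) : ℝ) - (deriv F 0).re) =O[atTop]
      fun N : ℕ => 1 / (N : ℝ) := by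
  obtain ⟨F', hF', hF1⟩ := hZ a ha
  rw [isZ_unique hm hfin ha hF hF']
  exact isZ_law hm hfin h1 h2 h3 ha hF' hF1 hγ hρ

theorem tendsto_of {x : ℕ → ℝ} {l : ℝ} (h : (fun N : ℕ => x N - l) =O[atTop] fun N : ℕ => 1 / (N : ℝ)) :
    Tendsto x atTop (𝓝 l) := by
  have h1 := h.trans_tendsto tendsto_one_div_atTop_nhds_zero_nat
  have h2 := h1.add_const l
  rw [zero_add] at h2
  exact h2.congr fun N => by ring

/-- **The criterion for a given ray class field.** -/
theorem stark_iff (hK : Module.finrank ℚ K = 2) (hσ : σ ≠ algebraMap K ℝ) (hm : Md O m)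
    (hfin : ∀ x ∈ O, ∃ k, 0 < k ∧ x ^ (2 * k) - x ^ k ∈ m) (hZ : HasZeta σ O m)
    {H : IntermediateField K ℝ} {Art : Submodule ℤ K → (H ≃ₐ[K] H)} (hH : IsFiniteAbelian H)
    (hA : InducesIso σ O m Art) {κ : K} (h1 : κ ∈ O) (h2 : κ + 1 ∈ m) (h3 : 0 < σ κ) {γ : ℝ}
    (hγ : Real.pi / 2 < γ) {ρ : ℕ → ℕ →₀ ℚ} (hρ : IsRational 1 γ ρ) :
    StarkFor σ O m H Art ↔ Near σ O m H Art κ ρ := by
  classical
  obtain ⟨hHfd, hHab⟩ := hH
  have hgal : IsGalois K H := hHab.toIsGalois
  have hNF : NumberField H := NumberField.of_module_finite K H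
  have hfinG : Finite (H ≃ₐ[K] H) := inferInstance
  -- representatives
  have hsurj := hA.2.1
  choose B hBJ hBA using hsurj
  -- the derivatives
  have hZ' := hZ
  choose! F hF hF1 using hZ'
  obtain ⟨θ, hθ⟩ : ∃ θ : Submodule ℤ K → ℝ, ∀ a, θ a = (deriv (F a) 0).re := ⟨_, fun _ => rfl⟩
  have hlim : ∀ a, InMonoid O m a → Tendsto (fun N : ℕ => ((dcomb ρ (zco O m σ κ a) N : ℚ) : ℝ)) atTop
      (𝓝 (θ a)) := fun a ha => by
    rw [hθ]
    exact tendsto_of (law hm hfin hZ h1 h2 h3 ha (hF a ha) hγ hρ)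
  have hreal : ∀ a, InMonoid O m a → deriv (F a) 0 = ((θ a : ℝ) : ℂ) := by
    intro a ha
    have h4 := (hF a ha).deriv_real
    rw [hθ]
    apply Complex.ext <;> simp [h4]
  have hθc : ∀ a c, InMonoid O m a → InMonoid O m c → REq O m σ a c → θ a = θ c := by
    intro a c ha hc hac
    have h4 := hlim a ha
    rw [zco_congr hm hfin h1 h3 ha hc hac] at h4
    exact tendsto_nhds_unique h4 (hlim c hc)
  have hmon : ∀ b a, InJ O m b → InMonoid O m a → InMonoid O m (b * a) := fun b a hb ha =>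
    (hb.inMonoid hm).mul hm ha
  -- condition (i)
  have hI : ∀ (a : Submodule ℤ K) (e : ℝ), InMonoid O m a → (CondI σ O m a e ↔ e = Real.exp (-θ a)) := by
    intro a e ha
    constructor
    · rintro ⟨F', hF', he⟩
      rw [isZ_unique hm hfin ha hF' (hF a ha), hreal a ha, ← Complex.ofReal_neg, ← Complex.ofReal_exp] at he
      exact Complex.ofReal_injective he
    · intro he
      refine ⟨F a, hF a ha, ?_⟩
      rw [he, hreal a ha]
      push_cast
      rfl
  constructor
  · rintro ⟨ε, hε⟩ a ha δ hδ N₀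
    have hval : ∀ b, InJ O m b → ((Art b (ε a) : H) : ℝ) = Real.exp (-θ (b * a)) := by
      intro b hb
      rw [(hε a ha).2.2.2.1 b hb]
      exact (hI _ _ (hmon b a hb ha)).1 (hε _ (hmon b a hb ha)).2.2.1
    have hu : IsStarkUnit σ H (ε a) := by
      refine ⟨(hε a ha).2.1.1, (hε a ha).2.1.2, fun g => ?_, (hε a ha).2.2.2.2.1, fun g => ?_⟩
      · show 0 < ((g (ε a) : H) : ℝ)
        rw [← hBA g, hval _ (hBJ g)]
        exact Real.exp_pos _
      · show CondIV H ((g (ε a) : H) : ℝ)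
        rw [← hBA g, (hε a ha).2.2.2.1 _ (hBJ g)]
        exact (hε _ (hmon _ a (hBJ g) ha)).2.2.2.2.2
    have hev : ∀ᶠ N : ℕ in atTop, ∀ g : H ≃ₐ[K] H,
        |((dcomb ρ (zco O m σ κ (B g * a)) N : ℚ) : ℝ) - θ (B g * a)| < δ := by
      refine eventually_all.2 fun g => ?_
      have h7 := (hlim _ (hmon _ a (hBJ g) ha)).sub_const (θ (B g * a))
      rw [sub_self] at h7
      have h8 := h7.abs
      rw [abs_zero] at h8
      exact h8.eventually (gt_mem_nhds hδ)
    obtain ⟨N, hN, hN0⟩ := (hev.and (eventually_ge_atTop N₀)).exists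
    refine ⟨N, hN0, ε a, hu, fun b hb => ?_⟩
    have hR := REq_mul hm hA hb (hBJ (Art b)) (hBA (Art b)).symm ha
    show |_ + Real.log ((Art b (ε a) : H) : ℝ)| < δ
    rw [hval b hb, Real.log_exp, ← sub_eq_add_neg, zco_congr hm hfin h1 h3 (hmon b a hb ha)
      (hmon _ a (hBJ (Art b)) ha) hR, hθc _ _ (hmon b a hb ha) (hmon _ a (hBJ (Art b)) ha) hR]
    exact hN (Art b)
  · intro hN
    -- the units
    have hunit : ∀ a, InMonoid O m a → ∃ u : H, IsStarkUnit σ H u ∧
        ∀ b, InJ O m b → ((Art b u : H) : ℝ) = Real.exp (-θ (b * a)) := by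
      intro a ha
      have hnear := (near_iff (P := IsStarkUnit σ H) (lam := fun g u => Real.log (val H g u))
        (θ := fun g => -θ (B g * a))
        (fun u hu => (isIntegral_algHom_iff (H.val.restrictScalars ℤ) H.val.injective).1 hu.int)
        (fun B' => by
          obtain ⟨B'', hB''⟩ := bounded hK hσ H B'
          exact ⟨B'', hB''⟩)
        (x := fun N g => -((dcomb ρ (zco O m σ κ (B g * a)) N : ℚ) : ℝ))
        (fun g => (hlim _ (hmon _ a (hBJ g) ha)).neg)).2 (fun δ hδ N₀ => by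
          obtain ⟨N, hN1, u, hu, hc⟩ := hN a ha δ hδ N₀
          refine ⟨N, hN1, u, hu, fun g => ?_⟩
          have h4 := hc (B g) (hBJ g)
          rw [hBA g] at h4
          rw [← abs_neg]
          have e : -(-((dcomb ρ (zco O m σ κ (B g * a)) N : ℚ) : ℝ) - Real.log (val H g u)) =
              ((dcomb ρ (zco O m σ κ (B g * a)) N : ℚ) : ℝ) + Real.log (val H g u) := by ring
          rw [e]
          exact h4)
      obtain ⟨u, hu, hlog⟩ := hnear
      refine ⟨u, hu, fun b hb => ?_⟩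
      have hR := REq_mul hm hA hb (hBJ (Art b)) (hBA (Art b)).symm ha
      rw [hθc _ _ (hmon b a hb ha) (hmon _ a (hBJ (Art b)) ha) hR, ← hlog (Art b),
        Real.exp_log (hu.pos (Art b))]
      rfl
    choose! u hu hval using hunit
    -- the value itself
    have hone : InJ O m (OL O) := by
      refine ⟨isInv_OL O, OL O, OL O, le_rfl, le_rfl, isInv_OL O, ?_, ?_, OL_mul_OL O⟩
      · exact sup_eq_left.2 fun x hx => hm.le x hx
      · exact sup_eq_left.2 fun x hx => hm.le x hx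
    have hArt1 : Art (OL O) = 1 := by
      have h4 := hA.1 _ _ hone hone
      rw [OL_mul_OL] at h4
      exact left_eq_mul.1 h4
    have hval1 : ∀ a, InMonoid O m a → ((u a : H) : ℝ) = Real.exp (-θ a) := by
      intro a ha
      have h4 := hval a ha (OL O) hone
      rw [hArt1, ha.1.stable] at h4
      exact h4
    refine ⟨u, fun a ha => ⟨fun b hb hba => ?_, ⟨(hu a ha).int, (hu a ha).inv⟩, ?_, ?_,
      (hu a ha).circle, ?_⟩⟩
    · apply Subtype.ext
      rw [hval1 b hb, hval1 a ha, hθc b a hb ha ((rel_iff hm hfin ha).1 hba)]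
    · exact (hI a _ ha).2 (hval1 a ha)
    · intro b hb
      apply Subtype.ext
      rw [hval a ha b hb, hval1 _ (hmon b a hb ha)]
    · have h4 := (hu a ha).root 1
      exact h4

end Pool.Agent.X242.MS
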