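import Pool.Agent.X242.AP2
import Pool.Agent.X242.AP3

/-!
# Second differences of the results of a network with bounded derivatives
-/

set_option autoImplicit false

namespace Pool.Agent.X242.SA

open Pool.Agent.X242.AP

section gate

variable {𝕜 : Type} [NormedField 𝕜] {a : ℕ}

/-- `φ` has the gradient `G` and the second order part `H` at `u`, bounded by `K`, with a remainder
of third order. -/
def Taylor (K : ℝ) (φ : (Fin a → 𝕜) → 𝕜) (u : Fin a → 𝕜) (G : Fin a → 𝕜)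
    (H : Fin a → Fin a → 𝕜) : Prop :=
  (∀ i, ‖G i‖ ≤ K) ∧ (∀ i j, ‖H i j‖ ≤ K) ∧ ∀ d : Fin a → 𝕜, ‖d‖ ≤ 1 / K →
    ‖φ (u + d) - (φ u + ∑ i, G i * d i + ∑ i, ∑ j, H i j * (d i * d j))‖ ≤ K * ‖d‖ ^ 3

lemma sum_le {K W : ℝ} (hW : 0 ≤ W) {G x : Fin a → 𝕜} (hG : ∀ i, ‖G i‖ ≤ K)
    (hx : ∀ i, ‖x i‖ ≤ W) : ‖∑ i, G i * x i‖ ≤ a * (K * W) := by
  refine (norm_sum_le _ _).trans ?_
  calc ∑ i, ‖G i * x i‖ ≤ ∑ _i : Fin a, K * W := Finset.sum_le_sum fun i _ => by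
        rw [norm_mul]
        exact mul_le_mul (hG i) (hx i) (norm_nonneg _) ((norm_nonneg _).trans (hG i))
    _ = a * (K * W) := by rw [Finset.sum_const, Finset.card_univ, Fintype.card_fin, nsmul_eq_mul]

lemma sum2_le {K W : ℝ} (hW : 0 ≤ W) {H x : Fin a → Fin a → 𝕜} (hH : ∀ i j, ‖H i j‖ ≤ K)
    (hx : ∀ i j, ‖x i j‖ ≤ W) : ‖∑ i, ∑ j, H i j * x i j‖ ≤ a ^ 2 * (K * W) := by
  refine (norm_sum_le _ _).trans ?_
  calc ∑ i, ‖∑ j, H i j * x i j‖ ≤ ∑ _i : Fin a, a * (K * W) :=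
        Finset.sum_le_sum fun i _ => sum_le hW (hH i) (hx i)
    _ = a ^ 2 * (K * W) := by
        rw [Finset.sum_const, Finset.card_univ, Fintype.card_fin, nsmul_eq_mul]; ring

variable {K U : ℝ} {φ : (Fin a → 𝕜) → 𝕜} {u G : Fin a → 𝕜} {H : Fin a → Fin a → 𝕜}
  {h : 𝕜} (hT : Taylor K φ u G H) (ha : 1 ≤ a) (hK : 1 ≤ K) (hU : 1 ≤ U) (h0 : h ≠ 0)
  (hh : 3 * K * U * ‖h‖ ≤ 1)

include hT ha hK hU h0 hh

lemma gate_bounds_aux : 0 < ‖h‖ ∧ ‖h‖ ≤ 1 ∧ (1 : ℝ) ≤ a ∧ 3 * U * ‖h‖ ≤ 1 / K := by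
  have h1 : 0 < ‖h‖ := norm_pos_iff.mpr h0
  refine ⟨h1, ?_, by exact_mod_cast ha, ?_⟩
  · by_contra hcon
    push Not at hcon
    have h2 : (1 : ℝ) ≤ K * U := one_le_mul_of_one_le_of_one_le hK hU
    nlinarith
  · rw [le_div_iff₀ (by linarith)]
    linarith

/-- First differences. -/
lemma first {α : Fin a → 𝕜} (hα : ∀ i, ‖α i‖ ≤ U) :
    ‖(φ (u + h • α) - φ u) / h‖ ≤ 3 * a ^ 2 * K * U ^ 3 := by
  obtain ⟨hp, h1, ha1, hr⟩ := gate_bounds_aux hT ha hK hU h0 hh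
  set η := ‖h‖ with hη
  have hU0 : 0 ≤ U := by linarith
  have hK0 : 0 ≤ K := by linarith
  have hd : ‖h • α‖ ≤ U * η := by
    rw [norm_smul, mul_comm]
    exact mul_le_mul_of_nonneg_right ((pi_norm_le_iff_of_nonneg hU0).mpr hα) hp.le
  have hR := hT.2.2 (h • α) (hd.trans (by nlinarith))
  have hR' : K * ‖h • α‖ ^ 3 ≤ K * (U * η) ^ 3 :=
    mul_le_mul_of_nonneg_left (pow_le_pow_left₀ (norm_nonneg _) hd 3) hK0
  have hx : ∀ i, ‖(h • α) i‖ ≤ U * η := fun i => (norm_le_pi_norm _ i).trans hd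
  have hUη : 0 ≤ U * η := by positivity
  have hs1 := sum_le hUη hT.1 hx
  have hs2 := sum2_le (W := (U * η) * (U * η)) (by positivity) hT.2.1
    (x := fun i j => (h • α) i * (h • α) j) (fun i j => by
      rw [norm_mul]
      exact mul_le_mul (hx i) (hx j) (norm_nonneg _) hUη)
  have e1 : φ (u + h • α) - φ u =
      (φ (u + h • α) - (φ u + ∑ i, G i * (h • α) i + ∑ i, ∑ j, H i j * ((h • α) i * (h • α) j))) +
      ∑ i, G i * (h • α) i + ∑ i, ∑ j, H i j * ((h • α) i * (h • α) j) := by ring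
  have e2 : ‖φ (u + h • α) - φ u‖ ≤ K * (U * η) ^ 3 + a * (K * (U * η)) +
      a ^ 2 * (K * (U * η * (U * η))) := by
    rw [e1]
    exact (norm_add_le _ _).trans (add_le_add ((norm_add_le _ _).trans
      (add_le_add (hR.trans hR') hs1)) hs2)
  rw [norm_div, div_le_iff₀ hp]
  refine e2.trans ?_
  have h2 : U ^ 1 ≤ U ^ 3 := pow_le_pow_right₀ hU (by norm_num)
  have h3 : U ^ 2 ≤ U ^ 3 := pow_le_pow_right₀ hU (by norm_num)
  have h4 : (1 : ℝ) ≤ a ^ 2 := one_le_pow₀ ha1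
  have h5 : (a : ℝ) ≤ a ^ 2 := by nlinarith
  have hU3 : 0 ≤ U ^ 3 := by positivity
  have hη3 : η ^ 3 ≤ η := by
    calc η ^ 3 ≤ η ^ 1 := pow_le_pow_of_le_one hp.le h1 (by norm_num)
      _ = η := pow_one η
  have hη2 : η ^ 2 ≤ η := by
    calc η ^ 2 ≤ η ^ 1 := pow_le_pow_of_le_one hp.le h1 (by norm_num)
      _ = η := pow_one η
  have t1 : K * (U * η) ^ 3 ≤ a ^ 2 * K * U ^ 3 * η := by
    calc K * (U * η) ^ 3 = 1 * (K * U ^ 3) * η ^ 3 := by ring
      _ ≤ a ^ 2 * (K * U ^ 3) * η := by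
          apply mul_le_mul _ hη3 (by positivity) (by positivity)
          exact mul_le_mul_of_nonneg_right h4 (by positivity)
      _ = _ := by ring
  have t2 : a * (K * (U * η)) ≤ a ^ 2 * K * U ^ 3 * η := by
    calc a * (K * (U * η)) = a * K * U ^ 1 * η := by ring
      _ ≤ a ^ 2 * K * U ^ 3 * η := by
          apply mul_le_mul_of_nonneg_right _ hp.le
          apply mul_le_mul _ h2 (by positivity) (by positivity)
          exact mul_le_mul_of_nonneg_right h5 hK0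
  have t3 : a ^ 2 * (K * (U * η * (U * η))) ≤ a ^ 2 * K * U ^ 3 * η := by
    calc a ^ 2 * (K * (U * η * (U * η))) = a ^ 2 * K * U ^ 2 * η ^ 2 := by ring
      _ ≤ a ^ 2 * K * U ^ 3 * η := by
          apply mul_le_mul _ hη2 (by positivity) (by positivity)
          exact mul_le_mul_of_nonneg_left h3 (by positivity)
  linarith

/-- Mixed second differences. -/
lemma second {α β γ : Fin a → 𝕜} (hα : ∀ i, ‖α i‖ ≤ U) (hβ : ∀ i, ‖β i‖ ≤ U)
    (hγ : ∀ i, ‖γ i‖ ≤ U) :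
    ‖(φ (u + (h • α + h • β + h ^ 2 • γ)) - φ (u + h • α) - φ (u + h • β) + φ u) / h ^ 2 -
      (∑ i, G i * γ i + ∑ i, α i * ∑ j, (H i j + H j i) * β j)‖ ≤ 34 * a ^ 2 * K * U ^ 3 * ‖h‖ := by
  obtain ⟨hp, h1, ha1, hr⟩ := gate_bounds_aux hT ha hK hU h0 hh
  set η := ‖h‖ with hη
  have hU0 : 0 ≤ U := by linarith
  have hK0 : 0 ≤ K := by linarith
  have hUη : 0 ≤ U * η := by positivity
  have hd1 : ‖h • α‖ ≤ U * η := by
    rw [norm_smul, mul_comm]
    exact mul_le_mul_of_nonneg_right ((pi_norm_le_iff_of_nonneg hU0).mpr hα) hp.le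
  have hd2 : ‖h • β‖ ≤ U * η := by
    rw [norm_smul, mul_comm]
    exact mul_le_mul_of_nonneg_right ((pi_norm_le_iff_of_nonneg hU0).mpr hβ) hp.le
  have hη2 : η ^ 2 ≤ η := by
    calc η ^ 2 ≤ η ^ 1 := pow_le_pow_of_le_one hp.le h1 (by norm_num)
      _ = η := pow_one η
  have hd3 : ‖h ^ 2 • γ‖ ≤ U * η := by
    rw [norm_smul, mul_comm, norm_pow]
    calc ‖γ‖ * η ^ 2 ≤ U * η ^ 2 :=
          mul_le_mul_of_nonneg_right ((pi_norm_le_iff_of_nonneg hU0).mpr hγ) (by positivity)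
      _ ≤ U * η := mul_le_mul_of_nonneg_left hη2 hU0
  have hd : ‖h • α + h • β + h ^ 2 • γ‖ ≤ 3 * U * η := by
    have := norm_add_le (h • α + h • β) (h ^ 2 • γ)
    have := norm_add_le (h • α) (h • β)
    linarith
  set Q : (Fin a → 𝕜) → 𝕜 := fun d => ∑ i, ∑ j, H i j * (d i * d j) with hQ
  set ℓ : (Fin a → 𝕜) → 𝕜 := fun d => ∑ i, G i * d i with hℓ
  set R : (Fin a → 𝕜) → 𝕜 := fun d => φ (u + d) - (φ u + ℓ d + Q d) with hRdef
  have hR1 : ‖R (h • α)‖ ≤ K * (U * η) ^ 3 :=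
    (hT.2.2 _ (hd1.trans (by nlinarith))).trans
      (mul_le_mul_of_nonneg_left (pow_le_pow_left₀ (norm_nonneg _) hd1 3) hK0)
  have hR2 : ‖R (h • β)‖ ≤ K * (U * η) ^ 3 :=
    (hT.2.2 _ (hd2.trans (by nlinarith))).trans
      (mul_le_mul_of_nonneg_left (pow_le_pow_left₀ (norm_nonneg _) hd2 3) hK0)
  have hR3 : ‖R (h • α + h • β + h ^ 2 • γ)‖ ≤ K * (3 * U * η) ^ 3 :=
    (hT.2.2 _ (hd.trans (by linarith))).trans
      (mul_le_mul_of_nonneg_left (pow_le_pow_left₀ (norm_nonneg _) hd 3) hK0)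
  -- the quadratic part
  have eℓ : ℓ (h • α + h • β + h ^ 2 • γ) - ℓ (h • α) - ℓ (h • β) = h ^ 2 * ∑ i, G i * γ i := by
    simp only [hℓ, Pi.add_apply, Pi.smul_apply, smul_eq_mul, ← Finset.sum_sub_distrib,
      Finset.mul_sum]
    exact Finset.sum_congr rfl fun i _ => by ring
  have eQ : Q (h • α + h • β + h ^ 2 • γ) - Q (h • α) - Q (h • β) =
      h ^ 2 * ∑ i, ∑ j, H i j * (α i * β j + β i * α j) +
      h ^ 3 * ∑ i, ∑ j, H i j * ((α i + β i) * γ j + γ i * (α j + β j)) +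
      h ^ 4 * ∑ i, ∑ j, H i j * (γ i * γ j) := by
    simp only [hQ, Pi.add_apply, Pi.smul_apply, smul_eq_mul, ← Finset.sum_sub_distrib,
      Finset.mul_sum, ← Finset.sum_add_distrib]
    exact Finset.sum_congr rfl fun i _ => Finset.sum_congr rfl fun j _ => by ring
  have eM : ∑ i, ∑ j, H i j * (α i * β j + β i * α j) =
      ∑ i, α i * ∑ j, (H i j + H j i) * β j := by
    have e1 : ∑ i, ∑ j, H i j * (α i * β j + β i * α j) =
        ∑ i, ∑ j, H i j * (α i * β j) + ∑ i, ∑ j, H i j * (β i * α j) := by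
      simp only [mul_add, Finset.sum_add_distrib]
    have e2 : ∑ i, ∑ j, H i j * (β i * α j) = ∑ i, ∑ j, H j i * (β j * α i) := Finset.sum_comm
    rw [e1, e2, ← Finset.sum_add_distrib]
    refine Finset.sum_congr rfl fun i _ => ?_
    rw [← Finset.sum_add_distrib, Finset.mul_sum]
    exact Finset.sum_congr rfl fun j _ => by ring
  have key : (φ (u + (h • α + h • β + h ^ 2 • γ)) - φ (u + h • α) - φ (u + h • β) + φ u) / h ^ 2 -
      (∑ i, G i * γ i + ∑ i, α i * ∑ j, (H i j + H j i) * β j) =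
      (R (h • α + h • β + h ^ 2 • γ) - R (h • α) - R (h • β)) / h ^ 2 +
      (h * ∑ i, ∑ j, H i j * ((α i + β i) * γ j + γ i * (α j + β j)) +
        h ^ 2 * ∑ i, ∑ j, H i j * (γ i * γ j)) := by
    have e1 : φ (u + (h • α + h • β + h ^ 2 • γ)) - φ (u + h • α) - φ (u + h • β) + φ u =
        (R (h • α + h • β + h ^ 2 • γ) - R (h • α) - R (h • β)) +
        (ℓ (h • α + h • β + h ^ 2 • γ) - ℓ (h • α) - ℓ (h • β)) +
        (Q (h • α + h • β + h ^ 2 • γ) - Q (h • α) - Q (h • β)) := by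
      simp only [hRdef]
      ring
    rw [e1, eℓ, eQ, eM]
    field_simp
    ring
  have hs1 := sum2_le (W := 4 * U ^ 2) (by positivity) hT.2.1
    (x := fun i j => (α i + β i) * γ j + γ i * (α j + β j)) (fun i j => by
      have h2 : ∀ i, ‖α i + β i‖ ≤ 2 * U := fun i => (norm_add_le _ _).trans (by
        have := hα i
        have := hβ i
        linarith)
      refine (norm_add_le _ _).trans ?_
      rw [norm_mul, norm_mul]
      have h3 := mul_le_mul (h2 i) (hγ j) (norm_nonneg _) (by linarith)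
      have h4 := mul_le_mul (hγ i) (h2 j) (norm_nonneg _) hU0
      nlinarith)
  have hs2 := sum2_le (W := U ^ 2) (by positivity) hT.2.1
    (x := fun i j => γ i * γ j) (fun i j => by
      rw [norm_mul, sq]
      exact mul_le_mul (hγ i) (hγ j) (norm_nonneg _) hU0)
  have h4 : (1 : ℝ) ≤ a ^ 2 := one_le_pow₀ ha1
  have h3 : U ^ 2 ≤ U ^ 3 := pow_le_pow_right₀ hU (by norm_num)
  rw [key]
  have b1 : ‖(R (h • α + h • β + h ^ 2 • γ) - R (h • α) - R (h • β)) / h ^ 2‖ ≤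
      29 * a ^ 2 * K * U ^ 3 * η := by
    rw [norm_div, norm_pow, div_le_iff₀ (by positivity)]
    have t1 := norm_sub_le (R (h • α + h • β + h ^ 2 • γ) - R (h • α)) (R (h • β))
    have t2 := norm_sub_le (R (h • α + h • β + h ^ 2 • γ)) (R (h • α))
    have t3 : K * (3 * U * η) ^ 3 + K * (U * η) ^ 3 + K * (U * η) ^ 3 =
        29 * 1 * K * U ^ 3 * η * η ^ 2 := by ring
    have t4 : 29 * 1 * K * U ^ 3 * η * η ^ 2 ≤ 29 * a ^ 2 * K * U ^ 3 * η * η ^ 2 := by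
      have : 0 ≤ K * U ^ 3 * η * η ^ 2 := by positivity
      nlinarith
    linarith
  have b2 : ‖h * ∑ i, ∑ j, H i j * ((α i + β i) * γ j + γ i * (α j + β j))‖ ≤
      4 * a ^ 2 * K * U ^ 3 * η := by
    rw [norm_mul]
    calc η * _ ≤ η * (a ^ 2 * (K * (4 * U ^ 2))) := mul_le_mul_of_nonneg_left hs1 hp.le
      _ = 4 * a ^ 2 * K * U ^ 2 * η := by ring
      _ ≤ 4 * a ^ 2 * K * U ^ 3 * η := by
          apply mul_le_mul_of_nonneg_right _ hp.le
          exact mul_le_mul_of_nonneg_left h3 (by positivity)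
  have b3 : ‖h ^ 2 * ∑ i, ∑ j, H i j * (γ i * γ j)‖ ≤ a ^ 2 * K * U ^ 3 * η := by
    rw [norm_mul, norm_pow]
    calc η ^ 2 * _ ≤ η ^ 2 * (a ^ 2 * (K * U ^ 2)) := mul_le_mul_of_nonneg_left hs2 (by positivity)
      _ = a ^ 2 * K * U ^ 2 * η ^ 2 := by ring
      _ ≤ a ^ 2 * K * U ^ 3 * η := by
          apply mul_le_mul _ hη2 (by positivity) (by positivity)
          exact mul_le_mul_of_nonneg_left h3 (by positivity)
  refine (norm_add_le _ _).trans ?_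
  have := norm_add_le (h * ∑ i, ∑ j, H i j * ((α i + β i) * γ j + γ i * (α j + β j)))
    (h ^ 2 * ∑ i, ∑ j, H i j * (γ i * γ j))
  linarith

end gate

end Pool.Agent.X242.SA
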