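import Pool.Agent.X242.SA1

/-!
# Networks of smooth gates with bounded derivatives which approximate the product of two matrices
-/

set_option autoImplicit false

namespace Pool.Agent.X242.SA

open Pool.Agent.X242.AP

/-- A gate with `a` inputs: an arbitrary function `φ`. The input `i` of `φ` is the sum of a function
of the first matrix, of a function of the second matrix and of a linear combination of the results
of the earlier gates. -/
structure Gate (𝕜 : Type) (n a : ℕ) where
  /-- the function -/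
  φ : (Fin a → 𝕜) → 𝕜
  /-- the functions of the first matrix -/
  fA : Fin a → (Fin n × Fin n → 𝕜) → 𝕜
  /-- the functions of the second matrix -/
  fB : Fin a → (Fin n × Fin n → 𝕜) → 𝕜
  /-- the coefficients of the results of the earlier gates -/
  l : Fin a → ℕ → 𝕜

/-- A network whose output is an `n × n` matrix. -/
structure Net (𝕜 : Type) (n a : ℕ) where
  /-- the gates -/
  gate : ℕ → Gate 𝕜 n a
  /-- free functions of the first matrix -/
  oA : Fin n × Fin n → (Fin n × Fin n → 𝕜) → 𝕜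
  /-- free functions of the second matrix -/
  oB : Fin n × Fin n → (Fin n × Fin n → 𝕜) → 𝕜
  /-- the coefficients of the results -/
  ol : Fin n × Fin n → ℕ → 𝕜

section

variable {𝕜 : Type} [NormedField 𝕜] {n a : ℕ}

/-- The inputs of `φ`. -/
def Gate.op (g : Gate 𝕜 n a) (A B : Fin n × Fin n → 𝕜) (s : ℕ) (y : ℕ → 𝕜) : Fin a → 𝕜 :=
  fun i => g.fA i A + g.fB i B + ∑ r ∈ Finset.range s, g.l i r * y r

/-- The results of the first `s` gates. -/
def Net.res (N : Net 𝕜 n a) (A B : Fin n × Fin n → 𝕜) : ℕ → ℕ → 𝕜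
  | 0 => fun _ => 0
  | s + 1 => Function.update (N.res A B s) s
      ((N.gate s).φ ((N.gate s).op A B s (N.res A B s)))

/-- The output of the network with the first `L` gates. -/
def Net.out (N : Net 𝕜 n a) (L : ℕ) (A B : Fin n × Fin n → 𝕜) (c : Fin n × Fin n) : 𝕜 :=
  N.oA c A + N.oB c B + ∑ r ∈ Finset.range L, N.ol c r * N.res A B L r

/-- The gate is bounded by `K` at the inputs `A`, `B`: the coefficients are at most `K`, the free
functions have the Lipschitz constant `K` at `A` and `B`, and at the values that occur `φ` has a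
gradient and a second order part whose entries are at most `K`, and a remainder of third order with
the constant `K`. -/
structure Gate.Bounded (K : ℝ) (g : Gate 𝕜 n a) (A B : Fin n × Fin n → 𝕜) (s : ℕ)
    (y : ℕ → 𝕜) : Prop where
  /-- the coefficients -/
  coef : ∀ i, ∀ r < s, ‖g.l i r‖ ≤ K
  /-- the functions of the first matrix -/
  lipA : ∀ i A', ‖A' - A‖ ≤ 1 / K → ‖g.fA i A' - g.fA i A‖ ≤ K * ‖A' - A‖
  /-- the functions of the second matrix -/
  lipB : ∀ i B', ‖B' - B‖ ≤ 1 / K → ‖g.fB i B' - g.fB i B‖ ≤ K * ‖B' - B‖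
  /-- the function -/
  taylor : ∃ (G : Fin a → 𝕜) (H : Fin a → Fin a → 𝕜), Taylor K g.φ (g.op A B s y) G H

/-- The first `L` gates of the network are bounded by `K` at the inputs `A`, `B`, and the
coefficients of their results in the outputs are at most `K`. -/
def Net.Bounded (K : ℝ) (N : Net 𝕜 n a) (L : ℕ) (A B : Fin n × Fin n → 𝕜) : Prop :=
  (∀ s < L, (N.gate s).Bounded K A B s (N.res A B s)) ∧ ∀ c, ∀ r < L, ‖N.ol c r‖ ≤ K

/-! ### Difference quotients -/

variable (h : 𝕜) (A B : Fin n × Fin n → 𝕜)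

/-- first differences -/
def dA (F : (Fin n × Fin n → 𝕜) → (Fin n × Fin n → 𝕜) → 𝕜) (x : Fin n × Fin n) : 𝕜 :=
  (F (A + Pi.single x h) B - F A B) / h

/-- first differences -/
def dB (F : (Fin n × Fin n → 𝕜) → (Fin n × Fin n → 𝕜) → 𝕜) (z : Fin n × Fin n) : 𝕜 :=
  (F A (B + Pi.single z h) - F A B) / h

/-- mixed second differences -/
def dM (F : (Fin n × Fin n → 𝕜) → (Fin n × Fin n → 𝕜) → 𝕜) (x z : Fin n × Fin n) : 𝕜 :=
  (F (A + Pi.single x h) (B + Pi.single z h) - F (A + Pi.single x h) B -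
    F A (B + Pi.single z h) + F A B) / h ^ 2

lemma Sp_many (p q : ℕ → Fin n × Fin n → 𝕜) (k : ℕ) (P Q : Fin a → Fin n × Fin n → 𝕜) :
    ∃ p' q' : ℕ → Fin n × Fin n → 𝕜, Sp p q k ≤ Sp p' q' (k + a) ∧
      ∀ i, ro (P i) (Q i) ∈ Sp p' q' (k + a) := by
  refine ⟨fun t => if t < k then p t else if ht : t - k < a then P ⟨t - k, ht⟩ else 0,
    fun t => if t < k then q t else if ht : t - k < a then Q ⟨t - k, ht⟩ else 0, ?_, fun i => ?_⟩
  · unfold Sp
    rw [Submodule.span_le]
    rintro _ ⟨t, ht, rfl⟩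
    have ht' : t < k := ht
    refine Submodule.subset_span ⟨t, ?_, ?_⟩
    · show t < k + a
      omega
    · simp only [if_pos ht']
  · refine Submodule.subset_span ⟨k + i, ?_, ?_⟩
    · show k + i < k + a
      have := i.2
      omega
    · have h1 : ¬ (k + (i : ℕ) < k) := by omega
      have h2 : k + (i : ℕ) - k = i := by omega
      simp only [if_neg h1, h2, i.2, dif_pos]

variable {h A B}

/-- The bounds after `s` gates. -/
def Stage (h : 𝕜) (A B : Fin n × Fin n → 𝕜) (N : Net 𝕜 n a) (s : ℕ) (M : ℝ) : Prop :=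
  ∃ p q : ℕ → Fin n × Fin n → 𝕜, ∀ r < s,
    (∀ x, ‖dA h A B (fun A B => N.res A B s r) x‖ ≤ M) ∧
    (∀ z, ‖dB h A B (fun A B => N.res A B s r) z‖ ≤ M) ∧
    (∀ x z, ‖dM h A B (fun A B => N.res A B s r) x z‖ ≤ M) ∧
    ∃ R ∈ Sp p q (a * s), ∀ x z, ‖dM h A B (fun A B => N.res A B s r) x z - R x z‖ ≤ M * ‖h‖

lemma dM_free {F G : (Fin n × Fin n → 𝕜) → 𝕜} {l : ℕ → 𝕜} {s : ℕ}
    {y : (Fin n × Fin n → 𝕜) → (Fin n × Fin n → 𝕜) → ℕ → 𝕜} (x z : Fin n × Fin n) :
    dM h A B (fun A B => F A + G B + ∑ r ∈ Finset.range s, l r * y A B r) x z =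
      ∑ r ∈ Finset.range s, l r * dM h A B (fun A B => y A B r) x z := by
  unfold dM
  simp only [mul_div_assoc', ← Finset.sum_div]
  congr 1
  simp only [mul_add, mul_sub, Finset.sum_add_distrib, Finset.sum_sub_distrib]
  ring

lemma dA_free {F G : (Fin n × Fin n → 𝕜) → 𝕜} {l : ℕ → 𝕜} {s : ℕ}
    {y : (Fin n × Fin n → 𝕜) → (Fin n × Fin n → 𝕜) → ℕ → 𝕜} (x : Fin n × Fin n) :
    dA h A B (fun A B => F A + G B + ∑ r ∈ Finset.range s, l r * y A B r) x =
      (F (A + Pi.single x h) - F A) / h +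
      ∑ r ∈ Finset.range s, l r * dA h A B (fun A B => y A B r) x := by
  unfold dA
  simp only [mul_div_assoc', ← Finset.sum_div]
  rw [← add_div]
  congr 1
  simp only [mul_sub, Finset.sum_sub_distrib]
  ring

lemma dB_free {F G : (Fin n × Fin n → 𝕜) → 𝕜} {l : ℕ → 𝕜} {s : ℕ}
    {y : (Fin n × Fin n → 𝕜) → (Fin n × Fin n → 𝕜) → ℕ → 𝕜} (x : Fin n × Fin n) :
    dB h A B (fun A B => F A + G B + ∑ r ∈ Finset.range s, l r * y A B r) x =
      (G (B + Pi.single x h) - G B) / h +
      ∑ r ∈ Finset.range s, l r * dB h A B (fun A B => y A B r) x := by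
  unfold dB
  simp only [mul_div_assoc', ← Finset.sum_div]
  rw [← add_div]
  congr 1
  simp only [mul_sub, Finset.sum_sub_distrib]
  ring

lemma sumr_le {K M : ℝ} {s L : ℕ} (hs : s ≤ L) (hM : 0 ≤ M) (hK : 0 ≤ K) {l y : ℕ → 𝕜}
    (hl : ∀ r < s, ‖l r‖ ≤ K) (hy : ∀ r < s, ‖y r‖ ≤ M) :
    ‖∑ r ∈ Finset.range s, l r * y r‖ ≤ L * (K * M) := by
  refine (norm_sum_le _ _).trans ?_
  calc ∑ r ∈ Finset.range s, ‖l r * y r‖ ≤ ∑ _r ∈ Finset.range s, K * M :=
        Finset.sum_le_sum fun r hr => by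
          rw [norm_mul]
          exact mul_le_mul (hl r (Finset.mem_range.mp hr)) (hy r (Finset.mem_range.mp hr))
            (norm_nonneg _) hK
    _ = s * (K * M) := by rw [Finset.sum_const, Finset.card_range, nsmul_eq_mul]
    _ ≤ L * (K * M) := by
        apply mul_le_mul_of_nonneg_right _ (by positivity)
        exact_mod_cast hs

lemma norm_single (x : Fin n × Fin n) (h : 𝕜) :
    ‖(Pi.single x h : Fin n × Fin n → 𝕜)‖ = ‖h‖ := by
  apply le_antisymm
  · rw [pi_norm_le_iff_of_nonneg (norm_nonneg _)]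
    intro i
    by_cases hi : i = x
    · subst hi
      rw [Pi.single_eq_same]
    · rw [Pi.single_eq_of_ne hi, norm_zero]
      exact norm_nonneg _
  · have := norm_le_pi_norm (Pi.single x h : Fin n × Fin n → 𝕜) x
    rwa [Pi.single_eq_same] at this

/-- **One more gate.** -/
lemma step {K M : ℝ} {N : Net 𝕜 n a} {s L : ℕ} (ha : 1 ≤ a) (hK : 1 ≤ K) (hKM : K ≤ M)
    (h0 : h ≠ 0) (hs : s < L) (hg : (N.gate s).Bounded K A B s (N.res A B s))
    (hh : (37 * a ^ 2 * (L + 1) ^ 3 * M ^ 7) * ‖h‖ ≤ 1) (hst : Stage h A B N s M) :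
    Stage h A B N (s + 1) (37 * a ^ 2 * (L + 1) ^ 3 * M ^ 7) := by
  obtain ⟨p, q, hpq⟩ := hst
  set M' : ℝ := 37 * a ^ 2 * (L + 1) ^ 3 * M ^ 7 with hM'
  have hM1 : 1 ≤ M := hK.trans hKM
  have hM0 : 0 ≤ M := by linarith
  have hK0 : 0 ≤ K := by linarith
  have ha1 : (1 : ℝ) ≤ a := by exact_mod_cast ha
  have hL1 : (1 : ℝ) ≤ L + 1 := by
    have : (0 : ℝ) ≤ L := Nat.cast_nonneg L
    linarith
  set U : ℝ := (L + 1) * K * M with hU
  have hU1 : 1 ≤ U := one_le_mul_of_one_le_of_one_le (one_le_mul_of_one_le_of_one_le hL1 hK) hM1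
  have hU0 : 0 ≤ U := by linarith
  have hp : 0 < ‖h‖ := norm_pos_iff.mpr h0
  have ha2 : (1 : ℝ) ≤ a ^ 2 := one_le_pow₀ ha1
  have hKU : K * U ^ 3 ≤ (L + 1) ^ 3 * M ^ 7 := by
    calc K * U ^ 3 = (L + 1) ^ 3 * (K ^ 4 * M ^ 3) := by rw [hU]; ring
      _ ≤ (L + 1) ^ 3 * (M ^ 4 * M ^ 3) := by
          apply mul_le_mul_of_nonneg_left _ (by positivity)
          exact mul_le_mul_of_nonneg_right (pow_le_pow_left₀ hK0 hKM 4) (by positivity)
      _ = (L + 1) ^ 3 * M ^ 7 := by ring
  have hKU' : 37 * a ^ 2 * K * U ^ 3 ≤ M' := by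
    rw [hM']
    calc 37 * a ^ 2 * K * U ^ 3 = 37 * a ^ 2 * (K * U ^ 3) := by ring
      _ ≤ 37 * a ^ 2 * ((L + 1) ^ 3 * M ^ 7) := mul_le_mul_of_nonneg_left hKU (by positivity)
      _ = _ := by ring
  have hKU0 : 0 ≤ a ^ 2 * K * U ^ 3 := by positivity
  have h3KU : 3 * K * U ≤ M' := by
    have h1 : K * U ≤ K * U ^ 3 := by
      apply mul_le_mul_of_nonneg_left _ hK0
      calc U = U ^ 1 := (pow_one U).symm
        _ ≤ U ^ 3 := pow_le_pow_right₀ hU1 (by norm_num)
    have h2 : K * U ^ 3 ≤ a ^ 2 * K * U ^ 3 := by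
      have : 0 ≤ K * U ^ 3 := by positivity
      nlinarith
    nlinarith
  have hh' : 3 * K * U * ‖h‖ ≤ 1 := (mul_le_mul_of_nonneg_right h3KU hp.le).trans hh
  have hKh : ‖h‖ ≤ 1 / K := by
    rw [le_div_iff₀ (by linarith)]
    have : K ≤ 3 * K * U := by nlinarith
    nlinarith
  have hMM' : M ≤ M' := by
    calc M = 1 * M ^ 1 := by ring
      _ ≤ (a ^ 2 * (L + 1) ^ 3) * M ^ 7 := by
          apply mul_le_mul _ (pow_le_pow_right₀ hM1 (by norm_num)) (by positivity) (by positivity)
          exact one_le_mul_of_one_le_of_one_le ha2 (one_le_pow₀ hL1)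
      _ ≤ M' := by
          rw [hM']
          have : 0 ≤ (a : ℝ) ^ 2 * (L + 1) ^ 3 * M ^ 7 := by positivity
          nlinarith
  -- the operands
  set g := N.gate s with hgdef
  let u : Fin a → (Fin n × Fin n → 𝕜) → (Fin n × Fin n → 𝕜) → 𝕜 := fun i A B =>
    g.fA i A + g.fB i B + ∑ r ∈ Finset.range s, g.l i r * N.res A B s r
  have huop : ∀ A B, g.op A B s (N.res A B s) = fun i => u i A B := fun _ _ => rfl
  have hKM' : L * (K * M) ≤ U := by rw [hU]; nlinarith [mul_nonneg hK0 hM0]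
  have hKKM : K + L * (K * M) ≤ U := by
    rw [hU]
    nlinarith [mul_nonneg hK0 hM0]
  have huA : ∀ i x, ‖dA h A B (u i) x‖ ≤ U := by
    intro i x
    rw [dA_free]
    refine (norm_add_le _ _).trans (le_trans (add_le_add ?_ (sumr_le hs.le hM0 hK0 (hg.coef i)
      fun r hr => (hpq r hr).1 x)) hKKM)
    rw [norm_div, div_le_iff₀ hp]
    have := hg.lipA i (A + Pi.single x h) (by rw [add_sub_cancel_left, norm_single]; exact hKh)
    rwa [add_sub_cancel_left, norm_single] at this
  have huB : ∀ i x, ‖dB h A B (u i) x‖ ≤ U := by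
    intro i x
    rw [dB_free]
    refine (norm_add_le _ _).trans (le_trans (add_le_add ?_ (sumr_le hs.le hM0 hK0 (hg.coef i)
      fun r hr => (hpq r hr).2.1 x)) hKKM)
    rw [norm_div, div_le_iff₀ hp]
    have := hg.lipB i (B + Pi.single x h) (by rw [add_sub_cancel_left, norm_single]; exact hKh)
    rwa [add_sub_cancel_left, norm_single] at this
  have huM : ∀ i x z, ‖dM h A B (u i) x z‖ ≤ U := by
    intro i x z
    rw [dM_free]
    exact (sumr_le hs.le hM0 hK0 (hg.coef i) fun r hr => (hpq r hr).2.2.1 x z).trans hKM'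
  obtain ⟨G, H, hT⟩ := hg.taylor
  rw [huop] at hT
  -- values
  have ev1 : ∀ x, (fun i => u i (A + Pi.single x h) B) =
      (fun i => u i A B) + h • fun i => dA h A B (u i) x := by
    intro x
    funext i
    simp only [Pi.add_apply, Pi.smul_apply, smul_eq_mul, dA]
    field_simp
    ring
  have ev2 : ∀ z, (fun i => u i A (B + Pi.single z h)) =
      (fun i => u i A B) + h • fun i => dB h A B (u i) z := by
    intro x
    funext i
    simp only [Pi.add_apply, Pi.smul_apply, smul_eq_mul, dB]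
    field_simp
    ring
  have ev3 : ∀ x z, (fun i => u i (A + Pi.single x h) (B + Pi.single z h)) =
      (fun i => u i A B) + (h • (fun i => dA h A B (u i) x) + h • (fun i => dB h A B (u i) z) +
        h ^ 2 • fun i => dM h A B (u i) x z) := by
    intro x z
    funext i
    simp only [Pi.add_apply, Pi.smul_apply, smul_eq_mul, dA, dB, dM]
    field_simp
    ring
  have hnew : ∀ A B, N.res A B (s + 1) s = g.φ fun i => u i A B := by
    intro A B
    simp only [Net.res, Function.update_self]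
    rfl
  have hold : ∀ r < s, ∀ A B, N.res A B (s + 1) r = N.res A B s r := by
    intro r hr A B
    simp only [Net.res]
    rw [Function.update_of_ne (by omega)]
  have hnA : ∀ x, dA h A B (fun A B => N.res A B (s + 1) s) x =
      (g.φ ((fun i => u i A B) + h • fun i => dA h A B (u i) x) - g.φ fun i => u i A B) / h := by
    intro x
    rw [← ev1]
    unfold dA
    simp only [hnew]
  have hnB : ∀ x, dB h A B (fun A B => N.res A B (s + 1) s) x =
      (g.φ ((fun i => u i A B) + h • fun i => dB h A B (u i) x) - g.φ fun i => u i A B) / h := by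
    intro x
    rw [← ev2]
    unfold dB
    simp only [hnew]
  have hnM : ∀ x z, dM h A B (fun A B => N.res A B (s + 1) s) x z =
      (g.φ ((fun i => u i A B) + (h • (fun i => dA h A B (u i) x) +
        h • (fun i => dB h A B (u i) z) + h ^ 2 • fun i => dM h A B (u i) x z)) -
        g.φ ((fun i => u i A B) + h • fun i => dA h A B (u i) x) -
        g.φ ((fun i => u i A B) + h • fun i => dB h A B (u i) z) + g.φ fun i => u i A B) /
        h ^ 2 := by
    intro x z
    rw [← ev1, ← ev2, ← ev3]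
    unfold dM
    simp only [hnew]
  have b1 : ∀ x, ‖dA h A B (fun A B => N.res A B (s + 1) s) x‖ ≤ M' := by
    intro x
    rw [hnA]
    refine (first hT ha hK hU1 h0 hh' fun i => huA i x).trans (le_trans ?_ hKU')
    nlinarith
  have b2 : ∀ x, ‖dB h A B (fun A B => N.res A B (s + 1) s) x‖ ≤ M' := by
    intro x
    rw [hnB]
    refine (first hT ha hK hU1 h0 hh' fun i => huB i x).trans (le_trans ?_ hKU')
    nlinarith
  have hη1 : ‖h‖ ≤ 1 := by
    have : 1 / K ≤ 1 := by rw [div_le_one (by linarith)]; exact hK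
    linarith
  have hmain := fun x z => second hT ha hK hU1 h0 hh' (α := fun i => dA h A B (u i) x)
    (β := fun i => dB h A B (u i) z) (γ := fun i => dM h A B (u i) x z)
    (fun i => huA i x) (fun i => huB i z) (fun i => huM i x z)
  simp only [← hnM] at hmain
  have hU23 : U ^ 2 ≤ U ^ 3 := pow_le_pow_right₀ hU1 (by norm_num)
  have hU13 : U ≤ U ^ 3 := by
    calc U = U ^ 1 := (pow_one U).symm
      _ ≤ U ^ 3 := pow_le_pow_right₀ hU1 (by norm_num)
  have b3 : ∀ x z, ‖dM h A B (fun A B => N.res A B (s + 1) s) x z‖ ≤ M' := by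
    intro x z
    have h1 := hmain x z
    have h2 := sum_le (K := K) hU0 hT.1 (fun i => huM i x z)
    have h3 : ‖∑ i, dA h A B (u i) x * ∑ j, (H i j + H j i) * dB h A B (u j) z‖ ≤
        a * (U * (a * ((2 * K) * U))) := by
      refine sum_le (K := U) (W := a * ((2 * K) * U)) (by positivity) (fun i => huA i x) fun i => ?_
      refine sum_le (K := 2 * K) hU0 (fun j => ?_) fun j => huB j z
      refine (norm_add_le _ _).trans ?_
      have := hT.2.1 i j
      have := hT.2.1 j i
      linarith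
    have h4 : ∀ v w : 𝕜, ∀ c d : ℝ, ‖v - w‖ ≤ c → ‖w‖ ≤ d → ‖v‖ ≤ c + d := by
      intro v w c d h5 h6
      calc ‖v‖ = ‖(v - w) + w‖ := by rw [sub_add_cancel]
        _ ≤ c + d := (norm_add_le _ _).trans (add_le_add h5 h6)
    refine (h4 _ _ _ _ h1 ((norm_add_le _ _).trans (add_le_add h2 h3))).trans (le_trans ?_ hKU')
    have t1 : a * (K * U) ≤ a ^ 2 * K * U ^ 3 := by
      calc a * (K * U) = a * K * U := by ring
        _ ≤ a ^ 2 * K * U ^ 3 := by
            apply mul_le_mul _ hU13 hU0 (by positivity)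
            apply mul_le_mul_of_nonneg_right _ hK0
            nlinarith
    have t2 : a * (U * (a * ((2 * K) * U))) ≤ 2 * (a ^ 2 * K * U ^ 3) := by
      calc a * (U * (a * ((2 * K) * U))) = 2 * (a ^ 2 * K * U ^ 2) := by ring
        _ ≤ 2 * (a ^ 2 * K * U ^ 3) := by
            apply mul_le_mul_of_nonneg_left _ (by norm_num)
            exact mul_le_mul_of_nonneg_left hU23 (by positivity)
    have t3 : 34 * a ^ 2 * K * U ^ 3 * ‖h‖ ≤ 34 * (a ^ 2 * K * U ^ 3) := by
      calc 34 * a ^ 2 * K * U ^ 3 * ‖h‖ = 34 * (a ^ 2 * K * U ^ 3) * ‖h‖ := by ring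
        _ ≤ 34 * (a ^ 2 * K * U ^ 3) * 1 := mul_le_mul_of_nonneg_left hη1 (by positivity)
        _ = _ := mul_one _
    linarith
  -- the span
  have hR : ∀ r, ∃ R : Fin n × Fin n → Fin n × Fin n → 𝕜, r < s → R ∈ Sp p q (a * s) ∧
      ∀ x z, ‖dM h A B (fun A B => N.res A B s r) x z - R x z‖ ≤ M * ‖h‖ := by
    intro r
    by_cases hr : r < s
    · obtain ⟨R, h1, h2⟩ := (hpq r hr).2.2.2
      exact ⟨R, fun _ => ⟨h1, h2⟩⟩
    · exact ⟨0, fun h => absurd h hr⟩
  choose R hR using hR
  obtain ⟨p', q', hle, hro⟩ := Sp_many p q (a * s) (fun i x => dA h A B (u i) x)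
    (fun i z => ∑ j, (H i j + H j i) * dB h A B (u j) z)
  rw [← Nat.mul_succ] at hle hro
  refine ⟨p', q', fun r hr => ?_⟩
  rcases Nat.lt_succ_iff_lt_or_eq.mp hr with hr' | rfl
  · simp only [hold r hr']
    obtain ⟨h1, h2, h3, -⟩ := hpq r hr'
    exact ⟨fun x => (h1 x).trans hMM', fun x => (h2 x).trans hMM', fun x z => (h3 x z).trans hMM',
      R r, hle (hR r hr').1, fun x z => ((hR r hr').2 x z).trans
        (mul_le_mul_of_nonneg_right hMM' hp.le)⟩
  · refine ⟨b1, b2, b3, ∑ i, G i • ∑ t ∈ Finset.range r, g.l i t • R t +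
      ∑ i, ro (fun x => dA h A B (u i) x) (fun z => ∑ j, (H i j + H j i) * dB h A B (u j) z),
      ?_, fun x z => ?_⟩
    · refine Submodule.add_mem _ (Submodule.sum_mem _ fun i _ => Submodule.smul_mem _ _
        (Submodule.sum_mem _ fun t ht => Submodule.smul_mem _ _
          (hle (hR t (Finset.mem_range.mp ht)).1))) (Submodule.sum_mem _ fun i _ => hro i)
    · have h1 := hmain x z
      have h2 : ‖∑ i, G i * (dM h A B (u i) x z - ∑ t ∈ Finset.range r, g.l i t * R t x z)‖ ≤
          a * (K * (U * ‖h‖)) := by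
        refine sum_le (by positivity) hT.1 fun i => ?_
        show ‖dM h A B (fun A B => g.fA i A + g.fB i B +
          ∑ r_1 ∈ Finset.range r, g.l i r_1 * N.res A B r r_1) x z - _‖ ≤ _
        rw [dM_free, ← Finset.sum_sub_distrib]
        simp only [← mul_sub]
        refine (sumr_le (M := M * ‖h‖) hs.le (by positivity) hK0 (hg.coef i)
          fun t ht => (hR t ht).2 x z).trans ?_
        calc (L : ℝ) * (K * (M * ‖h‖)) = L * (K * M) * ‖h‖ := by ring
          _ ≤ U * ‖h‖ := mul_le_mul_of_nonneg_right hKM' hp.le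
      have e1 : (∑ i, G i • ∑ t ∈ Finset.range r, g.l i t • R t +
          ∑ i, ro (fun x => dA h A B (u i) x) (fun z => ∑ j, (H i j + H j i) *
            dB h A B (u j) z)) x z = ∑ i, G i * ∑ t ∈ Finset.range r, g.l i t * R t x z +
          ∑ i, dA h A B (u i) x * ∑ j, (H i j + H j i) * dB h A B (u j) z := by
        simp only [Pi.add_apply, Finset.sum_apply, Pi.smul_apply, smul_eq_mul, ro]
      rw [e1]
      have e2 : dM h A B (fun A B => N.res A B (r + 1) r) x z -
          (∑ i, G i * ∑ t ∈ Finset.range r, g.l i t * R t x z +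
          ∑ i, dA h A B (u i) x * ∑ j, (H i j + H j i) * dB h A B (u j) z) =
          (dM h A B (fun A B => N.res A B (r + 1) r) x z -
          (∑ i, G i * dM h A B (u i) x z +
          ∑ i, dA h A B (u i) x * ∑ j, (H i j + H j i) * dB h A B (u j) z)) +
          ∑ i, G i * (dM h A B (u i) x z - ∑ t ∈ Finset.range r, g.l i t * R t x z) := by
        simp only [mul_sub, Finset.sum_sub_distrib]
        ring
      rw [e2]
      refine (norm_add_le _ _).trans ((add_le_add h1 h2).trans ?_)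
      have t1 : a * (K * (U * ‖h‖)) ≤ a ^ 2 * K * U ^ 3 * ‖h‖ := by
        calc a * (K * (U * ‖h‖)) = (a * K * U) * ‖h‖ := by ring
          _ ≤ (a ^ 2 * K * U ^ 3) * ‖h‖ := by
              apply mul_le_mul_of_nonneg_right _ hp.le
              apply mul_le_mul _ hU13 hU0 (by positivity)
              apply mul_le_mul_of_nonneg_right _ hK0
              nlinarith
      have t2 : 37 * a ^ 2 * K * U ^ 3 * ‖h‖ ≤ M' * ‖h‖ := mul_le_mul_of_nonneg_right hKU' hp.le
      have t3 : 0 ≤ a ^ 2 * K * U ^ 3 * ‖h‖ := by positivity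
      linarith

end

end Pool.Agent.X242.SA
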