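import Pool.Agent.X242.SA2

/-!
# The lower bound for networks of smooth gates with bounded derivatives, and the upper bound
-/

set_option autoImplicit false

namespace Pool.Agent.X242.SA

open Pool.Agent.X242.AP Pool.Agent.H515R2.MMR

/-- the bounds for the results -/
def Mb (Q K : ℝ) : ℕ → ℝ
  | 0 => K
  | s + 1 => Q * (Mb Q K s) ^ 7

lemma Mb_ge {Q K : ℝ} (hQ : 1 ≤ Q) (hK : 1 ≤ K) (s : ℕ) : K ≤ Mb Q K s ∧ 1 ≤ Mb Q K s := by
  induction s with
  | zero => exact ⟨le_rfl, hK⟩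
  | succ s ih =>
    have h1 : Mb Q K s ≤ Mb Q K (s + 1) := by
      simp only [Mb]
      calc Mb Q K s = 1 * (Mb Q K s) ^ 1 := by ring
        _ ≤ Q * (Mb Q K s) ^ 7 := by
            apply mul_le_mul hQ (pow_le_pow_right₀ ih.2 (by norm_num)) _ (by linarith)
            have := ih.2
            positivity
    exact ⟨ih.1.trans h1, ih.2.trans h1⟩

lemma Mb_mono {Q K : ℝ} (hQ : 1 ≤ Q) (hK : 1 ≤ K) : Monotone (Mb Q K) := by
  refine monotone_nat_of_le_succ fun s => ?_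
  have ih := (Mb_ge hQ hK s).2
  simp only [Mb]
  calc Mb Q K s = 1 * (Mb Q K s) ^ 1 := by ring
    _ ≤ Q * (Mb Q K s) ^ 7 := by
        apply mul_le_mul hQ (pow_le_pow_right₀ ih (by norm_num)) _ (by linarith)
        positivity

lemma Mb_eq (Q : ℝ) (hQ : 1 ≤ Q) (s : ℕ) : ∃ E : ℝ, 1 ≤ E ∧ ∀ K, Mb Q K s = E * K ^ (7 ^ s) := by
  induction s with
  | zero => exact ⟨1, le_rfl, fun K => by simp [Mb]⟩
  | succ s ih =>
    obtain ⟨E, hE, h⟩ := ih
    refine ⟨Q * E ^ 7, one_le_mul_of_one_le_of_one_le hQ (one_le_pow₀ hE), fun K => ?_⟩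
    simp only [Mb]
    rw [h, mul_pow, ← pow_mul, pow_succ]
    ring

section

variable {𝕜 : Type} [NormedField 𝕜] {n a : ℕ}

lemma all_stages {K Q : ℝ} {N : Net 𝕜 n a} {L : ℕ} {h : 𝕜} {A B : Fin n × Fin n → 𝕜}
    (ha : 1 ≤ a) (hK : 1 ≤ K) (hQ : Q = 37 * a ^ 2 * (L + 1) ^ 3) (hQ1 : 1 ≤ Q) (h0 : h ≠ 0)
    (hN : N.Bounded K L A B) (hh : Mb Q K L * ‖h‖ ≤ 1) (s : ℕ) (hs : s ≤ L) :
    Stage h A B N s (Mb Q K s) := by
  induction s with
  | zero =>
    exact ⟨0, 0, fun r hr => absurd hr (Nat.not_lt_zero _)⟩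
  | succ s ih =>
    have hM := Mb_ge hQ1 hK s
    have := step (M := Mb Q K s) ha hK hM.1 h0 (show s < L by omega) (hN.1 s (by omega)) (by
      rw [← hQ]
      exact (mul_le_mul_of_nonneg_right (Mb_mono hQ1 hK hs) (norm_nonneg _)).trans hh)
      (ih (by omega))
    simp only [Mb]
    rw [hQ] at this ⊢
    exact this

/-- the entry of the product -/
def prd (A B : Fin n × Fin n → 𝕜) (c : Fin n × Fin n) : 𝕜 := ∑ k, A (c.1, k) * B (k, c.2)

lemma dM_prd {h : 𝕜} (h0 : h ≠ 0) (A B : Fin n × Fin n → 𝕜) (c x z : Fin n × Fin n) :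
    dM h A B (fun A B => prd A B c) x z = if x.2 = z.1 ∧ z.2 = c.2 ∧ c.1 = x.1 then 1 else 0 := by
  have e1 : dM h A B (fun A B => prd A B c) x z =
      (∑ k, (Pi.single x h : Fin n × Fin n → 𝕜) (c.1, k) *
        (Pi.single z h : Fin n × Fin n → 𝕜) (k, c.2)) / h ^ 2 := by
    unfold dM prd
    congr 1
    simp only [Pi.add_apply, ← Finset.sum_sub_distrib, ← Finset.sum_add_distrib]
    exact Finset.sum_congr rfl fun k _ => by ring
  rw [e1]
  have e2 : ∀ k : Fin n, (Pi.single x h : Fin n × Fin n → 𝕜) (c.1, k) *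
      (Pi.single z h : Fin n × Fin n → 𝕜) (k, c.2) =
      if (c.1, k) = x ∧ (k, c.2) = z then h ^ 2 else 0 := by
    intro k
    rw [Pi.single_apply, Pi.single_apply]
    by_cases h1 : (c.1, k) = x <;> by_cases h2 : (k, c.2) = z <;> simp [h1, h2, sq]
  simp only [e2]
  by_cases hc : x.2 = z.1 ∧ z.2 = c.2 ∧ c.1 = x.1
  · rw [if_pos hc, Finset.sum_eq_single x.2]
    · rw [if_pos ⟨by rw [hc.2.2], by rw [← hc.2.1, hc.1]⟩, div_self (pow_ne_zero 2 h0)]
    · intro k _ hk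
      rw [if_neg fun h' => hk (by rw [← h'.1])]
    · intro h'; exact absurd (Finset.mem_univ _) h'
  · rw [if_neg hc, Finset.sum_eq_zero, zero_div]
    intro k _
    refine if_neg fun h' => hc ?_
    obtain ⟨h1, h2⟩ := h'
    rw [← h1, ← h2]
    exact ⟨rfl, rfl, rfl⟩

/-- **Comparison with the tensor of matrix multiplication.** -/
lemma compare {K Q θ ε : ℝ} {N : Net 𝕜 n a} {L : ℕ} {h : 𝕜} {A B : Fin n × Fin n → 𝕜}
    (ha : 1 ≤ a) (hK : 1 ≤ K) (hQ : Q = 37 * a ^ 2 * (L + 1) ^ 3) (hQ1 : 1 ≤ Q) (h0 : h ≠ 0)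
    (hN : N.Bounded K L A B) (hh : Mb Q K L * ‖h‖ ≤ 1)
    (hsep : ∀ x y z : Fin (a * L) → Fin n × Fin n → 𝕜, ∃ u, θ ≤ ‖rt x y z u - mm 𝕜 n u‖)
    (happ : ∀ A' B', ‖A' - A‖ ≤ ‖h‖ → ‖B' - B‖ ≤ ‖h‖ → ∀ c, ‖N.out L A' B' c - prd A' B' c‖ ≤ ε) :
    θ ≤ L * K * Mb Q K L * ‖h‖ + 4 * ε / ‖h‖ ^ 2 := by
  have hp : 0 < ‖h‖ := norm_pos_iff.mpr h0
  have hM := Mb_ge hQ1 hK L
  obtain ⟨p, q, hpq⟩ := all_stages ha hK hQ hQ1 h0 hN hh L le_rfl
  have hR : ∀ r, ∃ R : Fin n × Fin n → Fin n × Fin n → 𝕜, r < L → R ∈ Sp p q (a * L) ∧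
      ∀ x z, ‖dM h A B (fun A B => N.res A B L r) x z - R x z‖ ≤ Mb Q K L * ‖h‖ := by
    intro r
    by_cases hr : r < L
    · obtain ⟨R, h1, h2⟩ := (hpq r hr).2.2.2
      exact ⟨R, fun _ => ⟨h1, h2⟩⟩
    · exact ⟨0, fun h => absurd h hr⟩
  choose R hR using hR
  have hmem : ∀ c, (∑ r ∈ Finset.range L, N.ol c r • R r) ∈ Sp p q (a * L) := fun c =>
    Submodule.sum_mem _ fun r hr => Submodule.smul_mem _ _ (hR r (Finset.mem_range.mp hr)).1
  choose w hw using fun c => mem_Sp (hmem c)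
  obtain ⟨u, hu⟩ := hsep (fun t => p t) (fun t => q t) fun t c => w (c.2, c.1) t
  set c : Fin n × Fin n := (u.2.2.2, u.2.2.1) with hc
  have h1 : rt (fun t : Fin (a * L) => p t) (fun t => q t) (fun t c => w (c.2, c.1) t) u =
      (∑ r ∈ Finset.range L, N.ol c r • R r) u.1 u.2.1 := (hw c u.1 u.2.1).symm
  have h2 : mm 𝕜 n u = dM h A B (fun A B => prd A B c) u.1 u.2.1 := by
    rw [dM_prd h0]
    rfl
  have h3 : ‖dM h A B (fun A B => N.out L A B c) u.1 u.2.1 -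
      (∑ r ∈ Finset.range L, N.ol c r • R r) u.1 u.2.1‖ ≤ L * (K * (Mb Q K L * ‖h‖)) := by
    have e1 : dM h A B (fun A B => N.out L A B c) u.1 u.2.1 =
        ∑ r ∈ Finset.range L, N.ol c r * dM h A B (fun A B => N.res A B L r) u.1 u.2.1 :=
      dM_free (y := fun A B => N.res A B L) u.1 u.2.1
    rw [e1]
    simp only [Finset.sum_apply, Pi.smul_apply, smul_eq_mul]
    rw [← Finset.sum_sub_distrib]
    simp only [← mul_sub]
    exact sumr_le le_rfl (mul_nonneg (by linarith) hp.le) (by linarith) (fun r hr => hN.2 c r hr)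
      fun r hr => (hR r hr).2 _ _
  have h4 : ‖dM h A B (fun A B => N.out L A B c) u.1 u.2.1 -
      dM h A B (fun A B => prd A B c) u.1 u.2.1‖ ≤ 4 * ε / ‖h‖ ^ 2 := by
    unfold dM
    rw [← sub_div, norm_div, norm_pow]
    apply div_le_div_of_nonneg_right _ (by positivity)
    have hA1 : ‖A + Pi.single u.1 h - A‖ ≤ ‖h‖ := by rw [add_sub_cancel_left, norm_single]
    have hB1 : ‖B + Pi.single u.2.1 h - B‖ ≤ ‖h‖ := by rw [add_sub_cancel_left, norm_single]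
    have hA0 : ‖A - A‖ ≤ ‖h‖ := by rw [sub_self, norm_zero]; exact hp.le
    have hB0 : ‖B - B‖ ≤ ‖h‖ := by rw [sub_self, norm_zero]; exact hp.le
    have a1 := happ _ _ hA1 hB1 c
    have a2 := happ _ _ hA1 hB0 c
    have a3 := happ _ _ hA0 hB1 c
    have a4 := happ _ _ hA0 hB0 c
    set x1 := N.out L (A + Pi.single u.1 h) (B + Pi.single u.2.1 h) c
    set x2 := N.out L (A + Pi.single u.1 h) B c
    set x3 := N.out L A (B + Pi.single u.2.1 h) c
    set x4 := N.out L A B c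
    set y1 := prd (A + Pi.single u.1 h) (B + Pi.single u.2.1 h) c
    set y2 := prd (A + Pi.single u.1 h) B c
    set y3 := prd A (B + Pi.single u.2.1 h) c
    set y4 := prd A B c
    have e : x1 - x2 - x3 + x4 - (y1 - y2 - y3 + y4) =
        ((x1 - y1) - (x2 - y2)) - ((x3 - y3) - (x4 - y4)) := by ring
    rw [e]
    have b1 := norm_sub_le (x1 - y1 - (x2 - y2)) (x3 - y3 - (x4 - y4))
    have b2 := norm_sub_le (x1 - y1) (x2 - y2)
    have b3 := norm_sub_le (x3 - y3) (x4 - y4)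
    linarith
  rw [h1, h2] at hu
  refine hu.trans ?_
  have h5 : (∑ r ∈ Finset.range L, N.ol c r • R r) u.1 u.2.1 -
      dM h A B (fun A B => prd A B c) u.1 u.2.1 =
      (dM h A B (fun A B => N.out L A B c) u.1 u.2.1 -
        dM h A B (fun A B => prd A B c) u.1 u.2.1) -
      (dM h A B (fun A B => N.out L A B c) u.1 u.2.1 -
        (∑ r ∈ Finset.range L, N.ol c r • R r) u.1 u.2.1) := by ring
  rw [h5]
  refine (norm_sub_le _ _).trans ((add_le_add h4 h3).trans (le_of_eq ?_))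
  ring

end

/-- **The lower bound.** -/
theorem lower (𝕜 : Type) [RCLike 𝕜] {n a L : ℕ} (hn : 1 ≤ n) (ha : 1 ≤ a)
    (hL : ((a * L : ℕ) : ℝ) < (n : ℝ) ^ omega) : ∃ c C : ℝ, 0 < c ∧ 0 < C ∧
      ∀ (K ε : ℝ) (N : Net 𝕜 n a) (A B : Fin n × Fin n → 𝕜), 1 ≤ K → 0 < ε →
        N.Bounded K L A B → (∀ A' B', ‖A' - A‖ ≤ ε ^ (1 / 3 : ℝ) → ‖B' - B‖ ≤ ε ^ (1 / 3 : ℝ) →
          ∀ c, ‖N.out L A' B' c - prd A' B' c‖ ≤ ε) → c * K ^ (-C) ≤ ε := by
  obtain ⟨θ, hθ, hsep⟩ := separation 𝕜 (R := a * L) (show 0 < n by omega) hL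
  set Q : ℝ := 37 * a ^ 2 * (L + 1) ^ 3 with hQ
  have ha1 : (1 : ℝ) ≤ a := by exact_mod_cast ha
  have hL0 : (0 : ℝ) ≤ L := Nat.cast_nonneg L
  have hQ1 : 1 ≤ Q := by
    have h1 : (1 : ℝ) ≤ a ^ 2 := one_le_pow₀ ha1
    have h2 : (1 : ℝ) ≤ (L + 1) ^ 3 := one_le_pow₀ (by linarith)
    have h3 : (1 : ℝ) ≤ a ^ 2 * (L + 1) ^ 3 := one_le_mul_of_one_le_of_one_le h1 h2
    rw [hQ]
    linarith
  obtain ⟨E, hE, hMb⟩ := Mb_eq Q hQ1 L
  set c₁ : ℝ := min 1 θ / ((L + 4) * E) with hc₁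
  have hc₁0 : 0 < c₁ := by
    have : 0 < min 1 θ := lt_min one_pos hθ
    positivity
  refine ⟨c₁ ^ 3, ((3 * (7 ^ L + 1) : ℕ) : ℝ), by positivity, by positivity,
    fun K ε N A B hK hε hN happ => ?_⟩
  set η : ℝ := ε ^ (1 / 3 : ℝ) with hη
  have hη0 : 0 < η := Real.rpow_pos_of_pos hε _
  have hη3 : η ^ 3 = ε := by
    rw [hη, ← Real.rpow_natCast, ← Real.rpow_mul hε.le]
    norm_num
  set M := Mb Q K L with hM
  have hMge := Mb_ge hQ1 hK L
  have hK0 : 0 < K := by linarith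
  have hM0 : 0 < M := by linarith [hMge.2]
  have hKM : 1 ≤ K * M := one_le_mul_of_one_le_of_one_le hK hMge.2
  have key : min 1 θ ≤ (L + 4) * K * M * η := by
    by_cases hh : M * η ≤ 1
    · have hnorm : ‖((η : ℝ) : 𝕜)‖ = η := by rw [RCLike.norm_ofReal, abs_of_pos hη0]
      have h1 := compare (h := ((η : ℝ) : 𝕜)) ha hK hQ hQ1 (by
        rw [← norm_pos_iff, hnorm]; exact hη0) hN (by rw [hnorm]; exact hh) hsep
        (by rw [hnorm]; exact happ)
      rw [hnorm] at h1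
      have h2 : 4 * ε / η ^ 2 = 4 * η := by
        rw [← hη3]
        field_simp
      rw [h2] at h1
      refine (min_le_right _ _).trans (h1.trans ?_)
      have h3 : 4 * η ≤ 4 * (K * M) * η := by nlinarith
      calc L * K * Mb Q K L * η + 4 * η ≤ L * K * M * η + 4 * (K * M) * η := by linarith
        _ = _ := by ring
    · push Not at hh
      refine (min_le_left _ _).trans (hh.le.trans ?_)
      have h3 : 1 ≤ (L + 4) * K := one_le_mul_of_one_le_of_one_le (by linarith) hK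
      have h4 : 0 ≤ M * η := by positivity
      calc M * η = 1 * (M * η) := (one_mul _).symm
        _ ≤ ((L + 4) * K) * (M * η) := mul_le_mul_of_nonneg_right h3 h4
        _ = _ := by ring
  rw [hM, hMb K] at key
  have h5 : c₁ * (K ^ (7 ^ L + 1))⁻¹ ≤ η := by
    rw [hc₁, div_mul_eq_mul_div, div_le_iff₀ (by positivity), ← div_eq_mul_inv,
      div_le_iff₀ (by positivity)]
    refine key.trans (le_of_eq ?_)
    ring
  have h6 : K ^ (-((3 * (7 ^ L + 1) : ℕ) : ℝ)) = ((K ^ (7 ^ L + 1))⁻¹) ^ 3 := by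
    rw [Real.rpow_neg hK0.le, Real.rpow_natCast, inv_pow, ← pow_mul]
    congr 2
    ring
  rw [h6, ← hη3, ← mul_pow]
  exact pow_le_pow_left₀ (by positivity) h5 3

/-! ### Networks of squares -/

section squares

variable {𝕜 : Type} [NormedField 𝕜] {n : ℕ}

/-- a linear form -/
def lf (α : Fin n → Fin n → 𝕜) (A : Fin n × Fin n → 𝕜) : 𝕜 := ∑ p : Fin n × Fin n, α p.1 p.2 * A p

/-- A network which computes `∑ t, c t * f t (A) * g t (B)` by squares. -/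
def sqNet {R : ℕ} (a : ℕ) (ha : 0 < a) (α β γ : Fin R → Fin n → Fin n → 𝕜) : Net 𝕜 n a where
  gate s := if hs : s < R then
      ⟨fun u => (u ⟨0, ha⟩) ^ 2, fun _ A => lf (α ⟨s, hs⟩) A, fun _ B => lf (β ⟨s, hs⟩) B,
        fun _ _ => 0⟩
    else if hs' : s - R < R then
      ⟨fun u => (u ⟨0, ha⟩) ^ 2, fun _ A => lf (α ⟨s - R, hs'⟩) A,
        fun _ B => -lf (β ⟨s - R, hs'⟩) B, fun _ _ => 0⟩
    else ⟨fun u => (u ⟨0, ha⟩) ^ 2, fun _ _ => 0, fun _ _ => 0, fun _ _ => 0⟩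
  oA _ _ := 0
  oB _ _ := 0
  ol p s := if hs : s < R then γ ⟨s, hs⟩ p.2 p.1 / 4
    else if hs' : s - R < R then -γ ⟨s - R, hs'⟩ p.2 p.1 / 4 else 0

lemma res_eq {a : ℕ} (N : Net 𝕜 n a) (A B : Fin n × Fin n → 𝕜) (s : ℕ) : ∀ L, s < L →
    N.res A B L s = (N.gate s).φ ((N.gate s).op A B s (N.res A B s)) := by
  intro L
  induction L with
  | zero => intro h; exact absurd h (Nat.not_lt_zero _)
  | succ L ih =>
    intro h
    simp only [Net.res]
    rcases Nat.lt_succ_iff_lt_or_eq.mp h with h1 | rfl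
    · rw [Function.update_of_ne (by omega)]
      exact ih h1
    · rw [Function.update_self]

lemma sqNet_out [CharZero 𝕜] {R : ℕ} (a : ℕ) (ha : 0 < a) (α β γ : Fin R → Fin n → Fin n → 𝕜)
    (A B : Fin n × Fin n → 𝕜) (p : Fin n × Fin n) :
    (sqNet a ha α β γ).out (R + R) A B p = ∑ t, γ t p.2 p.1 * (lf (α t) A * lf (β t) B) := by
  unfold Net.out
  have e0 : (sqNet a ha α β γ).oA p A + (sqNet a ha α β γ).oB p B = 0 := by simp [sqNet]
  rw [e0, zero_add, Finset.sum_range_add, Finset.sum_range, Finset.sum_range,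
    ← Finset.sum_add_distrib]
  refine Finset.sum_congr rfl fun t _ => ?_
  have h1 : ¬ (R + (t : ℕ) < R) := by omega
  have h2 : R + (t : ℕ) - R = t := by omega
  rw [res_eq _ _ _ _ _ (show (t : ℕ) < R + R by omega),
    res_eq _ _ _ _ _ (show R + (t : ℕ) < R + R by omega)]
  have e1 : (sqNet a ha α β γ).gate t = ⟨fun u => (u ⟨0, ha⟩) ^ 2, fun _ A => lf (α t) A,
      fun _ B => lf (β t) B, fun _ _ => 0⟩ := by
    simp only [sqNet, t.2, dif_pos, Fin.eta]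
  have e2 : (sqNet a ha α β γ).gate (R + t) = ⟨fun u => (u ⟨0, ha⟩) ^ 2, fun _ A => lf (α t) A,
      fun _ B => -lf (β t) B, fun _ _ => 0⟩ := by
    simp only [sqNet, dif_neg h1, h2, t.2, dif_pos, Fin.eta]
  have e3 : (sqNet a ha α β γ).ol p t = γ t p.2 p.1 / 4 := by
    simp only [sqNet, t.2, dif_pos, Fin.eta]
  have e4 : (sqNet a ha α β γ).ol p (R + t) = -γ t p.2 p.1 / 4 := by
    simp only [sqNet, dif_neg h1, h2, t.2, dif_pos, Fin.eta]
  rw [e1, e2, e3, e4]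
  simp only [Gate.op, zero_mul, Finset.sum_const_zero, add_zero]
  field_simp
  ring

lemma lf_le {S : ℝ} {α : Fin n → Fin n → 𝕜} (hα : ∑ p : Fin n × Fin n, ‖α p.1 p.2‖ ≤ S)
    (A : Fin n × Fin n → 𝕜) : ‖lf α A‖ ≤ S * ‖A‖ := by
  unfold lf
  refine (norm_sum_le _ _).trans ?_
  calc ∑ p : Fin n × Fin n, ‖α p.1 p.2 * A p‖ ≤ ∑ p : Fin n × Fin n, ‖α p.1 p.2‖ * ‖A‖ :=
        Finset.sum_le_sum fun p _ => by
          rw [norm_mul]
          exact mul_le_mul_of_nonneg_left (norm_le_pi_norm A p) (norm_nonneg _)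
    _ = (∑ p : Fin n × Fin n, ‖α p.1 p.2‖) * ‖A‖ := by rw [Finset.sum_mul]
    _ ≤ S * ‖A‖ := mul_le_mul_of_nonneg_right hα (norm_nonneg _)

lemma lf_sub (α : Fin n → Fin n → 𝕜) (A A' : Fin n × Fin n → 𝕜) :
    lf α A' - lf α A = lf α (A' - A) := by
  unfold lf
  rw [← Finset.sum_sub_distrib]
  exact Finset.sum_congr rfl fun p _ => by rw [Pi.sub_apply]; ring

lemma sq_taylor {a : ℕ} (ha : 0 < a) {K : ℝ} (hK : 1 ≤ K) (u : Fin a → 𝕜)
    (hu : 2 * ‖u ⟨0, ha⟩‖ ≤ K) : ∃ (G : Fin a → 𝕜) (H : Fin a → Fin a → 𝕜),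
      Taylor K (fun u : Fin a → 𝕜 => (u ⟨0, ha⟩) ^ 2) u G H := by
  classical
  refine ⟨Pi.single ⟨0, ha⟩ (2 * u ⟨0, ha⟩), fun i => if i = ⟨0, ha⟩ then Pi.single ⟨0, ha⟩ 1 else 0,
    fun i => ?_, fun i j => ?_, fun d _ => ?_⟩
  · by_cases hi : i = ⟨0, ha⟩
    · subst hi
      rw [Pi.single_eq_same, norm_mul]
      refine le_trans ?_ hu
      apply mul_le_mul_of_nonneg_right _ (norm_nonneg _)
      have := Nat.norm_cast_le (α := 𝕜) 2
      rw [norm_one, mul_one] at this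
      exact_mod_cast this
    · rw [Pi.single_eq_of_ne hi, norm_zero]
      linarith
  · by_cases hi : i = ⟨0, ha⟩
    · simp only [if_pos hi]
      by_cases hj : j = ⟨0, ha⟩
      · subst hj
        rw [Pi.single_eq_same, norm_one]
        exact hK
      · rw [Pi.single_eq_of_ne hj, norm_zero]
        linarith
    · simp only [if_neg hi, Pi.zero_apply, norm_zero]
      linarith
  · have e1 : ∑ i, (Pi.single ⟨0, ha⟩ (2 * u ⟨0, ha⟩) : Fin a → 𝕜) i * d i =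
        2 * u ⟨0, ha⟩ * d ⟨0, ha⟩ := by
      rw [Finset.sum_eq_single ⟨0, ha⟩]
      · rw [Pi.single_eq_same]
      · intro i _ hi
        rw [Pi.single_eq_of_ne hi, zero_mul]
      · intro h; exact absurd (Finset.mem_univ _) h
    have e2 : ∑ i, ∑ j, (if i = ⟨0, ha⟩ then (Pi.single ⟨0, ha⟩ 1 : Fin a → 𝕜) else 0) j *
        (d i * d j) = d ⟨0, ha⟩ * d ⟨0, ha⟩ := by
      rw [Finset.sum_eq_single ⟨0, ha⟩]
      · rw [if_pos rfl, Finset.sum_eq_single ⟨0, ha⟩]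
        · rw [Pi.single_eq_same, one_mul]
        · intro j _ hj
          rw [Pi.single_eq_of_ne hj, zero_mul]
        · intro h; exact absurd (Finset.mem_univ _) h
      · intro i _ hi
        rw [if_neg hi]
        simp
      · intro h; exact absurd (Finset.mem_univ _) h
    rw [e1, e2]
    simp only [Pi.add_apply]
    have e3 : (u ⟨0, ha⟩ + d ⟨0, ha⟩) ^ 2 - ((u ⟨0, ha⟩) ^ 2 + 2 * u ⟨0, ha⟩ * d ⟨0, ha⟩ +
        d ⟨0, ha⟩ * d ⟨0, ha⟩) = 0 := by ring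
    rw [e3, norm_zero]
    have : 0 ≤ K := by linarith
    positivity

lemma sqNet_bounded {R : ℕ} (a : ℕ) (ha : 0 < a) (α β γ : Fin R → Fin n → Fin n → 𝕜) :
    ∃ K : ℝ, 1 ≤ K ∧ ∀ A B : Fin n × Fin n → 𝕜, ‖A‖ ≤ 1 → ‖B‖ ≤ 1 →
      (sqNet a ha α β γ).Bounded K (R + R) A B := by
  set S : ℝ := 1 + ∑ t, ∑ p : Fin n × Fin n, (‖α t p.1 p.2‖ + ‖β t p.1 p.2‖ + ‖γ t p.1 p.2‖)
    with hS
  have hnn : ∀ t, 0 ≤ ∑ p : Fin n × Fin n, (‖α t p.1 p.2‖ + ‖β t p.1 p.2‖ + ‖γ t p.1 p.2‖) :=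
    fun t => Finset.sum_nonneg fun p _ => by positivity
  have hS1 : 1 ≤ S := by
    have := Finset.sum_nonneg fun t (_ : t ∈ Finset.univ) => hnn t
    linarith
  have hall : ∀ t, ∑ p : Fin n × Fin n, (‖α t p.1 p.2‖ + ‖β t p.1 p.2‖ + ‖γ t p.1 p.2‖) ≤ S := by
    intro t
    have := Finset.single_le_sum (f := fun t => ∑ p : Fin n × Fin n,
      (‖α t p.1 p.2‖ + ‖β t p.1 p.2‖ + ‖γ t p.1 p.2‖)) (fun t _ => hnn t) (Finset.mem_univ t)
    linarith
  have hα : ∀ t, ∑ p : Fin n × Fin n, ‖α t p.1 p.2‖ ≤ S := fun t =>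
    (Finset.sum_le_sum fun p _ => by
      have := norm_nonneg (β t p.1 p.2)
      have := norm_nonneg (γ t p.1 p.2)
      linarith).trans (hall t)
  have hβ : ∀ t, ∑ p : Fin n × Fin n, ‖β t p.1 p.2‖ ≤ S := fun t =>
    (Finset.sum_le_sum fun p _ => by
      have := norm_nonneg (α t p.1 p.2)
      have := norm_nonneg (γ t p.1 p.2)
      linarith).trans (hall t)
  have hγ : ∀ t i j, ‖γ t i j‖ ≤ S := by
    intro t i j
    have h1 := Finset.single_le_sum (f := fun p : Fin n × Fin n =>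
      ‖α t p.1 p.2‖ + ‖β t p.1 p.2‖ + ‖γ t p.1 p.2‖) (fun p _ => by positivity)
      (Finset.mem_univ (i, j))
    have := norm_nonneg (α t i j)
    have := norm_nonneg (β t i j)
    linarith [hall t]
  have h4 : ∀ t i j, ‖γ t i j / 4‖ ≤ 4 * S + ‖(4 : 𝕜)⁻¹‖ * S := by
    intro t i j
    rw [div_eq_mul_inv, norm_mul, mul_comm]
    have := mul_le_mul_of_nonneg_left (hγ t i j) (norm_nonneg ((4 : 𝕜)⁻¹))
    linarith
  have hK1 : 1 ≤ 4 * S + ‖(4 : 𝕜)⁻¹‖ * S := by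
    have : 0 ≤ ‖(4 : 𝕜)⁻¹‖ * S := by positivity
    linarith
  set K : ℝ := 4 * S + ‖(4 : 𝕜)⁻¹‖ * S with hK
  have hSK : S ≤ K := by
    have : 0 ≤ ‖(4 : 𝕜)⁻¹‖ * S := by positivity
    linarith
  have h2S : 2 * (S + S) ≤ K := by
    have : 0 ≤ ‖(4 : 𝕜)⁻¹‖ * S := by positivity
    linarith
  refine ⟨K, hK1, fun A B hA hB => ⟨fun s hs => ?_, fun p s hs => ?_⟩⟩
  · have hlA : ∀ t A', ‖lf (α t) A' - lf (α t) A‖ ≤ K * ‖A' - A‖ := by
      intro t A'
      rw [lf_sub]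
      exact (lf_le (hα t) _).trans (mul_le_mul_of_nonneg_right hSK (norm_nonneg _))
    have hlB : ∀ t B', ‖lf (β t) B' - lf (β t) B‖ ≤ K * ‖B' - B‖ := by
      intro t B'
      rw [lf_sub]
      exact (lf_le (hβ t) _).trans (mul_le_mul_of_nonneg_right hSK (norm_nonneg _))
    have hvA : ∀ t, ‖lf (α t) A‖ ≤ S := fun t => (lf_le (hα t) A).trans (by nlinarith)
    have hvB : ∀ t, ‖lf (β t) B‖ ≤ S := fun t => (lf_le (hβ t) B).trans (by nlinarith)
    by_cases h1 : s < R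
    · have e1 : (sqNet a ha α β γ).gate s = ⟨fun u => (u ⟨0, ha⟩) ^ 2,
          fun _ A => lf (α ⟨s, h1⟩) A, fun _ B => lf (β ⟨s, h1⟩) B, fun _ _ => 0⟩ := by
        simp only [sqNet, h1, dif_pos]
      rw [e1]
      refine ⟨fun _ _ _ => by rw [norm_zero]; linarith, fun _ A' _ => hlA _ A',
        fun _ B' _ => hlB _ B', sq_taylor ha hK1 _ ?_⟩
      simp only [Gate.op, zero_mul, Finset.sum_const_zero, add_zero]
      have := norm_add_le (lf (α ⟨s, h1⟩) A) (lf (β ⟨s, h1⟩) B)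
      have := hvA ⟨s, h1⟩
      have := hvB ⟨s, h1⟩
      linarith
    · have h2 : s - R < R := by omega
      have e1 : (sqNet a ha α β γ).gate s = ⟨fun u => (u ⟨0, ha⟩) ^ 2,
          fun _ A => lf (α ⟨s - R, h2⟩) A, fun _ B => -lf (β ⟨s - R, h2⟩) B, fun _ _ => 0⟩ := by
        simp only [sqNet, dif_neg h1, h2, dif_pos]
      rw [e1]
      refine ⟨fun _ _ _ => by rw [norm_zero]; linarith, fun _ A' _ => hlA _ A',
        fun _ B' _ => ?_, sq_taylor ha hK1 _ ?_⟩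
      · have e2 : -lf (β ⟨s - R, h2⟩) B' - -lf (β ⟨s - R, h2⟩) B =
            -(lf (β ⟨s - R, h2⟩) B' - lf (β ⟨s - R, h2⟩) B) := by ring
        show ‖-lf (β ⟨s - R, h2⟩) B' - -lf (β ⟨s - R, h2⟩) B‖ ≤ _
        rw [e2, norm_neg]
        exact hlB _ B'
      · simp only [Gate.op, zero_mul, Finset.sum_const_zero, add_zero]
        have h3 := norm_add_le (lf (α ⟨s - R, h2⟩) A) (-lf (β ⟨s - R, h2⟩) B)
        rw [norm_neg] at h3
        have := hvA ⟨s - R, h2⟩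
        have := hvB ⟨s - R, h2⟩
        linarith
  · by_cases h1 : s < R
    · simp only [sqNet, h1, dif_pos]
      exact h4 _ _ _
    · have h2 : s - R < R := by omega
      simp only [sqNet, dif_neg h1, h2, dif_pos]
      rw [neg_div, norm_neg]
      exact h4 _ _ _

/-- The product of two matrices. -/
lemma prd_of_rank {R : ℕ} (α β γ : Fin R → Fin n → Fin n → 𝕜)
    (h : ∀ i j j' k k' l : Fin n, (if j = j' ∧ k = k' ∧ l = i then (1 : 𝕜) else 0) =
        ∑ t : Fin R, α t i j * β t j' k * γ t k' l) (A B : Fin n × Fin n → 𝕜)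
    (p : Fin n × Fin n) : ∑ t, γ t p.2 p.1 * (lf (α t) A * lf (β t) B) = prd A B p := by
  classical
  obtain ⟨l, k'⟩ := p
  unfold prd
  have e1 : ∀ t : Fin R, γ t k' l * (lf (α t) A * lf (β t) B) =
      ∑ p : Fin n × Fin n, ∑ q : Fin n × Fin n,
      (α t p.1 p.2 * β t q.1 q.2 * γ t k' l) * (A p * B q) := by
    intro t
    unfold lf
    rw [Finset.sum_mul_sum, Finset.mul_sum]
    refine Finset.sum_congr rfl fun p _ => ?_
    rw [Finset.mul_sum]
    exact Finset.sum_congr rfl fun q _ => by ring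
  simp only [e1]
  rw [Finset.sum_comm]
  have e2 : ∀ p : Fin n × Fin n, ∑ t : Fin R, ∑ q : Fin n × Fin n,
      (α t p.1 p.2 * β t q.1 q.2 * γ t k' l) * (A p * B q) =
      ∑ q : Fin n × Fin n, (if p.2 = q.1 ∧ q.2 = k' ∧ l = p.1 then (1 : 𝕜) else 0) *
        (A p * B q) := by
    intro p
    rw [Finset.sum_comm]
    refine Finset.sum_congr rfl fun q _ => ?_
    rw [← Finset.sum_mul, ← h]
  simp only [e2]
  rw [Fintype.sum_prod_type, Finset.sum_eq_single l]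
  · refine Finset.sum_congr rfl fun j _ => ?_
    rw [Finset.sum_eq_single (j, k')]
    · rw [if_pos ⟨rfl, rfl, rfl⟩, one_mul]
    · intro q _ hq
      rw [if_neg fun hc => hq (Prod.ext hc.1.symm hc.2.1), zero_mul]
    · intro hc; exact absurd (Finset.mem_univ _) hc
  · intro i _ hi
    refine Finset.sum_eq_zero fun j _ => Finset.sum_eq_zero fun q _ => ?_
    rw [if_neg fun hc => hi hc.2.2.symm, zero_mul]
  · intro hc; exact absurd (Finset.mem_univ _) hc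

/-- Real decompositions. -/
lemma real_rank {r : ℕ} (h : HasRank n r) : ∃ α β γ : Fin (r * 4) → Fin n → Fin n → ℝ,
    ∀ i j j' k k' l : Fin n, (if j = j' ∧ k = k' ∧ l = i then (1 : ℝ) else 0) =
        ∑ t : Fin (r * 4), α t i j * β t j' k * γ t k' l := by
  obtain ⟨a, b, c, h⟩ := h
  let e : Fin r × Fin 4 ≃ Fin (r * 4) := finProdFinEquiv
  refine ⟨fun t i j => ![(a (e.symm t).1 i j).re, (a (e.symm t).1 i j).im,
      (a (e.symm t).1 i j).re, (a (e.symm t).1 i j).im] (e.symm t).2,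
    fun t i j => ![(b (e.symm t).1 i j).re, (b (e.symm t).1 i j).im,
      (b (e.symm t).1 i j).im, (b (e.symm t).1 i j).re] (e.symm t).2,
    fun t i j => ![(c (e.symm t).1 i j).re, -(c (e.symm t).1 i j).re,
      -(c (e.symm t).1 i j).im, -(c (e.symm t).1 i j).im] (e.symm t).2, fun i j j' k k' l => ?_⟩
  have h1 := congrArg Complex.re (h i j j' k k' l)
  rw [Complex.re_sum] at h1
  have h2 : (if j = j' ∧ k = k' ∧ l = i then (1 : ℝ) else 0) =
      (if j = j' ∧ k = k' ∧ l = i then (1 : ℂ) else 0).re := by split_ifs <;> simp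
  rw [h2, h1]
  rw [Equiv.sum_comp e.symm fun t : Fin r × Fin 4 => ![(a t.1 i j).re, (a t.1 i j).im,
      (a t.1 i j).re, (a t.1 i j).im] t.2 * ![(b t.1 j' k).re, (b t.1 j' k).im,
      (b t.1 j' k).im, (b t.1 j' k).re] t.2 * ![(c t.1 k' l).re, -(c t.1 k' l).re,
      -(c t.1 k' l).im, -(c t.1 k' l).im] t.2, Fintype.sum_prod_type]
  refine Finset.sum_congr rfl fun t _ => ?_
  simp only [Fin.sum_univ_four, Matrix.cons_val_zero, Matrix.cons_val_one, Matrix.cons_val,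
    Complex.mul_re, Complex.mul_im]
  ring

end squares

end Pool.Agent.X242.SA
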