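import Mathlib

/-!
# An elementary Tauberian equivalence with bounded error for Laplace transforms
-/

set_option autoImplicit false

namespace Pool.Agent.X242.TB

open Filter Topology Asymptotics

variable {P : Type} {u w : P → ℝ}

/-- the number of the dyadic block of `p` -/
noncomputable def blk (u : P → ℝ) (p : P) : ℕ := ⌈Real.logb 2 (u p)⌉₊

theorem le_pow_blk {p : P} (hu : 0 < u p) : u p ≤ 2 ^ blk u p := by
  have h1 : Real.logb 2 (u p) ≤ (blk u p : ℝ) := Nat.le_ceil _
  have h2 := Real.rpow_le_rpow_of_exponent_le (x := 2) (by norm_num) h1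
  rwa [Real.rpow_logb (by norm_num) (by norm_num) hu, Real.rpow_natCast] at h2

theorem pow_blk_lt {p : P} (hu : 0 < u p) {j : ℕ} (h : j < blk u p) : 2 ^ j < u p := by
  have h1 : (j : ℝ) < Real.logb 2 (u p) := Nat.lt_ceil.1 h
  have h2 := Real.rpow_lt_rpow_of_exponent_lt (x := 2) (by norm_num) h1
  rwa [Real.rpow_logb (by norm_num) (by norm_num) hu, Real.rpow_natCast] at h2

/-- the masses of the dyadic blocks are at most `M` -/
def Blocks (u w : P → ℝ) (M : ℝ) : Prop :=
  ∀ (j : ℕ) (s : Finset P), (∀ p ∈ s, blk u p = j) → ∑ p ∈ s, w p ≤ M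

theorem Blocks.nonneg {M : ℝ} (h : Blocks u w M) : 0 ≤ M := by
  have := h 0 ∅ (by simp)
  simpa using this

/-- summation over the blocks -/
theorem Blocks.sum_le {M : ℝ} (h : Blocks u w M) (hw : ∀ p, 0 ≤ w p) {c : ℕ → ℝ} (hc : ∀ j, 0 ≤ c j)
    (hcs : Summable c) {g : P → ℝ} (hg0 : ∀ p, 0 ≤ g p) (hg : ∀ p, g p ≤ c (blk u p)) :
    (Summable fun p => w p * g p) ∧ ∑' p, w p * g p ≤ M * ∑' j, c j := by
  classical
  have key : ∀ s : Finset P, ∑ p ∈ s, w p * g p ≤ M * ∑' j, c j := by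
    intro s
    set J := s.sup (blk u) + 1 with hJ
    have hJs : ∀ p ∈ s, blk u p ∈ Finset.range J := fun p hp => by
      rw [Finset.mem_range, hJ, Nat.lt_succ_iff]
      exact Finset.le_sup hp
    calc ∑ p ∈ s, w p * g p ≤ ∑ p ∈ s, w p * c (blk u p) :=
          Finset.sum_le_sum fun p _ => mul_le_mul_of_nonneg_left (hg p) (hw p)
      _ = ∑ j ∈ Finset.range J, ∑ p ∈ s.filter (fun p => blk u p = j), w p * c (blk u p) :=
          (Finset.sum_fiberwise_of_maps_to hJs _).symm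
      _ = ∑ j ∈ Finset.range J, (∑ p ∈ s.filter (fun p => blk u p = j), w p) * c j := by
          refine Finset.sum_congr rfl fun j _ => ?_
          rw [Finset.sum_mul]
          refine Finset.sum_congr rfl fun p hp => ?_
          rw [(Finset.mem_filter.1 hp).2]
      _ ≤ ∑ j ∈ Finset.range J, M * c j := by
          refine Finset.sum_le_sum fun j _ => mul_le_mul_of_nonneg_right ?_ (hc j)
          exact h j _ fun p hp => (Finset.mem_filter.1 hp).2
      _ = M * ∑ j ∈ Finset.range J, c j := by rw [Finset.mul_sum]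
      _ ≤ M * ∑' j, c j :=
          mul_le_mul_of_nonneg_left (hcs.sum_le_tsum _ fun j _ => hc j) h.nonneg
  have hs : Summable fun p => w p * g p :=
    summable_of_sum_le (fun p => mul_nonneg (hw p) (hg0 p)) key
  exact ⟨hs, hs.tsum_le_of_sum_le key⟩

/-- the kernels -/
noncomputable def ker (k j : ℕ) : ℝ :=
  (if j ≤ k then (2 : ℝ) ^ j / 2 ^ k else 0) + (if k < j then 2 * ((1 : ℝ) / 2) ^ (j - k) else 0)

theorem ker_nonneg (k j : ℕ) : 0 ≤ ker k j := by
  unfold ker
  split_ifs <;> positivity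

theorem ker_sum (k : ℕ) : Summable (ker k) ∧ ∑' j, ker k j ≤ 4 := by
  have h1 : Summable fun j : ℕ => if j ≤ k then (2 : ℝ) ^ j / 2 ^ k else 0 := by
    refine summable_of_ne_finset_zero (s := Finset.range (k + 1)) fun j hj => ?_
    rw [Finset.mem_range, Nat.lt_succ_iff] at hj
    exact if_neg hj
  have e1 : ∑' j : ℕ, (if j ≤ k then (2 : ℝ) ^ j / 2 ^ k else 0) ≤ 2 := by
    rw [tsum_eq_sum (s := Finset.range (k + 1)) fun j hj => ?_]
    · have h2 : ∑ j ∈ Finset.range (k + 1), (if j ≤ k then (2 : ℝ) ^ j / 2 ^ k else 0) =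
          (∑ j ∈ Finset.range (k + 1), (2 : ℝ) ^ j) / 2 ^ k := by
        rw [Finset.sum_div]
        refine Finset.sum_congr rfl fun j hj => ?_
        rw [Finset.mem_range, Nat.lt_succ_iff] at hj
        exact if_pos hj
      rw [h2, geom_sum_eq (by norm_num), div_le_iff₀ (by positivity)]
      rw [pow_succ]
      have : (0 : ℝ) < 2 ^ k := by positivity
      norm_num
      linarith
    · rw [Finset.mem_range, Nat.lt_succ_iff] at hj
      exact if_neg hj
  have h3 : HasSum (fun j : ℕ => if k < j then 2 * ((1 : ℝ) / 2) ^ (j - k) else 0) 2 := by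
    have h4 : HasSum (fun i : ℕ => 2 * ((1 : ℝ) / 2) ^ (i + 1)) 2 := by
      have h5 := (hasSum_geometric_of_lt_one (r := (1 : ℝ) / 2) (by norm_num) (by norm_num))
      have e : (fun i : ℕ => 2 * ((1 : ℝ) / 2) ^ (i + 1)) = fun i : ℕ => ((1 : ℝ) / 2) ^ i := by
        funext i
        rw [pow_succ]
        ring
      rw [e]
      convert h5 using 1
      norm_num
    rw [← hasSum_nat_add_iff' (k + 1)]
    have h6 : ∑ i ∈ Finset.range (k + 1), (if k < i then 2 * ((1 : ℝ) / 2) ^ (i - k) else 0) = 0 := by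
      refine Finset.sum_eq_zero fun j hj => ?_
      rw [Finset.mem_range, Nat.lt_succ_iff] at hj
      exact if_neg (not_lt.2 hj)
    rw [h6, sub_zero]
    refine h4.congr_fun fun i => ?_
    rw [if_pos (by omega)]
    congr 2
    omega
  refine ⟨h1.add h3.summable, ?_⟩
  unfold ker
  rw [h1.tsum_add h3.summable, h3.tsum_eq]
  linarith

open Classical in
/-- the difference of the cut and of the exponential -/
noncomputable def dif (u : P → ℝ) (k : ℕ) (p : P) : ℝ :=
  |(if u p ≤ 2 ^ k then (1 : ℝ) else 0) - Real.exp (-(u p / 2 ^ k))|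

theorem dif_le (hu : ∀ p, 0 < u p) (k : ℕ) (p : P) : dif u k p ≤ ker k (blk u p) := by
  have h2k : (0 : ℝ) < 2 ^ k := by positivity
  have hexp1 : Real.exp (-(u p / 2 ^ k)) ≤ 1 := by
    rw [Real.exp_le_one_iff]
    have := div_pos (hu p) h2k
    linarith
  unfold dif ker
  by_cases h : u p ≤ 2 ^ k
  · have hb : blk u p ≤ k := by
      by_contra hcon
      exact absurd (pow_blk_lt (hu p) (not_le.1 hcon)) (not_lt.2 h)
    rw [if_pos h, if_pos hb, if_neg (not_lt.2 hb), add_zero, abs_of_nonneg (by linarith)]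
    have h1 := Real.add_one_le_exp (-(u p / 2 ^ k))
    have h3 : u p / 2 ^ k ≤ 2 ^ blk u p / 2 ^ k := div_le_div_of_nonneg_right (le_pow_blk (hu p)) h2k.le
    linarith
  · have hb : k < blk u p := by
      by_contra hcon
      refine h ((le_pow_blk (hu p)).trans ?_)
      exact pow_le_pow_right₀ (by norm_num) (not_lt.1 hcon)
    rw [if_neg h, if_neg (not_le.2 hb), if_pos hb, zero_add, zero_sub, abs_neg,
      abs_of_pos (Real.exp_pos _)]
    have h3 : 2 ^ (blk u p - 1) < u p := pow_blk_lt (hu p) (by omega)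
    set x := u p / 2 ^ k with hx
    have hx0 : 0 < x := div_pos (hu p) h2k
    have h4 : (2 : ℝ) ^ (blk u p - 1 - k) ≤ x := by
      rw [hx, le_div_iff₀ h2k, ← pow_add]
      have : blk u p - 1 - k + k = blk u p - 1 := by omega
      rw [this]
      exact h3.le
    have h5 : Real.exp (-x) ≤ 1 / x := by
      rw [Real.exp_neg, ← one_div]
      refine one_div_le_one_div_of_le hx0 ?_
      have := Real.add_one_le_exp x
      linarith
    have h6 : 1 / x ≤ 1 / 2 ^ (blk u p - 1 - k) := one_div_le_one_div_of_le (by positivity) h4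
    have h7 : 2 * ((1 : ℝ) / 2) ^ (blk u p - k) = 1 / 2 ^ (blk u p - 1 - k) := by
      have : blk u p - k = (blk u p - 1 - k) + 1 := by omega
      rw [this, pow_succ, one_div_pow]
      ring
    rw [h7]
    exact h5.trans h6

/-- the comparison -/
theorem Blocks.dif_sum {M : ℝ} (h : Blocks u w M) (hw : ∀ p, 0 ≤ w p) (hu : ∀ p, 0 < u p) (k : ℕ) :
    (Summable fun p => w p * dif u k p) ∧ ∑' p, w p * dif u k p ≤ 4 * M := by
  obtain ⟨h1, h2⟩ := ker_sum k
  obtain ⟨h3, h4⟩ := h.sum_le hw (ker_nonneg k) h1 (g := dif u k) (fun p => abs_nonneg _)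
    (dif_le hu k)
  refine ⟨h3, h4.trans ?_⟩
  have := mul_le_mul_of_nonneg_left h2 h.nonneg
  linarith

/-- the partial sums -/
noncomputable def cut {E : Type} [AddCommMonoid E] [TopologicalSpace E] (u : P → ℝ) (z : P → E) (U : ℝ) : E :=
  ∑' p : {p // u p ≤ U}, z p.1

/-- the Laplace transform -/
noncomputable def lap (u : P → ℝ) (z : P → ℂ) (σ : ℝ) : ℂ := ∑' p, z p * (Real.exp (-(σ * u p)) : ℂ)

/-- the hypotheses on `u` -/
structure Sys (u : P → ℝ) : Prop where
  pos : ∀ p, 0 < u p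
  fin : ∀ U : ℝ, {p | u p ≤ U}.Finite

open Classical in
theorem cut_eq (hu : Sys u) (z : P → ℂ) (U : ℝ) :
    cut u z U = ∑' p, z p * ((if u p ≤ U then (1 : ℝ) else 0 : ℝ) : ℂ) := by
  unfold cut
  have h1 := tsum_subtype {p | u p ≤ U} z
  refine h1.trans (tsum_congr fun p => ?_)
  by_cases h : u p ≤ U
  · rw [Set.indicator_of_mem (show p ∈ {p | u p ≤ U} from h), if_pos h]
    simp
  · rw [Set.indicator_of_notMem (show p ∉ {p | u p ≤ U} from h), if_neg h]
    simp

open Classical in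
theorem cut_summable (hu : Sys u) (z : P → ℂ) (U : ℝ) :
    Summable fun p => z p * ((if u p ≤ U then (1 : ℝ) else 0 : ℝ) : ℂ) := by
  refine summable_of_ne_finset_zero (s := (hu.fin U).toFinset) fun p hp => ?_
  rw [Set.Finite.mem_toFinset] at hp
  have h : ¬ u p ≤ U := hp
  rw [if_neg h]
  simp

/-- **Cut and exponential.** -/
theorem Blocks.compare {M : ℝ} (h : Blocks u w M) (hw : ∀ p, 0 ≤ w p) (hu : Sys u) {z : P → ℂ}
    (hz : ∀ p, ‖z p‖ ≤ w p) (k : ℕ) :
    (Summable fun p => z p * (Real.exp (-((1 / 2 ^ k) * u p)) : ℂ)) ∧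
      ‖cut u z (2 ^ k) - lap u z (1 / 2 ^ k)‖ ≤ 4 * M := by
  classical
  obtain ⟨h1, h2⟩ := h.dif_sum hw hu.pos k
  have e1 : ∀ p, z p * (Real.exp (-((1 / 2 ^ k) * u p)) : ℂ) =
      z p * ((if u p ≤ 2 ^ k then (1 : ℝ) else 0 : ℝ) : ℂ) -
        z p * ((((if u p ≤ 2 ^ k then (1 : ℝ) else 0) - Real.exp (-(u p / 2 ^ k)) : ℝ)) : ℂ) := by
    intro p
    have : (1 / 2 ^ k) * u p = u p / 2 ^ k := by ring
    rw [this]
    push_cast
    ring
  have hbd : ∀ p, ‖z p * ((((if u p ≤ 2 ^ k then (1 : ℝ) else 0) - Real.exp (-(u p / 2 ^ k)) : ℝ)) : ℂ)‖ ≤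
      w p * dif u k p := by
    intro p
    rw [norm_mul, Complex.norm_real, Real.norm_eq_abs]
    exact mul_le_mul_of_nonneg_right (hz p) (abs_nonneg _)
  have s2 : Summable fun p =>
      z p * ((((if u p ≤ 2 ^ k then (1 : ℝ) else 0) - Real.exp (-(u p / 2 ^ k)) : ℝ)) : ℂ) :=
    Summable.of_norm_bounded h1 hbd
  have s1 := cut_summable hu z (2 ^ k)
  refine ⟨(s1.sub s2).congr fun p => (e1 p).symm, ?_⟩
  have e2 : lap u z (1 / 2 ^ k) = cut u z (2 ^ k) - ∑' p,
      z p * ((((if u p ≤ 2 ^ k then (1 : ℝ) else 0) - Real.exp (-(u p / 2 ^ k)) : ℝ)) : ℂ) := by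
    rw [cut_eq hu, ← s1.tsum_sub s2]
    unfold lap
    exact tsum_congr e1
  rw [e2, sub_sub_cancel]
  refine (tsum_of_norm_bounded h1.hasSum hbd).trans h2

end Pool.Agent.X242.TB
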