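import Pool.Agent.X242.TB1

/-!
# The equivalences
-/

set_option autoImplicit false

namespace Pool.Agent.X242.TB

open Filter Topology Asymptotics

variable {P : Type} {u w : P → ℝ}

/-- the real Laplace transform -/
noncomputable def lapR (u w : P → ℝ) (σ : ℝ) : ℝ := ∑' p, w p * Real.exp (-(σ * u p))

/-- `∑_{u ≤ U} w = κ log U + O(1)` -/
def CutLaw (u w : P → ℝ) (κ : ℝ) : Prop := ∃ C, ∀ U : ℝ, 1 ≤ U → |cut u w U - κ * Real.log U| ≤ C

/-- convergence for all `σ > 0` -/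
def Conv (u w : P → ℝ) : Prop := ∀ σ : ℝ, 0 < σ → Summable fun p => w p * Real.exp (-(σ * u p))

/-- `∑ w e^{-σu} = κ log (1/σ) + O(1)` -/
def LapLaw (u w : P → ℝ) (κ : ℝ) : Prop :=
  Conv u w ∧ ∃ C, ∀ σ : ℝ, 0 < σ → σ ≤ 1 → |lapR u w σ - κ * Real.log (1 / σ)| ≤ C

/-- the same for `σ = 2^{-k}` -/
def DyaLaw (u w : P → ℝ) (κ : ℝ) : Prop :=
  Conv u w ∧ ∃ C, ∀ k : ℕ, |lapR u w (1 / 2 ^ k) - κ * (k * Real.log 2)| ≤ C

theorem cutR_eq (hu : Sys u) (w : P → ℝ) (U : ℝ) : cut u w U = ∑ p ∈ (hu.fin U).toFinset, w p := by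
  unfold cut
  have h1 := tsum_subtype {p | u p ≤ U} w
  refine h1.trans ?_
  rw [tsum_eq_sum (s := (hu.fin U).toFinset)]
  · refine Finset.sum_congr rfl fun p hp => ?_
    rw [Set.Finite.mem_toFinset] at hp
    exact Set.indicator_of_mem hp _
  · intro p hp
    rw [Set.Finite.mem_toFinset] at hp
    exact Set.indicator_of_notMem hp _

theorem cut_mono (hu : Sys u) (hw : ∀ p, 0 ≤ w p) {U V : ℝ} (h : U ≤ V) : cut u w U ≤ cut u w V := by
  rw [cutR_eq hu, cutR_eq hu]
  refine Finset.sum_le_sum_of_subset_of_nonneg (fun p hp => ?_) fun p _ _ => hw p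
  rw [Set.Finite.mem_toFinset] at hp ⊢
  exact le_trans (show u p ≤ U from hp) h

theorem cut_nonneg (hu : Sys u) (hw : ∀ p, 0 ≤ w p) (U : ℝ) : 0 ≤ cut u w U := by
  rw [cutR_eq hu]
  exact Finset.sum_nonneg fun p _ => hw p

theorem cut_add (hu : Sys u) (hw : ∀ p, 0 ≤ w p) {U V : ℝ} (h : U ≤ V) (s : Finset P)
    (hs : ∀ p ∈ s, U < u p ∧ u p ≤ V) : ∑ p ∈ s, w p ≤ cut u w V - cut u w U := by
  classical
  rw [cutR_eq hu, cutR_eq hu]
  have hd : Disjoint s (hu.fin U).toFinset := by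
    rw [Finset.disjoint_left]
    intro p hp hp2
    rw [Set.Finite.mem_toFinset] at hp2
    exact absurd (hs p hp).1 (not_lt.2 hp2)
  have h1 : s ∪ (hu.fin U).toFinset ⊆ (hu.fin V).toFinset := by
    intro p hp
    rw [Set.Finite.mem_toFinset]
    rcases Finset.mem_union.1 hp with h2 | h2
    · exact (hs p h2).2
    · rw [Set.Finite.mem_toFinset] at h2
      exact le_trans (show u p ≤ U from h2) h
  have h2 := Finset.sum_le_sum_of_subset_of_nonneg h1 (f := w) fun p _ _ => hw p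
  rw [Finset.sum_union hd] at h2
  linarith

theorem mem_blk (hu : Sys u) {p : P} {j : ℕ} (h : blk u p = j + 1) : 2 ^ j < u p ∧ u p ≤ 2 ^ (j + 1) :=
  ⟨pow_blk_lt (hu.pos p) (by omega), by rw [← h]; exact le_pow_blk (hu.pos p)⟩

theorem mem_blk_zero (hu : Sys u) {p : P} (h : blk u p = 0) : u p ≤ 1 := by
  have := le_pow_blk (hu.pos p)
  rwa [h, pow_zero] at this

theorem CutLaw.blocks (hu : Sys u) (hw : ∀ p, 0 ≤ w p) {κ : ℝ} (h : CutLaw u w κ) :
    ∃ M, Blocks u w M := by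
  obtain ⟨C, hC⟩ := h
  have hC0 : 0 ≤ C := (abs_nonneg _).trans (hC 1 le_rfl)
  have hl2 : 0 < Real.log 2 := Real.log_pos (by norm_num)
  refine ⟨2 * C + |κ| * Real.log 2, fun j s hs => ?_⟩
  rcases Nat.eq_zero_or_pos j with rfl | hj
  · have h1 : ∑ p ∈ s, w p ≤ cut u w 1 := by
      rw [cutR_eq hu]
      refine Finset.sum_le_sum_of_subset_of_nonneg (fun p hp => ?_) fun p _ _ => hw p
      rw [Set.Finite.mem_toFinset]
      exact mem_blk_zero hu (hs p hp)
    have h2 := hC 1 le_rfl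
    rw [Real.log_one, mul_zero, sub_zero] at h2
    have h3 := (abs_le.1 h2).2
    have : 0 ≤ |κ| * Real.log 2 := by positivity
    linarith
  · obtain ⟨i, rfl⟩ := Nat.exists_eq_succ_of_ne_zero hj.ne'
    have h1 := cut_add hu hw (U := 2 ^ i) (V := 2 ^ (i + 1))
      (pow_le_pow_right₀ (by norm_num) (Nat.le_succ i)) s fun p hp => mem_blk hu (hs p hp)
    have h2 := hC (2 ^ i) (one_le_pow₀ (by norm_num))
    have h3 := hC (2 ^ (i + 1)) (one_le_pow₀ (by norm_num))
    rw [Real.log_pow] at h2 h3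
    push_cast at h3
    have h4 := (abs_le.1 h2).1
    have h5 := (abs_le.1 h3).2
    have h6 := le_abs_self κ
    have h7 : κ * Real.log 2 ≤ |κ| * Real.log 2 := mul_le_mul_of_nonneg_right h6 hl2.le
    nlinarith

theorem Conv.anti (hc : Conv u w) (hu : Sys u) (hw : ∀ p, 0 ≤ w p) {σ τ : ℝ} (hσ : 0 < σ) (h : σ ≤ τ) :
    lapR u w τ ≤ lapR u w σ := by
  unfold lapR
  refine (hc τ (hσ.trans_le h)).tsum_le_tsum (fun p => ?_) (hc σ hσ)
  refine mul_le_mul_of_nonneg_left (Real.exp_le_exp.2 ?_) (hw p)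
  have := mul_le_mul_of_nonneg_right h (hu.pos p).le
  linarith

theorem lapR_nonneg (hw : ∀ p, 0 ≤ w p) (σ : ℝ) : 0 ≤ lapR u w σ :=
  tsum_nonneg fun p => mul_nonneg (hw p) (Real.exp_pos _).le

theorem DyaLaw.blocks (hu : Sys u) (hw : ∀ p, 0 ≤ w p) {κ : ℝ} (h : DyaLaw u w κ) :
    ∃ M, Blocks u w M := by
  obtain ⟨hc, C, hC⟩ := h
  have hC0 : 0 ≤ C := (abs_nonneg _).trans (hC 0)
  have hl2 : 0 < Real.log 2 := Real.log_pos (by norm_num)
  have he : (1 : ℝ) / 3 ≤ Real.exp (-1) := by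
    rw [Real.exp_neg, ← one_div]
    refine one_div_le_one_div_of_le (Real.exp_pos _) ?_
    have := Real.exp_one_lt_d9
    linarith
  refine ⟨9 * (2 * C + |κ| * Real.log 2), fun j s hs => ?_⟩
  have hnn : 0 ≤ |κ| * Real.log 2 := by positivity
  rcases Nat.eq_zero_or_pos j with rfl | hj
  · have h1 : ∑ p ∈ s, w p * Real.exp (-(1 * u p)) ≤ lapR u w 1 :=
      (hc 1 one_pos).sum_le_tsum s fun p _ => mul_nonneg (hw p) (Real.exp_pos _).le
    have h2 : ∑ p ∈ s, w p * (1 / 3) ≤ ∑ p ∈ s, w p * Real.exp (-(1 * u p)) := by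
      refine Finset.sum_le_sum fun p hp => mul_le_mul_of_nonneg_left (he.trans ?_) (hw p)
      rw [Real.exp_le_exp]
      have := mem_blk_zero hu (hs p hp)
      linarith
    rw [← Finset.sum_mul] at h2
    have h3 := hC 0
    rw [pow_zero, div_one, Nat.cast_zero, zero_mul, mul_zero, sub_zero] at h3
    have h4 := (abs_le.1 h3).2
    linarith
  · obtain ⟨i, rfl⟩ := Nat.exists_eq_succ_of_ne_zero hj.ne'
    have hp1 : (0 : ℝ) < 1 / 2 ^ (i + 1) := by positivity
    have hp2 : (0 : ℝ) < 1 / 2 ^ i := by positivity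
    have h1 : ∑ p ∈ s, (w p * Real.exp (-((1 / 2 ^ (i + 1)) * u p)) -
        w p * Real.exp (-((1 / 2 ^ i) * u p))) ≤ lapR u w (1 / 2 ^ (i + 1)) - lapR u w (1 / 2 ^ i) := by
      unfold lapR
      rw [← (hc _ hp1).tsum_sub (hc _ hp2)]
      refine ((hc _ hp1).sub (hc _ hp2)).sum_le_tsum s fun p _ => ?_
      rw [sub_nonneg]
      refine mul_le_mul_of_nonneg_left (Real.exp_le_exp.2 ?_) (hw p)
      have h2 : (1 : ℝ) / 2 ^ (i + 1) ≤ 1 / 2 ^ i :=
        one_div_le_one_div_of_le (by positivity) (pow_le_pow_right₀ (by norm_num) (Nat.le_succ i))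
      have := mul_le_mul_of_nonneg_right h2 (hu.pos p).le
      linarith
    have h2 : ∑ p ∈ s, w p * (1 / 9) ≤ ∑ p ∈ s, (w p * Real.exp (-((1 / 2 ^ (i + 1)) * u p)) -
        w p * Real.exp (-((1 / 2 ^ i) * u p))) := by
      refine Finset.sum_le_sum fun p hp => ?_
      rw [← mul_sub]
      refine mul_le_mul_of_nonneg_left ?_ (hw p)
      obtain ⟨h3, h4⟩ := mem_blk hu (hs p hp)
      set t := (1 / 2 ^ (i + 1)) * u p with ht
      have e1 : (1 / 2 ^ i) * u p = t + t := by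
        rw [ht, pow_succ]
        field_simp
        ring
      have ht1 : t ≤ 1 := by
        rw [ht, div_mul_eq_mul_div, one_mul, div_le_one (by positivity)]
        exact h4
      have ht2 : 1 / 2 ≤ t := by
        rw [ht, div_mul_eq_mul_div, one_mul, le_div_iff₀ (by positivity), pow_succ]
        linarith
      rw [e1, neg_add, Real.exp_add]
      have h5 : Real.exp (-t) ≤ 1 / (1 + t) := by
        rw [Real.exp_neg, ← one_div]
        refine one_div_le_one_div_of_le (by linarith) ?_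
        have := Real.add_one_le_exp t
        linarith
      have h6 : 1 / (1 + t) ≤ 2 / 3 := by
        rw [div_le_div_iff₀ (by linarith) (by norm_num)]
        linarith
      have h7 : 1 / 3 ≤ Real.exp (-t) := he.trans (Real.exp_le_exp.2 (by linarith))
      nlinarith
    rw [← Finset.sum_mul] at h2
    have h3 := hC i
    have h4 := hC (i + 1)
    push_cast at h4
    have h5 := (abs_le.1 h3).1
    have h6 := (abs_le.1 h4).2
    have h7 : κ * Real.log 2 ≤ |κ| * Real.log 2 := mul_le_mul_of_nonneg_right (le_abs_self κ) hl2.le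
    nlinarith

theorem Blocks.conv {M : ℝ} (h : Blocks u w M) (hw : ∀ p, 0 ≤ w p) (hu : Sys u) : Conv u w := by
  intro σ hσ
  obtain ⟨k, hk⟩ := exists_pow_lt_of_lt_one hσ (show (1 : ℝ) / 2 < 1 by norm_num)
  obtain ⟨h1, -⟩ := h.compare hw hu (z := fun p => (w p : ℂ)) (fun p => by
    rw [Complex.norm_real, Real.norm_eq_abs, abs_of_nonneg (hw p)]) k
  have h2 : Summable fun p => w p * Real.exp (-((1 / 2 ^ k) * u p)) := by
    have h3 := h1.norm
    refine h3.congr fun p => ?_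
    rw [norm_mul, Complex.norm_real, Complex.norm_real, Real.norm_eq_abs, Real.norm_eq_abs,
      abs_of_nonneg (hw p), abs_of_pos (Real.exp_pos _)]
  refine Summable.of_nonneg_of_le (fun p => mul_nonneg (hw p) (Real.exp_pos _).le) (fun p => ?_) h2
  refine mul_le_mul_of_nonneg_left (Real.exp_le_exp.2 ?_) (hw p)
  have h3 : 1 / 2 ^ k ≤ σ := by
    rw [← one_div_pow]
    exact hk.le
  have := mul_le_mul_of_nonneg_right h3 (hu.pos p).le
  linarith

theorem Blocks.compareR {M : ℝ} (h : Blocks u w M) (hw : ∀ p, 0 ≤ w p) (hu : Sys u) (k : ℕ) :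
    |cut u w (2 ^ k) - lapR u w (1 / 2 ^ k)| ≤ 4 * M := by
  obtain ⟨-, h2⟩ := h.compare hw hu (z := fun p => (w p : ℂ)) (fun p => by
    rw [Complex.norm_real, Real.norm_eq_abs, abs_of_nonneg (hw p)]) k
  have e1 : cut u (fun p => (w p : ℂ)) (2 ^ k) = ((cut u w (2 ^ k) : ℝ) : ℂ) := by
    unfold cut
    exact (Complex.ofReal_tsum _).symm
  have e2 : lap u (fun p => (w p : ℂ)) (1 / 2 ^ k) = ((lapR u w (1 / 2 ^ k) : ℝ) : ℂ) := by
    unfold lap lapR
    rw [Complex.ofReal_tsum]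
    exact tsum_congr fun p => by push_cast; rfl
  rw [e1, e2, ← Complex.ofReal_sub, Complex.norm_real, Real.norm_eq_abs] at h2
  exact h2

theorem exists_k {U : ℝ} (hU : 1 ≤ U) : ∃ k : ℕ, (2 : ℝ) ^ k ≤ U ∧ U ≤ 2 ^ (k + 1) := by
  refine ⟨⌊Real.logb 2 U⌋₊, ?_, ?_⟩
  · have h1 : (⌊Real.logb 2 U⌋₊ : ℝ) ≤ Real.logb 2 U := Nat.floor_le (Real.logb_nonneg (by norm_num) hU)
    have h2 := Real.rpow_le_rpow_of_exponent_le (x := 2) (by norm_num) h1
    rwa [Real.rpow_logb (by norm_num) (by norm_num) (by linarith), Real.rpow_natCast] at h2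
  · have h1 : Real.logb 2 U ≤ ((⌊Real.logb 2 U⌋₊ + 1 : ℕ) : ℝ) := by
      push_cast
      exact (Nat.lt_floor_add_one _).le
    have h2 := Real.rpow_le_rpow_of_exponent_le (x := 2) (by norm_num) h1
    rwa [Real.rpow_logb (by norm_num) (by norm_num) (by linarith), Real.rpow_natCast] at h2

theorem kap_bound (κ : ℝ) {x y : ℝ} (h1 : 0 ≤ x - y) (h2 : x - y ≤ Real.log 2) :
    |κ * x - κ * y| ≤ |κ| * Real.log 2 := by
  rw [← mul_sub, abs_mul, abs_of_nonneg h1]
  exact mul_le_mul_of_nonneg_left h2 (abs_nonneg _)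

/-- **The Tauberian equivalence.** -/
theorem cut_iff_dya (hu : Sys u) (hw : ∀ p, 0 ≤ w p) (κ : ℝ) : CutLaw u w κ ↔ DyaLaw u w κ := by
  constructor
  · intro h
    obtain ⟨M, hM⟩ := h.blocks hu hw
    obtain ⟨C, hC⟩ := h
    refine ⟨hM.conv hw hu, 4 * M + C, fun k => ?_⟩
    have h1 := hM.compareR hw hu k
    have h2 := hC (2 ^ k) (one_le_pow₀ (by norm_num))
    rw [Real.log_pow] at h2
    rw [abs_le] at h1 h2 ⊢
    constructor <;> linarith
  · intro h
    obtain ⟨M, hM⟩ := h.blocks hu hw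
    obtain ⟨-, C, hC⟩ := h
    refine ⟨4 * M + C + |κ| * Real.log 2, fun U hU => ?_⟩
    obtain ⟨k, hk1, hk2⟩ := exists_k hU
    have h1 := hM.compareR hw hu k
    have h2 := hM.compareR hw hu (k + 1)
    have h3 := hC k
    have h4 := hC (k + 1)
    have h5 := cut_mono hu hw hk1
    have h6 := cut_mono hu hw hk2
    have hl1 : (k : ℝ) * Real.log 2 ≤ Real.log U := by
      rw [← Real.log_pow]
      exact Real.log_le_log (by positivity) hk1
    have hl2 : Real.log U ≤ ((k + 1 : ℕ) : ℝ) * Real.log 2 := by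
      rw [← Real.log_pow]
      exact Real.log_le_log (by linarith) hk2
    have h7 := kap_bound κ (x := Real.log U) (y := k * Real.log 2) (by linarith) (by
      push_cast at hl2
      linarith)
    have h8 := kap_bound κ (x := ((k + 1 : ℕ) : ℝ) * Real.log 2) (y := Real.log U) (by linarith) (by
      push_cast
      linarith)
    rw [abs_le] at h1 h2 h3 h4 h7 h8 ⊢
    constructor <;> linarith

theorem dya_iff_lap (hu : Sys u) (hw : ∀ p, 0 ≤ w p) (κ : ℝ) : DyaLaw u w κ ↔ LapLaw u w κ := by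
  constructor
  · rintro ⟨hc, C, hC⟩
    refine ⟨hc, C + |κ| * Real.log 2, fun σ hσ hσ1 => ?_⟩
    obtain ⟨k, hk1, hk2⟩ := exists_k (show (1 : ℝ) ≤ 1 / σ by rwa [le_div_iff₀ hσ, one_mul])
    have hp1 : (0 : ℝ) < 2 ^ k := by positivity
    have hp2 : (0 : ℝ) < 2 ^ (k + 1) := by positivity
    have h5 := hc.anti hu hw hσ (τ := 1 / 2 ^ k) (by
      rw [le_div_iff₀ hσ] at hk1
      rw [le_div_iff₀ hp1]
      linarith)
    have h6 := hc.anti hu hw (σ := 1 / 2 ^ (k + 1)) (τ := σ) (by positivity) (by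
      rw [div_le_iff₀ hσ] at hk2
      rw [div_le_iff₀ hp2]
      linarith)
    have h3 := hC k
    have h4 := hC (k + 1)
    have hl1 : (k : ℝ) * Real.log 2 ≤ Real.log (1 / σ) := by
      rw [← Real.log_pow]
      exact Real.log_le_log (by positivity) hk1
    have hl2 : Real.log (1 / σ) ≤ ((k + 1 : ℕ) : ℝ) * Real.log 2 := by
      rw [← Real.log_pow]
      exact Real.log_le_log (by positivity) hk2
    have h7 := kap_bound κ (x := Real.log (1 / σ)) (y := k * Real.log 2) (by linarith) (by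
      push_cast at hl2
      linarith)
    have h8 := kap_bound κ (x := ((k + 1 : ℕ) : ℝ) * Real.log 2) (y := Real.log (1 / σ)) (by linarith)
      (by
        push_cast
        linarith)
    rw [abs_le] at h3 h4 h7 h8 ⊢
    constructor <;> linarith
  · rintro ⟨hc, C, hC⟩
    refine ⟨hc, C, fun k => ?_⟩
    have h1 := hC (1 / 2 ^ k) (by positivity) (by
      rw [div_le_one (by positivity)]
      exact one_le_pow₀ (by norm_num))
    rw [one_div_one_div, Real.log_pow] at h1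
    exact h1

/-! ### Complex weights -/

/-- bounded partial sums -/
def CutBdd (u : P → ℝ) (z : P → ℂ) : Prop := ∃ C, ∀ U : ℝ, 1 ≤ U → ‖cut u z U‖ ≤ C

def LapBdd (u : P → ℝ) (z : P → ℂ) : Prop := ∃ C, ∀ σ : ℝ, 0 < σ → σ ≤ 1 → ‖lap u z σ‖ ≤ C

def DyaBdd (u : P → ℝ) (z : P → ℂ) : Prop := ∃ C, ∀ k : ℕ, ‖lap u z (1 / 2 ^ k)‖ ≤ C

theorem conv_z (hw : ∀ p, 0 ≤ w p) (hc : Conv u w) {z : P → ℂ} (hz : ∀ p, ‖z p‖ ≤ w p) {σ : ℝ} (hσ : 0 < σ) :
    Summable fun p => z p * (Real.exp (-(σ * u p)) : ℂ) := by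
  refine Summable.of_norm_bounded (hc σ hσ) fun p => ?_
  rw [norm_mul, Complex.norm_real, Real.norm_eq_abs, abs_of_pos (Real.exp_pos _)]
  exact mul_le_mul_of_nonneg_right (hz p) (Real.exp_pos _).le

theorem cut_diff (hu : Sys u) {z : P → ℂ} (hz : ∀ p, ‖z p‖ ≤ w p) {U V : ℝ} (h : U ≤ V) :
    ‖cut u z V - cut u z U‖ ≤ cut u w V - cut u w U := by
  classical
  have e : ∀ W, cut u z W = ∑ p ∈ (hu.fin W).toFinset, z p := by
    intro W
    unfold cut
    have h1 := tsum_subtype {p | u p ≤ W} z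
    refine h1.trans ?_
    rw [tsum_eq_sum (s := (hu.fin W).toFinset)]
    · refine Finset.sum_congr rfl fun p hp => ?_
      rw [Set.Finite.mem_toFinset] at hp
      exact Set.indicator_of_mem hp _
    · intro p hp
      rw [Set.Finite.mem_toFinset] at hp
      exact Set.indicator_of_notMem hp _
  have hsub : (hu.fin U).toFinset ⊆ (hu.fin V).toFinset := by
    intro p hp
    rw [Set.Finite.mem_toFinset] at hp ⊢
    exact le_trans (show u p ≤ U from hp) h
  rw [e, e, cutR_eq hu, cutR_eq hu, ← Finset.sum_sdiff hsub, ← Finset.sum_sdiff (f := w) hsub,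
    add_sub_cancel_right, add_sub_cancel_right]
  exact norm_sum_le_of_le _ fun p _ => hz p

/-- **The equivalence for complex weights** dominated by weights with a law. -/
theorem bdd_iff (hu : Sys u) (hw : ∀ p, 0 ≤ w p) {κ : ℝ} (hlaw : DyaLaw u w κ) {z : P → ℂ}
    (hz : ∀ p, ‖z p‖ ≤ w p) : (CutBdd u z ↔ LapBdd u z) ∧ (CutBdd u z ↔ DyaBdd u z) := by
  obtain ⟨M, hM⟩ := hlaw.blocks hu hw
  obtain ⟨A, hA⟩ := (cut_iff_dya hu hw κ).2 hlaw
  obtain ⟨hc, C, hC⟩ := hlaw
  have hCD : CutBdd u z → DyaBdd u z := by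
    rintro ⟨B, hB⟩
    refine ⟨B + 4 * M, fun k => ?_⟩
    obtain ⟨-, h1⟩ := hM.compare hw hu hz k
    have h2 := hB (2 ^ k) (one_le_pow₀ (by norm_num))
    have h3 : lap u z (1 / 2 ^ k) = cut u z (2 ^ k) - (cut u z (2 ^ k) - lap u z (1 / 2 ^ k)) := by ring
    rw [h3]
    exact (norm_sub_le _ _).trans (add_le_add h2 h1)
  have hDC : DyaBdd u z → CutBdd u z := by
    rintro ⟨B, hB⟩
    refine ⟨B + 4 * M + (2 * A + |κ| * Real.log 2), fun U hU => ?_⟩
    obtain ⟨k, hk1, hk2⟩ := exists_k hU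
    obtain ⟨-, h1⟩ := hM.compare hw hu hz k
    have h2 := hB k
    have h3 := cut_diff hu hz hk1
    have h4 := hA U hU
    have h5 := hA (2 ^ k) (one_le_pow₀ (by norm_num))
    rw [Real.log_pow] at h5
    have hl1 : (k : ℝ) * Real.log 2 ≤ Real.log U := by
      rw [← Real.log_pow]
      exact Real.log_le_log (by positivity) hk1
    have hl2 : Real.log U ≤ ((k + 1 : ℕ) : ℝ) * Real.log 2 := by
      rw [← Real.log_pow]
      exact Real.log_le_log (by linarith) hk2
    have h7 := kap_bound κ (x := Real.log U) (y := k * Real.log 2) (by linarith) (by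
      push_cast at hl2
      linarith)
    have h8 : cut u z U = (cut u z U - cut u z (2 ^ k)) + (cut u z (2 ^ k) - lap u z (1 / 2 ^ k)) +
        lap u z (1 / 2 ^ k) := by ring
    rw [h8]
    have h9 := norm_add₃_le (a := cut u z U - cut u z (2 ^ k))
      (b := cut u z (2 ^ k) - lap u z (1 / 2 ^ k)) (c := lap u z (1 / 2 ^ k))
    rw [abs_le] at h4 h5 h7
    linarith
  have hDL : DyaBdd u z → LapBdd u z := by
    rintro ⟨B, hB⟩
    refine ⟨B + (2 * C + |κ| * Real.log 2), fun σ hσ hσ1 => ?_⟩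
    obtain ⟨k, hk1, hk2⟩ := exists_k (show (1 : ℝ) ≤ 1 / σ by rwa [le_div_iff₀ hσ, one_mul])
    have hp1 : (0 : ℝ) < 2 ^ k := by positivity
    have hp2 : (0 : ℝ) < 2 ^ (k + 1) := by positivity
    have hσk : σ ≤ 1 / 2 ^ k := by
      rw [le_div_iff₀ hσ] at hk1
      rw [le_div_iff₀ hp1]
      linarith
    have h6 := hc.anti hu hw (σ := 1 / 2 ^ (k + 1)) (τ := σ) (by positivity) (by
      rw [div_le_iff₀ hσ] at hk2
      rw [div_le_iff₀ hp2]
      linarith)
    have h3 := hC k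
    have h4 := hC (k + 1)
    have hb := hB k
    have hk0 : (0 : ℝ) < 1 / 2 ^ k := by positivity
    have s1 := conv_z hw hc hz hσ
    have s2 := conv_z hw hc hz hk0
    have h7 : ‖lap u z σ - lap u z (1 / 2 ^ k)‖ ≤ lapR u w σ - lapR u w (1 / 2 ^ k) := by
      unfold lap lapR
      rw [← s1.tsum_sub s2, ← (hc σ hσ).tsum_sub (hc _ hk0)]
      refine tsum_of_norm_bounded ((hc σ hσ).sub (hc _ hk0)).hasSum fun p => ?_
      rw [← mul_sub, ← mul_sub, norm_mul, ← Complex.ofReal_sub, Complex.norm_real, Real.norm_eq_abs]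
      have h8 : Real.exp (-(1 / 2 ^ k * u p)) ≤ Real.exp (-(σ * u p)) := by
        rw [Real.exp_le_exp]
        have := mul_le_mul_of_nonneg_right hσk (hu.pos p).le
        linarith
      rw [abs_of_nonneg (by linarith)]
      exact mul_le_mul_of_nonneg_right (hz p) (by linarith)
    have h8 : lap u z σ = (lap u z σ - lap u z (1 / 2 ^ k)) + lap u z (1 / 2 ^ k) := by ring
    rw [h8]
    have h9 := norm_add_le (lap u z σ - lap u z (1 / 2 ^ k)) (lap u z (1 / 2 ^ k))
    have h10 : κ * (((k + 1 : ℕ) : ℝ) * Real.log 2) - κ * (k * Real.log 2) ≤ |κ| * Real.log 2 := by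
      have := kap_bound κ (x := ((k + 1 : ℕ) : ℝ) * Real.log 2) (y := k * Real.log 2) (by
        push_cast
        have : 0 < Real.log 2 := Real.log_pos (by norm_num)
        nlinarith) (by
        push_cast
        linarith)
      exact (abs_le.1 this).2
    rw [abs_le] at h3 h4
    linarith
  have hLD : LapBdd u z → DyaBdd u z := by
    rintro ⟨B, hB⟩
    refine ⟨B, fun k => hB _ (by positivity) ?_⟩
    rw [div_le_one (by positivity)]
    exact one_le_pow₀ (by norm_num)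
  exact ⟨⟨fun h => hDL (hCD h), fun h => hDC (hLD h)⟩, hCD, hDC⟩

end Pool.Agent.X242.TB
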