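import Pool.Agent.X242.TB2

/-!
# The laws as `O(1)`; sums over primes
-/

set_option autoImplicit false

namespace Pool.Agent.X242.TB

open Filter Topology Asymptotics

section general

variable {P : Type} {u w : P → ℝ}

theorem cutLaw_iff (hu : Sys u) (hw : ∀ p, 0 ≤ w p) (κ : ℝ) : CutLaw u w κ ↔
    (fun U : ℝ => cut u w U - κ * Real.log U) =O[atTop] (fun _ => (1 : ℝ)) := by
  constructor
  · rintro ⟨C, hC⟩
    refine IsBigO.of_bound C ?_
    filter_upwards [eventually_ge_atTop 1] with U hU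
    rw [norm_one, mul_one, Real.norm_eq_abs]
    exact hC U hU
  · intro h
    obtain ⟨C, hC⟩ := h.bound
    obtain ⟨U₀, hU₀⟩ := eventually_atTop.1 (hC.and (eventually_ge_atTop 1))
    have hU01 : 1 ≤ U₀ := (hU₀ U₀ le_rfl).2
    refine ⟨|C| + cut u w U₀ + |κ| * Real.log U₀, fun U hU => ?_⟩
    have hl0 : 0 ≤ Real.log U₀ := Real.log_nonneg hU01
    have hc0 := cut_nonneg hu hw U₀
    rcases le_total U₀ U with h1 | h1
    · have h2 := (hU₀ U h1).1
      rw [norm_one, mul_one, Real.norm_eq_abs] at h2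
      have h3 : 0 ≤ |κ| * Real.log U₀ := by positivity
      have := le_abs_self C
      linarith
    · have h2 := cut_mono hu hw h1
      have h3 := cut_nonneg hu hw U
      have h4 : |κ * Real.log U| ≤ |κ| * Real.log U₀ := by
        rw [abs_mul, abs_of_nonneg (Real.log_nonneg hU)]
        exact mul_le_mul_of_nonneg_left (Real.log_le_log (by linarith) h1) (abs_nonneg _)
      have h5 := abs_nonneg C
      rw [abs_le] at h4 ⊢
      constructor <;> linarith

theorem lapLaw_iff (hu : Sys u) (hw : ∀ p, 0 ≤ w p) (hc : Conv u w) (κ : ℝ) : LapLaw u w κ ↔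
    (fun σ : ℝ => lapR u w σ - κ * Real.log (1 / σ)) =O[𝓝[>] 0] (fun _ => (1 : ℝ)) := by
  constructor
  · rintro ⟨-, C, hC⟩
    refine IsBigO.of_bound C ?_
    filter_upwards [Ioc_mem_nhdsGT (show (0 : ℝ) < 1 by norm_num)] with σ hσ
    rw [norm_one, mul_one, Real.norm_eq_abs]
    exact hC σ hσ.1 hσ.2
  · intro h
    obtain ⟨C, hC⟩ := h.bound
    rw [eventually_nhdsWithin_iff, Metric.eventually_nhds_iff] at hC
    obtain ⟨δ, hδ, hC⟩ := hC
    set δ' := min (δ / 2) 1 with hδ'
    have hδ0 : 0 < δ' := lt_min (by linarith) one_pos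
    have hδ1 : δ' ≤ 1 := min_le_right _ _
    have hl0 : 0 ≤ Real.log (1 / δ') := Real.log_nonneg (by rwa [le_div_iff₀ hδ0, one_mul])
    refine ⟨hc, |C| + lapR u w δ' + |κ| * Real.log (1 / δ'), fun σ hσ hσ1 => ?_⟩
    have hc0 := lapR_nonneg (u := u) hw δ'
    rcases le_total σ δ' with h1 | h1
    · have h2 := hC (y := σ) (by
        rw [Real.dist_eq, sub_zero, abs_of_pos hσ]
        have := min_le_left (δ / 2) 1
        linarith) hσ
      rw [norm_one, mul_one, Real.norm_eq_abs] at h2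
      have h3 : 0 ≤ |κ| * Real.log (1 / δ') := by positivity
      have := le_abs_self C
      linarith
    · have h2 := hc.anti hu hw hδ0 h1
      have h3 := lapR_nonneg (u := u) hw σ
      have h4 : |κ * Real.log (1 / σ)| ≤ |κ| * Real.log (1 / δ') := by
        rw [abs_mul, abs_of_nonneg (Real.log_nonneg (by rwa [le_div_iff₀ hσ, one_mul]))]
        refine mul_le_mul_of_nonneg_left (Real.log_le_log (by positivity) ?_) (abs_nonneg _)
        exact one_div_le_one_div_of_le hδ0 h1
      have h5 := abs_nonneg C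
      rw [abs_le] at h4 ⊢
      constructor <;> linarith

theorem dyaLaw_iff (hc : Conv u w) (κ : ℝ) : DyaLaw u w κ ↔
    (fun k : ℕ => lapR u w (1 / 2 ^ k) - κ * (k * Real.log 2)) =O[atTop] (fun _ => (1 : ℝ)) := by
  constructor
  · rintro ⟨-, C, hC⟩
    refine IsBigO.of_bound C (Eventually.of_forall fun k => ?_)
    rw [norm_one, mul_one, Real.norm_eq_abs]
    exact hC k
  · intro h
    obtain ⟨C, hC⟩ := h.bound
    obtain ⟨N, hN⟩ := eventually_atTop.1 hC
    refine ⟨hc, |C| + ∑ k ∈ Finset.range N, |lapR u w (1 / 2 ^ k) - κ * (k * Real.log 2)|, fun k => ?_⟩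
    have h0 : 0 ≤ ∑ k ∈ Finset.range N, |lapR u w (1 / 2 ^ k) - κ * (k * Real.log 2)| :=
      Finset.sum_nonneg fun _ _ => abs_nonneg _
    rcases le_or_gt N k with h1 | h1
    · have h2 := hN k h1
      rw [norm_one, mul_one, Real.norm_eq_abs] at h2
      have := le_abs_self C
      linarith
    · have h2 := Finset.single_le_sum (f := fun k : ℕ => |lapR u w (1 / 2 ^ k) - κ * (k * Real.log 2)|)
        (fun _ _ => abs_nonneg _) (Finset.mem_range.2 h1)
      have := abs_nonneg C
      linarith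

theorem norm_cut_le (hu : Sys u) {z : P → ℂ} (hz : ∀ p, ‖z p‖ ≤ w p) (U : ℝ) :
    ‖cut u z U‖ ≤ cut u w U := by
  have hw : ∀ p, 0 ≤ w p := fun p => (norm_nonneg _).trans (hz p)
  have hfin := hu.fin U
  unfold cut
  have : Finite {p // u p ≤ U} := hfin
  have := Fintype.ofFinite {p // u p ≤ U}
  rw [tsum_fintype, tsum_fintype]
  exact norm_sum_le_of_le _ fun p _ => hz p.1

theorem cutBdd_iff (hu : Sys u) {z : P → ℂ} (hz : ∀ p, ‖z p‖ ≤ w p) : CutBdd u z ↔
    (fun U : ℝ => cut u z U) =O[atTop] (fun _ => (1 : ℝ)) := by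
  have hw : ∀ p, 0 ≤ w p := fun p => (norm_nonneg _).trans (hz p)
  constructor
  · rintro ⟨C, hC⟩
    refine IsBigO.of_bound C ?_
    filter_upwards [eventually_ge_atTop 1] with U hU
    rw [norm_one, mul_one]
    exact hC U hU
  · intro h
    obtain ⟨C, hC⟩ := h.bound
    obtain ⟨U₀, hU₀⟩ := eventually_atTop.1 (hC.and (eventually_ge_atTop 1))
    refine ⟨|C| + cut u w U₀, fun U hU => ?_⟩
    have hc0 := cut_nonneg hu hw U₀
    rcases le_total U₀ U with h1 | h1
    · have h2 := (hU₀ U h1).1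
      rw [norm_one, mul_one] at h2
      have := le_abs_self C
      linarith
    · have h2 := cut_mono hu hw h1
      have h3 := norm_cut_le hu hz U
      have h5 := abs_nonneg C
      linarith

theorem norm_lap_le (hc : Conv u w) {z : P → ℂ} (hz : ∀ p, ‖z p‖ ≤ w p) {σ : ℝ} (hσ : 0 < σ) :
    ‖lap u z σ‖ ≤ lapR u w σ := by
  unfold lap lapR
  refine tsum_of_norm_bounded (hc σ hσ).hasSum fun p => ?_
  rw [norm_mul, Complex.norm_real, Real.norm_eq_abs, abs_of_pos (Real.exp_pos _)]
  exact mul_le_mul_of_nonneg_right (hz p) (Real.exp_pos _).le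

theorem lapBdd_iff (hu : Sys u) (hc : Conv u w) {z : P → ℂ} (hz : ∀ p, ‖z p‖ ≤ w p) : LapBdd u z ↔
    (fun σ : ℝ => lap u z σ) =O[𝓝[>] 0] (fun _ => (1 : ℝ)) := by
  have hw : ∀ p, 0 ≤ w p := fun p => (norm_nonneg _).trans (hz p)
  constructor
  · rintro ⟨C, hC⟩
    refine IsBigO.of_bound C ?_
    filter_upwards [Ioc_mem_nhdsGT (show (0 : ℝ) < 1 by norm_num)] with σ hσ
    rw [norm_one, mul_one]
    exact hC σ hσ.1 hσ.2
  · intro h
    obtain ⟨C, hC⟩ := h.bound
    rw [eventually_nhdsWithin_iff, Metric.eventually_nhds_iff] at hC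
    obtain ⟨δ, hδ, hC⟩ := hC
    set δ' := min (δ / 2) 1 with hδ'
    have hδ0 : 0 < δ' := lt_min (by linarith) one_pos
    refine ⟨|C| + lapR u w δ', fun σ hσ hσ1 => ?_⟩
    have hc0 := lapR_nonneg (u := u) hw δ'
    rcases le_total σ δ' with h1 | h1
    · have h2 := hC (y := σ) (by
        rw [Real.dist_eq, sub_zero, abs_of_pos hσ]
        have := min_le_left (δ / 2) 1
        linarith) hσ
      rw [norm_one, mul_one] at h2
      have := le_abs_self C
      linarith
    · have h2 := hc.anti hu hw hδ0 h1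
      have h3 := norm_lap_le hc hz hσ
      have h5 := abs_nonneg C
      linarith

theorem dyaBdd_iff {z : P → ℂ} : DyaBdd u z ↔
    (fun k : ℕ => lap u z (1 / 2 ^ k)) =O[atTop] (fun _ => (1 : ℝ)) := by
  constructor
  · rintro ⟨C, hC⟩
    refine IsBigO.of_bound C (Eventually.of_forall fun k => ?_)
    rw [norm_one, mul_one]
    exact hC k
  · intro h
    obtain ⟨C, hC⟩ := h.bound
    obtain ⟨N, hN⟩ := eventually_atTop.1 hC
    refine ⟨|C| + ∑ k ∈ Finset.range N, ‖lap u z (1 / 2 ^ k)‖, fun k => ?_⟩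
    have h0 : 0 ≤ ∑ k ∈ Finset.range N, ‖lap u z (1 / 2 ^ k)‖ :=
      Finset.sum_nonneg fun _ _ => norm_nonneg _
    rcases le_or_gt N k with h1 | h1
    · have h2 := hN k h1
      rw [norm_one, mul_one] at h2
      have := le_abs_self C
      linarith
    · have h2 := Finset.single_le_sum (f := fun k : ℕ => ‖lap u z (1 / 2 ^ k)‖)
        (fun _ _ => norm_nonneg _) (Finset.mem_range.2 h1)
      have := abs_nonneg C
      linarith

end general

/-! ### Primes -/

/-- `log p` -/
noncomputable def up (p : Nat.Primes) : ℝ := Real.log (p : ℕ)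

theorem up_sys : Sys up where
  pos := fun p => Real.log_pos (by exact_mod_cast p.2.one_lt)
  fin := fun U => by
    refine ((Set.finite_Iic ⌊Real.exp U⌋₊).preimage (f := fun p : Nat.Primes => (p : ℕ))
      (fun a _ b _ h => Subtype.ext h)).subset fun p hp => ?_
    have h1 : Real.log (p : ℕ) ≤ U := hp
    have hp0 : (0 : ℝ) < (p : ℕ) := by exact_mod_cast p.2.pos
    rw [Real.log_le_iff_le_exp hp0] at h1
    exact Nat.le_floor h1

/-- the sum over the primes up to `x` -/
theorem cut_up {E : Type} [AddCommMonoid E] [TopologicalSpace E] (z : ℕ → E) {x : ℝ} (hx : 1 ≤ x) :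
    cut up (fun p => z p) (Real.log x) = ∑ p ∈ (Finset.Iic ⌊x⌋₊).filter Nat.Prime, z p := by
  classical
  have hx0 : 0 < x := by linarith
  unfold cut
  have hfin : Finite {p // up p ≤ Real.log x} := up_sys.fin (Real.log x)
  have := Fintype.ofFinite {p // up p ≤ Real.log x}
  rw [tsum_fintype]
  have h : ∀ p : Nat.Primes, up p ≤ Real.log x ↔ (p : ℕ) ≤ ⌊x⌋₊ := by
    intro p
    have hp0 : (0 : ℝ) < (p : ℕ) := by exact_mod_cast p.2.pos
    unfold up
    rw [Real.log_le_log_iff hp0 hx0, Nat.le_floor_iff hx0.le]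
  refine Finset.sum_bij (fun p _ => (p.1 : ℕ)) (fun p _ => ?_) (fun p _ q _ h => ?_) (fun n hn => ?_)
    fun p _ => rfl
  · rw [Finset.mem_filter, Finset.mem_Iic]
    exact ⟨(h p.1).1 p.2, p.1.2⟩
  · exact Subtype.ext (Subtype.ext h)
  · rw [Finset.mem_filter, Finset.mem_Iic] at hn
    exact ⟨⟨⟨n, hn.2⟩, (h ⟨n, hn.2⟩).2 hn.1⟩, Finset.mem_univ _, rfl⟩

/-- passing from `U` to `x = e^U` -/
theorem bigO_log {F : ℝ → ℝ} {E : Type} [SeminormedAddCommGroup E] {f : ℝ → E} :
    (fun x : ℝ => f (Real.log x)) =O[atTop] (fun _ => (1 : ℝ)) ↔ f =O[atTop] (fun _ => (1 : ℝ)) := by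
  constructor
  · intro h
    have h1 := h.comp_tendsto Real.tendsto_exp_atTop
    refine h1.congr_left fun U => ?_
    simp [Real.log_exp]
  · intro h
    exact h.comp_tendsto Real.tendsto_log_atTop

end Pool.Agent.X242.TB
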