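import Mathlib

/-!
# Coefficients of exponentials of Dirichlet series over prime powers are multiplicative
-/

set_option autoImplicit false

namespace Pool.Agent.X242.TB

open Filter Topology Complex

section localpart

variable (b : ℕ → ℂ) (C : ℝ)

/-- `∑_{l ≥ 1} b(p^l) z^l` -/
noncomputable def gp (p : ℕ) (z : ℂ) : ℂ := ∑' l : ℕ, b (p ^ (l + 1)) * z ^ (l + 1)

/-- its exponential -/
noncomputable def fp (p : ℕ) (z : ℂ) : ℂ := exp (gp b p z)

/-- the coefficients -/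
noncomputable def cc (p k : ℕ) : ℂ := (k.factorial : ℂ)⁻¹ * iteratedDeriv k (fp b p) 0

variable {b C}

theorem term_le (hb : ∀ n : ℕ, 1 ≤ n → ‖b n‖ ≤ C * (n : ℝ) ^ (1 / 2 : ℝ)) {p : ℕ} (hp : 2 ≤ p) (l : ℕ)
    {z : ℂ} (hz : ‖z‖ ≤ 1 / p) : ‖b (p ^ (l + 1)) * z ^ (l + 1)‖ ≤ C * (3 / 4) ^ (l + 1) := by
  have hC : 0 ≤ C := by
    have := (norm_nonneg _).trans (hb 1 le_rfl)
    simpa using this
  have hp0 : (0 : ℝ) < p := by exact_mod_cast (by omega : 0 < p)
  have h1 := hb (p ^ (l + 1)) (Nat.one_le_pow _ _ (by omega))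
  have h2 : (((p ^ (l + 1) : ℕ)) : ℝ) ^ (1 / 2 : ℝ) = (Real.sqrt p) ^ (l + 1) := by
    rw [← Real.sqrt_eq_rpow]
    push_cast
    rw [Real.sqrt_eq_iff_mul_self_eq (by positivity) (by positivity), ← mul_pow, Real.mul_self_sqrt hp0.le]
  rw [h2] at h1
  rw [norm_mul, norm_pow]
  have h3 : Real.sqrt p * ‖z‖ ≤ 3 / 4 := by
    have h4 : Real.sqrt p * ‖z‖ ≤ Real.sqrt p * (1 / p) :=
      mul_le_mul_of_nonneg_left hz (Real.sqrt_nonneg _)
    have h5 : Real.sqrt p * (1 / p) = 1 / Real.sqrt p := by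
      rw [mul_one_div, div_eq_div_iff hp0.ne' (Real.sqrt_pos.2 hp0).ne', one_mul, Real.mul_self_sqrt hp0.le]
    have h6 : (4 : ℝ) / 3 ≤ Real.sqrt p := by
      refine Real.le_sqrt_of_sq_le ?_
      have : (2 : ℝ) ≤ p := by exact_mod_cast hp
      linarith
    have h7 : 1 / Real.sqrt p ≤ 3 / 4 := by
      rw [div_le_div_iff₀ (by linarith) (by norm_num)]
      linarith
    linarith
  calc ‖b (p ^ (l + 1))‖ * ‖z‖ ^ (l + 1) ≤ C * Real.sqrt p ^ (l + 1) * ‖z‖ ^ (l + 1) :=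
        mul_le_mul_of_nonneg_right h1 (by positivity)
    _ = C * (Real.sqrt p * ‖z‖) ^ (l + 1) := by rw [mul_pow]; ring
    _ ≤ C * (3 / 4) ^ (l + 1) :=
        mul_le_mul_of_nonneg_left (pow_le_pow_left₀ (by positivity) h3 _) hC

theorem geo_sum (C : ℝ) : HasSum (fun l : ℕ => C * ((3 : ℝ) / 4) ^ (l + 1)) (C * 3) := by
  have h := (hasSum_geometric_of_lt_one (r := (3 : ℝ) / 4) (by norm_num) (by norm_num)).mul_left (C * (3 / 4))
  have e : (fun l : ℕ => C * ((3 : ℝ) / 4) ^ (l + 1)) = fun l : ℕ => C * (3 / 4) * ((3 : ℝ) / 4) ^ l := by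
    funext l
    rw [pow_succ]
    ring
  rw [e]
  have h2 : C * (3 / 4) * (1 - 3 / 4)⁻¹ = C * 3 := by
    have : ((1 : ℝ) - 3 / 4)⁻¹ = 4 := by norm_num
    rw [this]
    ring
  rw [h2] at h
  exact h

theorem gp_le (hb : ∀ n : ℕ, 1 ≤ n → ‖b n‖ ≤ C * (n : ℝ) ^ (1 / 2 : ℝ)) {p : ℕ} (hp : 2 ≤ p)
    {z : ℂ} (hz : ‖z‖ ≤ 1 / p) : ‖gp b p z‖ ≤ C * 3 :=
  tsum_of_norm_bounded (geo_sum C) fun l => term_le hb hp l hz

theorem gp_diff (hb : ∀ n : ℕ, 1 ≤ n → ‖b n‖ ≤ C * (n : ℝ) ^ (1 / 2 : ℝ)) {p : ℕ} (hp : 2 ≤ p) :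
    DifferentiableOn ℂ (gp b p) (Metric.ball 0 (1 / p)) := by
  refine Complex.differentiableOn_tsum_of_summable_norm (u := fun l : ℕ => C * ((3 : ℝ) / 4) ^ (l + 1))
    (geo_sum C).summable (fun l => ?_) Metric.isOpen_ball fun l z hz => ?_
  · exact (by fun_prop : Differentiable ℂ fun z : ℂ => b (p ^ (l + 1)) * z ^ (l + 1)).differentiableOn
  · refine term_le hb hp l ?_
    rw [Metric.mem_ball, dist_zero_right] at hz
    exact hz.le

theorem fp_diff (hb : ∀ n : ℕ, 1 ≤ n → ‖b n‖ ≤ C * (n : ℝ) ^ (1 / 2 : ℝ)) {p : ℕ} (hp : 2 ≤ p) :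
    DifferentiableOn ℂ (fp b p) (Metric.ball 0 (1 / p)) := (gp_diff hb hp).cexp

theorem gp_zero (p : ℕ) : gp b p 0 = 0 := by
  unfold gp
  simp

theorem cc_zero (p : ℕ) : cc b p 0 = 1 := by
  unfold cc fp
  simp [gp_zero]

theorem cc_sum (hb : ∀ n : ℕ, 1 ≤ n → ‖b n‖ ≤ C * (n : ℝ) ^ (1 / 2 : ℝ)) {p : ℕ} (hp : 2 ≤ p)
    {z : ℂ} (hz : ‖z‖ < 1 / p) : HasSum (fun k : ℕ => cc b p k * z ^ k) (fp b p z) := by
  have h := Complex.hasSum_taylorSeries_on_ball (fp_diff hb hp) (z := z) (by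
    rw [Metric.mem_ball, dist_zero_right]
    exact hz)
  refine h.congr_fun fun k => ?_
  unfold cc
  rw [sub_zero, smul_eq_mul, smul_eq_mul]
  ring

theorem cc_le (hb : ∀ n : ℕ, 1 ≤ n → ‖b n‖ ≤ C * (n : ℝ) ^ (1 / 2 : ℝ)) {p : ℕ} (hp : 2 ≤ p) (k : ℕ) :
    ‖cc b p k‖ ≤ Real.exp (C * 3) * (2 * p) ^ k := by
  have hp0 : (0 : ℝ) < p := by exact_mod_cast (by omega : 0 < p)
  have hR : (0 : ℝ) < 1 / (2 * p) := by positivity
  have hlt : 1 / (2 * (p : ℝ)) < 1 / p := by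
    rw [div_lt_div_iff₀ (by positivity) hp0]
    linarith
  have hsub : Metric.closedBall (0 : ℂ) (1 / (2 * p)) ⊆ Metric.ball 0 (1 / p) :=
    Metric.closedBall_subset_ball hlt
  have hd : DiffContOnCl ℂ (fp b p) (Metric.ball 0 (1 / (2 * p))) := by
    refine DifferentiableOn.diffContOnCl ?_
    exact (fp_diff hb hp).mono (Metric.closure_ball_subset_closedBall.trans hsub)
  have h := Complex.norm_iteratedDeriv_le_of_forall_mem_sphere_norm_le k hR hd
    (C := Real.exp (C * 3)) (fun z hz => by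
      have hz' : ‖z‖ ≤ 1 / p := by
        rw [mem_sphere_iff_norm, sub_zero] at hz
        rw [hz]
        exact hlt.le
      unfold fp
      rw [Complex.norm_exp, Real.exp_le_exp]
      exact (Complex.re_le_norm _).trans (gp_le hb hp hz'))
  unfold cc
  rw [norm_mul, norm_inv, Complex.norm_natCast]
  have hk : (0 : ℝ) < k.factorial := by exact_mod_cast k.factorial_pos
  rw [inv_mul_le_iff₀ hk]
  refine h.trans (le_of_eq ?_)
  rw [one_div, inv_pow, div_inv_eq_mul]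
  ring

end localpart

section globalpart

/-- the multiplicative function with the values `c_p(k)` at the prime powers -/
noncomputable def cmul (b : ℕ → ℂ) (n : ℕ) : ℂ := n.factorization.prod fun p k => cc b p k

variable {b : ℕ → ℂ} {C : ℝ}

theorem cmul_one : cmul b 1 = 1 := by
  unfold cmul
  simp

theorem cmul_mul {m n : ℕ} (h : m.Coprime n) : cmul b (m * n) = cmul b m * cmul b n := by
  unfold cmul
  rw [Nat.factorization_mul_of_coprime h]
  refine Finsupp.prod_add_index_of_disjoint ?_ _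
  rw [Nat.support_factorization, Nat.support_factorization]
  exact h.disjoint_primeFactors

theorem cmul_pow {p : ℕ} (hp : p.Prime) (k : ℕ) : cmul b (p ^ k) = cc b p k := by
  unfold cmul
  rw [hp.factorization_pow, Finsupp.prod_single_index (cc_zero p)]

theorem exists_bound (C : ℝ) : ∃ A : ℕ, Real.exp (C * 3) ≤ 2 ^ A := by
  obtain ⟨A, hA⟩ := pow_unbounded_of_one_lt (Real.exp (C * 3)) (show (1 : ℝ) < 2 by norm_num)
  exact ⟨A, hA.le⟩

theorem cmul_le (hb : ∀ n : ℕ, 1 ≤ n → ‖b n‖ ≤ C * (n : ℝ) ^ (1 / 2 : ℝ)) {A : ℕ}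
    (hA : Real.exp (C * 3) ≤ 2 ^ A) {n : ℕ} (hn : n ≠ 0) : ‖cmul b n‖ ≤ (n : ℝ) ^ (A + 2) := by
  unfold cmul Finsupp.prod
  rw [norm_prod]
  have h1 : (n : ℝ) ^ (A + 2) = ∏ p ∈ n.factorization.support, ((p : ℝ) ^ n.factorization p) ^ (A + 2) := by
    conv_lhs => rw [← Nat.prod_factorization_pow_eq_self hn]
    unfold Finsupp.prod
    push_cast
    rw [Finset.prod_pow]
  rw [h1]
  refine Finset.prod_le_prod (fun _ _ => norm_nonneg _) fun p hp => ?_
  have hpp : p.Prime := Nat.prime_of_mem_primeFactors (by rwa [Nat.support_factorization] at hp)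
  have hk : n.factorization p ≠ 0 := Finsupp.mem_support_iff.1 hp
  set k := n.factorization p with hk'
  have hp2 : (2 : ℝ) ≤ p := by exact_mod_cast hpp.two_le
  have h2 : (2 : ℝ) ^ A ≤ ((p : ℝ) ^ k) ^ A := by
    refine pow_le_pow_left₀ (by norm_num) ?_ A
    calc (2 : ℝ) ≤ p := hp2
      _ = (p : ℝ) ^ 1 := (pow_one _).symm
      _ ≤ (p : ℝ) ^ k := pow_le_pow_right₀ (by linarith) (Nat.one_le_iff_ne_zero.2 hk)
  have h3 : (2 * (p : ℝ)) ^ k ≤ ((p : ℝ) ^ k) ^ 2 := by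
    rw [← pow_mul, mul_comm k 2, pow_mul]
    refine pow_le_pow_left₀ (by positivity) ?_ k
    rw [sq]
    exact mul_le_mul_of_nonneg_right hp2 (by linarith)
  calc ‖cc b p k‖ ≤ Real.exp (C * 3) * (2 * p) ^ k := cc_le hb hpp.two_le k
    _ ≤ ((p : ℝ) ^ k) ^ A * ((p : ℝ) ^ k) ^ 2 :=
        mul_le_mul (hA.trans h2) h3 (by positivity) (by positivity)
    _ = ((p : ℝ) ^ k) ^ (A + 2) := by rw [pow_add]

theorem norm_cpow_prime {p : ℕ} (hp : p.Prime) {s : ℂ} (hs : 2 ≤ s.re) :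
    ‖(p : ℂ) ^ (-s)‖ < 1 / p := by
  rw [Complex.norm_natCast_cpow_of_pos hp.pos, Complex.neg_re]
  have hp1 : (1 : ℝ) < p := by exact_mod_cast hp.one_lt
  have h1 : (p : ℝ) ^ (-s.re) < (p : ℝ) ^ (-1 : ℝ) := Real.rpow_lt_rpow_of_exponent_lt hp1 (by linarith)
  rwa [Real.rpow_neg_one, ← one_div] at h1

theorem term_pow (f : ℕ → ℂ) (s : ℂ) {p : ℕ} (hp : p.Prime) (k : ℕ) :
    LSeries.term f s (p ^ k) = f (p ^ k) * ((p : ℂ) ^ (-s)) ^ k := by
  rw [LSeries.term_def, if_neg (pow_ne_zero _ hp.ne_zero)]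
  have h1 : ((p ^ k : ℕ) : ℂ) ^ s = ((p : ℂ) ^ s) ^ k := by
    push_cast
    rw [← Complex.natCast_cpow_natCast_mul, mul_comm, Complex.cpow_mul_nat]
  rw [h1, Complex.cpow_neg, inv_pow, div_eq_mul_inv]

/-- **the Euler product of the exponential** -/
theorem lseries_exp (hb : ∀ n : ℕ, 1 ≤ n → ‖b n‖ ≤ C * (n : ℝ) ^ (1 / 2 : ℝ))
    (hsupp : ∀ n : ℕ, ¬ IsPrimePow n → b n = 0) {A : ℕ} (hA : Real.exp (C * 3) ≤ 2 ^ A) {s : ℂ}
    (hs : (A : ℝ) + 3 < s.re) : exp (LSeries b s) = LSeries (cmul b) s := by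
  have hA0 : (0 : ℝ) ≤ A := Nat.cast_nonneg A
  -- the Euler product of `cmul`
  have hsc : LSeriesSummable (cmul b) s := by
    refine LSeriesSummable_of_le_const_mul_rpow (x := A + 3) hs ⟨1, fun n hn => ?_⟩
    rw [one_mul]
    refine (cmul_le hb hA hn).trans (le_of_eq ?_)
    rw [← Real.rpow_natCast]
    congr 1
    push_cast
    ring
  have hprod1 : HasProd (fun p : Nat.Primes => ∑' e : ℕ, LSeries.term (cmul b) s ((p : ℕ) ^ e))
      (∑' n : ℕ, LSeries.term (cmul b) s n) := by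
    refine EulerProduct.eulerProduct_hasProd ?_ (fun {m n} hmn => ?_) hsc.norm ?_
    · rw [LSeries.term_def, if_neg one_ne_zero, cmul_one]
      simp
    · rw [LSeries.term_def, LSeries.term_def, LSeries.term_def]
      by_cases hm : m = 0
      · simp [hm]
      · by_cases hn : n = 0
        · simp [hn]
        · rw [if_neg hm, if_neg hn, if_neg (mul_ne_zero hm hn), cmul_mul hmn]
          push_cast
          rw [Complex.natCast_mul_natCast_cpow, mul_div_mul_comm]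
    · simp [LSeries.term_def]
  -- the exponential
  have hsb : LSeriesSummable b s := by
    refine LSeriesSummable_of_le_const_mul_rpow (x := 3 / 2) (by linarith) ⟨C, fun n hn => ?_⟩
    refine (hb n (Nat.one_le_iff_ne_zero.2 hn)).trans (le_of_eq ?_)
    norm_num
  have hsb' : Summable (LSeries.term b s) := hsb
  have h1 : HasSum (fun x : Nat.Primes × ℕ => LSeries.term b s ((x.1 : ℕ) ^ (x.2 + 1))) (LSeries b s) := by
    have h2 : Function.support (LSeries.term b s) ⊆ {n : ℕ | IsPrimePow n} := by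
      intro n hn
      by_contra hcon
      apply hn
      rw [LSeries.term_def, hsupp n hcon]
      simp
    have h3 : HasSum (fun n : {n : ℕ // IsPrimePow n} => LSeries.term b s n.1) (LSeries b s) := by
      have h4 := (hasSum_subtype_iff_of_support_subset (f := LSeries.term b s) (a := LSeries b s) h2).2
        hsb'.hasSum
      exact h4
    have h5 := (Nat.Primes.prodNatEquiv.hasSum_iff).2 h3
    refine h5.congr_fun fun x => ?_
    simp only [Function.comp]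
    rw [← Nat.Primes.coe_prodNatEquiv_apply]
  have h2 : HasSum (fun p : Nat.Primes => ∑' k : ℕ, LSeries.term b s ((p : ℕ) ^ (k + 1))) (LSeries b s) := by
    refine h1.prod_fiberwise fun p => ?_
    exact (h1.summable.prod_factor p).hasSum
  have h3 := h2.cexp
  have h4 : (Complex.exp ∘ fun p : Nat.Primes => ∑' k : ℕ, LSeries.term b s ((p : ℕ) ^ (k + 1))) =
      fun p : Nat.Primes => ∑' e : ℕ, LSeries.term (cmul b) s ((p : ℕ) ^ e) := by
    funext p
    have hz : ‖((p : ℕ) : ℂ) ^ (-s)‖ < 1 / ((p : ℕ) : ℝ) := norm_cpow_prime p.2 (by linarith)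
    have h5 := (cc_sum hb p.2.two_le hz).tsum_eq
    simp only [Function.comp]
    have e1 : ∑' k : ℕ, LSeries.term b s ((p : ℕ) ^ (k + 1)) = gp b p (((p : ℕ) : ℂ) ^ (-s)) := by
      unfold gp
      exact tsum_congr fun k => term_pow b s p.2 (k + 1)
    have e2 : ∑' e : ℕ, LSeries.term (cmul b) s ((p : ℕ) ^ e) =
        ∑' k : ℕ, cc b p k * (((p : ℕ) : ℂ) ^ (-s)) ^ k := by
      refine tsum_congr fun k => ?_
      rw [term_pow (cmul b) s p.2 k, cmul_pow p.2]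
    rw [e1, e2, h5]
    rfl
  rw [h4] at h3
  exact h3.unique hprod1

/-- **multiplicativity** -/
theorem mult_of_exp {a : ℕ → ℂ} (ha1 : a 1 = 1) (ha : ∃ D : ℝ, ∀ n : ℕ, 1 ≤ n → ‖a n‖ ≤ D * (n : ℝ))
    (hb : ∀ n : ℕ, 1 ≤ n → ‖b n‖ ≤ C * (n : ℝ) ^ (1 / 2 : ℝ))
    (hsupp : ∀ n : ℕ, ¬ IsPrimePow n → b n = 0)
    (heq : ∀ s : ℂ, 1 < s.re → LSeries a s = exp (LSeries b s)) {m n : ℕ} (h : m.Coprime n) :
    a (m * n) = a m * a n := by
  obtain ⟨A, hA⟩ := exists_bound C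
  obtain ⟨D, hD⟩ := ha
  have h1 : LSeries.abscissaOfAbsConv a < ⊤ := by
    refine lt_of_le_of_lt (LSeries.abscissaOfAbsConv_le_of_le_const_mul_rpow (x := 1)
      ⟨D, fun n hn => ?_⟩) ?_
    · rw [Real.rpow_one]
      exact hD n (Nat.one_le_iff_ne_zero.2 hn)
    · exact EReal.coe_lt_top _
  have h2 : LSeries.abscissaOfAbsConv (cmul b) < ⊤ := by
    refine lt_of_le_of_lt (LSeries.abscissaOfAbsConv_le_of_le_const_mul_rpow (x := ((A + 2 : ℕ) : ℝ))
      ⟨1, fun n hn => ?_⟩) ?_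
    · rw [one_mul, Real.rpow_natCast]
      exact cmul_le hb hA hn
    · exact EReal.coe_lt_top _
  have h3 : (fun x : ℝ => LSeries a x) =ᶠ[atTop] fun x : ℝ => LSeries (cmul b) x := by
    filter_upwards [eventually_gt_atTop ((A : ℝ) + 3)] with x hx
    have hA0 : (0 : ℝ) ≤ A := Nat.cast_nonneg A
    rw [heq x (by rw [Complex.ofReal_re]; linarith), lseries_exp hb hsupp hA (by
      rw [Complex.ofReal_re]
      exact hx)]
  have h4 : ∀ n : ℕ, n ≠ 0 → a n = cmul b n := fun n hn =>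
    LSeries.eq_of_LSeries_eventually_eq h1 h2 h3 hn
  rcases Nat.eq_zero_or_pos m with rfl | hm
  · have : n = 1 := by simpa using h
    rw [this, mul_one, ha1, mul_one]
  · rcases Nat.eq_zero_or_pos n with rfl | hn
    · have : m = 1 := by simpa using h
      rw [this, one_mul, ha1, one_mul]
    · rw [h4 _ (mul_ne_zero hm.ne' hn.ne'), h4 _ hm.ne', h4 _ hn.ne', cmul_mul h]

end globalpart

end Pool.Agent.X242.TB
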