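import Pool.Agent.X242.TB3
import Pool.Agent.X242.TB4

/-!
# Orders of magnitude: partial sums and Laplace transforms; Euler products of squares
-/

set_option autoImplicit false

namespace Pool.Agent.X242.TB

open Filter Topology Asymptotics

section orders

variable {P : Type} {u v : P → ℝ}

/-- `u ≥ 0` and locally finite -/
structure Sys0 (u : P → ℝ) : Prop where
  nonneg : ∀ p, 0 ≤ u p
  fin : ∀ U : ℝ, {p | u p ≤ U}.Finite

theorem cut0_eq (hu : Sys0 u) (w : P → ℝ) (U : ℝ) : cut u w U = ∑ p ∈ (hu.fin U).toFinset, w p := by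
  unfold cut
  have h1 := tsum_subtype {p | u p ≤ U} w
  refine h1.trans ?_
  rw [tsum_eq_sum (s := (hu.fin U).toFinset)]
  · refine Finset.sum_congr rfl fun p hp => ?_
    rw [Set.Finite.mem_toFinset] at hp
    exact Set.indicator_of_mem hp _
  · intro p hp
    rw [Set.Finite.mem_toFinset] at hp
    exact Set.indicator_of_notMem hp _

theorem cut0_mono (hu : Sys0 u) (hv : ∀ p, 0 ≤ v p) {U V : ℝ} (h : U ≤ V) : cut u v U ≤ cut u v V := by
  rw [cut0_eq hu, cut0_eq hu]
  refine Finset.sum_le_sum_of_subset_of_nonneg (fun p hp => ?_) fun p _ _ => hv p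
  rw [Set.Finite.mem_toFinset] at hp ⊢
  exact le_trans (show u p ≤ U from hp) h

theorem cut0_nonneg (hu : Sys0 u) (hv : ∀ p, 0 ≤ v p) (U : ℝ) : 0 ≤ cut u v U := by
  rw [cut0_eq hu]
  exact Finset.sum_nonneg fun p _ => hv p

theorem U1 (hu : Sys0 u) (hv : ∀ p, 0 ≤ v p) (hc : Conv u v) {σ : ℝ} (hσ : 0 < σ) :
    cut u v (1 / σ) ≤ Real.exp 1 * lapR u v σ := by
  have h1 : ∑ p ∈ (hu.fin (1 / σ)).toFinset, v p * Real.exp (-(σ * u p)) ≤ lapR u v σ :=
    (hc σ hσ).sum_le_tsum _ fun p _ => mul_nonneg (hv p) (Real.exp_pos _).le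
  have h2 : ∑ p ∈ (hu.fin (1 / σ)).toFinset, v p * Real.exp (-1) ≤
      ∑ p ∈ (hu.fin (1 / σ)).toFinset, v p * Real.exp (-(σ * u p)) := by
    refine Finset.sum_le_sum fun p hp => mul_le_mul_of_nonneg_left (Real.exp_le_exp.2 ?_) (hv p)
    rw [Set.Finite.mem_toFinset] at hp
    have h3 : u p ≤ 1 / σ := hp
    rw [le_div_iff₀ hσ] at h3
    linarith
  rw [← Finset.sum_mul, ← cut0_eq hu] at h2
  have h3 : Real.exp 1 * Real.exp (-1) = 1 := by rw [← Real.exp_add]; simp
  have h4 := mul_le_mul_of_nonneg_left (h2.trans h1) (Real.exp_pos 1).le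
  calc cut u v (1 / σ) = Real.exp 1 * (cut u v (1 / σ) * Real.exp (-1)) := by
        rw [mul_comm (cut u v (1 / σ)), ← mul_assoc, h3, one_mul]
    _ ≤ _ := h4

theorem exp_pow_summable (κ : ℕ) : Summable fun j : ℕ => Real.exp (-(j : ℝ)) * ((j : ℝ) + 1) ^ κ := by
  have h1 := Real.summable_pow_mul_exp_neg_nat_mul κ (r := 1) one_pos
  have h2 := (summable_nat_add_iff 1).2 h1
  have h3 := h2.mul_left (Real.exp 1)
  refine h3.congr fun j => ?_
  have : Real.exp (-(j : ℝ)) = Real.exp 1 * Real.exp (-1 * ((j + 1 : ℕ) : ℝ)) := by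
    rw [← Real.exp_add]
    congr 1
    push_cast
    ring
  rw [this]
  push_cast
  ring

theorem U2 (hu : Sys0 u) (hv : ∀ p, 0 ≤ v p) {κ : ℕ} {C : ℝ} (h : ∀ U : ℝ, 1 ≤ U → cut u v U ≤ C * U ^ κ)
    {σ : ℝ} (hσ : 0 < σ) (hσ1 : σ ≤ 1) :
    lapR u v σ ≤ C * (∑' j : ℕ, Real.exp (-(j : ℝ)) * ((j : ℝ) + 1) ^ κ) * (1 / σ) ^ κ := by
  classical
  have hC : 0 ≤ C := by
    have := (cut0_nonneg hu hv 1).trans (h 1 le_rfl)
    simpa using this
  set E := ∑' j : ℕ, Real.exp (-(j : ℝ)) * ((j : ℝ) + 1) ^ κ with hE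
  have hEs := exp_pow_summable κ
  have key : ∀ s : Finset P, ∑ p ∈ s, v p * Real.exp (-(σ * u p)) ≤ C * E * (1 / σ) ^ κ := by
    intro s
    set f : P → ℕ := fun p => ⌊σ * u p⌋₊ with hf
    set J := s.sup f + 1 with hJ
    have hJs : ∀ p ∈ s, f p ∈ Finset.range J := fun p hp => by
      rw [Finset.mem_range, hJ, Nat.lt_succ_iff]
      exact Finset.le_sup hp
    calc ∑ p ∈ s, v p * Real.exp (-(σ * u p)) ≤ ∑ p ∈ s, v p * Real.exp (-(f p : ℝ)) := by
          refine Finset.sum_le_sum fun p _ => mul_le_mul_of_nonneg_left (Real.exp_le_exp.2 ?_) (hv p)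
          have := Nat.floor_le (mul_nonneg hσ.le (hu.nonneg p))
          show -(σ * u p) ≤ -((⌊σ * u p⌋₊ : ℕ) : ℝ)
          linarith
      _ = ∑ j ∈ Finset.range J, ∑ p ∈ s.filter (fun p => f p = j), v p * Real.exp (-(f p : ℝ)) :=
          (Finset.sum_fiberwise_of_maps_to hJs _).symm
      _ = ∑ j ∈ Finset.range J, (∑ p ∈ s.filter (fun p => f p = j), v p) * Real.exp (-(j : ℝ)) := by
          refine Finset.sum_congr rfl fun j _ => ?_
          rw [Finset.sum_mul]
          refine Finset.sum_congr rfl fun p hp => ?_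
          rw [(Finset.mem_filter.1 hp).2]
      _ ≤ ∑ j ∈ Finset.range J, C * (1 / σ) ^ κ * (Real.exp (-(j : ℝ)) * ((j : ℝ) + 1) ^ κ) := by
          refine Finset.sum_le_sum fun j _ => ?_
          have hU1 : 1 ≤ ((j : ℝ) + 1) / σ := by
            rw [le_div_iff₀ hσ]
            have : (0 : ℝ) ≤ j := Nat.cast_nonneg j
            linarith
          have h1 : ∑ p ∈ s.filter (fun p => f p = j), v p ≤ cut u v (((j : ℝ) + 1) / σ) := by
            rw [cut0_eq hu]
            refine Finset.sum_le_sum_of_subset_of_nonneg (fun p hp => ?_) fun p _ _ => hv p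
            rw [Set.Finite.mem_toFinset]
            have h2 : ⌊σ * u p⌋₊ = j := (Finset.mem_filter.1 hp).2
            have h3 := Nat.lt_floor_add_one (σ * u p)
            rw [h2] at h3
            show u p ≤ ((j : ℝ) + 1) / σ
            rw [le_div_iff₀ hσ, mul_comm]
            exact h3.le
          have h2 := h1.trans (h _ hU1)
          calc (∑ p ∈ s.filter (fun p => f p = j), v p) * Real.exp (-(j : ℝ)) ≤
                (C * (((j : ℝ) + 1) / σ) ^ κ) * Real.exp (-(j : ℝ)) :=
                mul_le_mul_of_nonneg_right h2 (Real.exp_pos _).le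
            _ = C * (1 / σ) ^ κ * (Real.exp (-(j : ℝ)) * ((j : ℝ) + 1) ^ κ) := by
                rw [div_pow, div_pow, one_pow]
                ring
      _ = C * (1 / σ) ^ κ * ∑ j ∈ Finset.range J, (Real.exp (-(j : ℝ)) * ((j : ℝ) + 1) ^ κ) := by
          rw [Finset.mul_sum]
      _ ≤ C * (1 / σ) ^ κ * E := by
          refine mul_le_mul_of_nonneg_left (hEs.sum_le_tsum _ fun j _ => by positivity) (by positivity)
      _ = C * E * (1 / σ) ^ κ := by ring
  exact (summable_of_sum_le (fun p => mul_nonneg (hv p) (Real.exp_pos _).le) key).tsum_le_of_sum_le key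

theorem U3 (hu : Sys0 u) (hv : ∀ p, 0 ≤ v p) (hc : Conv u v) {σ U : ℝ} (hσ : 0 < σ) :
    lapR u v σ - Real.exp (-(σ * U / 2)) * lapR u v (σ / 2) ≤ cut u v U := by
  classical
  have h1 := hc σ hσ
  have h2 := (hc (σ / 2) (by positivity)).mul_left (Real.exp (-(σ * U / 2)))
  have h3 : Summable fun p => Set.indicator {p | u p ≤ U} v p :=
    summable_of_ne_finset_zero (s := (hu.fin U).toFinset) fun p hp => by
      rw [Set.Finite.mem_toFinset] at hp
      exact Set.indicator_of_notMem hp _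
  have h4 : lapR u v σ ≤ (∑' p, Set.indicator {p | u p ≤ U} v p) +
      Real.exp (-(σ * U / 2)) * lapR u v (σ / 2) := by
    unfold lapR
    rw [← tsum_mul_left, ← h3.tsum_add h2]
    refine h1.tsum_le_tsum (fun p => ?_) (h3.add h2)
    by_cases hp : u p ≤ U
    · rw [Set.indicator_of_mem (show p ∈ {p | u p ≤ U} from hp)]
      have e1 : v p * Real.exp (-(σ * u p)) ≤ v p * 1 := by
        refine mul_le_mul_of_nonneg_left ?_ (hv p)
        rw [Real.exp_le_one_iff]
        have := mul_nonneg hσ.le (hu.nonneg p)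
        linarith
      have e2 : 0 ≤ Real.exp (-(σ * U / 2)) * (v p * Real.exp (-(σ / 2 * u p))) :=
        mul_nonneg (Real.exp_pos _).le (mul_nonneg (hv p) (Real.exp_pos _).le)
      linarith
    · rw [Set.indicator_of_notMem (show p ∉ {p | u p ≤ U} from hp), zero_add]
      have e1 : Real.exp (-(σ * u p)) ≤ Real.exp (-(σ * U / 2)) * Real.exp (-(σ / 2 * u p)) := by
        rw [← Real.exp_add, Real.exp_le_exp]
        have := mul_le_mul_of_nonneg_left (not_le.1 hp).le hσ.le
        linarith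
      calc v p * Real.exp (-(σ * u p)) ≤ v p * (Real.exp (-(σ * U / 2)) * Real.exp (-(σ / 2 * u p))) :=
            mul_le_mul_of_nonneg_left e1 (hv p)
        _ = _ := by ring
  have h5 : ∑' p, Set.indicator {p | u p ≤ U} v p = cut u v U := by
    unfold cut
    exact (tsum_subtype {p | u p ≤ U} v).symm
  rw [h5] at h4
  linarith

/-- **Orders of magnitude.** -/
theorem order_iff (hu : Sys0 u) (hv : ∀ p, 0 ≤ v p) (hc : Conv u v) (κ : ℕ) :
    (fun U : ℝ => cut u v U) =Θ[atTop] (fun U : ℝ => U ^ κ) ↔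
      (fun σ : ℝ => lapR u v σ) =Θ[𝓝[>] 0] (fun σ : ℝ => (1 / σ) ^ κ) := by
  have hinv : Tendsto (fun σ : ℝ => 1 / σ) (𝓝[>] 0) atTop := by
    simpa [one_div] using tendsto_inv_nhdsGT_zero
  have hinv2 : Tendsto (fun U : ℝ => 1 / U) atTop (𝓝[>] 0) := by
    simpa [one_div] using tendsto_inv_atTop_nhdsGT_zero
  constructor
  · intro h
    constructor
    · obtain ⟨C, hC0, hC⟩ := h.1.exists_pos
      rw [IsBigOWith] at hC
      obtain ⟨U₀, hU₀⟩ := eventually_atTop.1 (hC.and (eventually_ge_atTop 1))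
      have hU01 : 1 ≤ U₀ := (hU₀ U₀ le_rfl).2
      have hbd : ∀ U : ℝ, 1 ≤ U → cut u v U ≤ (C + cut u v U₀) * U ^ κ := by
        intro U hU
        have hp : 1 ≤ U ^ κ := one_le_pow₀ hU
        have hc0 := cut0_nonneg hu hv U₀
        rcases le_total U₀ U with h1 | h1
        · have h2 := (hU₀ U h1).1
          rw [Real.norm_eq_abs, Real.norm_eq_abs, abs_of_nonneg (cut0_nonneg hu hv U),
            abs_of_nonneg (by positivity)] at h2
          nlinarith
        · have h2 := cut0_mono hu hv h1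
          nlinarith
      refine IsBigO.of_bound ((C + cut u v U₀) *
        (∑' j : ℕ, Real.exp (-(j : ℝ)) * ((j : ℝ) + 1) ^ κ)) ?_
      filter_upwards [Ioc_mem_nhdsGT (show (0 : ℝ) < 1 by norm_num)] with σ hσ
      have hσ0 : 0 < σ := hσ.1
      rw [Real.norm_eq_abs, Real.norm_eq_abs, abs_of_nonneg (lapR_nonneg hv σ),
        abs_of_nonneg (by positivity)]
      exact U2 hu hv hbd hσ.1 hσ.2
    · obtain ⟨C, hC0, hC⟩ := h.2.exists_pos
      rw [IsBigOWith] at hC
      refine IsBigO.of_bound (C * Real.exp 1) ?_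
      filter_upwards [hinv.eventually hC, self_mem_nhdsWithin] with σ h1 hσ
      have hσ0 : 0 < σ := hσ
      rw [Real.norm_eq_abs, Real.norm_eq_abs, abs_of_nonneg (by positivity),
        abs_of_nonneg (cut0_nonneg hu hv _)] at h1
      rw [Real.norm_eq_abs, Real.norm_eq_abs, abs_of_nonneg (lapR_nonneg hv σ),
        abs_of_nonneg (by positivity)]
      have h2 := U1 hu hv hc hσ0
      calc (1 / σ) ^ κ ≤ C * cut u v (1 / σ) := h1
        _ ≤ C * (Real.exp 1 * lapR u v σ) := mul_le_mul_of_nonneg_left h2 hC0.le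
        _ = C * Real.exp 1 * lapR u v σ := by ring
  · intro h
    obtain ⟨C, hC0, hC⟩ := h.1.exists_pos
    obtain ⟨c, hc0, hcc⟩ := h.2.exists_pos
    rw [IsBigOWith] at hC hcc
    constructor
    · refine IsBigO.of_bound (Real.exp 1 * C) ?_
      filter_upwards [hinv2.eventually hC, eventually_gt_atTop 0] with U h1 hU
      rw [Real.norm_eq_abs, Real.norm_eq_abs, abs_of_nonneg (lapR_nonneg hv _),
        abs_of_nonneg (by positivity), one_div_one_div] at h1
      rw [Real.norm_eq_abs, Real.norm_eq_abs, abs_of_nonneg (cut0_nonneg hu hv U),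
        abs_of_nonneg (by positivity)]
      have h2 := U1 hu hv hc (σ := 1 / U) (by positivity)
      rw [one_div_one_div] at h2
      calc cut u v U ≤ Real.exp 1 * lapR u v (1 / U) := h2
        _ ≤ Real.exp 1 * (C * U ^ κ) := mul_le_mul_of_nonneg_left h1 (Real.exp_pos _).le
        _ = _ := by ring
    · -- choice of `lam`
      obtain ⟨lam, hlam0, hlam⟩ : ∃ lam : ℝ, 0 < lam ∧ Real.exp (-(lam / 2)) * (C * 2 ^ κ) ≤ 1 / (2 * c) := by
        have h1 : Tendsto (fun x : ℝ => Real.exp (-(x / 2)) * (C * 2 ^ κ)) atTop (𝓝 (0 * (C * 2 ^ κ))) := by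
          refine Tendsto.mul_const _ (Real.tendsto_exp_neg_atTop_nhds_zero.comp ?_)
          exact tendsto_id.atTop_div_const (by norm_num)
        rw [zero_mul] at h1
        have h2 := h1.eventually (ge_mem_nhds (show (0 : ℝ) < 1 / (2 * c) by positivity))
        obtain ⟨x, hx1, hx2⟩ := (h2.and (eventually_gt_atTop 0)).exists
        exact ⟨x, hx2, hx1⟩
      have hs1 : Tendsto (fun U : ℝ => lam / U) atTop (𝓝[>] 0) := by
        rw [tendsto_nhdsWithin_iff]
        refine ⟨tendsto_const_nhds.div_atTop tendsto_id, ?_⟩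
        filter_upwards [eventually_gt_atTop 0] with U hU
        exact div_pos hlam0 hU
      have hs2 : Tendsto (fun U : ℝ => lam / U / 2) atTop (𝓝[>] 0) := by
        rw [tendsto_nhdsWithin_iff]
        refine ⟨?_, ?_⟩
        · have h1 : Tendsto (fun U : ℝ => lam / U) atTop (𝓝 0) := tendsto_const_nhds.div_atTop tendsto_id
          have := h1.div_const 2
          rwa [zero_div] at this
        · filter_upwards [eventually_gt_atTop 0] with U hU
          exact div_pos (div_pos hlam0 hU) (by norm_num)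
      refine IsBigO.of_bound (2 * c * lam ^ κ) ?_
      filter_upwards [hs1.eventually hcc, hs2.eventually hC, eventually_gt_atTop 0] with U h1 h2 hU
      have hσ0 : 0 < lam / U := div_pos hlam0 hU
      rw [Real.norm_eq_abs, Real.norm_eq_abs, abs_of_nonneg (lapR_nonneg hv _),
        abs_of_nonneg (by positivity)] at h1 h2
      rw [Real.norm_eq_abs, Real.norm_eq_abs, abs_of_nonneg (cut0_nonneg hu hv U),
        abs_of_nonneg (by positivity)]
      have h3 := U3 hu hv hc (σ := lam / U) (U := U) hσ0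
      have e1 : lam / U * U / 2 = lam / 2 := by field_simp
      rw [e1] at h3
      set y := (1 / (lam / U)) ^ κ with hy
      have hy0 : 0 < y := by positivity
      have e2 : (1 / (lam / U / 2)) ^ κ = 2 ^ κ * y := by
        rw [hy, ← mul_pow]
        congr 1
        field_simp
      rw [e2] at h2
      have e3 : y = U ^ κ / lam ^ κ := by
        rw [hy, one_div_div, div_pow]
      have h4 : Real.exp (-(lam / 2)) * lapR u v (lam / U / 2) ≤ 1 / (2 * c) * y := by
        calc Real.exp (-(lam / 2)) * lapR u v (lam / U / 2) ≤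
              Real.exp (-(lam / 2)) * (C * (2 ^ κ * y)) :=
              mul_le_mul_of_nonneg_left h2 (Real.exp_pos _).le
          _ = (Real.exp (-(lam / 2)) * (C * 2 ^ κ)) * y := by ring
          _ ≤ 1 / (2 * c) * y := mul_le_mul_of_nonneg_right hlam hy0.le
      have h5 : 1 / c * y ≤ lapR u v (lam / U) := by
        rw [div_mul_eq_mul_div, one_mul, div_le_iff₀ hc0, mul_comm]
        exact h1
      have h6 : 1 / (2 * c) * y ≤ cut u v U := by
        have : 1 / c * y = 1 / (2 * c) * y + 1 / (2 * c) * y := by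
          field_simp
          ring
        linarith
      rw [e3] at h6
      have h7 : U ^ κ = 2 * c * lam ^ κ * (1 / (2 * c) * (U ^ κ / lam ^ κ)) := by
        field_simp
      rw [h7]
      exact mul_le_mul_of_nonneg_left h6 (by positivity)

end orders

end Pool.Agent.X242.TB
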