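import Pool.Agent.X242.TB5

/-!
# The Euler product of `∑ |a(n)|² n^{-1-σ}` for multiplicative `a`
-/

set_option autoImplicit false

namespace Pool.Agent.X242.TB

open Filter Topology Asymptotics

/-- multiplicative, with the Ramanujan bound -/
structure MR (a : ℕ → ℂ) : Prop where
  one : a 1 = 1
  mul : ∀ {m n : ℕ}, m.Coprime n → a (m * n) = a m * a n
  ram : ∀ ε : ℝ, 0 < ε → ∃ C : ℝ, ∀ n : ℕ, 1 ≤ n → ‖a n‖ ≤ C * (n : ℝ) ^ ε

variable {a : ℕ → ℂ}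

/-- the weights of the primes -/
noncomputable def wp (a : ℕ → ℂ) (p : Nat.Primes) : ℝ := ‖a p‖ ^ 2 / (p : ℕ)

/-- the weights of the integers -/
noncomputable def vn (a : ℕ → ℂ) (n : ℕ) : ℝ := ‖a n‖ ^ 2 / n

/-- `log n` -/
noncomputable def un (n : ℕ) : ℝ := Real.log n

theorem un_sys : Sys0 un where
  nonneg := fun n => Real.log_natCast_nonneg n
  fin := fun U => by
    refine (Set.finite_Iic ⌊Real.exp U⌋₊).subset fun n hn => ?_
    have h1 : Real.log n ≤ U := hn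
    rcases Nat.eq_zero_or_pos n with rfl | h0
    · exact Nat.zero_le _
    · have hn0 : (0 : ℝ) < n := by exact_mod_cast h0
      rw [Real.log_le_iff_le_exp hn0] at h1
      exact Nat.le_floor h1

theorem wp_nonneg (a : ℕ → ℂ) (p : Nat.Primes) : 0 ≤ wp a p := by
  unfold wp
  positivity

theorem vn_nonneg (a : ℕ → ℂ) (n : ℕ) : 0 ≤ vn a n := by
  unfold vn
  positivity

theorem exp_un {n : ℕ} (hn : 1 ≤ n) (σ : ℝ) : Real.exp (-(σ * un n)) = (n : ℝ) ^ (-σ) := by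
  have hn0 : (0 : ℝ) < n := by exact_mod_cast hn
  rw [Real.rpow_def_of_pos hn0]
  unfold un
  congr 1
  ring

/-- convergence -/
theorem MR.conv_vn (h : ∀ ε : ℝ, 0 < ε → ∃ C : ℝ, ∀ n : ℕ, 1 ≤ n → ‖a n‖ ≤ C * (n : ℝ) ^ ε) :
    Conv un (vn a) := by
  intro σ hσ
  obtain ⟨C, hC⟩ := h (σ / 4) (by positivity)
  have hs : Summable fun n : ℕ => C ^ 2 * (n : ℝ) ^ (-(1 + σ / 2)) :=
    ((Real.summable_nat_rpow (p := -(1 + σ / 2))).2 (by linarith)).mul_left _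
  refine Summable.of_nonneg_of_le (fun n => mul_nonneg (vn_nonneg a n) (Real.exp_pos _).le)
    (fun n => ?_) hs
  rcases Nat.eq_zero_or_pos n with rfl | hn
  · unfold vn
    simp only [Nat.cast_zero, div_zero, zero_mul]
    positivity
  · have hn0 : (0 : ℝ) < n := by exact_mod_cast hn
    rw [exp_un hn]
    unfold vn
    have h1 : ‖a n‖ ^ 2 ≤ (C * (n : ℝ) ^ (σ / 4)) ^ 2 :=
      pow_le_pow_left₀ (norm_nonneg _) (hC n hn) 2
    calc ‖a n‖ ^ 2 / n * (n : ℝ) ^ (-σ) ≤ (C * (n : ℝ) ^ (σ / 4)) ^ 2 / n * (n : ℝ) ^ (-σ) := by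
          gcongr
      _ = C ^ 2 * (n : ℝ) ^ (-(1 + σ / 2)) := by
          rw [mul_pow, ← Real.rpow_natCast ((n : ℝ) ^ (σ / 4)) 2, ← Real.rpow_mul hn0.le,
            div_eq_mul_inv, ← Real.rpow_neg_one]
          rw [mul_assoc, mul_assoc, ← Real.rpow_add hn0, ← Real.rpow_add hn0]
          congr 2
          push_cast
          ring

theorem lap_prime_eq (a : ℕ → ℂ) (σ : ℝ) : lapR up (wp a) σ =
    ∑' p : Nat.Primes, vn a p * Real.exp (-(σ * un p)) := rfl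

theorem conv_wp (h : Conv un (vn a)) : Conv up (wp a) := by
  intro σ hσ
  have h1 := (h σ hσ).comp_injective (i := fun p : Nat.Primes => (p : ℕ)) Subtype.val_injective
  exact h1

/-- `F(n) = |a(n)|² n^{-1-σ}` -/
noncomputable def Ff (a : ℕ → ℂ) (σ : ℝ) (n : ℕ) : ℝ := vn a n * Real.exp (-(σ * un n))

theorem Ff_mul (h : MR a) (σ : ℝ) {m n : ℕ} (hmn : m.Coprime n) :
    Ff a σ (m * n) = Ff a σ m * Ff a σ n := by
  unfold Ff vn
  rcases Nat.eq_zero_or_pos m with rfl | hm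
  · simp
  · rcases Nat.eq_zero_or_pos n with rfl | hn
    · simp
    · have hm0 : (m : ℝ) ≠ 0 := by exact_mod_cast hm.ne'
      have hn0 : (n : ℝ) ≠ 0 := by exact_mod_cast hn.ne'
      rw [h.mul hmn, norm_mul]
      unfold un
      push_cast
      rw [Real.log_mul hm0 hn0, mul_add, neg_add, Real.exp_add]
      field_simp

theorem log_near {x y : ℝ} (hx : 0 ≤ x) (hy : 0 ≤ y) : |Real.log (1 + x + y) - x| ≤ y + x ^ 2 := by
  have h1 : Real.log (1 + x + y) ≤ x + y := by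
    have := Real.log_le_sub_one_of_pos (show 0 < 1 + x + y by linarith)
    linarith
  have h2 : x - x ^ 2 ≤ Real.log (1 + x + y) := by
    have h3 : Real.log (1 + x) ≤ Real.log (1 + x + y) := Real.log_le_log (by linarith) (by linarith)
    have h4 := Real.le_log_one_add_of_nonneg hx
    have h5 : x - x ^ 2 ≤ 2 * x / (x + 2) := by
      rw [le_div_iff₀ (by linarith)]
      nlinarith [pow_nonneg hx 3, pow_nonneg hx 2]
    linarith
  rw [abs_le]
  constructor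
  · linarith
  · nlinarith [sq_nonneg x]

/-- the bound for the prime powers -/
theorem Ff_pow_le {K : ℝ} (hK : ∀ n : ℕ, 1 ≤ n → ‖a n‖ ≤ K * (n : ℝ) ^ (1 / 8 : ℝ)) {σ : ℝ} (hσ : 0 < σ)
    {p : ℕ} (hp : p.Prime) (e : ℕ) : Ff a σ (p ^ e) ≤ K ^ 2 * ((p : ℝ) ^ (-(3 / 4) : ℝ)) ^ e := by
  have hp0 : (0 : ℝ) < p := by exact_mod_cast hp.pos
  have hn : 1 ≤ p ^ e := Nat.one_le_pow _ _ hp.pos
  have hn0 : (0 : ℝ) < ((p ^ e : ℕ) : ℝ) := by exact_mod_cast hn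
  unfold Ff vn
  have h1 : Real.exp (-(σ * un (p ^ e))) ≤ 1 := by
    rw [Real.exp_le_one_iff]
    have := mul_nonneg hσ.le (un_sys.nonneg (p ^ e))
    linarith
  have h2 : ‖a (p ^ e)‖ ^ 2 ≤ (K * ((p ^ e : ℕ) : ℝ) ^ (1 / 8 : ℝ)) ^ 2 :=
    pow_le_pow_left₀ (norm_nonneg _) (hK _ hn) 2
  calc ‖a (p ^ e)‖ ^ 2 / ((p ^ e : ℕ) : ℝ) * Real.exp (-(σ * un (p ^ e))) ≤
        (K * ((p ^ e : ℕ) : ℝ) ^ (1 / 8 : ℝ)) ^ 2 / ((p ^ e : ℕ) : ℝ) * 1 :=
        mul_le_mul (div_le_div_of_nonneg_right h2 hn0.le) h1 (Real.exp_pos _).le (by positivity)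
    _ = K ^ 2 * ((p : ℝ) ^ (-(3 / 4) : ℝ)) ^ e := by
        rw [mul_one, mul_pow, ← Real.rpow_natCast (((p ^ e : ℕ) : ℝ) ^ (1 / 8 : ℝ)) 2,
          ← Real.rpow_mul hn0.le, mul_div_assoc]
        congr 1
        rw [div_eq_mul_inv, ← Real.rpow_neg_one, ← Real.rpow_add hn0]
        push_cast
        rw [← Real.rpow_natCast (p : ℝ) e, ← Real.rpow_natCast ((p : ℝ) ^ (-(3 / 4) : ℝ)) e,
          ← Real.rpow_mul hp0.le, ← Real.rpow_mul hp0.le]
        congr 1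
        norm_num
        ring

theorem q_le {p : ℕ} (hp : p.Prime) : (p : ℝ) ^ (-(3 / 4) : ℝ) ≤ 2 / 3 := by
  have hp2 : (2 : ℝ) ≤ p := by exact_mod_cast hp.two_le
  have h1 : (p : ℝ) ^ (-(3 / 4) : ℝ) ≤ (2 : ℝ) ^ (-(3 / 4) : ℝ) :=
    Real.rpow_le_rpow_of_nonpos (by norm_num) hp2 (by norm_num)
  have h2 : (2 : ℝ) ^ (-(3 / 4) : ℝ) ≤ 2 / 3 := by
    have h3 : ((2 : ℝ) ^ (-(3 / 4) : ℝ)) ^ 4 = 1 / 8 := by
      rw [← Real.rpow_natCast, ← Real.rpow_mul (by norm_num)]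
      norm_num
    have h4 : (0 : ℝ) ≤ (2 : ℝ) ^ (-(3 / 4) : ℝ) := by positivity
    by_contra hcon
    push Not at hcon
    have h5 := pow_lt_pow_left₀ hcon (by norm_num) (show (4 : ℕ) ≠ 0 by norm_num)
    rw [h3] at h5
    norm_num at h5
  exact h1.trans h2

/-- **The Euler product.** -/
theorem MR.euler (h : MR a) : ∃ B : ℝ, ∀ σ : ℝ, 0 < σ →
    |Real.log (lapR un (vn a) σ) - lapR up (wp a) σ| ≤ B ∧ 0 < lapR un (vn a) σ := by
  obtain ⟨K, hK⟩ := h.ram (1 / 8) (by norm_num)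
  set c : Nat.Primes → ℝ := fun p => (3 * K ^ 2 + K ^ 4) * ((p : ℕ) : ℝ) ^ (-(3 / 2) : ℝ) with hc
  have hcs : Summable c := by
    refine Summable.mul_left _ ?_
    exact (Nat.Primes.summable_rpow).2 (by norm_num)
  refine ⟨∑' p, c p, fun σ hσ => ?_⟩
  have hcv := MR.conv_vn h.ram
  have hsum : Summable (Ff a σ) := hcv σ hσ
  have hF0 : ∀ n, 0 ≤ Ff a σ n := fun n => mul_nonneg (vn_nonneg a n) (Real.exp_pos _).le
  have hF1 : Ff a σ 1 = 1 := by
    unfold Ff vn un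
    simp [h.one]
  have hprod : HasProd (fun p : Nat.Primes => ∑' e : ℕ, Ff a σ ((p : ℕ) ^ e)) (∑' n : ℕ, Ff a σ n) := by
    refine EulerProduct.eulerProduct_hasProd hF1 (fun {m n} hmn => Ff_mul h σ hmn) hsum.norm ?_
    unfold Ff vn
    simp
  -- the local factors
  have hloc : ∀ p : Nat.Primes, Summable fun e : ℕ => Ff a σ ((p : ℕ) ^ e) := fun p =>
    hsum.comp_injective (Nat.pow_right_injective p.2.two_le)
  set y : Nat.Primes → ℝ := fun p => ∑' e : ℕ, Ff a σ ((p : ℕ) ^ (e + 2)) with hy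
  have hfac : ∀ p : Nat.Primes, ∑' e : ℕ, Ff a σ ((p : ℕ) ^ e) = 1 + Ff a σ p + y p := by
    intro p
    have h1 := (hloc p).sum_add_tsum_nat_add 2
    rw [Finset.sum_range_succ, Finset.sum_range_one, pow_zero, pow_one, hF1] at h1
    rw [← h1]
  have hy0 : ∀ p, 0 ≤ y p := fun p => tsum_nonneg fun e => hF0 _
  have hp32 : ∀ p : Nat.Primes, (((p : ℕ) : ℝ) ^ (-(3 / 4) : ℝ)) ^ 2 = ((p : ℕ) : ℝ) ^ (-(3 / 2) : ℝ) := by
    intro p
    have hp0 : (0 : ℝ) < (p : ℕ) := by exact_mod_cast p.2.pos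
    rw [← Real.rpow_natCast, ← Real.rpow_mul hp0.le]
    norm_num
  have hyc : ∀ p, y p ≤ 3 * K ^ 2 * ((p : ℕ) : ℝ) ^ (-(3 / 2) : ℝ) := by
    intro p
    set q := ((p : ℕ) : ℝ) ^ (-(3 / 4) : ℝ) with hq
    have hp0 : (0 : ℝ) < (p : ℕ) := by exact_mod_cast p.2.pos
    have hq0 : 0 < q := Real.rpow_pos_of_pos hp0 _
    have hq1 : q ≤ 2 / 3 := q_le p.2
    have h1 : HasSum (fun e : ℕ => K ^ 2 * q ^ (e + 2)) (K ^ 2 * (q ^ 2 * (1 - q)⁻¹)) := by
      have h2 := ((hasSum_geometric_of_lt_one hq0.le (by linarith)).mul_left (q ^ 2)).mul_left (K ^ 2)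
      refine h2.congr_fun fun e => ?_
      rw [pow_add]
      ring
    have h2 : y p ≤ K ^ 2 * (q ^ 2 * (1 - q)⁻¹) := by
      rw [← h1.tsum_eq]
      refine ((summable_nat_add_iff 2).2 (hloc p)).tsum_le_tsum (fun e => ?_) h1.summable
      exact Ff_pow_le hK hσ p.2 (e + 2)
    have h3 : (1 - q)⁻¹ ≤ 3 := by
      rw [inv_le_comm₀ (by linarith) (by norm_num)]
      linarith
    rw [← hp32 p]
    calc y p ≤ K ^ 2 * (q ^ 2 * (1 - q)⁻¹) := h2
      _ ≤ K ^ 2 * (q ^ 2 * 3) := by gcongr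
      _ = 3 * K ^ 2 * q ^ 2 := by ring
  have hxc : ∀ p : Nat.Primes, Ff a σ p ^ 2 ≤ K ^ 4 * ((p : ℕ) : ℝ) ^ (-(3 / 2) : ℝ) := by
    intro p
    have h1 := Ff_pow_le hK hσ p.2 1
    rw [pow_one, pow_one] at h1
    have h2 := pow_le_pow_left₀ (hF0 p) h1 2
    rw [mul_pow, hp32 p, ← pow_mul] at h2
    exact h2
  have hlog : ∀ p : Nat.Primes, |Real.log (1 + Ff a σ p + y p) - Ff a σ p| ≤ c p := by
    intro p
    refine (log_near (hF0 p) (hy0 p)).trans ?_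
    rw [hc]
    simp only
    have := hyc p
    have := hxc p
    nlinarith
  have hs1 : Summable fun p : Nat.Primes => Ff a σ p :=
    hsum.comp_injective (i := fun p : Nat.Primes => (p : ℕ)) Subtype.val_injective
  have hs2 : Summable fun p : Nat.Primes => Real.log (1 + Ff a σ p + y p) - Ff a σ p :=
    Summable.of_norm_bounded hcs hlog
  have hs3 : Summable fun p : Nat.Primes => Real.log (1 + Ff a σ p + y p) := by
    refine (hs2.add hs1).congr fun p => ?_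
    ring
  have h1 := hs3.hasSum.rexp
  have h2 : (Real.exp ∘ fun p : Nat.Primes => Real.log (1 + Ff a σ p + y p)) =
      fun p : Nat.Primes => ∑' e : ℕ, Ff a σ ((p : ℕ) ^ e) := by
    funext p
    simp only [Function.comp]
    rw [Real.exp_log (by
      have := hF0 p
      have := hy0 p
      linarith), hfac p]
  rw [h2] at h1
  have h3 : lapR un (vn a) σ = Real.exp (∑' p : Nat.Primes, Real.log (1 + Ff a σ p + y p)) :=
    hprod.unique h1
  refine ⟨?_, by rw [h3]; exact Real.exp_pos _⟩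
  rw [h3, Real.log_exp]
  have h4 : lapR up (wp a) σ = ∑' p : Nat.Primes, Ff a σ p := rfl
  rw [h4, ← hs3.tsum_sub hs1]
  rw [← Real.norm_eq_abs]
  refine tsum_of_norm_bounded hcs.hasSum fun p => ?_
  rw [Real.norm_eq_abs]
  exact hlog p

end Pool.Agent.X242.TB
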