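import Pool.Agent.X242.TB6

/-!
# The criterion for multiplicative functions
-/

set_option autoImplicit false

namespace Pool.Agent.X242.TB

open Filter Topology Asymptotics

theorem theta_iff_log {α : Type} {l : Filter α} {f g : α → ℝ} (hf : ∀ᶠ x in l, 0 < f x)
    (hg : ∀ᶠ x in l, 0 < g x) : f =Θ[l] g ↔
      (fun x => Real.log (f x) - Real.log (g x)) =O[l] (fun _ => (1 : ℝ)) := by
  constructor
  · rintro ⟨h1, h2⟩
    obtain ⟨C, hC0, hC⟩ := h1.exists_pos
    obtain ⟨c, hc0, hc⟩ := h2.exists_pos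
    rw [IsBigOWith] at hC hc
    refine IsBigO.of_bound (|Real.log C| + |Real.log c|) ?_
    filter_upwards [hC, hc, hf, hg] with x h3 h4 h5 h6
    rw [Real.norm_eq_abs, Real.norm_eq_abs, abs_of_pos h5, abs_of_pos h6] at h3 h4
    rw [norm_one, mul_one, Real.norm_eq_abs]
    have h7 := Real.log_le_log h5 h3
    rw [Real.log_mul hC0.ne' h6.ne'] at h7
    have h8 := Real.log_le_log h6 h4
    rw [Real.log_mul hc0.ne' h5.ne'] at h8
    have h9 := le_abs_self (Real.log C)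
    have h10 := le_abs_self (Real.log c)
    have h11 := abs_nonneg (Real.log C)
    have h12 := abs_nonneg (Real.log c)
    rw [abs_le]
    constructor <;> linarith
  · intro h
    obtain ⟨C, hC⟩ := h.bound
    have hev : ∀ᶠ x in l, f x ≤ Real.exp C * g x ∧ g x ≤ Real.exp C * f x := by
      filter_upwards [hC, hf, hg] with x h1 h2 h3
      rw [norm_one, mul_one, Real.norm_eq_abs, abs_le] at h1
      constructor
      · have h4 : Real.log (f x) ≤ Real.log (Real.exp C * g x) := by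
          rw [Real.log_mul (Real.exp_pos C).ne' h3.ne', Real.log_exp]
          linarith
        exact (Real.log_le_log_iff h2 (mul_pos (Real.exp_pos C) h3)).1 h4
      · have h4 : Real.log (g x) ≤ Real.log (Real.exp C * f x) := by
          rw [Real.log_mul (Real.exp_pos C).ne' h2.ne', Real.log_exp]
          linarith
        exact (Real.log_le_log_iff h3 (mul_pos (Real.exp_pos C) h2)).1 h4
    constructor
    · refine IsBigO.of_bound (Real.exp C) ?_
      filter_upwards [hev, hf, hg] with x h1 h2 h3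
      rw [Real.norm_eq_abs, Real.norm_eq_abs, abs_of_pos h2, abs_of_pos h3]
      exact h1.1
    · refine IsBigO.of_bound (Real.exp C) ?_
      filter_upwards [hev, hf, hg] with x h1 h2 h3
      rw [Real.norm_eq_abs, Real.norm_eq_abs, abs_of_pos h2, abs_of_pos h3]
      exact h1.2

variable {a : ℕ → ℂ}

/-- `∑_{p ≤ x} |a(p)|² / p` -/
noncomputable def primeSum (a : ℕ → ℂ) (x : ℝ) : ℝ :=
  ∑ p ∈ (Finset.Iic ⌊x⌋₊).filter Nat.Prime, ‖a p‖ ^ 2 / (p : ℝ)

/-- `∑_{n ≤ x} |a(n)|² / n` -/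
noncomputable def squareSum (a : ℕ → ℂ) (x : ℝ) : ℝ :=
  ∑ n ∈ Finset.Icc 1 ⌊x⌋₊, ‖a n‖ ^ 2 / (n : ℝ)

/-- `∑_p |a(p)|² p^{-1-σ}` -/
noncomputable def primeSeries (a : ℕ → ℂ) (σ : ℝ) : ℝ :=
  ∑' p : Nat.Primes, ‖a p‖ ^ 2 * ((p : ℕ) : ℝ) ^ (-(1 + σ))

/-- `∑_n |a(n)|² n^{-1-σ}` -/
noncomputable def squareSeries (a : ℕ → ℂ) (σ : ℝ) : ℝ :=
  ∑' n : ℕ, ‖a n‖ ^ 2 * (n : ℝ) ^ (-(1 + σ))

theorem term_eq' {n : ℕ} (hn : 1 ≤ n) (σ : ℝ) :
    ‖a n‖ ^ 2 * (n : ℝ) ^ (-(1 + σ)) = vn a n * Real.exp (-(σ * un n)) := by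
  have hn0 : (0 : ℝ) < n := by exact_mod_cast hn
  rw [exp_un hn, neg_add, Real.rpow_add hn0, Real.rpow_neg_one]
  unfold vn
  ring

theorem primeSeries_eq (σ : ℝ) : primeSeries a σ = lapR up (wp a) σ := by
  unfold primeSeries
  rw [lap_prime_eq]
  exact tsum_congr fun p => term_eq' p.2.one_lt.le σ

theorem squareSeries_eq {σ : ℝ} (hσ : 0 < σ) : squareSeries a σ = lapR un (vn a) σ := by
  unfold squareSeries lapR
  refine tsum_congr fun n => ?_
  rcases Nat.eq_zero_or_pos n with rfl | hn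
  · unfold vn
    rw [Nat.cast_zero, Real.zero_rpow (by linarith), div_zero, mul_zero, zero_mul]
  · exact term_eq' hn σ

theorem cut_prime {x : ℝ} (hx : 1 ≤ x) : cut up (wp a) (Real.log x) = primeSum a x :=
  cut_up (fun n => ‖a n‖ ^ 2 / (n : ℝ)) hx

theorem cut_square {x : ℝ} (hx : 1 ≤ x) : cut un (vn a) (Real.log x) = squareSum a x := by
  have hx0 : 0 < x := by linarith
  rw [cut0_eq un_sys]
  unfold squareSum
  refine (Finset.sum_subset (fun n hn => ?_) fun n hn hn2 => ?_).symm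
  · rw [Finset.mem_Icc] at hn
    rw [Set.Finite.mem_toFinset]
    have hn0 : (0 : ℝ) < n := by exact_mod_cast hn.1
    show Real.log n ≤ Real.log x
    refine Real.log_le_log hn0 ?_
    exact (Nat.le_floor_iff hx0.le).1 hn.2
  · rw [Set.Finite.mem_toFinset] at hn
    have h1 : Real.log n ≤ Real.log x := hn
    rcases Nat.eq_zero_or_pos n with rfl | h0
    · unfold vn
      simp
    · exfalso
      apply hn2
      rw [Finset.mem_Icc]
      have hn0 : (0 : ℝ) < n := by exact_mod_cast h0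
      rw [Real.log_le_log_iff hn0 hx0] at h1
      exact ⟨h0, Nat.le_floor h1⟩

theorem bigO_log' {E : Type} [SeminormedAddCommGroup E] {f : ℝ → E} {g : ℝ → ℝ} :
    (fun x : ℝ => f (Real.log x)) =O[atTop] (fun x => g (Real.log x)) ↔ f =O[atTop] g := by
  constructor
  · intro h
    have h1 := h.comp_tendsto Real.tendsto_exp_atTop
    refine (h1.congr_left fun U => ?_).congr_right fun U => ?_
    · simp [Real.log_exp]
    · simp [Real.log_exp]
  · intro h
    exact h.comp_tendsto Real.tendsto_log_atTop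

/-- 1 ⟺ law -/
theorem law1 (κ : ℝ) : CutLaw up (wp a) κ ↔
    (fun x : ℝ => primeSum a x - κ * Real.log (Real.log x)) =O[atTop] (fun _ => (1 : ℝ)) := by
  rw [cutLaw_iff up_sys (wp_nonneg a) κ, ← bigO_log' (g := fun _ => (1 : ℝ))]
  refine isBigO_congr ?_ EventuallyEq.rfl
  filter_upwards [eventually_ge_atTop 1] with x hx
  rw [cut_prime hx]

theorem law2 (hc : Conv up (wp a)) (κ : ℝ) : LapLaw up (wp a) κ ↔
    (fun σ : ℝ => primeSeries a σ - κ * Real.log (1 / σ)) =O[𝓝[>] 0] (fun _ => (1 : ℝ)) := by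
  rw [lapLaw_iff up_sys (wp_nonneg a) hc κ]
  simp only [primeSeries_eq]

theorem law3 (hc : Conv up (wp a)) (κ : ℝ) : DyaLaw up (wp a) κ ↔
    (fun k : ℕ => primeSeries a (1 / 2 ^ k) - κ * (k * Real.log 2)) =O[atTop] (fun _ => (1 : ℝ)) := by
  rw [dyaLaw_iff hc κ]
  simp only [primeSeries_eq]

theorem law4 (h : MR a) (κ : ℕ) : (fun σ : ℝ => squareSeries a σ) =Θ[𝓝[>] 0] (fun σ : ℝ => (1 / σ) ^ κ) ↔
    (fun σ : ℝ => primeSeries a σ - κ * Real.log (1 / σ)) =O[𝓝[>] 0] (fun _ => (1 : ℝ)) := by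
  obtain ⟨B, hB⟩ := h.euler
  have hpos : ∀ᶠ σ : ℝ in 𝓝[>] 0, 0 < squareSeries a σ := by
    filter_upwards [self_mem_nhdsWithin] with σ hσ
    rw [squareSeries_eq hσ]
    exact (hB σ hσ).2
  have hpos2 : ∀ᶠ σ : ℝ in 𝓝[>] 0, 0 < (1 / σ) ^ κ := by
    filter_upwards [self_mem_nhdsWithin] with σ hσ
    have : (0 : ℝ) < σ := hσ
    positivity
  rw [theta_iff_log hpos hpos2]
  have h1 : (fun σ : ℝ => (Real.log (squareSeries a σ) - Real.log ((1 / σ) ^ κ)) -
      (primeSeries a σ - κ * Real.log (1 / σ))) =O[𝓝[>] 0] (fun _ => (1 : ℝ)) := by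
    refine IsBigO.of_bound B ?_
    filter_upwards [self_mem_nhdsWithin] with σ hσ
    rw [norm_one, mul_one, Real.norm_eq_abs, squareSeries_eq hσ, primeSeries_eq, Real.log_pow]
    have h2 := (hB σ hσ).1
    have e : Real.log (lapR un (vn a) σ) - κ * Real.log (1 / σ) -
        (lapR up (wp a) σ - κ * Real.log (1 / σ)) = Real.log (lapR un (vn a) σ) - lapR up (wp a) σ := by
      ring
    rw [e]
    exact h2
  constructor
  · intro h2
    refine (h2.sub h1).congr_left fun σ => ?_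
    ring
  · intro h2
    refine (h1.add h2).congr_left fun σ => ?_
    ring

theorem law5 (hc : Conv un (vn a)) (κ : ℕ) : (fun x : ℝ => squareSum a x) =Θ[atTop] (fun x : ℝ => Real.log x ^ κ) ↔
    (fun σ : ℝ => squareSeries a σ) =Θ[𝓝[>] 0] (fun σ : ℝ => (1 / σ) ^ κ) := by
  have e1 : (fun σ : ℝ => squareSeries a σ) =ᶠ[𝓝[>] 0] fun σ : ℝ => lapR un (vn a) σ := by
    filter_upwards [self_mem_nhdsWithin] with σ hσ
    exact squareSeries_eq hσ
  have e2 : (fun x : ℝ => squareSum a x) =ᶠ[atTop] fun x : ℝ => cut un (vn a) (Real.log x) := by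
    filter_upwards [eventually_ge_atTop 1] with x hx
    exact (cut_square hx).symm
  have h1 : (fun σ : ℝ => squareSeries a σ) =Θ[𝓝[>] 0] (fun σ : ℝ => (1 / σ) ^ κ) ↔
      (fun σ : ℝ => lapR un (vn a) σ) =Θ[𝓝[>] 0] (fun σ : ℝ => (1 / σ) ^ κ) :=
    ⟨fun h => e1.symm.trans_isTheta h, fun h => e1.trans_isTheta h⟩
  have h2 : (fun x : ℝ => squareSum a x) =Θ[atTop] (fun x : ℝ => Real.log x ^ κ) ↔
      (fun x : ℝ => cut un (vn a) (Real.log x)) =Θ[atTop] (fun x : ℝ => Real.log x ^ κ) :=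
    ⟨fun h => e2.symm.trans_isTheta h, fun h => e2.trans_isTheta h⟩
  rw [h1, h2, ← order_iff un_sys (vn_nonneg a) hc κ]
  constructor
  · rintro ⟨h3, h4⟩
    exact ⟨bigO_log'.1 h3, (bigO_log' (g := fun U => cut un (vn a) U) (f := fun U : ℝ => U ^ κ)).1 h4⟩
  · rintro ⟨h3, h4⟩
    exact ⟨(bigO_log' (g := fun U : ℝ => U ^ κ)).2 h3,
      (bigO_log' (g := fun U => cut un (vn a) U) (f := fun U : ℝ => U ^ κ)).2 h4⟩

/-- **The equivalences for one function.** -/
theorem MR.tfae (h : MR a) (κ : ℕ) : List.TFAE [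
    (fun x : ℝ => primeSum a x - κ * Real.log (Real.log x)) =O[atTop] (fun _ => (1 : ℝ)),
    (fun σ : ℝ => primeSeries a σ - κ * Real.log (1 / σ)) =O[𝓝[>] 0] (fun _ => (1 : ℝ)),
    (fun k : ℕ => primeSeries a (1 / 2 ^ k) - κ * (k * Real.log 2)) =O[atTop] (fun _ => (1 : ℝ)),
    (fun σ : ℝ => squareSeries a σ) =Θ[𝓝[>] 0] (fun σ : ℝ => (1 / σ) ^ κ),
    (fun x : ℝ => squareSum a x) =Θ[atTop] (fun x : ℝ => Real.log x ^ κ)] := by
  have hc := MR.conv_vn h.ram
  have hcp := conv_wp hc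
  tfae_have 1 ↔ 3 := by
    rw [← law1, ← law3 hcp]
    exact cut_iff_dya up_sys (wp_nonneg a) κ
  tfae_have 3 ↔ 2 := by
    rw [← law2 hcp, ← law3 hcp]
    exact dya_iff_lap up_sys (wp_nonneg a) κ
  tfae_have 4 ↔ 2 := law4 h κ
  tfae_have 5 ↔ 4 := law5 hc κ
  tfae_finish

end Pool.Agent.X242.TB
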