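import Pool.Agent.X242.TB7

/-!
# The Selberg class
-/

set_option autoImplicit false

namespace Pool.Agent.X242.TB

open Filter Topology Asymptotics

/-- continuation and functional equation -/
def HasContinuation (a : ℕ → ℂ) : Prop :=
  ∃ m : ℕ, ∃ G : ℂ → ℂ, Differentiable ℂ G ∧
    (∃ ρ C : ℝ, ∀ z : ℂ, ‖G z‖ ≤ C * Real.exp (‖z‖ ^ ρ)) ∧
    (∀ s : ℂ, 1 < s.re → G s = (s - 1) ^ m * LSeries a s) ∧
    (∃ Q : ℝ, 0 < Q ∧ ∃ k : ℕ, ∃ lam : Fin k → ℝ, ∃ μ : Fin k → ℂ, ∃ ω : ℂ,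
      (∀ j, 0 < lam j) ∧ (∀ j, 0 ≤ (μ j).re) ∧ ‖ω‖ = 1 ∧
      ∀ s : ℂ, 0 < s.re → s.re < 1 →
        (Q : ℂ) ^ s * (∏ j, Complex.Gamma ((lam j : ℂ) * s + μ j)) * (G s / (s - 1) ^ m) =
        ω * starRingEnd ℂ ((Q : ℂ) ^ (1 - starRingEnd ℂ s)
          * (∏ j, Complex.Gamma ((lam j : ℂ) * (1 - starRingEnd ℂ s) + μ j))
          * (G (1 - starRingEnd ℂ s) / ((1 - starRingEnd ℂ s) - 1) ^ m)))

/-- the Euler product -/
def HasEulerProduct (a : ℕ → ℂ) : Prop :=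
  ∃ b : ℕ → ℂ, (∀ n : ℕ, ¬ IsPrimePow n → b n = 0) ∧
    ∃ θ : ℝ, θ < 1 / 2 ∧ ∃ C : ℝ, (∀ n : ℕ, 1 ≤ n → ‖b n‖ ≤ C * (n : ℝ) ^ θ) ∧
    ∀ s : ℂ, 1 < s.re → LSeries a s = Complex.exp (LSeries b s)

/-- The coefficients of the elements of the Selberg class. -/
structure IsSelberg (a : ℕ → ℂ) : Prop where
  one : a 1 = 1
  ram : ∀ ε : ℝ, 0 < ε → ∃ C : ℝ, ∀ n : ℕ, 1 ≤ n → ‖a n‖ ≤ C * (n : ℝ) ^ ε
  cont : HasContinuation a
  euler : HasEulerProduct a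

/-- The primitive elements: not `1`, and not a product of two elements different from `1`. -/
def IsPrimitive (a : ℕ → ℂ) : Prop :=
  IsSelberg a ∧ (∃ n : ℕ, 2 ≤ n ∧ a n ≠ 0) ∧
    ∀ f g : ℕ → ℂ, IsSelberg f → IsSelberg g →
      (∀ s : ℂ, 1 < s.re → LSeries a s = LSeries f s * LSeries g s) →
      (∀ n : ℕ, 2 ≤ n → f n = 0) ∨ (∀ n : ℕ, 2 ≤ n → g n = 0)

theorem IsSelberg.mr {a : ℕ → ℂ} (h : IsSelberg a) : MR a where
  one := h.one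
  ram := h.ram
  mul := by
    obtain ⟨b, hb, θ, hθ, C, hC, heq⟩ := h.euler
    obtain ⟨D, hD⟩ := h.ram 1 one_pos
    intro m n hmn
    refine mult_of_exp (C := max C 0) h.one ⟨D, fun n hn => ?_⟩ (fun n hn => ?_) hb heq hmn
    · have := hD n hn
      rwa [Real.rpow_one] at this
    · have hn1 : (1 : ℝ) ≤ n := by exact_mod_cast hn
      refine (hC n hn).trans ?_
      have h1 : (n : ℝ) ^ θ ≤ (n : ℝ) ^ (1 / 2 : ℝ) := Real.rpow_le_rpow_of_exponent_le hn1 hθ.le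
      have h2 : 0 ≤ (n : ℝ) ^ θ := by positivity
      calc C * (n : ℝ) ^ θ ≤ max C 0 * (n : ℝ) ^ θ := mul_le_mul_of_nonneg_right (le_max_left _ _) h2
        _ ≤ max C 0 * (n : ℝ) ^ (1 / 2 : ℝ) := mul_le_mul_of_nonneg_left h1 (le_max_right _ _)

end Pool.Agent.X242.TB
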