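import Pool.Agent.X242.TB8
import Pool.Agent.Helper112.Arith

/-!
# Pairs: cross sums and Dirichlet convolutions
-/

set_option autoImplicit false

namespace Pool.Agent.X242.TB

open Filter Topology Asymptotics
open scoped ComplexConjugate

variable {a a' : ℕ → ℂ}

/-- `∑_{p ≤ x} a(p) conj(a'(p)) / p` -/
noncomputable def crossSum (a a' : ℕ → ℂ) (x : ℝ) : ℂ :=
  ∑ p ∈ (Finset.Iic ⌊x⌋₊).filter Nat.Prime, a p * conj (a' p) / (p : ℂ)

/-- `∑_p a(p) conj(a'(p)) p^{-1-σ}` -/
noncomputable def crossSeries (a a' : ℕ → ℂ) (σ : ℝ) : ℂ :=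
  ∑' p : Nat.Primes, a p * conj (a' p) * ((((p : ℕ) : ℝ) ^ (-(1 + σ)) : ℝ) : ℂ)

/-- the weights -/
noncomputable def zp (a a' : ℕ → ℂ) (p : Nat.Primes) : ℂ := a p * conj (a' p) / ((p : ℕ) : ℂ)

theorem zp_le (a a' : ℕ → ℂ) (p : Nat.Primes) : ‖zp a a' p‖ ≤ wp a p + wp a' p := by
  have hp0 : (0 : ℝ) < (p : ℕ) := by exact_mod_cast p.2.pos
  unfold zp wp
  rw [norm_div, norm_mul, Complex.norm_conj, Complex.norm_natCast, ← add_div]
  refine div_le_div_of_nonneg_right ?_ hp0.le
  nlinarith [sq_nonneg (‖a p‖ - ‖a' p‖), norm_nonneg (a p), norm_nonneg (a' p)]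

theorem wsum_nonneg (a a' : ℕ → ℂ) (p : Nat.Primes) : 0 ≤ wp a p + wp a' p :=
  add_nonneg (wp_nonneg a p) (wp_nonneg a' p)

theorem dya_add {κ κ' : ℝ} (h : DyaLaw up (wp a) κ) (h' : DyaLaw up (wp a') κ') :
    DyaLaw up (fun p => wp a p + wp a' p) (κ + κ') := by
  obtain ⟨hc, C, hC⟩ := h
  obtain ⟨hc', C', hC'⟩ := h'
  have hsum : Conv up (fun p => wp a p + wp a' p) := by
    intro σ hσ
    refine ((hc σ hσ).add (hc' σ hσ)).congr fun p => ?_
    ring
  refine ⟨hsum, C + C', fun k => ?_⟩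
  have hk : (0 : ℝ) < 1 / 2 ^ k := by positivity
  have e1 : lapR up (fun p => wp a p + wp a' p) (1 / 2 ^ k) =
      lapR up (wp a) (1 / 2 ^ k) + lapR up (wp a') (1 / 2 ^ k) := by
    unfold lapR
    rw [← (hc _ hk).tsum_add (hc' _ hk)]
    exact tsum_congr fun p => by ring
  have h1 := hC k
  have h2 := hC' k
  rw [e1]
  rw [abs_le] at h1 h2 ⊢
  constructor <;> linarith

theorem cross_series_eq (σ : ℝ) : crossSeries a a' σ = lap up (zp a a') σ := by
  unfold crossSeries lap
  refine tsum_congr fun p => ?_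
  have hp0 : (0 : ℝ) < (p : ℕ) := by exact_mod_cast p.2.pos
  have e1 : Real.exp (-(σ * up p)) = ((p : ℕ) : ℝ) ^ (-σ) := exp_un p.2.one_lt.le σ
  rw [e1, neg_add, Real.rpow_add hp0, Real.rpow_neg_one]
  unfold zp
  push_cast
  ring

theorem cross_cut {x : ℝ} (hx : 1 ≤ x) : cut up (zp a a') (Real.log x) = crossSum a a' x :=
  cut_up (fun n => a n * conj (a' n) / (n : ℂ)) hx

/-- **The equivalence for pairs.** -/
theorem cross_tfae (h : MR a) (h' : MR a') {κ κ' : ℕ}
    (hn : (fun x : ℝ => primeSum a x - κ * Real.log (Real.log x)) =O[atTop] (fun _ => (1 : ℝ)))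
    (hn' : (fun x : ℝ => primeSum a' x - κ' * Real.log (Real.log x)) =O[atTop] (fun _ => (1 : ℝ))) :
    List.TFAE [
      (fun x : ℝ => crossSum a a' x) =O[atTop] (fun _ => (1 : ℝ)),
      (fun σ : ℝ => crossSeries a a' σ) =O[𝓝[>] 0] (fun _ => (1 : ℝ)),
      (fun k : ℕ => crossSeries a a' (1 / 2 ^ k)) =O[atTop] (fun _ => (1 : ℝ))] := by
  have hc := conv_wp (MR.conv_vn h.ram)
  have hc' := conv_wp (MR.conv_vn h'.ram)
  have hd := (cut_iff_dya up_sys (wp_nonneg a) κ).1 ((law1 κ).2 hn)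
  have hd' := (cut_iff_dya up_sys (wp_nonneg a') κ').1 ((law1 κ').2 hn')
  have hd2 := dya_add hd hd'
  obtain ⟨h1, h2⟩ := bdd_iff up_sys (wsum_nonneg a a') hd2 (zp_le a a')
  have e1 : CutBdd up (zp a a') ↔ (fun x : ℝ => crossSum a a' x) =O[atTop] (fun _ => (1 : ℝ)) := by
    rw [cutBdd_iff up_sys (zp_le a a'), ← bigO_log' (g := fun _ => (1 : ℝ))]
    refine isBigO_congr ?_ EventuallyEq.rfl
    filter_upwards [eventually_ge_atTop 1] with x hx
    rw [cross_cut hx]
  have e2 : LapBdd up (zp a a') ↔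
      (fun σ : ℝ => crossSeries a a' σ) =O[𝓝[>] 0] (fun _ => (1 : ℝ)) := by
    rw [lapBdd_iff up_sys hd2.1 (zp_le a a')]
    simp only [cross_series_eq]
  have e3 : DyaBdd up (zp a a') ↔
      (fun k : ℕ => crossSeries a a' (1 / 2 ^ k)) =O[atTop] (fun _ => (1 : ℝ)) := by
    rw [dyaBdd_iff]
    simp only [cross_series_eq]
  tfae_have 1 ↔ 2 := by rw [← e1, ← e2]; exact h1
  tfae_have 1 ↔ 3 := by rw [← e1, ← e3]; exact h2
  tfae_finish

/-! ### Convolution -/

/-- the coefficients of `F F'` -/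
noncomputable def conv (a a' : ℕ → ℂ) (n : ℕ) : ℂ := ∑ d ∈ n.divisorsAntidiagonal, a d.1 * a' d.2

/-- the arithmetic function -/
noncomputable def arith (a : ℕ → ℂ) : ArithmeticFunction ℂ := ⟨fun n => if n = 0 then 0 else a n, by simp⟩

theorem arith_mult (h : MR a) : (arith a).IsMultiplicative := by
  rw [ArithmeticFunction.IsMultiplicative.iff_ne_zero]
  refine ⟨?_, fun {m n} hm hn hmn => ?_⟩
  · show (if (1 : ℕ) = 0 then 0 else a 1) = 1
    rw [if_neg one_ne_zero, h.one]
  · show (if m * n = 0 then 0 else a (m * n)) = (if m = 0 then 0 else a m) * (if n = 0 then 0 else a n)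
    rw [if_neg (mul_ne_zero hm hn), if_neg hm, if_neg hn, h.mul hmn]

theorem conv_eq (a a' : ℕ → ℂ) (n : ℕ) : conv a a' n = (arith a * arith a') n := by
  rw [ArithmeticFunction.mul_apply]
  unfold conv
  refine Finset.sum_congr rfl fun d hd => ?_
  have h1 := Nat.mem_divisorsAntidiagonal.1 hd
  have h2 : d.1 ≠ 0 := by
    intro h
    rw [h, zero_mul] at h1
    exact h1.2 h1.1.symm
  have h3 : d.2 ≠ 0 := by
    intro h
    rw [h, mul_zero] at h1
    exact h1.2 h1.1.symm
  show a d.1 * a' d.2 = (if d.1 = 0 then 0 else a d.1) * (if d.2 = 0 then 0 else a' d.2)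
  rw [if_neg h2, if_neg h3]

theorem conv_mr (h : MR a) (h' : MR a') : MR (conv a a') where
  one := by
    rw [conv_eq]
    exact ((arith_mult h).mul (arith_mult h')).map_one
  mul := by
    intro m n hmn
    rw [conv_eq, conv_eq, conv_eq]
    exact ((arith_mult h).mul (arith_mult h')).map_mul_of_coprime hmn
  ram := by
    intro ε hε
    obtain ⟨C, hC⟩ := h.ram (ε / 2) (by positivity)
    obtain ⟨C', hC'⟩ := h'.ram (ε / 2) (by positivity)
    obtain ⟨K, hK0, hK⟩ := Pool.Agent.Helper112.divisor_bound (ε / 2) (by positivity)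
    have hC0 : 0 ≤ C := by
      have := (norm_nonneg _).trans (hC 1 le_rfl)
      simpa using this
    have hC0' : 0 ≤ C' := by
      have := (norm_nonneg _).trans (hC' 1 le_rfl)
      simpa using this
    refine ⟨C * C' * K, fun n hn => ?_⟩
    have hn0 : (0 : ℝ) < n := by exact_mod_cast hn
    unfold conv
    have h1 : ∀ d ∈ n.divisorsAntidiagonal, ‖a d.1 * a' d.2‖ ≤ C * C' * (n : ℝ) ^ (ε / 2) := by
      intro d hd
      have h2 := Nat.mem_divisorsAntidiagonal.1 hd
      have h3 : 1 ≤ d.1 := by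
        rcases Nat.eq_zero_or_pos d.1 with h | h
        · rw [h, zero_mul] at h2
          exact absurd h2.1.symm h2.2
        · exact h
      have h4 : 1 ≤ d.2 := by
        rcases Nat.eq_zero_or_pos d.2 with h | h
        · rw [h, mul_zero] at h2
          exact absurd h2.1.symm h2.2
        · exact h
      rw [norm_mul]
      have h5 : (n : ℝ) ^ (ε / 2) = (d.1 : ℝ) ^ (ε / 2) * (d.2 : ℝ) ^ (ε / 2) := by
        rw [← Real.mul_rpow (Nat.cast_nonneg _) (Nat.cast_nonneg _), ← Nat.cast_mul, h2.1]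
      rw [h5]
      calc ‖a d.1‖ * ‖a' d.2‖ ≤ (C * (d.1 : ℝ) ^ (ε / 2)) * (C' * (d.2 : ℝ) ^ (ε / 2)) :=
            mul_le_mul (hC _ h3) (hC' _ h4) (norm_nonneg _) (by positivity)
        _ = C * C' * ((d.1 : ℝ) ^ (ε / 2) * (d.2 : ℝ) ^ (ε / 2)) := by ring
    refine (norm_sum_le_of_le _ h1).trans ?_
    rw [Finset.sum_const, nsmul_eq_mul]
    have h6 : (n.divisorsAntidiagonal.card : ℝ) = n.divisors.card := by
      have : n.divisorsAntidiagonal.card = n.divisors.card := by
        rw [← Nat.map_div_right_divisors, Finset.card_map]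
      exact_mod_cast this
    rw [h6]
    calc (n.divisors.card : ℝ) * (C * C' * (n : ℝ) ^ (ε / 2)) ≤
          (K * (n : ℝ) ^ (ε / 2)) * (C * C' * (n : ℝ) ^ (ε / 2)) :=
          mul_le_mul_of_nonneg_right (hK n hn) (by positivity)
      _ = C * C' * K * (n : ℝ) ^ ε := by
          have : (n : ℝ) ^ ε = (n : ℝ) ^ (ε / 2) * (n : ℝ) ^ (ε / 2) := by
            rw [← Real.rpow_add hn0]
            congr 1
            ring
          rw [this]
          ring

theorem conv_prime (h : MR a) (h' : MR a') {p : ℕ} (hp : p.Prime) : conv a a' p = a p + a' p := by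
  unfold conv
  rw [Nat.sum_divisorsAntidiagonal (f := fun i j => a i * a' j), hp.sum_divisors, Nat.div_self hp.pos,
    Nat.div_one, h.one, h'.one]
  ring

theorem primeSum_conv (h : MR a) (h' : MR a') (x : ℝ) : primeSum (conv a a') x =
    primeSum a x + primeSum a' x + 2 * (crossSum a a' x).re := by
  unfold primeSum crossSum
  rw [Complex.re_sum, Finset.mul_sum, ← Finset.sum_add_distrib, ← Finset.sum_add_distrib]
  refine Finset.sum_congr rfl fun p hp => ?_
  rw [conv_prime h h' (Finset.mem_filter.1 hp).2, Complex.sq_norm, Complex.normSq_add, ← Complex.sq_norm,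
    ← Complex.sq_norm]
  have e : (a p * conj (a' p) / (p : ℂ)).re = (a p * conj (a' p)).re / (p : ℝ) := by
    rw [← Complex.ofReal_natCast, Complex.div_ofReal_re]
  rw [e]
  ring

/-- **The real part and the mean square of the coefficients of `F F'`.** -/
theorem re_iff (h : MR a) (h' : MR a') {κ κ' : ℕ}
    (hn : (fun x : ℝ => primeSum a x - κ * Real.log (Real.log x)) =O[atTop] (fun _ => (1 : ℝ)))
    (hn' : (fun x : ℝ => primeSum a' x - κ' * Real.log (Real.log x)) =O[atTop] (fun _ => (1 : ℝ))) :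
    (fun x : ℝ => (crossSum a a' x).re) =O[atTop] (fun _ => (1 : ℝ)) ↔
      (fun x : ℝ => squareSum (conv a a') x) =Θ[atTop] (fun x : ℝ => Real.log x ^ (κ + κ')) := by
  have h1 := ((conv_mr h h').tfae (κ + κ')).out 0 4
  rw [← h1]
  have e : ∀ x : ℝ, primeSum (conv a a') x - ((κ + κ' : ℕ) : ℝ) * Real.log (Real.log x) =
      (primeSum a x - κ * Real.log (Real.log x)) + (primeSum a' x - κ' * Real.log (Real.log x)) +
        2 * (crossSum a a' x).re := by
    intro x
    rw [primeSum_conv h h']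
    push_cast
    ring
  simp only [e]
  constructor
  · intro h2
    exact (hn.add hn').add (h2.const_mul_left 2)
  · intro h2
    have h3 := (h2.sub (hn.add hn')).const_mul_left (1 / 2)
    refine h3.congr_left fun x => ?_
    ring

end Pool.Agent.X242.TB
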