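import Pool.Agent.W966.Vg.Defs

/-!
# The trilinear part of a polynomial with small nonscalar complexity has small tensor rank
-/

set_option autoImplicit false

namespace Pool.Agent.X242.TD

open MvPolynomial Pool.Agent.W966.Vg

section

variable {K ι : Type} [Field K]

/-- value at `0` -/
noncomputable def D0 (p : MvPolynomial ι K) : K := eval 0 p

/-- first derivative at `0` -/
noncomputable def D1 (a : ι) (p : MvPolynomial ι K) : K := eval 0 (pderiv a p)

/-- second derivative at `0` -/
noncomputable def D2 (a b : ι) (p : MvPolynomial ι K) : K := eval 0 (pderiv a (pderiv b p))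

/-- third derivative at `0` -/
noncomputable def D3 (a b c : ι) (p : MvPolynomial ι K) : K :=
  eval 0 (pderiv a (pderiv b (pderiv c p)))

lemma D2_mul (a b : ι) (p q : MvPolynomial ι K) : D2 a b (p * q) =
    D0 p * D2 a b q + D0 q * D2 a b p + (D1 a p * D1 b q + D1 b p * D1 a q) := by
  simp only [D0, D1, D2, Derivation.leibniz, smul_eq_mul, map_add, map_mul]
  ring

lemma D3_mul (a b c : ι) (p q : MvPolynomial ι K) : D3 a b c (p * q) =
    D0 p * D3 a b c q + D0 q * D3 a b c p + (D1 a p * D2 b c q + D1 a q * D2 b c p) +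
    (D1 b p * D2 a c q + D1 b q * D2 a c p) + (D1 c p * D2 a b q + D1 c q * D2 a b p) := by
  simp only [D0, D1, D2, D3, Derivation.leibniz, smul_eq_mul, map_add, map_mul]
  ring

lemma D2_val [Fintype ι] (f : LF K ι) (m : ℕ) (g : ℕ → MvPolynomial ι K) (a b : ι) :
    D2 a b (f.val X m g) = ∑ s ∈ Finset.range m, f.r s * D2 a b (g s) := by
  classical
  have hX : ∀ i : ι, pderiv a (pderiv b (X i : MvPolynomial ι K)) = 0 := by
    intro i
    by_cases h : b = i
    · subst h
      rw [pderiv_X_self, Derivation.map_one_eq_zero]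
    · rw [pderiv_X_of_ne (Ne.symm h), map_zero]
  unfold D2 LF.val
  simp only [algebraMap_eq, map_add, map_sum, Derivation.leibniz, pderiv_C, smul_eq_mul, mul_zero,
    zero_add, add_zero, hX, Finset.sum_const_zero, map_mul, eval_C]

lemma D3_val [Fintype ι] (f : LF K ι) (m : ℕ) (g : ℕ → MvPolynomial ι K) (a b c : ι) :
    D3 a b c (f.val X m g) = ∑ s ∈ Finset.range m, f.r s * D3 a b c (g s) := by
  classical
  have hX : ∀ i : ι, pderiv b (pderiv c (X i : MvPolynomial ι K)) = 0 := by
    intro i
    by_cases h : c = i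
    · subst h
      rw [pderiv_X_self, Derivation.map_one_eq_zero]
    · rw [pderiv_X_of_ne (Ne.symm h), map_zero]
  unfold D3 LF.val
  simp only [algebraMap_eq, map_add, map_sum, Derivation.leibniz, pderiv_C, smul_eq_mul, mul_zero,
    zero_add, add_zero, hX, Finset.sum_const_zero, map_mul, eval_C]

lemma D3_eq_coeff {a b c : ι} (hab : a ≠ b) (hac : a ≠ c) (hbc : b ≠ c) (p : MvPolynomial ι K) :
    D3 a b c p = coeff (Finsupp.single a 1 + Finsupp.single b 1 + Finsupp.single c 1) p := by
  classical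
  unfold D3
  rw [eval_zero, constantCoeff_eq, coeff_pderiv, coeff_pderiv, coeff_pderiv]
  simp [Finsupp.single_apply, hab, hac, hbc]

/-! ### The adjoint method -/

variable [Fintype ι] {U V W : Type} (eU : U → ι) (eV : V → ι) (eW : W → ι)
  (g : ℕ → MvPolynomial ι K) (α β : ℕ → LF K ι) (M : ℕ)
  (hg : ∀ r < M, g r = (α r).val X r g * (β r).val X r g)

include hg

lemma adj2 (m : ℕ) (hm : m ≤ M) : ∀ c : ℕ → U → K, ∃ w : ℕ → U → K, ∀ (u : U) (v : V) (x : W),
    ∑ s ∈ Finset.range m, c s u * D2 (eV v) (eW x) (g s) = ∑ s ∈ Finset.range m, w s u *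
      (D1 (eV v) ((α s).val X s g) * D1 (eW x) ((β s).val X s g) +
        D1 (eW x) ((α s).val X s g) * D1 (eV v) ((β s).val X s g)) := by
  induction m with
  | zero => intro c; exact ⟨c, fun _ _ _ => by simp⟩
  | succ m ih =>
    intro c
    obtain ⟨w, hw⟩ := ih (by omega) fun s u => c s u + c m u *
      (D0 ((α m).val X m g) * (β m).r s + D0 ((β m).val X m g) * (α m).r s)
    refine ⟨fun s u => if s = m then c m u else w s u, fun u v x => ?_⟩
    rw [Finset.sum_range_succ, Finset.sum_range_succ, hg m (by omega), D2_mul, D2_val, D2_val]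
    have h1 : ∑ s ∈ Finset.range m, (if s = m then c m u else w s u) *
        (D1 (eV v) ((α s).val X s g) * D1 (eW x) ((β s).val X s g) +
        D1 (eW x) ((α s).val X s g) * D1 (eV v) ((β s).val X s g)) =
        ∑ s ∈ Finset.range m, w s u *
        (D1 (eV v) ((α s).val X s g) * D1 (eW x) ((β s).val X s g) +
        D1 (eW x) ((α s).val X s g) * D1 (eV v) ((β s).val X s g)) := by
      refine Finset.sum_congr rfl fun s hs => ?_
      rw [if_neg (by have := Finset.mem_range.mp hs; omega)]
    have h1' : (if m = m then c m u else w m u) = c m u := if_pos rfl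
    show _ = _ + (if m = m then c m u else w m u) * _
    rw [h1, ← hw u v x, h1']
    simp only [add_mul, mul_add, Finset.sum_add_distrib, Finset.mul_sum]
    have h2 : ∀ (a : K) (r : ℕ → K), ∑ s ∈ Finset.range m, c m u * (a * (r s *
        D2 (eV v) (eW x) (g s))) = ∑ s ∈ Finset.range m, c m u * (a * r s) *
          D2 (eV v) (eW x) (g s) := fun a r => Finset.sum_congr rfl fun s _ => by ring
    rw [h2, h2]
    ring

lemma adj3 (m : ℕ) (hm : m ≤ M) : ∀ c : ℕ → K, ∃ (cA : ℕ → U → K) (cB : ℕ → V → K)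
    (cC : ℕ → W → K), ∀ (u : U) (v : V) (x : W),
    ∑ s ∈ Finset.range m, c s * D3 (eU u) (eV v) (eW x) (g s) =
      ∑ s ∈ Finset.range m, cA s u * D2 (eV v) (eW x) (g s) +
      ∑ s ∈ Finset.range m, cB s v * D2 (eU u) (eW x) (g s) +
      ∑ s ∈ Finset.range m, cC s x * D2 (eU u) (eV v) (g s) := by
  induction m with
  | zero => intro c; exact ⟨fun _ _ => 0, fun _ _ => 0, fun _ _ => 0, fun _ _ _ => by simp⟩
  | succ m ih =>
    intro c
    obtain ⟨cA, cB, cC, h⟩ := ih (by omega) fun s => c s + c m *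
      (D0 ((α m).val X m g) * (β m).r s + D0 ((β m).val X m g) * (α m).r s)
    let T : {J : Type} → (J → ι) → (ℕ → J → K) → ℕ → J → K := fun e w s j =>
      if s = m then 0 else w s j + c m * (D1 (e j) ((α m).val X m g) * (β m).r s +
        D1 (e j) ((β m).val X m g) * (α m).r s)
    have hT : ∀ {J : Type} (e : J → ι) (w : ℕ → J → K) (j : J) (y : ℕ → K),
        ∑ s ∈ Finset.range (m + 1), T e w s j * y s = ∑ s ∈ Finset.range m, w s j * y s +
          c m * (D1 (e j) ((α m).val X m g) * ∑ s ∈ Finset.range m, (β m).r s * y s +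
            D1 (e j) ((β m).val X m g) * ∑ s ∈ Finset.range m, (α m).r s * y s) := by
      intro J e w j y
      rw [Finset.sum_range_succ]
      have h1 : T e w m j = 0 := if_pos rfl
      rw [h1, zero_mul, add_zero, Finset.mul_sum, Finset.mul_sum, ← Finset.sum_add_distrib,
        Finset.mul_sum, ← Finset.sum_add_distrib]
      refine Finset.sum_congr rfl fun s hs => ?_
      have h2 : T e w s j = w s j + c m * (D1 (e j) ((α m).val X m g) * (β m).r s +
        D1 (e j) ((β m).val X m g) * (α m).r s) :=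
        if_neg (by have := Finset.mem_range.mp hs; omega)
      rw [h2]
      ring
    refine ⟨T eU cA, T eV cB, T eW cC, fun u v x => ?_⟩
    rw [hT, hT, hT, Finset.sum_range_succ, hg m (by omega), D3_mul, D3_val, D3_val, D2_val, D2_val,
      D2_val, D2_val, D2_val, D2_val]
    have h3 := h u v x
    have h4 : ∑ s ∈ Finset.range m, (c s + c m *
        (D0 ((α m).val X m g) * (β m).r s + D0 ((β m).val X m g) * (α m).r s)) *
          D3 (eU u) (eV v) (eW x) (g s) =
        ∑ s ∈ Finset.range m, c s * D3 (eU u) (eV v) (eW x) (g s) + c m *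
          (D0 ((α m).val X m g) * ∑ s ∈ Finset.range m, (β m).r s *
            D3 (eU u) (eV v) (eW x) (g s) + D0 ((β m).val X m g) *
            ∑ s ∈ Finset.range m, (α m).r s * D3 (eU u) (eV v) (eW x) (g s)) := by
      rw [Finset.mul_sum, Finset.mul_sum, ← Finset.sum_add_distrib,
        Finset.mul_sum, ← Finset.sum_add_distrib]
      refine Finset.sum_congr rfl fun s hs => ?_
      ring
    rw [h4] at h3
    linear_combination h3

end

/-- **The trilinear part of a polynomial which can be computed with `M` multiplications has rank at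
most `6 M`.** -/
theorem rank_le {K ι U V W : Type} [Field K] [Fintype ι] (eU : U → ι) (eV : V → ι) (eW : W → ι)
    {M : ℕ} {f : MvPolynomial ι K} (h : NSComp K ι Unit M fun _ => f) :
    ∃ (x : Fin 6 × Fin M → U → K) (y : Fin 6 × Fin M → V → K) (z : Fin 6 × Fin M → W → K),
      ∀ (u : U) (v : V) (w : W), D3 (eU u) (eV v) (eW w) f = ∑ t, x t u * y t v * z t w := by
  obtain ⟨α, β, o, g, hg, ho⟩ := h
  obtain ⟨cA, cB, cC, h3⟩ := adj3 eU eV eW g α β M hg M le_rfl (o ()).r
  obtain ⟨wA, hA⟩ := adj2 (U := U) eV eW g α β M hg M le_rfl cA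
  obtain ⟨wB, hB⟩ := adj2 (U := V) eU eW g α β M hg M le_rfl cB
  obtain ⟨wC, hC⟩ := adj2 (U := W) eU eV g α β M hg M le_rfl cC
  let A : ℕ → MvPolynomial ι K := fun s => (α s).val X s g
  let B : ℕ → MvPolynomial ι K := fun s => (β s).val X s g
  refine ⟨fun t u => ![wA t.2 u, wA t.2 u, D1 (eU u) (A t.2), D1 (eU u) (B t.2),
      D1 (eU u) (A t.2), D1 (eU u) (B t.2)] t.1,
    fun t v => ![D1 (eV v) (A t.2), D1 (eV v) (B t.2), wB t.2 v, wB t.2 v,
      D1 (eV v) (B t.2), D1 (eV v) (A t.2)] t.1,
    fun t w => ![D1 (eW w) (B t.2), D1 (eW w) (A t.2), D1 (eW w) (B t.2), D1 (eW w) (A t.2),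
      wC t.2 w, wC t.2 w] t.1, fun u v w => ?_⟩
  have ho' : f = (o ()).val X M g := ho ()
  rw [ho', D3_val, h3 u v w, hA u v w, hB v u w, hC w u v, Fintype.sum_prod_type]
  simp only [Fin.sum_univ_six, Matrix.cons_val_zero, Matrix.cons_val_one, Matrix.cons_val]
  rw [Finset.sum_range, Finset.sum_range, Finset.sum_range, ← Finset.sum_add_distrib,
    ← Finset.sum_add_distrib, ← Finset.sum_add_distrib, ← Finset.sum_add_distrib,
    ← Finset.sum_add_distrib, ← Finset.sum_add_distrib, ← Finset.sum_add_distrib]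
  refine Finset.sum_congr rfl fun s _ => ?_
  show _ = _
  simp only [A, B]
  ring

end Pool.Agent.X242.TD
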