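import Mathlib

/-!
# Zariski closures and tensor powers

If every polynomial which vanishes on `S` vanishes at `x₀`, then the tensor power `x₀ ^ ⊗k` is a
linear combination of at most `(k + 1) ^ |J|` tensor powers `s ^ ⊗k`, `s ∈ S`.
-/

set_option autoImplicit false

namespace Pool.Agent.X242.TD

open MvPolynomial Module

/-- The tensor power. -/
def tpow {K J : Type} [Field K] (k : ℕ) (x : J → K) : (Fin k → J) → K := fun U => ∏ i, x (U i)

section

variable {K J : Type} [Field K] [Fintype J]

open Classical in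
/-- The multiplicity of `j` in `U`. -/
noncomputable def mult {k : ℕ} (U : Fin k → J) (j : J) : Fin (k + 1) :=
  ⟨(Finset.univ.filter fun i => U i = j).card, Nat.lt_succ_of_le (by
    calc _ ≤ (Finset.univ : Finset (Fin k)).card := Finset.card_filter_le _ _
      _ = k := by simp)⟩

lemma tpow_eq (k : ℕ) (x : J → K) (U : Fin k → J) : tpow k x U = ∏ j, x j ^ (mult U j : ℕ) := by
  classical
  unfold tpow mult
  rw [← Finset.prod_fiberwise_of_maps_to (s := Finset.univ) (t := Finset.univ) (g := U)
    (fun _ _ => Finset.mem_univ _)]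
  refine Finset.prod_congr rfl fun j _ => ?_
  simp only
  rw [← Finset.prod_const]
  refine Finset.prod_congr (by congr) fun i hi => ?_
  rw [(Finset.mem_filter.mp hi).2]

/-- symmetric tensors -/
noncomputable def symMap (k : ℕ) : ((J → Fin (k + 1)) → K) →ₗ[K] ((Fin k → J) → K) where
  toFun e := fun U => e (mult U)
  map_add' _ _ := rfl
  map_smul' _ _ := rfl

lemma tpow_mem_range (k : ℕ) (x : J → K) : tpow k x ∈ LinearMap.range (symMap (K := K) (J := J) k) :=
  ⟨fun m => ∏ j, x j ^ (m j : ℕ), funext fun U => (tpow_eq k x U).symm⟩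

lemma mem_span_tpow {S : Set (J → K)} {x₀ : J → K}
    (H : ∀ h : MvPolynomial J K, (∀ s ∈ S, eval s h = 0) → eval x₀ h = 0) (k : ℕ) :
    tpow k x₀ ∈ Submodule.span K (tpow k '' S) := by
  classical
  by_contra hcon
  obtain ⟨ℓ, h1, h2⟩ := Submodule.exists_le_ker_of_notMem hcon
  let h : MvPolynomial J K := ∑ U : Fin k → J, C (ℓ (Pi.single U 1)) * ∏ i, X (U i)
  have hev : ∀ x : J → K, eval x h = ℓ (tpow k x) := by
    intro x
    have e1 : tpow k x = ∑ U : Fin k → J, tpow k x U • (Pi.single U 1 : (Fin k → J) → K) := by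
      funext U'
      rw [Finset.sum_apply, Finset.sum_eq_single U']
      · simp
      · intro U _ hU
        rw [Pi.smul_apply, Pi.single_eq_of_ne (Ne.symm hU), smul_zero]
      · intro h; exact absurd (Finset.mem_univ _) h
    conv_rhs => rw [e1, map_sum]
    simp only [h, map_sum, map_mul, map_prod, eval_C, eval_X, map_smul, smul_eq_mul]
    exact Finset.sum_congr rfl fun U _ => mul_comm _ _
  apply h1
  rw [← hev]
  refine H h fun s hs => ?_
  rw [hev]
  exact h2 (Submodule.subset_span ⟨s, hs, rfl⟩)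

/-- **Tensor powers of points of the Zariski closure.** -/
theorem tpow_closure {S : Set (J → K)} {x₀ : J → K}
    (H : ∀ h : MvPolynomial J K, (∀ s ∈ S, eval s h = 0) → eval x₀ h = 0) (k : ℕ) :
    ∃ (D : ℕ) (s : Fin D → J → K) (c : Fin D → K), D ≤ (k + 1) ^ Fintype.card J ∧
      (∀ i, s i ∈ S) ∧ ∀ U : Fin k → J, tpow k x₀ U = ∑ i, c i * tpow k (s i) U := by
  classical
  obtain ⟨b, hb1, hb2, hb3⟩ := exists_linearIndependent K (tpow k '' S)
  have hle : Submodule.span K b ≤ LinearMap.range (symMap (K := K) (J := J) k) := by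
    rw [Submodule.span_le]
    intro y hy
    obtain ⟨x, -, rfl⟩ := hb1 hy
    exact tpow_mem_range k x
  have hfin : b.Finite := hb3.setFinite
  have : Fintype b := hfin.fintype
  have hcard : Fintype.card b ≤ (k + 1) ^ Fintype.card J := by
    have h1 : finrank K (Submodule.span K b) = Fintype.card b := by
      have := finrank_span_eq_card hb3
      rwa [Subtype.range_coe] at this
    have h2 := Submodule.finrank_mono hle
    have h3 : finrank K (LinearMap.range (symMap (K := K) (J := J) k)) ≤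
        finrank K ((J → Fin (k + 1)) → K) := LinearMap.finrank_range_le _
    rw [finrank_fintype_fun_eq_card, Fintype.card_fun, Fintype.card_fin] at h3
    omega
  have hmem : tpow k x₀ ∈ Submodule.span K (Set.range ((↑) : b → (Fin k → J) → K)) := by
    rw [Subtype.range_coe, hb2]
    exact mem_span_tpow H k
  obtain ⟨c, hc⟩ := (Submodule.mem_span_range_iff_exists_fun K).mp hmem
  have hsel : ∀ y : b, ∃ x ∈ S, tpow k x = y := fun y => hb1 y.2
  choose x hx1 hx2 using hsel
  let e := Fintype.equivFin b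
  refine ⟨Fintype.card b, fun i => x (e.symm i), fun i => c (e.symm i), hcard,
    fun i => hx1 _, fun U => ?_⟩
  rw [← hc, Finset.sum_apply]
  simp only [hx2, Pi.smul_apply, smul_eq_mul]
  exact (Equiv.sum_comp e.symm fun y : b => c y * (y : (Fin k → J) → K) U).symm

end

/-- If `x ^ k ≤ (k + 1) ^ N * y ^ k` for all `k` then `x ≤ y`. -/
lemma le_of_pow_le {x y : ℝ} (hx : 0 ≤ x) (hy : 0 ≤ y) (N : ℕ)
    (H : ∀ k : ℕ, x ^ k ≤ ((k : ℝ) + 1) ^ N * y ^ k) : x ≤ y := by
  by_contra hcon
  push Not at hcon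
  rcases hy.eq_or_lt with rfl | hy0
  · have := H 1
    simp at this
    linarith
  set r : ℝ := x / y with hr
  have hr1 : 1 < r := by rw [hr, lt_div_iff₀ hy0]; linarith
  have h1 : ∀ k : ℕ, r ^ k ≤ ((k : ℝ) + 1) ^ N := by
    intro k
    rw [hr, div_pow, div_le_iff₀ (pow_pos hy0 k)]
    exact H k
  have h2 := tendsto_pow_const_div_const_pow_of_one_lt N hr1
  have h3 : Filter.Tendsto (fun k : ℕ => (((k + 1 : ℕ) : ℝ) ^ N / r ^ (k + 1)) * r)
      Filter.atTop (nhds (0 * r)) :=
    ((Filter.tendsto_add_atTop_iff_nat 1).mpr h2).mul_const r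
  rw [zero_mul] at h3
  obtain ⟨k, hk⟩ := ((h3.eventually (gt_mem_nhds (zero_lt_one' ℝ)))).exists
  have h4 := h1 k
  have hrk : 0 < r ^ k := pow_pos (by linarith) k
  have h5 : ((k + 1 : ℕ) : ℝ) ^ N / r ^ (k + 1) * r = ((k : ℝ) + 1) ^ N / r ^ k := by
    rw [pow_succ]
    have : r ≠ 0 := by linarith
    push_cast
    field_simp
  rw [h5, div_lt_one hrk] at hk
  linarith

end Pool.Agent.X242.TD
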