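import Pool.Agent.X242.TD1
import Pool.Agent.X242.TD2
import Pool.Agent.W239.VF.Ad

/-!
# Cubic forms in the closure and the exponent of matrix multiplication
-/

set_option autoImplicit false

namespace Pool.Agent.X242.TD

open MvPolynomial Pool.Agent.W966.Vg Pool.Agent.H515R2.MMR

/-- Exact decompositions over a field of characteristic zero. -/
lemma rank_omega {K : Type} [Field K] [CharZero K] {m R : ℕ} (hm : 0 < m)
    (a b c : Fin R → Fin m → Fin m → K)
    (h : ∀ i j j' k k' l : Fin m, ∑ t : Fin R, a t i j * b t j' k * c t k' l =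
      if j = j' ∧ k = k' ∧ l = i then 1 else 0) : (m : ℝ) ^ omega ≤ R := by
  refine Pool.Agent.W239.VF.main K m R 0 (fun t i j => PowerSeries.C (a t i j))
    (fun t i j => PowerSeries.C (b t i j)) (fun t i j => PowerSeries.C (c t i j)) hm ?_
  intro i j j' k k' l d hd
  obtain rfl : d = 0 := by omega
  rw [map_sum]
  simp only [← map_mul, PowerSeries.coeff_zero_C, h, true_and]

/-- **Cubic forms in the closure.** -/
theorem omega_le_of_closure {K ι : Type} [Field K] [CharZero K] [Fintype ι] {n M : ℕ} (hn : 0 < n)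
    (eA eB eC : Fin n × Fin n → ι) (hAB : ∀ u v, eA u ≠ eB v) (hAC : ∀ u v, eA u ≠ eC v)
    (hBC : ∀ u v, eB u ≠ eC v) (f : MvPolynomial ι K)
    (hf : ∀ i j j' k k' l : Fin n, D3 (eA (i, j)) (eB (j', k)) (eC (k', l)) f =
      if j = j' ∧ k = k' ∧ l = i then 1 else 0)
    (h : InClosure {g : Unit → MvPolynomial ι K | NSComp K ι Unit M g} fun _ => f) :
    (n : ℝ) ^ omega ≤ 6 * M := by
  classical
  let J : Type := (Fin n × Fin n) × (Fin n × Fin n) × (Fin n × Fin n)
  let T : MvPolynomial ι K → J → K := fun g j => D3 (eA j.1) (eB j.2.1) (eC j.2.2) g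
  let S : Set (J → K) := {x | ∃ g, NSComp K ι Unit M (fun _ => g) ∧ x = T g}
  let mon : J → Unit × (ι →₀ ℕ) := fun j => ((), Finsupp.single (eA j.1) 1 +
    Finsupp.single (eB j.2.1) 1 + Finsupp.single (eC j.2.2) 1)
  have hT : ∀ (g : Unit → MvPolynomial ι K) (q : MvPolynomial J K),
      eval (fun p : Unit × (ι →₀ ℕ) => coeff p.2 (g p.1)) (rename mon q) = eval (T (g ())) q := by
    intro g q
    rw [eval_rename]
    congr 1
    congr 1
    funext j
    exact (D3_eq_coeff (hAB _ _) (hAC _ _) (hBC _ _) (g ())).symm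
  have hS : ∀ q : MvPolynomial J K, (∀ s ∈ S, eval s q = 0) → eval (T f) q = 0 := by
    intro q hq
    rw [← hT (fun _ => f) q]
    refine h _ fun g hg => ?_
    rw [hT]
    exact hq _ ⟨g (), hg, rfl⟩
  refine le_of_pow_le (by positivity) (by positivity) (Fintype.card J) fun k => ?_
  obtain ⟨D, s, c, hD, hs, hsum⟩ := tpow_closure hS k
  choose g hg hsg using hs
  choose x y z hxyz using fun i => rank_le eA eB eC (hg i)
  let e : (Fin k → Fin n) ≃ Fin (n ^ k) := finFunctionFinEquiv
  let R : Type := Fin D × (Fin k → Fin 6 × Fin M)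
  let eR : Fin (Fintype.card R) ≃ R := (Fintype.equivFin R).symm
  have hcard : (Fintype.card R : ℝ) = D * (6 * M) ^ k := by
    have : Fintype.card R = D * (6 * M) ^ k := by
      simp [R, Fintype.card_prod, Fintype.card_fun]
    rw [this]
    push_cast
    ring
  have key := rank_omega (K := K) (m := n ^ k) (R := Fintype.card R) (pow_pos hn k)
    (fun t p q => c (eR t).1 * ∏ l, x (eR t).1 ((eR t).2 l) (e.symm p l, e.symm q l))
    (fun t p q => ∏ l, y (eR t).1 ((eR t).2 l) (e.symm p l, e.symm q l))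
    (fun t p q => ∏ l, z (eR t).1 ((eR t).2 l) (e.symm p l, e.symm q l)) (by
    intro i j j' k₁ k₂ l
    have e1 : ∑ t : Fin (Fintype.card R),
        c (eR t).1 * (∏ a, x (eR t).1 ((eR t).2 a) (e.symm i a, e.symm j a)) *
          (∏ a, y (eR t).1 ((eR t).2 a) (e.symm j' a, e.symm k₁ a)) *
          (∏ a, z (eR t).1 ((eR t).2 a) (e.symm k₂ a, e.symm l a)) =
        ∑ r : R, c r.1 * (∏ a, x r.1 (r.2 a) (e.symm i a, e.symm j a)) *
          (∏ a, y r.1 (r.2 a) (e.symm j' a, e.symm k₁ a)) *
          (∏ a, z r.1 (r.2 a) (e.symm k₂ a, e.symm l a)) :=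
      Equiv.sum_comp eR fun r : R => c r.1 * (∏ a, x r.1 (r.2 a) (e.symm i a, e.symm j a)) *
          (∏ a, y r.1 (r.2 a) (e.symm j' a, e.symm k₁ a)) *
          (∏ a, z r.1 (r.2 a) (e.symm k₂ a, e.symm l a))
    rw [e1]
    let U : Fin k → J := fun a =>
      ((e.symm i a, e.symm j a), (e.symm j' a, e.symm k₁ a), (e.symm k₂ a, e.symm l a))
    have e2 : ∑ r : R, c r.1 * (∏ a, x r.1 (r.2 a) (e.symm i a, e.symm j a)) *
          (∏ a, y r.1 (r.2 a) (e.symm j' a, e.symm k₁ a)) *
          (∏ a, z r.1 (r.2 a) (e.symm k₂ a, e.symm l a)) = tpow k (T f) U := by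
      rw [hsum U]
      show ∑ r : Fin D × (Fin k → Fin 6 × Fin M), _ = _
      rw [Fintype.sum_prod_type]
      refine Finset.sum_congr rfl fun d _ => ?_
      unfold tpow
      have e3 : ∀ a, s d (U a) = ∑ t, x d t (U a).1 * y d t (U a).2.1 * z d t (U a).2.2 := by
        intro a
        rw [hsg d]
        exact hxyz d _ _ _
      simp only [e3]
      rw [Finset.prod_univ_sum, Finset.mul_sum]
      refine Finset.sum_congr (by simp) fun r _ => ?_
      rw [Finset.prod_mul_distrib, Finset.prod_mul_distrib]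
      ring
    rw [e2]
    unfold tpow
    have e4 : ∀ a, T f (U a) = if e.symm j a = e.symm j' a ∧ e.symm k₁ a = e.symm k₂ a ∧
        e.symm l a = e.symm i a then 1 else 0 := fun a => hf _ _ _ _ _ _
    simp only [e4]
    rw [Finset.prod_ite_zero]
    simp only [Finset.mem_univ, true_imp_iff, Finset.prod_const_one, forall_and]
    have e5 : ∀ p q : Fin (n ^ k), (∀ a, e.symm p a = e.symm q a) ↔ p = q := by
      intro p q
      rw [← funext_iff, e.symm.injective.eq_iff]
    simp only [e5])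
  have h1 : (((n ^ k : ℕ) : ℝ)) ^ omega = ((n : ℝ) ^ omega) ^ k := by
    push_cast
    rw [← Real.rpow_natCast, ← Real.rpow_mul (Nat.cast_nonneg n), mul_comm,
      Real.rpow_mul (Nat.cast_nonneg n), Real.rpow_natCast]
  rw [h1, hcard] at key
  refine key.trans (mul_le_mul_of_nonneg_right ?_ (by positivity))
  exact_mod_cast hD

end Pool.Agent.X242.TD
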