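import Pool.Agent.X242.DR3
import Mathlib.NumberTheory.LSeries.Basic

/-!
# Universal rational weights for the leading coefficients of Dirichlet series

For every `r` there are rational numbers `ρ_N(n)`, for every `N` almost all of them zero, such that `∑_n ρ_N(n) a_n`
converges to `c` for every Dirichlet series `∑ a_n n^{-s}` which converges absolutely for `Re s > 1` and has a
continuation which is meromorphic at the points of `[0, 1]` and of the form `c s^r + O(s^{r+1})` at `0`.
-/

set_option autoImplicit false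

namespace Pool.Agent.X242.DR

open Complex MeasureTheory Filter Topology Set Asymptotics
open scoped Interval ComplexConjugate
open Pool.Agent.W189.ML Pool.Agent.W187.UR

/-- the polynomial in `γ` with values `iteratedDeriv k (HH γ) 0` -/
noncomputable def hpoly (k : ℕ) : Polynomial ℂ :=
  ∑ i ∈ Finset.range (k + 1), Polynomial.C ((k.choose i : ℂ) * I ^ i *
    iteratedDeriv (k - i) (fun t : ℂ => (Complex.Gamma (1 + t))⁻¹) 0) * Polynomial.X ^ i

theorem hpoly_eval (k : ℕ) (γ : ℝ) : iteratedDeriv k (HH γ) 0 = (hpoly k).eval (γ : ℂ) := by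
  have h1 : HH γ = (fun t : ℂ => exp ((γ * I) * t)) * fun t : ℂ => (Complex.Gamma (1 + t))⁻¹ := by
    funext t
    unfold HH
    rw [Pi.mul_apply]
    congr 2
    ring
  have hG : Differentiable ℂ (fun t : ℂ => (Complex.Gamma (1 + t))⁻¹) :=
    Complex.differentiable_one_div_Gamma.comp (by fun_prop)
  have hE : Differentiable ℂ (fun t : ℂ => exp ((γ * I) * t)) := by fun_prop
  rw [h1, iteratedDeriv_mul hE.contDiff.contDiffAt hG.contDiff.contDiffAt]
  unfold hpoly
  rw [Polynomial.eval_finsetSum]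
  refine Finset.sum_congr rfl fun i _ => ?_
  rw [iteratedDeriv_cexp_const_mul]
  simp only [mul_zero, Complex.exp_zero, mul_one, Polynomial.eval_mul, Polynomial.eval_C,
    Polynomial.eval_pow, Polynomial.eval_X]
  rw [mul_pow]
  ring

theorem hpoly_ne (k : ℕ) : hpoly k ≠ 0 := by
  intro h
  have h1 : (hpoly k).coeff k = 0 := by rw [h]; simp
  unfold hpoly at h1
  rw [Polynomial.finsetSum_coeff, Finset.sum_eq_single k] at h1
  · rw [Polynomial.coeff_C_mul, Polynomial.coeff_X_pow, if_pos rfl] at h1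
    simp at h1
  · intro i _ hik
    rw [Polynomial.coeff_C_mul, Polynomial.coeff_X_pow, if_neg (Ne.symm hik), mul_zero]
  · intro h2
    exact absurd (Finset.self_mem_range_succ k) h2

/-- There is a rotation with `C_k(γ) ≠ 0`. -/
theorem exists_rot (k : ℕ) : ∃ γ : ℝ, Real.pi / 2 < γ ∧ Ck k γ ≠ 0 := by
  by_contra hcon
  push Not at hcon
  apply hpoly_ne k
  refine Polynomial.eq_zero_of_infinite_isRoot _ ?_
  have h1 : ((fun x : ℝ => (x : ℂ)) '' Set.Ioi (Real.pi / 2)).Infinite :=
    (Set.Ioi_infinite _).image (Complex.ofReal_injective.injOn)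
  refine h1.mono ?_
  rintro _ ⟨γ, hγ, rfl⟩
  have h2 := hcon γ hγ
  unfold Ck at h2
  have h3 : iteratedDeriv k (HH γ) 0 = 0 := by
    rcases mul_eq_zero.1 h2 with h | h
    · exact absurd h (pow_ne_zero _ (by norm_num))
    · exact h
  rw [hpoly_eval] at h3
  exact h3

/-- `C_k(γ) = 0` only for finitely many `γ`. -/
theorem rot_finite (k : ℕ) : {γ : ℝ | Ck k γ = 0}.Finite := by
  by_contra hcon
  apply hpoly_ne k
  refine Polynomial.eq_zero_of_infinite_isRoot _ ?_
  have h1 : ((fun x : ℝ => (x : ℂ)) '' {γ : ℝ | Ck k γ = 0}).Infinite :=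
    Set.Infinite.image (Complex.ofReal_injective.injOn) hcon
  refine h1.mono ?_
  rintro _ ⟨γ, hγ, rfl⟩
  have h2 : Ck k γ = 0 := hγ
  unfold Ck at h2
  have h3 : iteratedDeriv k (HH γ) 0 = 0 := by
    rcases mul_eq_zero.1 h2 with h | h
    · exact absurd h (pow_ne_zero _ (by norm_num))
    · exact h
  rw [hpoly_eval] at h3
  exact h3

/-- The real weights `w_T(u) = Re (T^r e^{iγu/T} / (Γ(1 + u/T) C_r(γ)))`. -/
noncomputable def weight (r : ℕ) (γ T u : ℝ) : ℝ :=
  ((T : ℂ) ^ r / Ck r γ * (exp ((γ * (u / T) : ℝ) * I) * (om (u / T) : ℂ))).re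

theorem weight_le (r : ℕ) (γ : ℝ) {T u : ℝ} (hT : 0 < T) (hu : 0 ≤ u) :
    |weight r γ T u| ≤ T ^ r / ‖Ck r γ‖ * (Real.exp (Real.exp (3 * T)) + 1) *
      Real.exp (-(3 * u)) := by
  unfold weight
  refine (Complex.abs_re_le_norm _).trans ?_
  have h1 : 0 ≤ u / T := div_nonneg hu hT.le
  have h2 := om_le (a := 3 * T) (v := u / T) (by positivity) h1
  have h3 : 3 * T * (u / T) = 3 * u := by field_simp
  rw [h3] at h2
  rw [norm_mul, norm_mul, norm_div, norm_pow, Complex.norm_exp_ofReal_mul_I, one_mul,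
    Complex.norm_real, Complex.norm_real, Real.norm_eq_abs, Real.norm_eq_abs, abs_of_pos hT,
    abs_of_nonneg (om_nonneg h1), mul_assoc]
  exact mul_le_mul_of_nonneg_left h2 (by positivity)

/-- The law for series with real coefficients. -/
theorem DData.real_law {ι : Type} {lam c : ι → ℝ} {Φ : ℂ → ℂ} (D : DData lam c Φ) (r : ℕ) (A : ℝ)
    {γ : ℝ} (hγ : Real.pi / 2 < γ) (hC : Ck r γ ≠ 0)
    (h : (fun w : ℂ => Φ w - A * w ^ r) =O[𝓝[≠] 0] fun w : ℂ => w ^ (r + 1)) :
    (fun T : ℝ => (∑' i, c i * weight r γ T (lam i)) - A) =O[atTop] fun T : ℝ => 1 / T := by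
  have h1 := D.expansion hγ (r + 1) (fun k => if k = r then A else 0) (by
    refine h.congr_left fun w => ?_
    congr 1
    rw [Finset.sum_eq_single r]
    · simp
    · intro k _ hk
      simp [hk]
    · intro h2
      exact absurd (Finset.self_mem_range_succ r) h2)
  obtain ⟨B, hB⟩ := h1.bound
  refine IsBigO.of_bound (B / ‖Ck r γ‖) ?_
  filter_upwards [hB, eventually_gt_atTop 0] with T hT hT0
  have hTc : (T : ℂ) ≠ 0 := by exact_mod_cast hT0.ne'
  have hs : ∑ k ∈ Finset.range (r + 1), ((if k = r then A else 0 : ℝ) : ℂ) * Ck k γ /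
      (T : ℂ) ^ k = A * Ck r γ / (T : ℂ) ^ r := by
    rw [Finset.sum_eq_single r]
    · simp
    · intro k _ hk
      simp [hk]
    · intro h2
      exact absurd (Finset.self_mem_range_succ r) h2
  simp only [hs] at hT
  have e1 : (∑' i, c i * weight r γ T (lam i)) - A =
      ((T : ℂ) ^ r / Ck r γ * (cmean lam c γ T -
        A * Ck r γ / (T : ℂ) ^ r)).re := by
    have e2 : (T : ℂ) ^ r / Ck r γ * (cmean lam c γ T -
        A * Ck r γ / (T : ℂ) ^ r) =
        (T : ℂ) ^ r / Ck r γ * cmean lam c γ T - A := by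
      field_simp
    rw [e2, Complex.sub_re, Complex.ofReal_re]
    congr 1
    unfold cmean
    have hsum := (D.term_summable γ hT0).of_norm
    rw [← tsum_mul_left, Complex.re_tsum (hsum.mul_left _)]
    refine tsum_congr fun i => ?_
    unfold weight
    rw [← Complex.re_ofReal_mul]
    congr 1
    ring
  rw [e1, Real.norm_eq_abs]
  refine (Complex.abs_re_le_norm _).trans ?_
  rw [norm_mul, norm_div, norm_pow, Complex.norm_real, Real.norm_eq_abs, abs_of_pos hT0,
    Real.norm_eq_abs, abs_of_pos (by positivity)]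
  rw [Real.norm_eq_abs, abs_of_pos (by positivity)] at hT
  calc T ^ r / ‖Ck r γ‖ * ‖cmean lam c γ T - A * Ck r γ / (T : ℂ) ^ r‖
      ≤ T ^ r / ‖Ck r γ‖ * (B * (1 / T ^ (r + 1))) := by gcongr
    _ = B / ‖Ck r γ‖ * (1 / T) := by
      rw [pow_succ]
      field_simp

/-! ### Complex coefficients -/

/-- `Φ` is the Dirichlet series `∑_{n ≥ 1} a_n n^{-s}` for `Re s > 1`, converging absolutely there, and meromorphic at the
points of the segment `[0, 1]`. -/
structure IsSeries (a : ℕ → ℂ) (Φ : ℂ → ℂ) : Prop where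
  summable : ∀ σ : ℝ, 1 < σ → LSeriesSummable a σ
  eq : ∀ s : ℂ, 1 < s.re → Φ s = LSeries a s
  mero : ∀ x : ℝ, 0 ≤ x → x ≤ 1 → MeromorphicAt Φ (x : ℂ)

theorem norm_term_eq (a : ℕ → ℂ) (ha : a 0 = 0) (σ : ℝ) (n : ℕ) :
    ‖LSeries.term a σ n‖ = ‖a n‖ * Real.exp (-(σ * Real.log n)) := by
  rcases Nat.eq_zero_or_pos n with rfl | hn
  · simp [ha]
  · have hn0 : (0 : ℝ) < n := by exact_mod_cast hn
    rw [LSeries.norm_term_eq, if_neg hn.ne', Complex.ofReal_re, div_eq_mul_inv, Real.exp_neg]
    congr 2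
    rw [Real.rpow_def_of_pos hn0, mul_comm]

theorem term_eq (a : ℕ → ℂ) (ha : a 0 = 0) (s : ℂ) (n : ℕ) :
    LSeries.term a s n = a n * exp (-(s * (Real.log n : ℝ))) := by
  rcases Nat.eq_zero_or_pos n with rfl | hn
  · simp [ha]
  · have hn0 : (n : ℂ) ≠ 0 := by exact_mod_cast hn.ne'
    rw [LSeries.term_of_ne_zero hn.ne', div_eq_mul_inv, ← Complex.cpow_neg,
      Complex.cpow_def_of_ne_zero hn0, Complex.natCast_log]
    congr 2
    ring

namespace IsSeries

variable {a : ℕ → ℂ} {Φ : ℂ → ℂ}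

theorem sum (h : IsSeries a Φ) (ha : a 0 = 0) {σ : ℝ} (hσ : 1 < σ) :
    Summable fun n : ℕ => ‖a n‖ * Real.exp (-(σ * Real.log n)) := by
  refine (h.summable σ hσ).norm.congr fun n => ?_
  exact norm_term_eq a ha σ n

theorem hasSum (h : IsSeries a Φ) (ha : a 0 = 0) {s : ℂ} (hs : 1 < s.re) :
    HasSum (fun n : ℕ => a n * exp (-(s * (Real.log n : ℝ)))) (Φ s) := by
  have h1 : Summable fun n : ℕ => a n * exp (-(s * (Real.log n : ℝ))) := by
    refine Summable.of_norm_bounded (h.sum ha hs) fun n => ?_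
    rw [norm_mul, Complex.norm_exp]
    have : (-(s * (Real.log n : ℝ))).re = -(s.re * Real.log n) := by
      rw [Complex.neg_re, Complex.re_mul_ofReal]
    rw [this]
  have h2 : Φ s = ∑' n : ℕ, a n * exp (-(s * (Real.log n : ℝ))) := by
    rw [h.eq s hs]
    unfold LSeries
    exact tsum_congr fun n => term_eq a ha s n
  rw [h2]
  exact h1.hasSum

/-- the series with the conjugate coefficients -/
theorem hasSum_conj (h : IsSeries a Φ) (ha : a 0 = 0) {s : ℂ} (hs : 1 < s.re) :
    HasSum (fun n : ℕ => conj (a n) * exp (-(s * (Real.log n : ℝ)))) (conj (Φ (conj s))) := by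
  have h1 := (h.hasSum ha (s := conj s) (by simpa using hs)).map (starRingEnd ℂ)
    Complex.continuous_conj
  have e : (fun n : ℕ => conj (a n) * exp (-(s * (Real.log n : ℝ)))) =
      (⇑(starRingEnd ℂ) ∘ fun n : ℕ => a n * exp (-(conj s * (Real.log n : ℝ)))) := by
    funext n
    simp only [Function.comp_def]
    rw [map_mul, ← Complex.exp_conj, map_neg, map_mul, Complex.conj_conj, Complex.conj_ofReal]
  rw [e]
  exact h1

theorem re_data (h : IsSeries a Φ) (ha : a 0 = 0) :
    DData (fun n : ℕ => Real.log n) (fun n => (a n).re)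
      (fun s => (Φ s + conj (Φ (conj s))) / 2) where
  cnt := inferInstance
  lam_pos := fun n => Real.log_natCast_nonneg n
  sum := fun σ hσ => by
    refine Summable.of_nonneg_of_le (fun n => by positivity) (fun n => ?_) (h.sum ha hσ)
    exact mul_le_mul_of_nonneg_right (Complex.abs_re_le_norm _) (Real.exp_pos _).le
  mero := fun x h0 h1 => by
    have h2 := h.mero x h0 h1
    exact (h2.fun_add (DData.conj_merom h2)).fun_div (MeromorphicAt.const _ _)
  eq := fun s hs => by
    have h1 := ((h.hasSum ha hs).add (h.hasSum_conj ha hs)).div_const 2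
    rw [← h1.tsum_eq]
    unfold ser
    refine tsum_congr fun n => ?_
    rw [← add_mul, Complex.add_conj]
    push_cast
    ring

theorem im_data (h : IsSeries a Φ) (ha : a 0 = 0) :
    DData (fun n : ℕ => Real.log n) (fun n => (a n).im)
      (fun s => (Φ s - conj (Φ (conj s))) / (2 * I)) where
  cnt := inferInstance
  lam_pos := fun n => Real.log_natCast_nonneg n
  sum := fun σ hσ => by
    refine Summable.of_nonneg_of_le (fun n => by positivity) (fun n => ?_) (h.sum ha hσ)
    exact mul_le_mul_of_nonneg_right (Complex.abs_im_le_norm _) (Real.exp_pos _).le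
  mero := fun x h0 h1 => by
    have h2 := h.mero x h0 h1
    exact (h2.fun_sub (DData.conj_merom h2)).fun_div (MeromorphicAt.const _ _)
  eq := fun s hs => by
    have h1 := ((h.hasSum ha hs).sub (h.hasSum_conj ha hs)).div_const (2 * I)
    rw [← h1.tsum_eq]
    unfold ser
    refine tsum_congr fun n => ?_
    rw [← sub_mul, Complex.sub_conj]
    have := Complex.I_ne_zero
    push_cast
    field_simp

theorem conj_bigO {r : ℕ} {c : ℂ}
    (h : (fun w : ℂ => Φ w - c * w ^ r) =O[𝓝[≠] 0] fun w : ℂ => w ^ (r + 1)) :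
    (fun w : ℂ => conj (Φ (conj w)) - conj c * w ^ r) =O[𝓝[≠] 0] fun w : ℂ => w ^ (r + 1) := by
  have hc : Tendsto (fun z : ℂ => conj z) (𝓝[≠] 0) (𝓝[≠] 0) := by
    refine tendsto_nhdsWithin_iff.2 ⟨?_, ?_⟩
    · have := (Complex.continuous_conj).tendsto (0 : ℂ)
      rw [map_zero] at this
      exact this.mono_left nhdsWithin_le_nhds
    · filter_upwards [self_mem_nhdsWithin] with w hw
      simpa using hw
  obtain ⟨B, hB⟩ := (h.comp_tendsto hc).bound
  refine IsBigO.of_bound B ?_
  filter_upwards [hB] with w hw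
  simp only [Function.comp_def] at hw
  have e1 : conj (Φ (conj w)) - conj c * w ^ r = conj (Φ (conj w) - c * (conj w) ^ r) := by
    rw [map_sub, map_mul, map_pow, Complex.conj_conj]
  rw [e1, Complex.norm_conj]
  refine hw.trans (le_of_eq ?_)
  rw [norm_pow, norm_pow, Complex.norm_conj]

/-- **The law for series with complex coefficients.** -/
theorem law (h : IsSeries a Φ) (ha : a 0 = 0) (r : ℕ) (c : ℂ)
    {γ : ℝ} (hγ : Real.pi / 2 < γ) (hC : Ck r γ ≠ 0)
    (hc : (fun w : ℂ => Φ w - c * w ^ r) =O[𝓝[≠] 0] fun w : ℂ => w ^ (r + 1)) :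
    (fun T : ℝ => (∑' n : ℕ, a n * (weight r γ T (Real.log n) : ℂ)) - c) =O[atTop]
      fun T : ℝ => 1 / T := by
  have hc' := conj_bigO hc
  have h1 := (h.re_data ha).real_law r c.re hγ hC (by
    refine ((hc.add hc').const_mul_left (1 / 2)).congr_left fun w => ?_
    have e1 : ((c.re : ℝ) : ℂ) = (c + conj c) / 2 := by
      rw [Complex.add_conj]
      push_cast
      ring
    rw [e1]
    ring)
  have h2 := (h.im_data ha).real_law r c.im hγ hC (by
    refine ((hc.sub hc').const_mul_left (1 / (2 * I))).congr_left fun w => ?_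
    have e1 : ((c.im : ℝ) : ℂ) = (c - conj c) / (2 * I) := by
      have := Complex.I_ne_zero
      rw [Complex.sub_conj]
      push_cast
      field_simp
    rw [e1]
    ring)
  have h3 : (fun T : ℝ => (((∑' n : ℕ, (a n).re * weight r γ T (Real.log n)) - c.re : ℝ) : ℂ) +
      (((∑' n : ℕ, (a n).im * weight r γ T (Real.log n)) - c.im : ℝ) : ℂ) * I) =O[atTop]
      fun T : ℝ => 1 / T := by
    refine IsBigO.add ?_ ?_
    · obtain ⟨B, hB⟩ := h1.bound
      refine IsBigO.of_bound B ?_
      filter_upwards [hB] with T hT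
      rw [Complex.norm_real]
      exact hT
    · obtain ⟨B, hB⟩ := h2.bound
      refine IsBigO.of_bound B ?_
      filter_upwards [hB] with T hT
      rw [norm_mul, Complex.norm_I, mul_one, Complex.norm_real]
      exact hT
  refine h3.congr' ?_ EventuallyEq.rfl
  filter_upwards [eventually_gt_atTop 0] with T hT0
  -- summability
  have hs : Summable fun n : ℕ => a n * (weight r γ T (Real.log n) : ℂ) := by
    refine Summable.of_norm_bounded ((h.sum ha (σ := 3) (by norm_num)).mul_left
      (T ^ r / ‖Ck r γ‖ * (Real.exp (Real.exp (3 * T)) + 1))) fun n => ?_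
    rw [norm_mul, Complex.norm_real, Real.norm_eq_abs]
    have h4 := weight_le r γ hT0 (Real.log_natCast_nonneg n)
    calc ‖a n‖ * |weight r γ T (Real.log n)| ≤ ‖a n‖ * (T ^ r / ‖Ck r γ‖ *
          (Real.exp (Real.exp (3 * T)) + 1) * Real.exp (-(3 * Real.log n))) :=
          mul_le_mul_of_nonneg_left h4 (norm_nonneg _)
      _ = _ := by ring
  apply Complex.ext
  · have e1 : (∑' n : ℕ, a n * (weight r γ T (Real.log n) : ℂ)).re =
        ∑' n : ℕ, (a n).re * weight r γ T (Real.log n) := by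
      rw [Complex.re_tsum hs]
      exact tsum_congr fun n => by rw [Complex.re_mul_ofReal]
    rw [Complex.sub_re, e1]
    simp
  · have e1 : (∑' n : ℕ, a n * (weight r γ T (Real.log n) : ℂ)).im =
        ∑' n : ℕ, (a n).im * weight r γ T (Real.log n) := by
      rw [Complex.im_tsum hs]
      exact tsum_congr fun n => by rw [Complex.im_mul_ofReal]
    rw [Complex.sub_im, e1]
    simp

end IsSeries

end Pool.Agent.X242.DR
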