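import Pool.Agent.X242.UW2
import Pool.Agent.X298.ST.Main

/-!
# Dirichlet coefficients of Artin `L`-series
-/

set_option autoImplicit false

open Filter Topology Asymptotics
open IsDedekindDomain NumberField

namespace Pool.Agent.X242.AR

open Pool.Agent.X298.ST Pool.Agent.X287.CR Pool.Agent.X242.DR

variable {K L : Type} [Field K] [NumberField K] [Field L] [NumberField L] [Algebra K L]

section defs

variable {S : Set (HeightOneSpectrum (𝓞 K))}

/-- `f(v^k)`: the mean of the values of `f : G → E` on `Frob_v^k`. -/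
noncomputable def meanOn {E : Type} [Field E] (P : Places S → Ideal (𝓞 L)) (f : (L ≃ₐ[K] L) → E)
    (v : Places S) (k : ℕ) : E :=
  (∑ᶠ g ∈ frob P v k, f g) / (frob P v k).ncard

/-- Finite sequences `v_1^{k_1}, …, v_m^{k_m}` of powers of places: `(v, k - 1)` stands for `v^k`. -/
abbrev Words (S : Set (HeightOneSpectrum (𝓞 K))) : Type := Σ m : ℕ, (Fin m → Places S × ℕ)

/-- `∏ q_{v_i}^{k_i}` -/
noncomputable def size (y : Words S) : ℕ := ∏ i, nrm (y.2 i).1 ^ ((y.2 i).2 + 1)

/-- `∏ f(v_i^{k_i}) / k_i / m!` -/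
noncomputable def mass {E : Type} [Field E] (P : Places S → Ideal (𝓞 L)) (f : (L ≃ₐ[K] L) → E)
    (y : Words S) : E :=
  (∏ i, meanOn P f (y.2 i).1 ((y.2 i).2 + 1) / (((y.2 i).2 : E) + 1)) / (y.1.factorial : E)

/-- The coefficient of `n^{-s}` in `exp (∑_{v ∉ S} ∑_{k ≥ 1} f(v^k) q_v^{-ks} / k)`:
`a_n(f) = ∑_m (1 / m!) ∑ ∏_{i ≤ m} f(v_i^{k_i}) / k_i`, over the sequences with `∏ q_{v_i}^{k_i} = n`. -/
noncomputable def coef {E : Type} [Field E] (P : Places S → Ideal (𝓞 L)) (f : (L ≃ₐ[K] L) → E)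
    (n : ℕ) : E :=
  ∑ᶠ y ∈ {y : Words S | size y = n}, mass P f y

end defs

variable {S : Set (HeightOneSpectrum (𝓞 K))} {P : Places S → Ideal (𝓞 L)}

theorem meanOn_eq (f : (L ≃ₐ[K] L) → ℂ) (v : Places S) (k : ℕ) : meanOn P f v k = value P f v k :=
  rfl

theorem two_le (v : Places S) : 2 ≤ nrm v := (qsys S).two_le v

theorem size_pos (y : Words S) : 1 ≤ size y := by
  unfold size
  exact Finset.prod_pos fun i _ => pow_pos (lt_of_lt_of_le Nat.zero_lt_two (two_le (y.2 i).1)) _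

/-- the places of norm at most `n` -/
theorem finite_places (n : ℕ) : {v : Places S | nrm v ≤ n}.Finite := by
  have h1 := (qsys S).sum 2 (by norm_num)
  have h2 := h1.tendsto_cofinite_zero
  have h3 : ∀ᶠ v : Places S in cofinite, (nrm v : ℝ) ^ (-(2 : ℝ)) < ((n : ℝ) + 1) ^ (-(2 : ℝ)) :=
    h2.eventually (gt_mem_nhds (by positivity))
  rw [eventually_cofinite] at h3
  refine h3.subset fun v hv => ?_
  have h4 : nrm v ≤ n := hv
  simp only [Set.mem_ofPred_eq, not_lt]
  have h5 : (0 : ℝ) < nrm v := by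
    have := two_le v
    positivity
  have h6 : (nrm v : ℝ) ≤ (n : ℝ) + 1 := by
    have : (nrm v : ℝ) ≤ n := by exact_mod_cast h4
    linarith
  exact Real.rpow_le_rpow_of_nonpos h5 h6 (by norm_num)

theorem finite_size (n : ℕ) : {y : Words S | size y = n}.Finite := by
  classical
  set B : Finset (Places S) := (finite_places (S := S) n).toFinset with hB
  set F : Finset (Words S) := (Finset.range (n + 1)).sigma fun m =>
    Fintype.piFinset fun _ : Fin m => B ×ˢ Finset.range (n + 1) with hF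
  refine (F.finite_toSet).subset fun y hy => ?_
  have hy' : size y = n := hy
  have h1 : ∀ i, nrm (y.2 i).1 ^ ((y.2 i).2 + 1) ≤ n := by
    intro i
    rw [← hy']
    unfold size
    refine Nat.le_of_dvd (size_pos y) (Finset.dvd_prod_of_mem
      (fun i => nrm (y.2 i).1 ^ ((y.2 i).2 + 1)) (Finset.mem_univ i))
  have h2 : ∀ i, nrm (y.2 i).1 ≤ n := fun i =>
    (Nat.le_self_pow (by omega) _).trans (h1 i)
  have h3 : ∀ i, (y.2 i).2 < n + 1 := by
    intro i
    have h4 : (y.2 i).2 + 1 < 2 ^ ((y.2 i).2 + 1) := Nat.lt_two_pow_self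
    have h5 : 2 ^ ((y.2 i).2 + 1) ≤ nrm (y.2 i).1 ^ ((y.2 i).2 + 1) :=
      Nat.pow_le_pow_left (two_le _) _
    have := h1 i
    omega
  have h6 : 2 ^ y.1 ≤ n := by
    rw [← hy']
    unfold size
    calc 2 ^ y.1 = ∏ _i : Fin y.1, 2 := by simp
      _ ≤ ∏ i, nrm (y.2 i).1 ^ ((y.2 i).2 + 1) := by
        refine Finset.prod_le_prod' fun i _ => ?_
        calc 2 = 2 ^ 1 := rfl
          _ ≤ 2 ^ ((y.2 i).2 + 1) := Nat.pow_le_pow_right (by norm_num) (by omega)
          _ ≤ _ := Nat.pow_le_pow_left (two_le _) _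
  have h7 : y.1 < n + 1 := by
    have : y.1 < 2 ^ y.1 := Nat.lt_two_pow_self
    omega
  rw [hF, Finset.mem_coe, Finset.mem_sigma]
  refine ⟨Finset.mem_range.2 h7, ?_⟩
  rw [Fintype.mem_piFinset]
  intro i
  rw [Finset.mem_product]
  exact ⟨by rw [hB, Set.Finite.mem_toFinset]; exact h2 i, Finset.mem_range.2 (h3 i)⟩

theorem coef_zero {E : Type} [Field E] (f : (L ≃ₐ[K] L) → E) : coef P f 0 = 0 := by
  unfold coef
  have h1 : {y : Words S | size y = 0} = ∅ := by
    ext y
    have := size_pos y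
    simp only [Set.mem_ofPred_eq, Set.mem_empty_iff_false, iff_false]
    omega
  rw [h1]
  simp

/-! ### Equivariance -/

section equiv

variable {E E' : Type} [Field E] [Field E'] (σ : E →+* E')

theorem meanOn_map (f : (L ≃ₐ[K] L) → E) (v : Places S) (k : ℕ) :
    meanOn P (fun g => σ (f g)) v k = σ (meanOn P f v k) := by
  have := fin_gal (K := K) (L := L)
  have hfin : (frob P v k).Finite := Set.toFinite _
  unfold meanOn
  rw [map_div₀, map_natCast, finsum_mem_eq_finite_toFinset_sum _ hfin,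
    finsum_mem_eq_finite_toFinset_sum _ hfin, map_sum]

theorem mass_map (f : (L ≃ₐ[K] L) → E) (y : Words S) :
    mass P (fun g => σ (f g)) y = σ (mass P f y) := by
  unfold mass
  rw [map_div₀, map_natCast, map_prod]
  congr 1
  refine Finset.prod_congr rfl fun i _ => ?_
  rw [map_div₀, meanOn_map, map_add, map_natCast, map_one]

theorem coef_map (f : (L ≃ₐ[K] L) → E) (n : ℕ) :
    coef P (fun g => σ (f g)) n = σ (coef P f n) := by
  unfold coef
  have hfin := finite_size (S := S) n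
  rw [finsum_mem_eq_finite_toFinset_sum _ hfin, finsum_mem_eq_finite_toFinset_sum _ hfin, map_sum]
  exact Finset.sum_congr rfl fun y _ => mass_map σ f y

theorem comb_map [CharZero E] [CharZero E'] (ρ : ℕ →₀ ℚ) (f : (L ≃ₐ[K] L) → E) :
    comb ρ (coef P (fun g => σ (f g))) = σ (comb ρ (coef P f)) := by
  unfold comb Finsupp.sum
  rw [map_sum]
  refine Finset.sum_congr rfl fun n _ => ?_
  show ((ρ n : ℚ) : E') * coef P (fun g => σ (f g)) n = σ (((ρ n : ℚ) : E) * coef P f n)
  rw [coef_map, map_mul, map_ratCast]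

end equiv

/-! ### The Dirichlet series -/

theorem log_size (y : Words S) : Real.log (size y) = ∑ i, lam nrm (y.2 i) := by
  unfold size lam
  push_cast
  rw [Real.log_prod]
  · refine Finset.sum_congr rfl fun i _ => ?_
    rw [Real.log_pow]
    push_cast
    ring
  · intro i _
    have h1 := two_le (y.2 i).1
    have h2 : (nrm (y.2 i).1 : ℝ) ≠ 0 := by
      have : 0 < nrm (y.2 i).1 := by omega
      exact_mod_cast this.ne'
    exact pow_ne_zero _ h2

/-- the term of a word -/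
theorem mass_exp (f : (L ≃ₐ[K] L) → ℂ) (s : ℂ) (y : Words S) :
    (∏ i, (co (fun x : Places S × ℕ => value P f x.1 (x.2 + 1)) (y.2 i) *
      Complex.exp (-(s * lam nrm (y.2 i))))) / (y.1.factorial : ℂ) =
      mass P f y * Complex.exp (-(s * (Real.log (size y) : ℝ))) := by
  rw [Finset.prod_mul_distrib, ← Complex.exp_sum]
  have h1 : ∑ i, -(s * ((lam nrm (y.2 i) : ℝ) : ℂ)) = -(s * (Real.log (size y) : ℝ)) := by
    rw [Finset.sum_neg_distrib, ← Finset.mul_sum, log_size]
    push_cast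
    rfl
  rw [h1]
  have h2 : mass P f y = (∏ i, co (fun x : Places S × ℕ => value P f x.1 (x.2 + 1)) (y.2 i)) /
      (y.1.factorial : ℂ) := rfl
  rw [h2]
  ring

theorem sum_words (P : Places S → Ideal (𝓞 L)) (f : (L ≃ₐ[K] L) → ℂ) {s : ℂ} (hs : 1 < s.re) :
    (Summable fun y : Words S => ‖mass P f y * Complex.exp (-(s * (Real.log (size y) : ℝ)))‖) ∧
      HasSum (fun y : Words S => mass P f y * Complex.exp (-(s * (Real.log (size y) : ℝ))))
        (Complex.exp (logL P f s)) := by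
  obtain ⟨B, hB⟩ := value_le P f
  set b : Places S × ℕ → ℂ := fun x => value P f x.1 (x.2 + 1) with hb
  have h1 : Summable fun x : Places S × ℕ => ‖co b x * Complex.exp (-(s * lam nrm x))‖ := by
    refine (co_summable (qsys S) (b := b) (B := B) (fun x => hB _ _) hs).congr fun x => ?_
    rw [norm_mul, Complex.norm_exp]
    have : (-(s * lam nrm x)).re = -(s.re * lam nrm x) := by
      rw [Complex.neg_re, Complex.re_mul_ofReal]
    rw [this]
  obtain ⟨h2, h3⟩ := exp_series (fun x => co b x * Complex.exp (-(s * lam nrm x))) h1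
  refine ⟨h2.congr fun y => ?_, ?_⟩
  · rw [← mass_exp f s y]
  · have h4 : (∑' x, co b x * Complex.exp (-(s * lam nrm x))) = logL P f s := by
      rw [logL_eq]
      rfl
    rw [h4] at h3
    refine h3.congr_fun fun y => ?_
    exact (mass_exp f s y).symm

theorem coef_eq (f : (L ≃ₐ[K] L) → ℂ) (s : ℂ) (n : ℕ) :
    (∑' y : (size (S := S)) ⁻¹' {n}, mass P f y.1 *
      Complex.exp (-(s * (Real.log (size y.1) : ℝ)))) =
      coef P f n * Complex.exp (-(s * (Real.log n : ℝ))) := by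
  have hfin := finite_size (S := S) n
  have h1 : ∀ y : (size (S := S)) ⁻¹' {n}, mass P f y.1 *
      Complex.exp (-(s * (Real.log (size y.1) : ℝ))) =
      mass P f y.1 * Complex.exp (-(s * (Real.log n : ℝ))) := by
    intro y
    have : size y.1 = n := y.2
    rw [this]
  simp only [h1]
  rw [tsum_mul_right]
  congr 1
  unfold coef
  rw [finsum_mem_eq_finite_toFinset_sum _ hfin]
  have h2 : (size (S := S)) ⁻¹' {n} = (hfin.toFinset : Set (Words S)) := by
    ext y
    simp
  rw [h2]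
  exact Finset.tsum_subtype' hfin.toFinset (mass P f)

theorem coef_norm_le (f : (L ≃ₐ[K] L) → ℂ) (s : ℂ) (n : ℕ) :
    ‖coef P f n * Complex.exp (-(s * (Real.log n : ℝ)))‖ ≤
    (∑' y : (size (S := S)) ⁻¹' {n}, ‖mass P f y.1 *
      Complex.exp (-(s * (Real.log (size y.1) : ℝ)))‖) := by
  rw [← coef_eq]
  have hfin := finite_size (S := S) n
  have : Finite ((size (S := S)) ⁻¹' {n}) := hfin.to_subtype
  exact norm_tsum_le_tsum_norm Summable.of_finite

/-- **`L_S(s, f) = ∑ a_n(f) n^{-s}`.** -/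
theorem series (P : Places S → Ideal (𝓞 L)) (f : (L ≃ₐ[K] L) → ℂ) {s : ℂ} (hs : 1 < s.re) :
    LSeriesSummable (coef P f) s ∧ LSeries (coef P f) s = Complex.exp (logL P f s) := by
  obtain ⟨h1, h2⟩ := sum_words P f hs
  have h3 := h2.tsum_fiberwise (size (S := S))
  have h4 := h1.hasSum.tsum_fiberwise (size (S := S))
  simp only [coef_eq] at h3
  have e1 : ∀ n, LSeries.term (coef P f) s n =
      coef P f n * Complex.exp (-(s * (Real.log n : ℝ))) := fun n => term_eq _ (coef_zero f) s n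
  refine ⟨?_, ?_⟩
  · unfold LSeriesSummable
    refine Summable.of_norm_bounded h4.summable fun n => ?_
    rw [e1]
    exact coef_norm_le f s n
  · unfold LSeries
    simp only [e1]
    exact h3.tsum_eq

theorem isSeries {f : (L ≃ₐ[K] L) → ℂ} {Λ : ℂ → ℂ} (h : IsArtinL P f Λ) :
    IsSeries (coef P f) Λ where
  summable := fun σ hσ => (series P f (s := (σ : ℂ)) (by simpa using hσ)).1
  eq := fun s hs => by rw [h.eq s hs, (series P f hs).2]
  mero := h.mero

/-- order and leading coefficient -/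
theorem lead_bigO {Λ : ℂ → ℂ} {r : ℕ} (hm : MeromorphicAt Λ 0)
    (hr : meromorphicOrderAt Λ 0 = (r : ℤ)) :
    lead Λ ≠ 0 ∧ (fun w : ℂ => Λ w - lead Λ * w ^ r) =O[𝓝[≠] 0] fun w : ℂ => w ^ (r + 1) := by
  obtain ⟨g, hg1, hg2, hg3⟩ := (meromorphicOrderAt_eq_int_iff hm).1 hr
  have h1 : lead Λ = g 0 := hg1.meromorphicTrailingCoeffAt_of_ne_zero_of_eq_nhdsNE hg2 hg3
  rw [h1]
  refine ⟨hg2, ?_⟩
  have h2 := hg1.differentiableAt.isBigO_sub
  simp only [sub_zero] at h2
  have h3 : (fun w : ℂ => w ^ r * (g w - g 0)) =O[𝓝[≠] 0] fun w : ℂ => w ^ (r + 1) := by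
    refine ((isBigO_refl (fun w : ℂ => w ^ r) (𝓝[≠] 0)).mul
      (h2.mono nhdsWithin_le_nhds)).congr_right fun w => ?_
    ring
  refine h3.congr' ?_ EventuallyEq.rfl
  filter_upwards [hg3] with w hw
  rw [hw, sub_zero, smul_eq_mul, zpow_natCast]
  ring

/-- **The approximations converge.** -/
theorem comb_lead {f : (L ≃ₐ[K] L) → ℂ} {Λ : ℂ → ℂ} (h : IsArtinL P f Λ) {r : ℕ}
    (hr : meromorphicOrderAt Λ 0 = (r : ℤ)) {γ : ℝ} (hγ : Real.pi / 2 < γ) (hC : Ck r γ ≠ 0)
    {ρ : ℕ → ℕ →₀ ℚ} (hρ : IsRational r γ ρ) :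
    lead Λ ≠ 0 ∧ (fun N : ℕ => comb (ρ N) (coef P f) - lead Λ) =O[atTop]
      (fun N : ℕ => 1 / (N : ℝ)) ∧
      Tendsto (fun N : ℕ => comb (ρ N) (coef P f)) atTop (𝓝 (lead Λ)) := by
  have hm : MeromorphicAt Λ 0 := by
    have := h.mero 0 le_rfl zero_le_one
    simpa using this
  obtain ⟨h1, h2⟩ := lead_bigO hm hr
  have h3 := (isSeries h).universal (coef_zero f) r (lead Λ) hγ hC h2 hρ
  refine ⟨h1, h3, ?_⟩
  have h4 : Tendsto (fun N : ℕ => comb (ρ N) (coef P f) - lead Λ) atTop (𝓝 0) :=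
    h3.trans_tendsto tendsto_one_div_atTop_nhds_zero_nat
  have h5 := h4.add_const (lead Λ)
  simpa using h5

end Pool.Agent.X242.AR
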