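import Pool.Agent.X242.UW3

/-!
# Dirichlet coefficients of exponentials `exp (∑_{v,k} f(v,k) q_v^{-ks} / k)`
-/

set_option autoImplicit false

open Filter Topology Asymptotics
open IsDedekindDomain NumberField

namespace Pool.Agent.X242.AR

open Pool.Agent.X298.ST Pool.Agent.X287.CR Pool.Agent.X242.DR

variable {K : Type} [Field K] [NumberField K]
variable {S : Set (HeightOneSpectrum (𝓞 K))}

/-- `∏ f(v_i, k_i) / k_i / m!` -/
noncomputable def massV {E : Type} [Field E] (f : Places S → ℕ → E) (y : Words S) : E :=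
  (∏ i, f (y.2 i).1 ((y.2 i).2 + 1) / (((y.2 i).2 : E) + 1)) / (y.1.factorial : E)

/-- The coefficient of `n^{-s}` in `exp (∑_{v ∉ S} ∑_{k ≥ 1} f(v,k) q_v^{-ks} / k)`:
`a_n(f) = ∑_m (1 / m!) ∑ ∏_{i ≤ m} f(v_i, k_i) / k_i`, over the sequences with `∏ q_{v_i}^{k_i} = n`. -/
noncomputable def coefV {E : Type} [Field E] (f : Places S → ℕ → E) (n : ℕ) : E :=
  ∑ᶠ y ∈ {y : Words S | size y = n}, massV f y

theorem coefV_zero {E : Type} [Field E] (f : Places S → ℕ → E) : coefV f 0 = 0 := by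
  unfold coefV
  have h1 : {y : Words S | size y = 0} = ∅ := by
    ext y
    have := size_pos y
    simp only [Set.mem_ofPred_eq, Set.mem_empty_iff_false, iff_false]
    omega
  rw [h1]
  simp

section equiv

variable {E E' : Type} [Field E] [Field E'] (σ : E →+* E')

theorem massV_map (f : Places S → ℕ → E) (y : Words S) :
    massV (fun v k => σ (f v k)) y = σ (massV f y) := by
  unfold massV
  rw [map_div₀, map_natCast, map_prod]
  congr 1
  refine Finset.prod_congr rfl fun i _ => ?_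
  rw [map_div₀, map_add, map_natCast, map_one]

theorem coefV_map (f : Places S → ℕ → E) (n : ℕ) :
    coefV (fun v k => σ (f v k)) n = σ (coefV f n) := by
  unfold coefV
  have hfin := finite_size (S := S) n
  rw [finsum_mem_eq_finite_toFinset_sum _ hfin, finsum_mem_eq_finite_toFinset_sum _ hfin, map_sum]
  exact Finset.sum_congr rfl fun y _ => massV_map σ f y

/-- scaling by `q_v^k` -/
theorem massV_scale (f : Places S → ℕ → E) (y : Words S) :
    massV (fun v k => (nrm v : E) ^ k * f v k) y = (size y : E) * massV f y := by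
  unfold massV size
  push_cast
  rw [← mul_div_assoc, ← Finset.prod_mul_distrib]
  congr 1
  refine Finset.prod_congr rfl fun i _ => ?_
  rw [mul_div_assoc]

theorem coefV_scale (f : Places S → ℕ → E) (n : ℕ) :
    coefV (fun v k => (nrm v : E) ^ k * f v k) n = (n : E) * coefV f n := by
  unfold coefV
  have hfin := finite_size (S := S) n
  rw [finsum_mem_eq_finite_toFinset_sum _ hfin, finsum_mem_eq_finite_toFinset_sum _ hfin,
    Finset.mul_sum]
  refine Finset.sum_congr rfl fun y hy => ?_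
  have : size y = n := by simpa using hy
  rw [massV_scale, this]

end equiv

/-- the term of a word -/
theorem massV_exp (f : Places S → ℕ → ℂ) (s : ℂ) (y : Words S) :
    (∏ i, (co (fun x : Places S × ℕ => f x.1 (x.2 + 1)) (y.2 i) *
      Complex.exp (-(s * lam nrm (y.2 i))))) / (y.1.factorial : ℂ) =
      massV f y * Complex.exp (-(s * (Real.log (size y) : ℝ))) := by
  rw [Finset.prod_mul_distrib, ← Complex.exp_sum]
  have h1 : ∑ i, -(s * ((lam nrm (y.2 i) : ℝ) : ℂ)) = -(s * (Real.log (size y) : ℝ)) := by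
    rw [Finset.sum_neg_distrib, ← Finset.mul_sum, log_size]
    push_cast
    rfl
  rw [h1]
  have h2 : massV f y = (∏ i, co (fun x : Places S × ℕ => f x.1 (x.2 + 1)) (y.2 i)) /
      (y.1.factorial : ℂ) := rfl
  rw [h2]
  ring

/-- `∑_{v ∉ S} ∑_{k ≥ 1} f(v,k) q_v^{-ks} / k` -/
noncomputable def logV (f : Places S → ℕ → ℂ) (s : ℂ) : ℂ :=
  ∑' x : Places S × ℕ, f x.1 (x.2 + 1) * ((nrm x.1 : ℂ) ^ (-s)) ^ (x.2 + 1) / (x.2 + 1)

theorem termV_eq (f : Places S → ℕ → ℂ) (s : ℂ) (x : Places S × ℕ) :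
    f x.1 (x.2 + 1) * ((nrm x.1 : ℂ) ^ (-s)) ^ (x.2 + 1) / (x.2 + 1) =
      co (fun x : Places S × ℕ => f x.1 (x.2 + 1)) x * Complex.exp (-(s * lam nrm x)) := by
  unfold co lam
  rw [(qsys S).csys.cpow_eq, ← Complex.exp_nat_mul]
  have e : (((x.2 + 1 : ℕ) : ℂ) * -(s * (Real.log (nrm x.1) : ℝ))) =
      -(s * (((x.2 + 1) * Real.log (nrm x.1) : ℝ) : ℂ)) := by
    push_cast
    ring
  rw [e]
  ring

theorem logV_eq (f : Places S → ℕ → ℂ) (s : ℂ) :
    logV f s = ∑' x : Places S × ℕ, co (fun x : Places S × ℕ => f x.1 (x.2 + 1)) x *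
      Complex.exp (-(s * lam nrm x)) := by
  unfold logV
  exact tsum_congr fun x => termV_eq f s x

theorem logV_summable {f : Places S → ℕ → ℂ} {B : ℝ} (hB : ∀ v k, ‖f v k‖ ≤ B) {s : ℂ} (hs : 1 < s.re) :
    Summable fun x : Places S × ℕ =>
      ‖co (fun x : Places S × ℕ => f x.1 (x.2 + 1)) x * Complex.exp (-(s * lam nrm x))‖ := by
  refine (co_summable (qsys S) (b := fun x : Places S × ℕ => f x.1 (x.2 + 1)) (B := B)
    (fun x => hB _ _) hs).congr fun x => ?_
  rw [norm_mul, Complex.norm_exp]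
  have : (-(s * lam nrm x)).re = -(s.re * lam nrm x) := by
    rw [Complex.neg_re, Complex.re_mul_ofReal]
  rw [this]

theorem sum_wordsV {f : Places S → ℕ → ℂ} {B : ℝ} (hB : ∀ v k, ‖f v k‖ ≤ B) {s : ℂ} (hs : 1 < s.re) :
    (Summable fun y : Words S => ‖massV f y * Complex.exp (-(s * (Real.log (size y) : ℝ)))‖) ∧
      HasSum (fun y : Words S => massV f y * Complex.exp (-(s * (Real.log (size y) : ℝ))))
        (Complex.exp (logV f s)) := by
  obtain ⟨h2, h3⟩ := exp_series (fun x => co (fun x : Places S × ℕ => f x.1 (x.2 + 1)) x *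
    Complex.exp (-(s * lam nrm x))) (logV_summable hB hs)
  refine ⟨h2.congr fun y => ?_, ?_⟩
  · rw [← massV_exp f s y]
  · rw [← logV_eq] at h3
    refine h3.congr_fun fun y => ?_
    exact (massV_exp f s y).symm

theorem coefV_eq (f : Places S → ℕ → ℂ) (s : ℂ) (n : ℕ) :
    (∑' y : (size (S := S)) ⁻¹' {n}, massV f y.1 *
      Complex.exp (-(s * (Real.log (size y.1) : ℝ)))) =
      coefV f n * Complex.exp (-(s * (Real.log n : ℝ))) := by
  have hfin := finite_size (S := S) n
  have h1 : ∀ y : (size (S := S)) ⁻¹' {n}, massV f y.1 *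
      Complex.exp (-(s * (Real.log (size y.1) : ℝ))) =
      massV f y.1 * Complex.exp (-(s * (Real.log n : ℝ))) := by
    intro y
    have : size y.1 = n := y.2
    rw [this]
  simp only [h1]
  rw [tsum_mul_right]
  congr 1
  unfold coefV
  rw [finsum_mem_eq_finite_toFinset_sum _ hfin]
  have h2 : (size (S := S)) ⁻¹' {n} = (hfin.toFinset : Set (Words S)) := by
    ext y
    simp
  rw [h2]
  exact Finset.tsum_subtype' hfin.toFinset (massV f)

theorem coefV_norm_le (f : Places S → ℕ → ℂ) (s : ℂ) (n : ℕ) :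
    ‖coefV f n * Complex.exp (-(s * (Real.log n : ℝ)))‖ ≤
    (∑' y : (size (S := S)) ⁻¹' {n}, ‖massV f y.1 *
      Complex.exp (-(s * (Real.log (size y.1) : ℝ)))‖) := by
  rw [← coefV_eq]
  have hfin := finite_size (S := S) n
  have : Finite ((size (S := S)) ⁻¹' {n}) := hfin.to_subtype
  exact norm_tsum_le_tsum_norm Summable.of_finite

/-- `exp (∑ f(v,k) q_v^{-ks} / k) = ∑ a_n(f) n^{-s}` -/
theorem seriesV {f : Places S → ℕ → ℂ} {B : ℝ} (hB : ∀ v k, ‖f v k‖ ≤ B) {s : ℂ} (hs : 1 < s.re) :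
    LSeriesSummable (coefV f) s ∧ LSeries (coefV f) s = Complex.exp (logV f s) := by
  obtain ⟨h1, h2⟩ := sum_wordsV hB hs
  have h3 := h2.tsum_fiberwise (size (S := S))
  have h4 := h1.hasSum.tsum_fiberwise (size (S := S))
  simp only [coefV_eq] at h3
  have e1 : ∀ n, LSeries.term (coefV f) s n =
      coefV f n * Complex.exp (-(s * (Real.log n : ℝ))) := fun n => term_eq _ (coefV_zero f) s n
  refine ⟨?_, ?_⟩
  · unfold LSeriesSummable
    refine Summable.of_norm_bounded h4.summable fun n => ?_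
    rw [e1]
    exact coefV_norm_le f s n
  · unfold LSeries
    simp only [e1]
    exact h3.tsum_eq

/-- the sum over the places of the sums over `k` -/
theorem logV_hasSum {f : Places S → ℕ → ℂ} {B : ℝ} (hB : ∀ v k, ‖f v k‖ ≤ B) {s : ℂ} (hs : 1 < s.re)
    {g : Places S → ℂ} (hg : ∀ v, HasSum (fun k : ℕ => f v (k + 1) *
      ((nrm v : ℂ) ^ (-s)) ^ (k + 1) / (k + 1)) (g v)) : HasSum g (logV f s) := by
  have h1 : HasSum (fun x : Places S × ℕ => co (fun x : Places S × ℕ => f x.1 (x.2 + 1)) x *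
      Complex.exp (-(s * lam nrm x))) (logV f s) := by
    rw [logV_eq]
    exact (logV_summable hB hs).of_norm.hasSum
  refine h1.prod_fiberwise fun v => ?_
  refine (hg v).congr_fun fun k => ?_
  exact (termV_eq f s (v, k)).symm

end Pool.Agent.X242.AR
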