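import Pool.Agent.X242.UW4
import Pool.Agent.X242.DR12

/-!
# `L`-functions of elliptic curves over number fields and rational weights
-/

set_option autoImplicit false

open Filter Topology Asymptotics
open IsDedekindDomain NumberField

namespace Pool.Agent.X242.EC

open Pool.Agent.X298.ST Pool.Agent.X287.CR Pool.Agent.X242.DR Pool.Agent.X242.AR

/-- The numbers `t_0 = 2`, `t_1 = a`, `t_{k+2} = a t_{k+1} - q t_k`: the sums `α^k + β^k` for `α + β = a`, `αβ = q`. -/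
def powSum (a q : ℤ) : ℕ → ℤ
  | 0 => 2
  | 1 => a
  | (k + 2) => a * powSum a q (k + 1) - q * powSum a q k

theorem powSum_eq {a q : ℤ} {α β : ℂ} (h1 : α + β = a) (h2 : α * β = q) (k : ℕ) :
    (powSum a q k : ℂ) = α ^ k + β ^ k := by
  induction k using Nat.strong_induction_on with
  | _ k ih =>
    match k, ih with
    | 0, _ => simp [powSum]; norm_num
    | 1, _ => simp [powSum, h1]
    | (k + 2), ih =>
      rw [powSum]
      push_cast
      rw [ih (k + 1) (by omega), ih k (by omega), ← h1, ← h2]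
      ring

theorem exists_roots {a q : ℤ} (hq : 2 ≤ q) (ha : |a| ≤ q) :
    ∃ α β : ℂ, α + β = a ∧ α * β = q ∧ ‖α‖ ≤ q ∧ ‖β‖ ≤ q := by
  obtain ⟨δ, hδ⟩ := IsAlgClosed.exists_pow_nat_eq ((a : ℂ) ^ 2 - 4 * q) (n := 2) (by norm_num)
  have hqR : (2 : ℝ) ≤ q := by exact_mod_cast hq
  have haR : |(a : ℝ)| ≤ q := by exact_mod_cast ha
  have ha2 : (a : ℝ) ^ 2 ≤ q ^ 2 := by
    rw [← sq_abs]
    exact pow_le_pow_left₀ (abs_nonneg _) haR 2
  have hδ2 : ‖δ‖ ^ 2 = |(a : ℝ) ^ 2 - 4 * q| := by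
    rw [← norm_pow, hδ]
    have : ((a : ℂ) ^ 2 - 4 * q) = (((a : ℝ) ^ 2 - 4 * q : ℝ) : ℂ) := by push_cast; ring
    rw [this, Complex.norm_real, Real.norm_eq_abs]
  have hpar := parallelogram_law_with_norm ℝ ((a : ℂ) / 2) (δ / 2)
  have e1 : ‖(a : ℂ) / 2‖ = |(a : ℝ)| / 2 := by
    rw [norm_div, Complex.norm_intCast]
    simp
  have e2 : ‖δ / 2‖ = ‖δ‖ / 2 := by
    rw [norm_div]
    simp
  rw [e1, e2] at hpar
  have hsum : ‖(a : ℂ) / 2 + δ / 2‖ ^ 2 + ‖(a : ℂ) / 2 - δ / 2‖ ^ 2 ≤ (q : ℝ) ^ 2 := by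
    have e3 : ‖(a : ℂ) / 2 + δ / 2‖ ^ 2 + ‖(a : ℂ) / 2 - δ / 2‖ ^ 2 =
        ((a : ℝ) ^ 2 + |(a : ℝ) ^ 2 - 4 * q|) / 2 := by
      rw [← hδ2, ← sq_abs (a : ℝ)]
      nlinarith [hpar]
    rw [e3]
    rcases abs_cases ((a : ℝ) ^ 2 - 4 * q) with ⟨h, _⟩ | ⟨h, _⟩
    · rw [h]
      nlinarith
    · rw [h]
      nlinarith
  refine ⟨(a : ℂ) / 2 + δ / 2, (a : ℂ) / 2 - δ / 2, by ring, ?_, ?_, ?_⟩
  · have : ((a : ℂ) / 2 + δ / 2) * ((a : ℂ) / 2 - δ / 2) = ((a : ℂ) ^ 2 - δ ^ 2) / 4 := by ring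
    rw [this, hδ]
    ring
  · refine abs_le_of_sq_le_sq' ?_ (by linarith) |>.2
    nlinarith [sq_nonneg ‖(a : ℂ) / 2 - δ / 2‖]
  · refine abs_le_of_sq_le_sq' ?_ (by linarith) |>.2
    nlinarith [sq_nonneg ‖(a : ℂ) / 2 + δ / 2‖]

theorem powSum_le {a q : ℤ} (hq : 2 ≤ q) (ha : |a| ≤ q) (k : ℕ) :
    ‖(powSum a q k : ℂ)‖ ≤ 2 * (q : ℝ) ^ k := by
  obtain ⟨α, β, h1, h2, h3, h4⟩ := exists_roots hq ha
  rw [powSum_eq h1 h2]
  refine (norm_add_le _ _).trans ?_
  rw [norm_pow, norm_pow, two_mul]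
  exact add_le_add (pow_le_pow_left₀ (norm_nonneg _) h3 k) (pow_le_pow_left₀ (norm_nonneg _) h4 k)

/-- the logarithm of an Euler factor -/
theorem hasSum_log {z : ℂ} (hz : ‖z‖ < 1) :
    HasSum (fun k : ℕ => z ^ (k + 1) / ((k : ℂ) + 1)) (-Complex.log (1 - z)) := by
  have h1 := Complex.hasSum_taylorSeries_neg_log hz
  have h2 := (hasSum_nat_add_iff' (f := fun n : ℕ => z ^ n / (n : ℂ)) 1).2 h1
  simp only [Finset.range_one, Finset.sum_singleton, pow_zero, Nat.cast_zero, div_zero, sub_zero] at h2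
  refine h2.congr_fun fun k => ?_
  push_cast
  rfl

/-- the exponential of the series of an Euler factor -/
theorem factor {a q : ℤ} (hq : 2 ≤ q) (ha : |a| ≤ q) {x : ℂ} (hx : (q : ℝ) * ‖x‖ < 1) :
    ∃ l : ℂ, HasSum (fun k : ℕ => (powSum a q (k + 1) : ℂ) * x ^ (k + 1) / ((k : ℂ) + 1)) l ∧
      Complex.exp l = (1 - (a : ℂ) * x + q * x ^ 2)⁻¹ := by
  obtain ⟨α, β, h1, h2, h3, h4⟩ := exists_roots hq ha
  have n1 : ‖α * x‖ < 1 := by
    rw [norm_mul]
    exact (mul_le_mul_of_nonneg_right h3 (norm_nonneg _)).trans_lt hx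
  have n2 : ‖β * x‖ < 1 := by
    rw [norm_mul]
    exact (mul_le_mul_of_nonneg_right h4 (norm_nonneg _)).trans_lt hx
  have m1 : (1 : ℂ) - α * x ≠ 0 := by
    intro h
    have : α * x = 1 := (sub_eq_zero.1 h).symm
    rw [this, norm_one] at n1
    exact lt_irrefl _ n1
  have m2 : (1 : ℂ) - β * x ≠ 0 := by
    intro h
    have : β * x = 1 := (sub_eq_zero.1 h).symm
    rw [this, norm_one] at n2
    exact lt_irrefl _ n2
  refine ⟨-Complex.log (1 - α * x) + -Complex.log (1 - β * x), ?_, ?_⟩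
  · refine ((hasSum_log n1).add (hasSum_log n2)).congr_fun fun k => ?_
    rw [powSum_eq h1 h2, mul_pow, mul_pow]
    ring
  · rw [Complex.exp_add, Complex.exp_neg, Complex.exp_neg, Complex.exp_log m1, Complex.exp_log m2,
      ← mul_inv]
    congr 1
    rw [← h1, ← h2]
    ring

variable {F : Type} [Field F] [NumberField F]

/-- The number of solutions of `y² = x³ + a x + b` in a ring. -/
noncomputable def numPoints (R : Type) [CommRing R] (a b : R) : ℕ :=
  Nat.card {p : R × R // p.2 ^ 2 = p.1 ^ 3 + a * p.1 + b}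

/-- The number of affine points of `y² = x³ + a x + b` over the residue field of `v`. -/
noncomputable def points (a b : 𝓞 F) (v : HeightOneSpectrum (𝓞 F)) : ℕ :=
  numPoints (𝓞 F ⧸ v.asIdeal) (Ideal.Quotient.mk v.asIdeal a) (Ideal.Quotient.mk v.asIdeal b)

/-- `a_v = q_v - #{affine points}` -/
noncomputable def trace (a b : 𝓞 F) (v : HeightOneSpectrum (𝓞 F)) : ℤ :=
  (Ideal.absNorm v.asIdeal : ℤ) - points a b v

theorem points_le (a b : 𝓞 F) (v : HeightOneSpectrum (𝓞 F)) : points a b v ≤ 2 * Ideal.absNorm v.asIdeal := by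
  classical
  have hmax : v.asIdeal.IsMaximal := v.isMaximal
  let _ : Field (𝓞 F ⧸ v.asIdeal) := Ideal.Quotient.field v.asIdeal
  have hfin : Finite (𝓞 F ⧸ v.asIdeal) := Ideal.finiteQuotientOfFreeOfNeBot _ v.ne_bot
  let _ : Fintype (𝓞 F ⧸ v.asIdeal) := Fintype.ofFinite _
  have hcard : Ideal.absNorm v.asIdeal = Fintype.card (𝓞 F ⧸ v.asIdeal) := by
    rw [Ideal.absNorm_apply, Submodule.cardQuot_apply, Nat.card_eq_fintype_card]
  unfold points numPoints
  rw [hcard, Nat.card_eq_fintype_card, Fintype.card_subtype]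
  set s : Finset ((𝓞 F ⧸ v.asIdeal) × (𝓞 F ⧸ v.asIdeal)) := Finset.univ.filter fun p =>
    p.2 ^ 2 = p.1 ^ 3 + Ideal.Quotient.mk v.asIdeal a * p.1 + Ideal.Quotient.mk v.asIdeal b with hs
  have h1 : s.card ≤ 2 * (s.image Prod.fst).card := by
    refine Finset.card_le_mul_card_image s 2 fun x _ => ?_
    set c : 𝓞 F ⧸ v.asIdeal := x ^ 3 + Ideal.Quotient.mk v.asIdeal a * x + Ideal.Quotient.mk v.asIdeal b
      with hc
    have h2 : (s.filter fun p => p.1 = x).card ≤ ((Polynomial.nthRoots 2 c).toFinset).card := by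
      refine Finset.card_le_card_of_injOn Prod.snd (fun p hp => ?_) (fun p hp p' hp' h => ?_)
      · have hp1 := Finset.mem_filter.1 (Finset.mem_coe.1 hp)
        have hp2 := (Finset.mem_filter.1 hp1.1).2
        rw [Finset.mem_coe, Multiset.mem_toFinset, Polynomial.mem_nthRoots (by norm_num), hc, ← hp1.2]
        exact hp2
      · have hp1 := (Finset.mem_filter.1 (Finset.mem_coe.1 hp)).2
        have hp2 := (Finset.mem_filter.1 (Finset.mem_coe.1 hp')).2
        exact Prod.ext (hp1.trans hp2.symm) h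
    exact h2.trans ((Multiset.toFinset_card_le _).trans (Polynomial.card_nthRoots 2 c))
  refine h1.trans (Nat.mul_le_mul_left 2 ?_)
  exact (Finset.card_le_univ _)

theorem abs_trace_le (a b : 𝓞 F) (v : HeightOneSpectrum (𝓞 F)) :
    |trace a b v| ≤ (Ideal.absNorm v.asIdeal : ℤ) := by
  have h := points_le a b v
  unfold trace
  rw [abs_le]
  constructor <;> omega

/-- `Λ` is the function `L_S(s, A)`, `A : y² = x³ + a x + b`: the Euler product over the primes `v ∉ S` for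
`Re s > 2`, continued to a function meromorphic at the points of the segment `[1, 2]` and analytic at `1`. -/
structure IsLFunction (a b : 𝓞 F) (S : Set (HeightOneSpectrum (𝓞 F))) (Λ : ℂ → ℂ) : Prop where
  prod : ∀ s : ℂ, 2 < s.re → HasProd (fun v : Places S =>
    (1 - (trace a b v.1 : ℂ) * (nrm v : ℂ) ^ (-s) + (nrm v : ℂ) ^ (1 - 2 * s))⁻¹) (Λ s)
  mero : ∀ x : ℝ, 1 ≤ x → x ≤ 2 → MeromorphicAt Λ (x : ℂ)
  ana : AnalyticAt ℂ Λ 1

/-- The coefficients of `L_S(s, A) = ∑ b_n n^{-s}`: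
`b_n = ∑_m (1 / m!) ∑ ∏_{i ≤ m} t_{k_i}(v_i) / k_i` over the sequences with `∏ q_{v_i}^{k_i} = n`. -/
noncomputable def coeff (a b : 𝓞 F) (S : Set (HeightOneSpectrum (𝓞 F))) (n : ℕ) : ℚ :=
  coefV (fun (v : Places S) k => ((powSum (trace a b v.1) (nrm v : ℤ) k : ℤ) : ℚ)) n

/-- `t_k(v) / q_v^k` -/
noncomputable def nval (a b : 𝓞 F) (S : Set (HeightOneSpectrum (𝓞 F))) (v : Places S) (k : ℕ) : ℚ :=
  ((powSum (trace a b v.1) (nrm v : ℤ) k : ℤ) : ℚ) / (nrm v : ℚ) ^ k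

variable {a b : 𝓞 F} {S : Set (HeightOneSpectrum (𝓞 F))}

theorem two_le' (v : Places S) : (2 : ℤ) ≤ (nrm v : ℤ) := by exact_mod_cast AR.two_le v

theorem coeff_div (n : ℕ) : coeff a b S n / n = coefV (nval a b S) n := by
  rcases Nat.eq_zero_or_pos n with rfl | hn
  · rw [coefV_zero]
    simp
  · have hn0 : (n : ℚ) ≠ 0 := by exact_mod_cast hn.ne'
    rw [div_eq_iff hn0, mul_comm]
    unfold coeff
    rw [← coefV_scale]
    congr 1
    funext v k
    unfold nval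
    have : (nrm v : ℚ) ≠ 0 := by
      have := AR.two_le v
      exact_mod_cast (by omega : nrm v ≠ 0)
    field_simp

theorem nval_le (v : Places S) (k : ℕ) : ‖((nval a b S v k : ℚ) : ℂ)‖ ≤ 2 := by
  have h := powSum_le (two_le' v) (abs_trace_le a b v.1) k
  have hq : (0 : ℝ) < nrm v := by
    have := AR.two_le v
    exact_mod_cast (by omega : 0 < nrm v)
  unfold nval
  push_cast
  rw [norm_div, norm_pow, Complex.norm_natCast, div_le_iff₀ (by positivity)]
  simpa using h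

/-- the logarithm of the `L`-function -/
theorem exp_logV {s : ℂ} (hs : 1 < s.re) :
    HasProd (fun v : Places S => (1 - (trace a b v.1 : ℂ) * (nrm v : ℂ) ^ (-(1 + s)) +
      (nrm v : ℂ) ^ (1 - 2 * (1 + s)))⁻¹)
      (Complex.exp (logV (fun v k => ((nval a b S v k : ℚ) : ℂ)) s)) := by
  have key : ∀ v : Places S, ∃ l : ℂ, HasSum (fun k : ℕ => ((nval a b S v (k + 1) : ℚ) : ℂ) *
      ((nrm v : ℂ) ^ (-s)) ^ (k + 1) / ((k : ℂ) + 1)) l ∧ Complex.exp l =
      (1 - (trace a b v.1 : ℂ) * (nrm v : ℂ) ^ (-(1 + s)) + (nrm v : ℂ) ^ (1 - 2 * (1 + s)))⁻¹ := by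
    intro v
    have hq0 : (0 : ℝ) < nrm v := by
      have := AR.two_le v
      exact_mod_cast (by omega : 0 < nrm v)
    have hq1 : (1 : ℝ) < nrm v := by
      have := AR.two_le v
      exact_mod_cast (by omega : 1 < nrm v)
    have hqc : (nrm v : ℂ) ≠ 0 := by exact_mod_cast hq0.ne'
    have hx : (((nrm v : ℕ) : ℤ) : ℝ) * ‖(nrm v : ℂ) ^ (-(1 + s))‖ < 1 := by
      have e : ‖(nrm v : ℂ) ^ (-(1 + s))‖ = (nrm v : ℝ) ^ (-(1 + s)).re :=
        Complex.norm_natCast_cpow_of_pos (by exact_mod_cast hq0) _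
      rw [e]
      have e2 : (((nrm v : ℕ) : ℤ) : ℝ) * (nrm v : ℝ) ^ (-(1 + s)).re = (nrm v : ℝ) ^ (-s.re) := by
        have e3 : (-(1 + s)).re = -s.re - 1 := by
          simp
          ring
        rw [e3, Real.rpow_sub_one hq0.ne']
        push_cast
        field_simp
      rw [e2]
      exact Real.rpow_lt_one_of_one_lt_of_neg hq1 (by linarith)
    obtain ⟨l, h1, h2⟩ := factor (two_le' v) (abs_trace_le a b v.1) hx
    refine ⟨l, h1.congr_fun fun k => ?_, ?_⟩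
    · have e : (nrm v : ℂ) ^ (-(1 + s)) = (nrm v : ℂ) ^ (-s) / nrm v := by
        rw [show (-(1 + s)) = -s - 1 by ring, Complex.cpow_sub _ _ hqc, Complex.cpow_one]
      rw [e, div_pow]
      unfold nval
      push_cast
      ring
    · rw [h2]
      congr 2
      have e : ((nrm v : ℕ) : ℂ) ^ (1 - 2 * (1 + s)) = (nrm v : ℂ) * ((nrm v : ℂ) ^ (-(1 + s))) ^ 2 := by
        rw [show (1 - 2 * (1 + s)) = 1 + (-(1 + s)) + (-(1 + s)) by ring, Complex.cpow_add _ _ hqc,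
          Complex.cpow_add _ _ hqc, Complex.cpow_one]
        ring
      rw [e]
      push_cast
      rfl
  choose l hl1 hl2 using key
  have h1 := logV_hasSum (f := fun v k => ((nval a b S v k : ℚ) : ℂ)) (B := 2)
    (fun v k => nval_le v k) hs hl1
  have h2 := h1.cexp
  have e : (Complex.exp ∘ l) = fun v : Places S => (1 - (trace a b v.1 : ℂ) *
      (nrm v : ℂ) ^ (-(1 + s)) + (nrm v : ℂ) ^ (1 - 2 * (1 + s)))⁻¹ := by
    funext v
    exact hl2 v
  rw [e] at h2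
  exact h2

theorem isSeries {Λ : ℂ → ℂ} (h : IsLFunction a b S Λ) :
    IsSeries (coefV fun v k => ((nval a b S v k : ℚ) : ℂ)) fun s => Λ (1 + s) where
  summable := fun σ hσ => (seriesV (fun v k => nval_le v k) (s := (σ : ℂ)) (by simpa using hσ)).1
  eq := fun s hs => by
    rw [(seriesV (fun v k => nval_le v k) hs).2]
    have h1 := h.prod (1 + s) (by
      have : (1 + s).re = 1 + s.re := by simp
      rw [this]
      linarith)
    exact h1.unique (exp_logV hs)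
  mero := fun x h0 h1 => by
    have h2 := h.mero (1 + x) (by linarith) (by linarith)
    push_cast at h2
    have h3 : AnalyticAt ℂ (fun s : ℂ => 1 + s) (x : ℂ) := by fun_prop
    exact h2.comp_analyticAt h3

end Pool.Agent.X242.EC
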