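import Pool.Agent.X242.DR10

/-!
# The first derivative without a condition on the value
-/

set_option autoImplicit false

namespace Pool.Agent.X242.DR

open Complex MeasureTheory Filter Topology Set Asymptotics
open scoped Interval ComplexConjugate
open Pool.Agent.W189.ML Pool.Agent.W187.UR

theorem IsSeries.real_data {z : ℕ → ℝ} {Φ : ℂ → ℂ} (h : IsSeries (fun n => (z n : ℂ)) Φ) (hz : z 0 = 0) :
    DData (fun n : ℕ => Real.log n) z Φ where
  cnt := inferInstance
  lam_pos := fun n => Real.log_natCast_nonneg n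
  sum := fun σ hσ => by
    have h1 := h.sum (by rw [hz]; simp) hσ
    refine h1.congr fun n => ?_
    rw [Complex.norm_real, Real.norm_eq_abs]
  mero := h.mero
  eq := fun s hs => by
    have h1 := h.hasSum (by rw [hz]; simp) hs
    rw [← h1.tsum_eq]
    rfl

/-- The law for the first derivative of a series with real coefficients, without a condition on the value at `0`. -/
theorem DData.law2 {ι : Type} {lam c : ι → ℝ} {Φ : ℂ → ℂ} (D : DData lam c Φ) (hΦ : AnalyticAt ℂ Φ 0)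
    {γ : ℝ} (hγ : Real.pi / 2 < γ) :
    (deriv Φ 0).im = 0 ∧
    (fun T : ℝ => (∑' i, c i * weight 1 γ T (lam i)) -
      ((deriv Φ 0).re + (Φ 0).re * T * ((Ck 1 γ)⁻¹).re)) =O[atTop] fun T : ℝ => 1 / T := by
  have hC : Ck 1 γ ≠ 0 := Ck_one_ne γ
  obtain ⟨h0, h1⟩ := D.expansion_analytic hγ hΦ 2
  have him1 : (deriv Φ 0).im = 0 := by
    have := h0 1
    rwa [iteratedDeriv_one] at this
  have him0 : (Φ 0).im = 0 := by
    have := h0 0
    rwa [iteratedDeriv_zero] at this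
  refine ⟨him1, ?_⟩
  have e1 : deriv Φ 0 = (((deriv Φ 0).re : ℝ) : ℂ) := by
    apply Complex.ext <;> simp [him1]
  have e0 : Φ 0 = (((Φ 0).re : ℝ) : ℂ) := by
    apply Complex.ext <;> simp [him0]
  obtain ⟨B, hB⟩ := h1.bound
  refine IsBigO.of_bound (B / ‖Ck 1 γ‖) ?_
  filter_upwards [hB, eventually_gt_atTop 0] with T hT hT0
  have hTc : (T : ℂ) ≠ 0 := by exact_mod_cast hT0.ne'
  have hs : ∑ k ∈ Finset.range 2, iteratedDeriv k Φ 0 / (k.factorial : ℂ) * Ck k γ / (T : ℂ) ^ k =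
      Φ 0 + deriv Φ 0 * Ck 1 γ / T := by
    rw [Finset.sum_range_succ, Finset.sum_range_one, iteratedDeriv_zero, iteratedDeriv_one, Ck_zero]
    simp
  rw [hs] at hT
  have e2 : (∑' i, c i * weight 1 γ T (lam i)) -
      ((deriv Φ 0).re + (Φ 0).re * T * ((Ck 1 γ)⁻¹).re) =
      ((T : ℂ) / Ck 1 γ * (cmean lam c γ T - (Φ 0 + deriv Φ 0 * Ck 1 γ / T))).re := by
    have e3 : (T : ℂ) / Ck 1 γ * (cmean lam c γ T - (Φ 0 + deriv Φ 0 * Ck 1 γ / T)) =
        (T : ℂ) / Ck 1 γ * cmean lam c γ T - (deriv Φ 0 + Φ 0 * T * (Ck 1 γ)⁻¹) := by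
      field_simp
      ring
    have e4 : (deriv Φ 0 + Φ 0 * T * (Ck 1 γ)⁻¹).re =
        (deriv Φ 0).re + (Φ 0).re * T * ((Ck 1 γ)⁻¹).re := by
      rw [Complex.add_re]
      congr 1
      conv_lhs => rw [e0]
      rw [← Complex.ofReal_mul, Complex.re_ofReal_mul]
    rw [e3, Complex.sub_re, e4]
    congr 1
    unfold cmean
    have hsum := (D.term_summable γ hT0).of_norm
    rw [← tsum_mul_left, Complex.re_tsum (hsum.mul_left _)]
    refine tsum_congr fun i => ?_
    unfold weight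
    rw [← Complex.re_ofReal_mul, pow_one]
    congr 1
    ring
  rw [e2, Real.norm_eq_abs]
  refine (Complex.abs_re_le_norm _).trans ?_
  rw [norm_mul, norm_div, Complex.norm_real, Real.norm_eq_abs, abs_of_pos hT0,
    Real.norm_eq_abs, abs_of_pos (by positivity)]
  rw [Real.norm_eq_abs, abs_of_pos (by positivity)] at hT
  calc T / ‖Ck 1 γ‖ * ‖cmean lam c γ T - (Φ 0 + deriv Φ 0 * Ck 1 γ / T)‖
      ≤ T / ‖Ck 1 γ‖ * (B * (1 / T ^ 2)) := by gcongr
    _ = B / ‖Ck 1 γ‖ * (1 / T) := by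
      rw [pow_two]
      field_simp

/-- `2 x_N - x_{2N}`, `x_N = ∑ ρ_N(n) z_n` -/
noncomputable def dcomb (ρ : ℕ → ℕ →₀ ℚ) (z : ℕ → ℤ) (N : ℕ) : ℚ :=
  2 * comb (ρ N) (fun n => (z n : ℚ)) - comb (ρ (2 * N)) (fun n => (z n : ℚ))

/-- Rational weights for the first derivative, without a condition on the value. -/
theorem IsSeries.deriv2 {z : ℕ → ℤ} {Φ : ℂ → ℂ} (h : IsSeries (fun n => (z n : ℂ)) Φ) (hz : z 0 = 0)
    (hΦ : AnalyticAt ℂ Φ 0) {γ : ℝ} (hγ : Real.pi / 2 < γ) {ρ : ℕ → ℕ →₀ ℚ} (hρ : IsRational 1 γ ρ) :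
    (fun N : ℕ => ((dcomb ρ z N : ℚ) : ℝ) - (deriv Φ 0).re) =O[atTop] fun N : ℕ => 1 / (N : ℝ) := by
  have hz' : ((fun n => (z n : ℝ)) 0) = 0 := by simp [hz]
  have h' : IsSeries (fun n => (((fun n => (z n : ℝ)) n : ℝ) : ℂ)) Φ := by
    have e : (fun n => (((fun n => (z n : ℝ)) n : ℝ) : ℂ)) = fun n => (z n : ℂ) := by
      funext n
      simp
    rw [e]
    exact h
  have D := h'.real_data hz'
  obtain ⟨him, hlaw⟩ := D.law2 hΦ hγ
  have hS : Summable fun n : ℕ => |(z n : ℝ)| * Real.exp (-(2 * Real.log n)) := D.sum 2 (by norm_num)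
  have hS3 : Summable fun n : ℕ => |(z n : ℝ)| * Real.exp (-(3 * Real.log n)) := D.sum 3 (by norm_num)
  -- rational weights
  have h2 : (fun N : ℕ => ((comb (ρ N) (fun n => (z n : ℚ)) : ℚ) : ℝ) -
      ∑' n : ℕ, (z n : ℝ) * weight 1 γ N (Real.log n)) =O[atTop] fun N : ℕ => 1 / (N : ℝ) := by
    refine IsBigO.of_bound (∑' n : ℕ, |(z n : ℝ)| * Real.exp (-(2 * Real.log n))) ?_
    filter_upwards [eventually_ge_atTop 1] with N hN
    have hN0 : (0 : ℝ) < N := by exact_mod_cast hN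
    have e1 : ((comb (ρ N) (fun n => (z n : ℚ)) : ℚ) : ℝ) = ∑' n : ℕ, (z n : ℝ) * (ρ N n : ℝ) := by
      unfold comb
      rw [Finsupp.sum, tsum_eq_sum (s := (ρ N).support)]
      · push_cast
        refine Finset.sum_congr rfl fun n _ => ?_
        ring
      · intro n hn
        rw [Finsupp.notMem_support_iff.1 hn]
        simp
    have s1 : Summable fun n : ℕ => (z n : ℝ) * (ρ N n : ℝ) := by
      refine summable_of_ne_finset_zero (s := (ρ N).support) fun n hn => ?_
      rw [Finsupp.notMem_support_iff.1 hn]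
      simp
    have s2 : Summable fun n : ℕ => (z n : ℝ) * weight 1 γ N (Real.log n) := by
      refine Summable.of_norm_bounded (hS3.mul_left
        ((N : ℝ) ^ 1 / ‖Ck 1 γ‖ * (Real.exp (Real.exp (3 * N)) + 1))) fun n => ?_
      rw [norm_mul, Real.norm_eq_abs, Real.norm_eq_abs]
      have h4 := weight_le 1 γ hN0 (Real.log_natCast_nonneg n)
      calc |(z n : ℝ)| * |weight 1 γ N (Real.log n)| ≤ |(z n : ℝ)| * ((N : ℝ) ^ 1 / ‖Ck 1 γ‖ *
            (Real.exp (Real.exp (3 * N)) + 1) * Real.exp (-(3 * Real.log n))) :=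
            mul_le_mul_of_nonneg_left h4 (abs_nonneg _)
        _ = _ := by ring
    rw [e1, ← s1.tsum_sub s2]
    rw [Real.norm_eq_abs (1 / (N : ℝ)), abs_of_pos (by positivity : 0 < 1 / (N : ℝ)),
      ← tsum_mul_right]
    refine tsum_of_norm_bounded (hS.mul_right _).hasSum fun n => ?_
    rcases Nat.eq_zero_or_pos n with rfl | hn
    · simp [hz]
    · have hn0 : (0 : ℝ) < n := by exact_mod_cast hn
      have e2 : Real.exp (-(2 * Real.log n)) = 1 / (n : ℝ) ^ 2 := by
        rw [Real.exp_neg, ← one_div]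
        congr 1
        have : (2 : ℝ) * Real.log n = Real.log n + Real.log n := by ring
        rw [this, Real.exp_add, Real.exp_log hn0]
        ring
      have e3 : |(ρ N n : ℝ) - weight 1 γ N (Real.log n)| ≤ 1 / (n : ℝ) ^ 2 * (1 / (N : ℝ)) := by
        have e4 := hρ N n hN hn
        have e5 : 1 / ((N : ℝ) * (n : ℝ) ^ 2) = 1 / (n : ℝ) ^ 2 * (1 / (N : ℝ)) := by
          field_simp
        rw [e5] at e4
        exact e4
      rw [← mul_sub, norm_mul, Real.norm_eq_abs, Real.norm_eq_abs, e2, mul_assoc]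
      exact mul_le_mul_of_nonneg_left e3 (abs_nonneg _)
  have h3 := h2.add (hlaw.comp_tendsto tendsto_natCast_atTop_atTop)
  have hdbl : Tendsto (fun N : ℕ => 2 * N) atTop atTop := tendsto_atTop_mono (fun N => show N ≤ 2 * N by omega) tendsto_id
  have h4 := h3.comp_tendsto hdbl
  have h5 : ((fun N : ℕ => 1 / (N : ℝ)) ∘ fun N : ℕ => 2 * N) =O[atTop] fun N : ℕ => 1 / (N : ℝ) := by
    refine IsBigO.of_bound 1 ?_
    filter_upwards [eventually_ge_atTop 1] with N hN
    have hN0 : (0 : ℝ) < N := by exact_mod_cast hN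
    simp only [Function.comp_def]
    push_cast
    rw [Real.norm_eq_abs, Real.norm_eq_abs, abs_of_pos (by positivity), abs_of_pos (by positivity), one_mul]
    exact one_div_le_one_div_of_le hN0 (by linarith)
  refine ((h3.const_mul_left 2).sub (h4.trans h5)).congr_left fun N => ?_
  simp only [Function.comp_def]
  unfold dcomb
  push_cast
  ring

end Pool.Agent.X242.DR
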