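import Pool.Agent.X242.DR12

/-!
# Leading coefficients at the integers `1 - k`
-/

set_option autoImplicit false

namespace Pool.Agent.X242.DR

open Filter Topology Asymptotics NumberField

theorem term_shift (b : ℕ → ℂ) (k : ℕ) (hk : 1 ≤ k) (s : ℂ) (n : ℕ) :
    LSeries.term (fun n => (n : ℂ) ^ (k - 1) * b n) s n = LSeries.term b (s - (k - 1 : ℕ)) n := by
  rcases Nat.eq_zero_or_pos n with rfl | hn
  · rw [LSeries.term_zero, LSeries.term_zero]
  · have hn0 : (n : ℂ) ≠ 0 := by exact_mod_cast hn.ne'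
    rw [LSeries.term_of_ne_zero hn.ne', LSeries.term_of_ne_zero hn.ne', Complex.cpow_sub _ _ hn0,
      Complex.cpow_natCast]
    field_simp

/-- The series `∑ b_n n^{k-1} (n^k)^{-w}`, convergent for `Re w > 1`, is `Φ(kw + 1 - k)`. -/
theorem isSeries_shift {b : ℕ → ℂ} {Φ : ℂ → ℂ} (h : IsSeries b Φ) {k : ℕ} (hk : 1 ≤ k)
    (hmer : ∀ x : ℝ, x ≤ 1 → MeromorphicAt Φ (x : ℂ)) :
    IsSeries (powCoef k fun n => (n : ℂ) ^ (k - 1) * b n) fun w => Φ (k * w + (1 - k)) := by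
  have hk0 : (0 : ℝ) < k := by exact_mod_cast (by omega : 0 < k)
  have hcast : (((k - 1 : ℕ) : ℕ) : ℂ) = (k : ℂ) - 1 := by
    rw [Nat.cast_sub hk, Nat.cast_one]
  have hre : ∀ w : ℂ, 1 < w.re → 1 < ((k : ℂ) * w - (k - 1 : ℕ)).re := by
    intro w hw
    have e : ((k : ℂ) * w - (k - 1 : ℕ)).re = k * w.re - (k - 1) := by
      rw [hcast]
      simp
    rw [e]
    nlinarith
  have key : ∀ w : ℂ, 1 < w.re → HasSum (LSeries.term (powCoef k fun n => (n : ℂ) ^ (k - 1) * b n) w)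
      (LSeries b ((k : ℂ) * w - (k - 1 : ℕ))) := by
    intro w hw
    rw [hasSum_pow hk]
    have h1 : LSeriesSummable b ((k : ℂ) * w - (k - 1 : ℕ)) := by
      refine (h.summable _ (hre w hw)).of_re_le_re ?_
      rw [Complex.ofReal_re]
    refine h1.hasSum.congr_fun fun n => ?_
    exact term_shift b k hk _ n
  refine ⟨fun σ hσ => (key σ (by simpa using hσ)).summable, fun w hw => ?_, fun x hx0 hx1 => ?_⟩
  · have h1 := h.eq _ (hre w hw)
    have e : (k : ℂ) * w + (1 - k) = (k : ℂ) * w - (k - 1 : ℕ) := by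
      rw [hcast]
      ring
    show Φ ((k : ℂ) * w + (1 - k)) = _
    rw [e, h1]
    exact (key w hw).tsum_eq.symm
  · have h1 := hmer (k * x + (1 - k)) (by nlinarith)
    have e : (((k : ℝ) * x + (1 - k) : ℝ) : ℂ) = (k : ℂ) * (x : ℂ) + (1 - k) := by push_cast; ring
    rw [e] at h1
    have h2 : AnalyticAt ℂ (fun w : ℂ => (k : ℂ) * w + (1 - k)) (x : ℂ) := by fun_prop
    exact MeromorphicAt.comp_analyticAt (g := fun w : ℂ => (k : ℂ) * w + (1 - k)) h1 h2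

/-- **The law at `1 - k`.** -/
theorem shift_law {b : ℕ → ℂ} {Φ : ℂ → ℂ} (h : IsSeries b Φ) (hb : b 0 = 0) {k : ℕ} (hk : 1 ≤ k)
    (hmer : ∀ x : ℝ, x ≤ 1 → MeromorphicAt Φ (x : ℂ)) (han : AnalyticAt ℂ Φ (1 - k)) {d : ℕ} {θ : ℂ}
    (hθ : Tendsto (fun s : ℂ => Φ (s + (1 - k)) / s ^ d) (𝓝[≠] 0) (𝓝 θ)) {γ : ℝ}
    (hγ : Real.pi / 2 < γ) (hC : Ck d γ ≠ 0) {ρ : ℕ → ℕ →₀ ℚ} (hρ : IsRational d γ ρ) :
    (fun N : ℕ => comb (ρ N) (powCoef k fun n => (n : ℂ) ^ (k - 1) * b n) - (k : ℂ) ^ d * θ) =O[atTop]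
      (fun N : ℕ => 1 / (N : ℝ)) := by
  have hk0 : (k : ℂ) ≠ 0 := by exact_mod_cast (by omega : k ≠ 0)
  have hS := isSeries_shift h hk hmer
  have ha0 : (powCoef k fun n => (n : ℂ) ^ (k - 1) * b n) 0 = 0 := by
    have h1 := powCoef_pow hk (fun n => (n : ℂ) ^ (k - 1) * b n) 0
    rw [zero_pow (by omega)] at h1
    rw [h1, hb, mul_zero]
  have hA : AnalyticAt ℂ (fun w : ℂ => Φ (k * w + (1 - k))) 0 := by
    have h2 : AnalyticAt ℂ (fun w : ℂ => (k : ℂ) * w + (1 - k)) 0 := by fun_prop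
    exact AnalyticAt.comp_of_eq (f := fun w : ℂ => (k : ℂ) * w + (1 - k)) han h2
      (by rw [mul_zero, zero_add])
  have hlim : Tendsto (fun w : ℂ => Φ (k * w + (1 - k)) / w ^ d) (𝓝[≠] 0) (𝓝 ((k : ℂ) ^ d * θ)) := by
    have h2 : Tendsto (fun w : ℂ => (k : ℂ) * w) (𝓝[≠] 0) (𝓝[≠] 0) := by
      refine tendsto_nhdsWithin_iff.2 ⟨?_, ?_⟩
      · have h3 : Tendsto (fun w : ℂ => (k : ℂ) * w) (𝓝 0) (𝓝 ((k : ℂ) * 0)) :=
          (continuous_const.mul continuous_id).tendsto 0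
        rw [mul_zero] at h3
        exact h3.mono_left nhdsWithin_le_nhds
      · filter_upwards [self_mem_nhdsWithin] with w hw
        exact mul_ne_zero hk0 hw
    have h3 := (hθ.comp h2).const_mul ((k : ℂ) ^ d)
    refine h3.congr' ?_
    filter_upwards [self_mem_nhdsWithin] with w hw
    have hw0 : w ≠ 0 := hw
    simp only [Function.comp_def]
    rw [mul_pow]
    field_simp
  exact hS.universal ha0 d _ hγ hC (bigO_of_lim hA hlim) hρ

end Pool.Agent.X242.DR
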